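import Mathlib

set_option autoImplicit false

namespace Pool.Agent.Lib.MP_078bb2_an

open Metric Filter Topology

/-- The closed unit polydisc. -/
abbrev Pd (d : ℕ) : Type := closedBall (0 : Fin d → ℂ) 1

/-- Coordinate functions on the polydisc. -/
def crd {d : ℕ} (i : Fin d) : C(Pd d, ℂ) :=
  ⟨fun z => z.1 i, (continuous_apply i).comp continuous_subtype_val⟩

/-- Polynomial functions on the polydisc. -/
noncomputable def polyS (d : ℕ) : Subalgebra ℂ C(Pd d, ℂ) := Algebra.adjoin ℂ (Set.range (crd (d := d)))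

/-- Uniform limits of polynomial functions on the polydisc. -/
noncomputable def algS (d : ℕ) : Subalgebra ℂ C(Pd d, ℂ) := (polyS d).topologicalClosure

/-- The polydisc algebra. -/
def Alg (d : ℕ) : Type := algS d

variable {d d' : ℕ}

noncomputable instance : NormedCommRing (Alg d) := inferInstanceAs (NormedCommRing (algS d))
noncomputable instance : NormedAlgebra ℂ (Alg d) := inferInstanceAs (NormedAlgebra ℂ (algS d))

theorem isClosed_algS : IsClosed (algS d : Set C(Pd d, ℂ)) :=
  Subalgebra.isClosed_topologicalClosure _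

instance : CompleteSpace (Alg d) := isClosed_algS.completeSpace_coe

theorem crd_mem_poly (i : Fin d) : crd i ∈ polyS d := Algebra.subset_adjoin ⟨i, rfl⟩

theorem poly_le_alg : polyS d ≤ algS d := Subalgebra.le_topologicalClosure _

/-- Coordinates as elements of the algebra. -/
def uu (i : Fin d) : Alg d := ⟨crd i, poly_le_alg (crd_mem_poly i)⟩

/-- The origin. -/
def org (d : ℕ) : Pd d := ⟨0, by simp⟩

instance : Nonempty (Pd d) := ⟨org d⟩

/-- Evaluation at a point. -/
noncomputable def ev (z : Pd d) : Alg d →ₐ[ℂ] ℂ where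
  toFun f := f.1 z
  map_one' := rfl
  map_mul' _ _ := rfl
  map_zero' := rfl
  map_add' _ _ := rfl
  commutes' c := by
    change (algebraMap ℂ C(Pd d, ℂ) c) z = _
    simp [Algebra.algebraMap_eq_smul_one]

theorem ev_apply (z : Pd d) (f : Alg d) : ev z f = f.1 z := rfl

@[simp] theorem ev_uu (z : Pd d) (i : Fin d) : ev z (uu i) = z.1 i := rfl

theorem norm_ev_le (z : Pd d) (f : Alg d) : ‖ev z f‖ ≤ ‖f‖ := f.1.norm_coe_le_norm z

theorem Alg.ext' {f g : Alg d} (h : ∀ z, ev z f = ev z g) : f = g :=
  Subtype.ext (ContinuousMap.ext h)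

theorem norm_le_of_ev {f : Alg d} {C : ℝ} (h : ∀ z, ‖ev z f‖ ≤ C) : ‖f‖ ≤ C :=
  (ContinuousMap.norm_le _ ((norm_nonneg _).trans (h (org d)))).2 h

theorem continuous_ev (z : Pd d) : Continuous (ev z) :=
  (continuous_eval_const z).comp continuous_subtype_val

theorem continuous_ev_pt (f : Alg d) : Continuous fun z => ev z f := f.1.continuous

theorem pd_norm_le (z : Pd d) : ‖z.1‖ ≤ 1 := mem_closedBall_zero_iff.1 z.2

theorem pd_coord_le (z : Pd d) (i : Fin d) : ‖z.1 i‖ ≤ 1 :=
  (norm_le_pi_norm z.1 i).trans (pd_norm_le z)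

theorem norm_uu_le (i : Fin d) : ‖uu i‖ ≤ 1 := norm_le_of_ev fun z => pd_coord_le z i

theorem norm_one_le : ‖(1 : Alg d)‖ ≤ 1 := norm_le_of_ev fun z => by simp

/-- Closed-set induction principle on the algebra. -/
theorem Alg.induction {P : Alg d → Prop} (hc : IsClosed {f | P f})
    (hp : ∀ f : Alg d, f.1 ∈ polyS d → P f) (f : Alg d) : P f := by
  have h1 : IsClosed ((fun f : Alg d => f.1) '' {f : Alg d | P f} : Set C(Pd d, ℂ)) :=
    isClosed_algS.isClosedMap_subtype_val _ hc
  have h2 : (polyS d : Set C(Pd d, ℂ)) ⊆ (fun f : Alg d => f.1) '' {f : Alg d | P f} := fun g hg =>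
    ⟨⟨g, poly_le_alg hg⟩, hp _ hg, rfl⟩
  obtain ⟨g, hg, hgf⟩ := closure_minimal h2 h1 f.2
  rwa [← Subtype.ext hgf]

/-- Induction over polynomial elements. -/
theorem Alg.poly_induction {P : Alg d → Prop} (hu : ∀ i, P (uu i))
    (hc : ∀ c : ℂ, P (algebraMap ℂ (Alg d) c)) (ha : ∀ f g, P f → P g → P (f + g))
    (hm : ∀ f g, P f → P g → P (f * g)) (f : Alg d) (hf : f.1 ∈ polyS d) : P f := by
  obtain ⟨f, hf'⟩ := f
  have : ∀ g (hg : g ∈ polyS d), P ⟨g, poly_le_alg hg⟩ := by
    intro g hg
    induction hg using Algebra.adjoin_induction with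
    | mem x hx =>
      obtain ⟨i, rfl⟩ := hx
      exact hu i
    | algebraMap r => exact hc r
    | add x y hx hy ihx ihy => exact ha _ _ ihx ihy
    | mul x y hx hy ihx ihy => exact hm _ _ ihx ihy
  exact this f hf

theorem comp_mem (Φ : C(Pd d, Pd d')) (h : ∀ i, (crd i).comp Φ ∈ algS d) (f : Alg d') :
    f.1.comp Φ ∈ algS d := by
  induction f using Alg.induction with
  | hc =>
    exact isClosed_algS.preimage
      ((ContinuousMap.continuous_precomp Φ).comp continuous_subtype_val)
  | hp f hf =>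
    refine Alg.poly_induction (P := fun f => f.1.comp Φ ∈ algS d) h (fun c => ?_)
      (fun f g hf hg => ?_) (fun f g hf hg => ?_) f hf
    · have : (algebraMap ℂ (Alg d') c).1.comp Φ = algebraMap ℂ C(Pd d, ℂ) c := by
        ext z
        change (algebraMap ℂ C(Pd d', ℂ) c) (Φ z) = _
        simp [Algebra.algebraMap_eq_smul_one]
      rw [this]
      exact Subalgebra.algebraMap_mem _ c
    · exact add_mem hf hg
    · exact mul_mem hf hg

/-- Pull-back along a map with components in the algebra. -/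
noncomputable def pull (Φ : C(Pd d, Pd d')) (h : ∀ i, (crd i).comp Φ ∈ algS d) :
    Alg d' →ₐ[ℂ] Alg d where
  toFun f := ⟨f.1.comp Φ, comp_mem Φ h f⟩
  map_one' := rfl
  map_mul' _ _ := rfl
  map_zero' := rfl
  map_add' _ _ := rfl
  commutes' c := Alg.ext' fun z => by
    change ev (Φ z) (algebraMap ℂ (Alg d') c) = _
    rw [AlgHom.commutes, AlgHom.commutes]

@[simp] theorem ev_pull (Φ : C(Pd d, Pd d')) (h : ∀ i, (crd i).comp Φ ∈ algS d) (f : Alg d')
    (z : Pd d) : ev z (pull Φ h f) = ev (Φ z) f := rfl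

theorem norm_pull_le (Φ : C(Pd d, Pd d')) (h : ∀ i, (crd i).comp Φ ∈ algS d) (f : Alg d') :
    ‖pull Φ h f‖ ≤ ‖f‖ := norm_le_of_ev fun z => norm_ev_le (Φ z) f

theorem continuous_pull (Φ : C(Pd d, Pd d')) (h : ∀ i, (crd i).comp Φ ∈ algS d) :
    Continuous (pull Φ h) :=
  AddMonoidHomClass.continuous_of_bound (pull Φ h) 1 fun f => by
    simpa using norm_pull_le Φ h f

/-- Scaling of the polydisc. -/
noncomputable def scaleMap (d : ℕ) (t : ℝ) (ht : |t| ≤ 1) : C(Pd d, Pd d) :=
  ⟨fun z => ⟨(t : ℂ) • z.1, by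
      rw [mem_closedBall_zero_iff, norm_smul, Complex.norm_real, Real.norm_eq_abs]
      exact mul_le_one₀ ht (norm_nonneg _) (pd_norm_le z)⟩,
    Continuous.subtype_mk (continuous_subtype_val.const_smul (t : ℂ)) _⟩

/-- Restriction to a smaller polydisc. -/
noncomputable def scl (d : ℕ) (t : ℝ) (ht : |t| ≤ 1) : Alg d →ₐ[ℂ] Alg d :=
  pull (scaleMap d t ht) fun i => by
    have : (crd i).comp (scaleMap d t ht) = (t : ℂ) • crd i := rfl
    rw [this]
    exact Subalgebra.smul_mem _ (uu i).2 _

theorem ev_scl (t : ℝ) (ht : |t| ≤ 1) (f : Alg d) (z : Pd d) :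
    ev z (scl d t ht f) = ev (scaleMap d t ht z) f := rfl

theorem scl_uu (t : ℝ) (ht : |t| ≤ 1) (i : Fin d) : scl d t ht (uu i) = (t : ℂ) • uu i :=
  Alg.ext' fun _ => rfl

theorem continuous_scl (t : ℝ) (ht : |t| ≤ 1) : Continuous (scl d t ht) := continuous_pull _ _

/-- Inclusion of the hyperplane where the first coordinate vanishes. -/
def inclMap (d : ℕ) : C(Pd d, Pd (d + 1)) :=
  ⟨fun z => ⟨Fin.cons 0 z.1, by
      rw [mem_closedBall_zero_iff, pi_norm_le_iff_of_nonneg zero_le_one]
      intro i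
      refine Fin.cases (by simp) (fun j => ?_) i
      simpa using pd_coord_le z j⟩,
    Continuous.subtype_mk (by
      refine continuous_pi fun i => ?_
      refine Fin.cases continuous_const (fun j => ?_) i
      exact (continuous_apply j).comp continuous_subtype_val) _⟩

/-- Projection forgetting the first coordinate. -/
def projMap (d : ℕ) : C(Pd (d + 1), Pd d) :=
  ⟨fun z => ⟨fun j => z.1 j.succ, by
      rw [mem_closedBall_zero_iff, pi_norm_le_iff_of_nonneg zero_le_one]
      exact fun j => pd_coord_le z j.succ⟩,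
    Continuous.subtype_mk (continuous_pi fun j =>
      (continuous_apply j.succ).comp continuous_subtype_val) _⟩

/-- Restriction to the hyperplane. -/
noncomputable def rst (d : ℕ) : Alg (d + 1) →ₐ[ℂ] Alg d :=
  pull (inclMap d) fun i => by
    refine Fin.cases ?_ (fun j => ?_) i
    · have : (crd (0 : Fin (d + 1))).comp (inclMap d) = 0 := rfl
      rw [this]; exact zero_mem _
    · have : (crd j.succ).comp (inclMap d) = crd j := rfl
      rw [this]; exact (uu j).2

/-- Extension as a function independent of the first coordinate. -/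
noncomputable def sec (d : ℕ) : Alg d →ₐ[ℂ] Alg (d + 1) :=
  pull (projMap d) fun j => by
    have : (crd j).comp (projMap d) = crd j.succ := rfl
    rw [this]; exact (uu j.succ).2

theorem rst_uu_zero : rst d (uu 0) = 0 := Alg.ext' fun _ => rfl
theorem rst_uu_succ (j : Fin d) : rst d (uu j.succ) = uu j := Alg.ext' fun _ => rfl
theorem sec_uu (j : Fin d) : sec d (uu j) = uu j.succ := Alg.ext' fun _ => rfl
theorem rst_sec (f : Alg d) : rst d (sec d f) = f := Alg.ext' fun _ => rfl
theorem continuous_rst : Continuous (rst d) := continuous_pull _ _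
theorem continuous_sec : Continuous (sec d) := continuous_pull _ _

theorem rst_scl (t : ℝ) (ht : |t| ≤ 1) (f : Alg (d + 1)) :
    rst d (scl (d + 1) t ht f) = scl d t ht (rst d f) := by
  refine Alg.ext' fun z => ?_
  change ev (scaleMap (d + 1) t ht (inclMap d z)) f = ev (inclMap d (scaleMap d t ht z)) f
  congr 2
  ext i
  refine Fin.cases ?_ (fun j => ?_) i
  · simp [scaleMap, inclMap]
  · simp [scaleMap, inclMap]

theorem scl_scl (t s : ℝ) (ht : |t| ≤ 1) (hs : |s| ≤ 1) (hts : |t * s| ≤ 1) (f : Alg d) :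
    scl d s hs (scl d t ht f) = scl d (t * s) hts f := by
  refine Alg.ext' fun z => ?_
  change ev (scaleMap d t ht (scaleMap d s hs z)) f = ev (scaleMap d (t * s) hts z) f
  congr 2
  ext i
  simp [scaleMap, mul_assoc]

theorem exists_entire (f : Alg d) (hf : f.1 ∈ polyS d) :
    ∃ F : (Fin d → ℂ) → ℂ, Differentiable ℂ F ∧ ∀ z, ev z f = F z.1 := by
  refine Alg.poly_induction
    (P := fun f => ∃ F : (Fin d → ℂ) → ℂ, Differentiable ℂ F ∧ ∀ z, ev z f = F z.1)
    (fun i => ⟨fun z => z i, by fun_prop, fun _ => rfl⟩)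
    (fun c => ⟨fun _ => c, by fun_prop, fun z => by simp⟩) ?_ ?_ f hf
  · rintro f g ⟨F, hF, h1⟩ ⟨G, hG, h2⟩
    exact ⟨fun z => F z + G z, hF.add hG, fun z => by rw [map_add, h1, h2]⟩
  · rintro f g ⟨F, hF, h1⟩ ⟨G, hG, h2⟩
    exact ⟨fun z => F z * G z, hF.mul hG, fun z => by rw [map_mul, h1, h2]⟩

theorem norm_le_norm_uu_mul (i : Fin d) (q : Alg d) : ‖q‖ ≤ ‖uu i * q‖ := by
  induction q using Alg.induction with
  | hc => exact isClosed_le continuous_norm (continuous_const.mul continuous_id).norm
  | hp q hq =>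
    obtain ⟨F, hF, h1⟩ := exists_entire q hq
    refine norm_le_of_ev fun z => ?_
    have hd : Differentiable ℂ fun t : ℂ => F (Function.update z.1 i t) := by
      refine hF.comp ?_
      rw [differentiable_pi]
      intro j
      by_cases h : j = i
      · subst h; simp
      · simp [Function.update_of_ne h]
    have hb := Complex.norm_le_of_forall_mem_frontier_norm_le (U := ball (0 : ℂ) 1)
      isBounded_ball hd.diffContOnCl (C := ‖uu i * q‖) (z := z.1 i) (fun t ht => by
        rw [frontier_ball _ one_ne_zero, mem_sphere_zero_iff_norm] at ht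
        have hm : Function.update z.1 i t ∈ closedBall (0 : Fin d → ℂ) 1 := by
          rw [mem_closedBall_zero_iff, pi_norm_le_iff_of_nonneg zero_le_one]
          intro j
          by_cases h : j = i
          · subst h; simp [ht]
          · simpa [Function.update_of_ne h] using pd_coord_le z j
        have h2 := norm_ev_le ⟨_, hm⟩ (uu i * q)
        rw [map_mul, norm_mul, ev_uu, h1] at h2
        simp only [Function.update_self, ht, one_mul] at h2
        exact h2)
      (by rw [closure_ball _ one_ne_zero, mem_closedBall_zero_iff]; exact pd_coord_le z i)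
    rw [h1]
    simpa only [Function.update_eq_self] using hb

/-- Division by the first coordinate. -/
theorem gleason (f : Alg (d + 1)) : ∃ q, f = sec d (rst d f) + uu 0 * q := by
  induction f using Alg.induction with
  | hc =>
    have h1 : AntilipschitzWith 1 fun q : Alg (d + 1) => uu 0 * q := by
      refine AntilipschitzWith.of_le_mul_dist fun a b => ?_
      rw [dist_eq_norm, dist_eq_norm, ← mul_sub]
      rw [NNReal.coe_one, one_mul]
      exact norm_le_norm_uu_mul 0 (a - b)
    have h2 : IsClosed (Set.range fun q : Alg (d + 1) => uu 0 * q) :=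
      h1.isClosed_range (ContinuousLinearMap.mul ℂ (Alg (d + 1)) (uu 0)).uniformContinuous
    have h3 : Continuous fun f : Alg (d + 1) => f - sec d (rst d f) :=
      continuous_id.sub (continuous_sec.comp continuous_rst)
    have h4 := h2.preimage h3
    have h5 : {f : Alg (d + 1) | ∃ q, f = sec d (rst d f) + uu 0 * q} =
        (fun f : Alg (d + 1) => f - sec d (rst d f)) ⁻¹'
          (Set.range fun q : Alg (d + 1) => uu 0 * q) := by
      ext f
      simp only [Set.mem_ofPred_eq, Set.mem_preimage, Set.mem_range]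
      constructor
      · rintro ⟨q, hq⟩; exact ⟨q, by linear_combination -hq⟩
      · rintro ⟨q, hq⟩; exact ⟨q, by linear_combination -hq⟩
    rw [h5]; exact h4
  | hp f hf =>
    refine Alg.poly_induction (P := fun f => ∃ q, f = sec d (rst d f) + uu 0 * q)
      (fun i => ?_) (fun c => ⟨0, by simp⟩) ?_ ?_ f hf
    · refine Fin.cases ⟨1, by simp [rst_uu_zero]⟩ (fun j => ⟨0, ?_⟩) i
      simp [rst_uu_succ, sec_uu]
    · rintro f g ⟨q, hq⟩ ⟨r, hr⟩
      exact ⟨q + r, by rw [map_add, map_add]; linear_combination hq + hr⟩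
    · rintro f g ⟨q, hq⟩ ⟨r, hr⟩
      refine ⟨q * g + sec d (rst d f) * r, ?_⟩
      rw [map_mul, map_mul]
      linear_combination g * hq + sec d (rst d f) * hr

/-- The maximal ideal at the origin. -/
noncomputable def mm (d : ℕ) : Ideal (Alg d) := Ideal.span (Set.range (uu (d := d)))

theorem uu_mem_mm (i : Fin d) : uu i ∈ mm d := Ideal.subset_span ⟨i, rfl⟩

theorem map_sec_mm : (mm d).map (sec d) ≤ mm (d + 1) := by
  rw [mm, Ideal.map_span, Ideal.span_le]
  rintro _ ⟨_, ⟨j, rfl⟩, rfl⟩
  rw [sec_uu]; exact uu_mem_mm _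

theorem sub_const_mem_mm : ∀ {d : ℕ} (f : Alg d),
    f - algebraMap ℂ (Alg d) (ev (org d) f) ∈ mm d
  | 0, f => by
    have : f - algebraMap ℂ (Alg 0) (ev (org 0) f) = 0 := Alg.ext' fun z => by
      have : z = org 0 := Subsingleton.elim _ _
      simp [this]
    rw [this]; exact zero_mem _
  | d + 1, f => by
    obtain ⟨q, hq⟩ := gleason f
    have h1 := map_sec_mm (Ideal.mem_map_of_mem (sec d) (sub_const_mem_mm (rst d f)))
    have h2 : ev (org d) (rst d f) = ev (org (d + 1)) f := by
      change ev (inclMap d (org d)) f = _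
      congr 2
      ext i
      refine Fin.cases rfl (fun j => rfl) i
    rw [map_sub, AlgHom.commutes, h2] at h1
    have h3 : f - algebraMap ℂ _ (ev (org (d + 1)) f) =
        (sec d (rst d f) - algebraMap ℂ _ (ev (org (d + 1)) f)) + uu 0 * q := by
      linear_combination hq
    rw [h3]
    exact add_mem h1 (Ideal.mul_mem_right _ _ (uu_mem_mm 0))

theorem ev_org_of_mem_mm {f : Alg d} (hf : f ∈ mm d) : ev (org d) f = 0 := by
  have : mm d ≤ RingHom.ker (ev (org d)) := by
    rw [mm, Ideal.span_le]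
    rintro _ ⟨i, rfl⟩
    exact RingHom.mem_ker.2 rfl
  exact this hf

theorem mm_fg : (mm d).FG := Submodule.fg_span (Set.finite_range _)

/-- Every proper ideal has a common zero. -/
theorem exists_common_zero {I : Ideal (Alg d)} (hI : I ≠ ⊤) : ∃ z, ∀ f ∈ I, ev z f = 0 := by
  obtain ⟨M, hM, hIM⟩ := I.exists_le_maximal hI
  set χ := M.toCharacterSpace with hχ
  have hb : ∀ f : Alg d, ‖χ f‖ ≤ ‖f‖ := fun f => by
    have h1 := AlgHom.norm_apply_le_self_mul_norm_one χ f
    exact h1.trans (mul_le_of_le_one_right (norm_nonneg _) norm_one_le)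
  have hz : (fun i => χ (uu i)) ∈ closedBall (0 : Fin d → ℂ) 1 := by
    rw [mem_closedBall_zero_iff, pi_norm_le_iff_of_nonneg zero_le_one]
    exact fun i => (hb _).trans (norm_uu_le i)
  refine ⟨⟨_, hz⟩, fun f hf => ?_⟩
  have key : ∀ g : Alg d, ev ⟨_, hz⟩ g = χ g := by
    intro g
    induction g using Alg.induction with
    | hc => exact isClosed_eq (continuous_ev _) (map_continuous χ)
    | hp g hg =>
      refine Alg.poly_induction (P := fun g => ev ⟨_, hz⟩ g = χ g) (fun i => rfl)
        (fun c => ?_) (fun f g h1 h2 => ?_) (fun f g h1 h2 => ?_) g hg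
      · rw [AlgHom.commutes, AlgHomClass.commutes]
      · rw [map_add, map_add, h1, h2]
      · rw [map_mul, map_mul, h1, h2]
  rw [key]
  exact M.toCharacterSpace_apply_eq_zero_of_mem (hIM hf)

end Pool.Agent.Lib.MP_078bb2_an
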