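import Mathlib
import Pool.Agent.Lib.MP_078bb2_an.Alg

set_option autoImplicit false

namespace Pool.Agent.Lib.MP_078bb2_an

open Metric Filter Topology ComplexConjugate

variable {d : ℕ}

/-- Words in the coordinate indices. -/
abbrev Wd (d : ℕ) : Type := Σ n : ℕ, (Fin n → Fin d)

/-- The monomial of a word. -/
noncomputable def mono (w : Wd d) : Alg d := ∏ j, uu (w.2 j)

theorem ev_mono (z : Pd d) (w : Wd d) : ev z (mono w) = ∏ j, z.1 (w.2 j) := by
  simp [mono]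

theorem norm_mono_le (w : Wd d) : ‖mono w‖ ≤ 1 := norm_le_of_ev fun z => by
  rw [ev_mono, norm_prod]
  exact Finset.prod_le_one (fun _ _ => norm_nonneg _) fun j _ => pd_coord_le z _

theorem summable_Wd {t : ℝ} (h0 : 0 ≤ t) (h1 : d * t < 1) :
    Summable fun w : Wd d => t ^ w.1 := by
  rw [summable_sigma_of_nonneg fun w => pow_nonneg h0 _]
  refine ⟨fun n => Summable.of_finite, ?_⟩
  have : (fun n : ℕ => ∑' _ : Fin n → Fin d, t ^ n) = fun n => (d * t) ^ n := by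
    ext n
    rw [tsum_fintype]
    simp [mul_pow]
  simp only [this]
  exact summable_geometric_of_lt_one (by positivity) h1

/-- Binomial coefficients. -/
noncomputable def bc (p : ℝ) (n : ℕ) : ℂ := (binomialSeries ℂ (p : ℂ)).coeff n

theorem hasSum_bc (p : ℝ) {x : ℂ} (hx : ‖x‖ < 1) :
    HasSum (fun n => bc p n * x ^ n) ((1 + x) ^ (p : ℂ)) := by
  have h := (Complex.one_add_cpow_hasFPowerSeriesOnBall_zero (a := (p : ℂ))).hasSum
    (y := x) (by
      rw [Metric.mem_eball, edist_zero_right, ← ofReal_norm]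
      exact ENNReal.ofReal_lt_one.2 hx)
  simpa [bc, mul_comm] using h

theorem exists_bc_bound (p : ℝ) : ∃ C > 0, ∀ n, ‖bc p n‖ ≤ C * 4 ^ n := by
  obtain ⟨C, hC, h⟩ := (binomialSeries ℂ (p : ℂ)).norm_mul_pow_le_of_lt_radius (r := 1 / 4)
    (lt_of_lt_of_le (by norm_num) binomialSeries_radius_ge_one)
  refine ⟨C, hC, fun n => ?_⟩
  have h1 := h n
  have h2 : ‖bc p n‖ ≤ ‖binomialSeries ℂ (p : ℂ) n‖ := by
    simp [bc]
  have h3 : ‖bc p n‖ * (1 / 4 : ℝ) ^ n ≤ C :=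
    (mul_le_mul_of_nonneg_right h2 (by positivity)).trans (by simpa using h1)
  rwa [one_div, inv_pow, mul_inv_le_iff₀ (by positivity)] at h3

/-- Standard hermitian product. -/
noncomputable def herm {n : ℕ} (z w : Fin n → ℂ) : ℂ := ∑ i, z i * conj (w i)

/-- The kernel in an affine chart. -/
noncomputable def kern (p : ℝ) {n : ℕ} (z w : Fin n → ℂ) : ℂ := (1 + herm z w) ^ (p : ℂ)

/-- Positive semidefinite kernels on a set. -/
def Psd {X : Type} (κ : X → X → ℂ) (T : Set X) : Prop :=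
  ∀ (ι : Type) [Fintype ι] (x : ι → X) (a : ι → ℂ), (∀ i, x i ∈ T) →
    0 ≤ (∑ i, ∑ j, a i * conj (a j) * κ (x i) (x j)).re

/-- The quadratic form of the kernel on functionals. -/
noncomputable def beta (p ρ : ℝ) (l : Alg d →L[ℂ] ℂ) : ℝ :=
  ∑' w : Wd d, (bc p w.1).re * ρ ^ (2 * w.1) * ‖l (mono w)‖ ^ 2

/-- Admissible radii. -/
def Adm (d : ℕ) (ρ : ℝ) : Prop := 0 < ρ ∧ 2 * ((d : ℝ) + 1) * ρ ≤ 1

/-- Evaluation as a continuous functional. -/
noncomputable def evL (z : Pd d) : Alg d →L[ℂ] ℂ :=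
  ⟨(ev z).toLinearMap, continuous_ev z⟩

@[simp] theorem evL_apply (z : Pd d) (f : Alg d) : evL z f = ev z f := rfl

theorem norm_herm_le {z w : Fin d → ℂ} {r s : ℝ} (hz : ‖z‖ ≤ r) (hw : ‖w‖ ≤ s) :
    ‖herm z w‖ ≤ d * (r * s) := by
  have hr := (norm_nonneg z).trans hz
  refine (norm_sum_le _ _).trans ?_
  calc ∑ i, ‖z i * conj (w i)‖ ≤ ∑ _i : Fin d, r * s := by
        refine Finset.sum_le_sum fun i _ => ?_
        rw [norm_mul, Complex.norm_conj]
        exact mul_le_mul ((norm_le_pi_norm z i).trans hz) ((norm_le_pi_norm w i).trans hw)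
          (norm_nonneg _) hr
    _ = d * (r * s) := by simp

theorem Adm.lt_one {ρ : ℝ} (h : Adm d ρ) : d * (4 * ρ ^ 2) < 1 := by
  obtain ⟨h0, h1⟩ := h
  have hd : (0 : ℝ) ≤ d := Nat.cast_nonneg d
  have h2 : (2 * ((d : ℝ) + 1) * ρ) ^ 2 ≤ 1 := pow_le_one₀ (by positivity) h1
  nlinarith [sq_nonneg ρ, mul_pos h0 h0, mul_nonneg hd (mul_pos h0 h0).le,
    mul_nonneg (mul_nonneg hd hd) (mul_pos h0 h0).le]

theorem hasSum_kern (p : ℝ) {ρ : ℝ} (h : Adm d ρ) (x y : Pd d) :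
    HasSum (fun w : Wd d => bc p w.1 * (ρ : ℂ) ^ (2 * w.1) *
      (ev x (mono w) * conj (ev y (mono w)))) (kern p ((ρ : ℂ) • x.1) ((ρ : ℂ) • y.1)) := by
  obtain ⟨C, hC, hb⟩ := exists_bc_bound p
  have hρ := h.1
  have hs : Summable fun w : Wd d => bc p w.1 * (ρ : ℂ) ^ (2 * w.1) *
      (ev x (mono w) * conj (ev y (mono w))) := by
    refine Summable.of_norm_bounded
      ((summable_Wd (t := 4 * ρ ^ 2) (by positivity) h.lt_one).mul_left C) fun w => ?_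
    rw [norm_mul, norm_mul, norm_mul, Complex.norm_conj, norm_pow, Complex.norm_real,
      Real.norm_of_nonneg hρ.le, mul_pow, ← pow_mul, ← mul_assoc C]
    have h1 := (norm_ev_le x (mono w)).trans (norm_mono_le w)
    have h2 := (norm_ev_le y (mono w)).trans (norm_mono_le w)
    have h3 : ‖ev x (mono w)‖ * ‖ev y (mono w)‖ ≤ 1 := mul_le_one₀ h1 (norm_nonneg _) h2
    calc _ ≤ ‖bc p w.1‖ * ρ ^ (2 * w.1) * 1 := by gcongr
      _ ≤ _ := by rw [mul_one]; gcongr; exact hb _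
  have hx : ‖herm ((ρ : ℂ) • x.1) ((ρ : ℂ) • y.1)‖ < 1 := by
    have h1 : ∀ z : Pd d, ‖(ρ : ℂ) • z.1‖ ≤ ρ := fun z => by
      rw [norm_smul, Complex.norm_real, Real.norm_of_nonneg hρ.le]
      exact mul_le_of_le_one_right hρ.le (pd_norm_le z)
    have h2 := norm_herm_le (h1 x) (h1 y)
    have h3 := h.lt_one
    have hd : (0 : ℝ) ≤ d := Nat.cast_nonneg d
    nlinarith [mul_nonneg hd (mul_pos hρ hρ).le]
  have h1 := hs.hasSum.sigma fun n => hasSum_fintype _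
  have h2 := hasSum_bc p hx
  have h3 : (fun n : ℕ => ∑ c : Fin n → Fin d, bc p n * (ρ : ℂ) ^ (2 * n) *
      (ev x (mono ⟨n, c⟩) * conj (ev y (mono ⟨n, c⟩)))) =
      fun n => bc p n * herm ((ρ : ℂ) • x.1) ((ρ : ℂ) • y.1) ^ n := by
    ext n
    rw [herm, Fintype.sum_pow, Finset.mul_sum]
    refine Finset.sum_congr rfl fun c _ => ?_
    simp only [ev_mono, Pi.smul_apply, smul_eq_mul, map_mul, Complex.conj_ofReal, map_prod,
      Finset.prod_mul_distrib, Finset.prod_const, Finset.card_univ, Fintype.card_fin]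
    ring
  simp only [h3] at h1
  rw [kern, ← h1.unique h2]
  exact hs.hasSum

theorem beta_eval (p : ℝ) {ρ : ℝ} (h : Adm d ρ) {ι : Type} [Fintype ι] (x : ι → Pd d)
    (a : ι → ℂ) : beta p ρ (∑ i, a i • evL (x i)) =
      (∑ i, ∑ j, a i * conj (a j) * kern p ((ρ : ℂ) • (x i).1) ((ρ : ℂ) • (x j).1)).re := by
  have h1 : HasSum (fun w : Wd d => ∑ i, ∑ j, a i * conj (a j) *
      (bc p w.1 * (ρ : ℂ) ^ (2 * w.1) * (ev (x i) (mono w) * conj (ev (x j) (mono w)))))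
      (∑ i, ∑ j, a i * conj (a j) * kern p ((ρ : ℂ) • (x i).1) ((ρ : ℂ) • (x j).1)) :=
    hasSum_sum fun i _ => hasSum_sum fun j _ => (hasSum_kern p h (x i) (x j)).mul_left _
  have h2 := Complex.hasSum_re h1
  rw [← h2.tsum_eq, beta]
  refine tsum_congr fun w => ?_
  have h3 : ∑ i, ∑ j, a i * conj (a j) *
      (bc p w.1 * (ρ : ℂ) ^ (2 * w.1) * (ev (x i) (mono w) * conj (ev (x j) (mono w)))) =
      bc p w.1 * ((ρ ^ (2 * w.1) * ‖(∑ i, a i • evL (x i)) (mono w)‖ ^ 2 : ℝ) : ℂ) := by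
    have hS : (∑ i, a i • evL (x i)) (mono w) = ∑ i, a i * ev (x i) (mono w) := by simp
    rw [hS]
    push_cast
    rw [← Complex.mul_conj', map_sum, Finset.sum_mul_sum, Finset.mul_sum, Finset.mul_sum]
    refine Finset.sum_congr rfl fun i _ => ?_
    rw [Finset.mul_sum, Finset.mul_sum]
    refine Finset.sum_congr rfl fun j _ => ?_
    rw [map_mul]
    ring
  rw [h3, Complex.re_mul_ofReal, mul_assoc]

/-- The auxiliary Hilbert space. -/
abbrev Hs (d : ℕ) : Type := lp (fun _ : Wd d => ℂ) 2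

theorem hasSum_sq (ξ : Hs d) : HasSum (fun w => ‖ξ w‖ ^ 2) (‖ξ‖ ^ 2) := by
  have := lp.hasSum_norm (p := 2) (by norm_num) ξ
  simpa using this

theorem theta_lt : (d : ℝ) * (1 / ((d : ℝ) + 1)) < 1 := by
  rw [mul_one_div, div_lt_one (by positivity)]
  linarith

theorem theta_le : (1 / ((d : ℝ) + 1)) ≤ 1 := by
  rw [div_le_one (by positivity)]
  linarith [Nat.cast_nonneg (α := ℝ) d]

/-- Weighted moment sequence of a functional. -/
noncomputable def mom : (Alg d →L[ℂ] ℂ) →ₗ[ℂ] Hs d where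
  toFun l := ⟨fun w => ((1 / ((d : ℝ) + 1) : ℝ) : ℂ) ^ w.1 * l (mono w), memℓp_gen (by
    refine Summable.of_nonneg_of_le (fun w => by positivity) (fun w => ?_)
      ((summable_Wd (by positivity) theta_lt).mul_left (‖l‖ ^ 2))
    have h1 : ‖l (mono w)‖ ≤ ‖l‖ :=
      (l.le_opNorm _).trans (mul_le_of_le_one_right (norm_nonneg _) (norm_mono_le w))
    have h2 : (1 / ((d : ℝ) + 1)) ^ w.1 ≤ 1 := pow_le_one₀ (by positivity) theta_le
    have h3 : 0 ≤ (1 / ((d : ℝ) + 1)) ^ w.1 := by positivity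
    rw [norm_mul, norm_pow, Complex.norm_real, Real.norm_of_nonneg (by positivity)]
    simp only [ENNReal.toReal_ofNat, Real.rpow_ofNat]
    rw [mul_pow, mul_comm]
    exact mul_le_mul (pow_le_pow_left₀ (norm_nonneg _) h1 2) (by nlinarith) (by positivity)
      (by positivity))⟩
  map_add' l l' := by
    ext w
    simp [mul_add]
  map_smul' c l := by
    ext w
    simp [mul_left_comm]

theorem mom_apply (l : Alg d →L[ℂ] ℂ) (w : Wd d) :
    mom l w = ((1 / ((d : ℝ) + 1) : ℝ) : ℂ) ^ w.1 * l (mono w) := rfl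

theorem exists_rep (Ψ : Hs d →L[ℂ] ℂ) : ∃ G : Alg d, ∀ l : Alg d →L[ℂ] ℂ, Ψ (mom l) = l G := by
  classical
  have hs : Summable fun w : Wd d =>
      (Ψ (lp.single 2 w 1) * ((1 / ((d : ℝ) + 1) : ℝ) : ℂ) ^ w.1) • mono w := by
    refine Summable.of_norm_bounded
      ((summable_Wd (by positivity) theta_lt).mul_left ‖Ψ‖) fun w => ?_
    rw [norm_smul, norm_mul, norm_pow, Complex.norm_real, Real.norm_of_nonneg (by positivity)]
    have h1 : ‖Ψ (lp.single 2 w 1)‖ ≤ ‖Ψ‖ := by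
      have := Ψ.le_opNorm (lp.single 2 w 1)
      rwa [lp.norm_single (by norm_num), norm_one, mul_one] at this
    calc _ ≤ ‖Ψ‖ * (1 / ((d : ℝ) + 1)) ^ w.1 * 1 := by gcongr; exact norm_mono_le w
      _ = _ := mul_one _
  refine ⟨_, fun l => (?_ : HasSum _ _).unique (l.hasSum hs.hasSum)⟩
  have h1 := Ψ.hasSum (lp.hasSum_single (p := 2) (by norm_num) (mom l))
  have h3 : (fun w => Ψ (lp.single 2 w (mom l w))) = fun w : Wd d =>
      l ((Ψ (lp.single 2 w 1) * ((1 / ((d : ℝ) + 1) : ℝ) : ℂ) ^ w.1) • mono w) := by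
    ext w
    have h2 : (lp.single 2 w (mom l w) : Hs d) = (mom l w) • lp.single 2 w 1 := by
      rw [← lp.single_smul, smul_eq_mul, mul_one]
    rw [h2, map_smul, map_smul, mom_apply, smul_eq_mul, smul_eq_mul]
    ring
  rw [← h3]
  exact h1

theorem mom_mem_closure (Λ : Submodule ℂ (Alg d →L[ℂ] ℂ)) (l : Alg d →L[ℂ] ℂ)
    (h : ∀ f, (∀ l' ∈ Λ, l' f = 0) → l f = 0) :
    mom l ∈ closure ((Λ.map mom : Submodule ℂ (Hs d)) : Set (Hs d)) := by
  rw [← Submodule.topologicalClosure_coe, ← Submodule.orthogonal_orthogonal_eq_closure,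
    SetLike.mem_coe, Submodule.mem_orthogonal]
  intro g hg
  obtain ⟨G, hG⟩ := exists_rep (innerSL ℂ g)
  have := hG l
  rw [innerSL_apply_apply] at this
  rw [this]
  refine h G fun l' hl' => ?_
  rw [← hG, innerSL_apply_apply]
  exact (Submodule.mem_orthogonal' _ _).1 hg _ (Submodule.mem_map_of_mem hl')

theorem summable_wt {γ : Wd d → ℝ} {C : ℝ} (hγ : ∀ w, |γ w| ≤ C) (ξ : Hs d) :
    Summable fun w => γ w * ‖ξ w‖ ^ 2 := by
  refine Summable.of_norm_bounded ((hasSum_sq ξ).summable.mul_left C) fun w => ?_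
  rw [norm_mul, Real.norm_eq_abs, Real.norm_of_nonneg (by positivity)]
  exact mul_le_mul_of_nonneg_right (hγ w) (by positivity)

theorem tsum_wt_le {γ : Wd d → ℝ} {C : ℝ} (hγ : ∀ w, |γ w| ≤ C) (ξ : Hs d) :
    ∑' w, γ w * ‖ξ w‖ ^ 2 ≤ C * ‖ξ‖ ^ 2 :=
  hasSum_le (fun w => mul_le_mul_of_nonneg_right ((le_abs_self _).trans (hγ w)) (by positivity))
    (summable_wt hγ ξ).hasSum ((hasSum_sq ξ).mul_left C)

theorem isClosed_wt {γ : Wd d → ℝ} {C : ℝ} (hγ : ∀ w, |γ w| ≤ C) (Ψ : Hs d →L[ℂ] ℂ) :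
    IsClosed {ξ : Hs d | ‖Ψ ξ‖ ^ 2 ≤ ∑' w, γ w * ‖ξ w‖ ^ 2} := by
  have key : {ξ : Hs d | ‖Ψ ξ‖ ^ 2 ≤ ∑' w, γ w * ‖ξ w‖ ^ 2} =
      ⋂ s : Finset (Wd d), {ξ : Hs d | ∑ w ∈ s, (C - γ w) * ‖ξ w‖ ^ 2 ≤
        C * ‖ξ‖ ^ 2 - ‖Ψ ξ‖ ^ 2} := by
    ext ξ
    have h1 : HasSum (fun w => (C - γ w) * ‖ξ w‖ ^ 2)
        (C * ‖ξ‖ ^ 2 - ∑' w, γ w * ‖ξ w‖ ^ 2) := by
      simpa only [sub_mul] using ((hasSum_sq ξ).mul_left C).sub (summable_wt hγ ξ).hasSum
    simp only [Set.mem_ofPred_eq, Set.mem_iInter]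
    constructor
    · intro h s
      have := sum_le_hasSum s (fun w _ => mul_nonneg
        (sub_nonneg.2 ((le_abs_self _).trans (hγ w))) (by positivity)) h1
      linarith
    · intro h
      have := hasSum_le_of_sum_le h1 h
      linarith
  rw [key]
  refine isClosed_iInter fun s => isClosed_le ?_ ?_
  · refine continuous_finsetSum _ fun w _ => continuous_const.mul ?_
    exact ((lp.lipschitzWith_one_eval 2 w).continuous.norm).pow 2
  · fun_prop

theorem beta_eq (p ρ : ℝ) (l : Alg d →L[ℂ] ℂ) : beta p ρ l =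
    ∑' w : Wd d, ((bc p w.1).re * (ρ * ((d : ℝ) + 1)) ^ (2 * w.1)) * ‖mom l w‖ ^ 2 := by
  refine tsum_congr fun w => ?_
  rw [mom_apply, norm_mul, norm_pow, Complex.norm_real, Real.norm_of_nonneg (by positivity),
    mul_pow, mul_pow, ← pow_mul, one_div, inv_pow, mul_comm w.1 2]
  field_simp

theorem wt_bound (p : ℝ) {ρ : ℝ} (h : Adm d ρ) : ∃ C > 0, ∀ w : Wd d,
    |(bc p w.1).re * (ρ * ((d : ℝ) + 1)) ^ (2 * w.1)| ≤ C := by
  obtain ⟨C, hC, hb⟩ := exists_bc_bound p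
  refine ⟨C, hC, fun w => ?_⟩
  have hρ := h.1
  have h1 : ρ * ((d : ℝ) + 1) ≤ 1 / 2 := by linarith [h.2]
  have h2 : (ρ * ((d : ℝ) + 1)) ^ (2 * w.1) ≤ (1 / 2) ^ (2 * w.1) :=
    pow_le_pow_left₀ (by positivity) h1 _
  rw [abs_mul, abs_of_nonneg (by positivity : 0 ≤ (ρ * ((d : ℝ) + 1)) ^ (2 * w.1))]
  calc _ ≤ (C * 4 ^ w.1) * (1 / 2) ^ (2 * w.1) :=
        mul_le_mul ((Complex.abs_re_le_norm _).trans (hb _)) h2 (by positivity) (by positivity)
    _ = C := by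
        rw [pow_mul, mul_assoc, ← mul_pow]
        norm_num

/-- Main Hilbert space step. -/
theorem hilbert_step (p : ℝ) {ρ : ℝ} (h : Adm d ρ) (T : Set (Pd d)) (γ : Pd d → ℂ)
    (hT : Psd (fun x y : Pd d => kern p ((ρ : ℂ) • x.1) ((ρ : ℂ) • y.1) - γ x * conj (γ y)) T) :
    ∃ G : Alg d, (∀ t ∈ T, ev t G = γ t) ∧ ∀ l : Alg d →L[ℂ] ℂ,
      (∀ f, (∀ t ∈ T, ev t f = 0) → l f = 0) → ‖l G‖ ^ 2 ≤ beta p ρ l := by
  classical
  obtain ⟨C, hC, hw⟩ := wt_bound p h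
  let L : (T →₀ ℂ) →ₗ[ℂ] (Alg d →L[ℂ] ℂ) := Finsupp.linearCombination ℂ fun t : T => evL t.1
  let φ : (T →₀ ℂ) →ₗ[ℂ] ℂ := Finsupp.linearCombination ℂ fun t : T => γ t.1
  have h1 : ∀ a, ‖φ a‖ ^ 2 ≤ beta p ρ (L a) := by
    intro a
    have e1 : L a = ∑ i : a.support, a i • evL i.1.1 := by
      simp only [L, Finsupp.linearCombination_apply, Finsupp.sum]
      exact (Finset.sum_coe_sort a.support fun i => a i • evL i.1).symm
    have e2 : φ a = ∑ i : a.support, a i * γ i.1.1 := by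
      simp only [φ, Finsupp.linearCombination_apply, Finsupp.sum]
      exact (Finset.sum_coe_sort a.support fun i => a i * γ i.1).symm
    have e3 := hT a.support (fun i => i.1.1) (fun i => a i) fun i => i.1.2
    rw [e1, beta_eval p h, e2]
    have e4 : ((‖∑ i : a.support, a i * γ i.1.1‖ ^ 2 : ℝ) : ℂ) =
        ∑ i : a.support, ∑ j : a.support, a i * conj (a j) * (γ i.1.1 * conj (γ j.1.1)) := by
      push_cast
      rw [← Complex.mul_conj']
      simp only [map_sum, map_mul, Finset.sum_mul_sum]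
      refine Finset.sum_congr rfl fun i _ => Finset.sum_congr rfl fun j _ => ?_
      ring
    simp only [mul_sub, Finset.sum_sub_distrib, Complex.sub_re, ← e4, Complex.ofReal_re] at e3
    linarith
  have h2 : ∀ a, ‖φ a‖ ≤ √C * ‖(mom ∘ₗ L) a‖ := by
    intro a
    have e1 := (h1 a).trans ((beta_eq p ρ (L a)).trans_le (tsum_wt_le hw (mom (L a))))
    refine abs_le_of_sq_le_sq' ?_ (by positivity) |>.2
    rw [mul_pow, Real.sq_sqrt hC.le]
    exact e1
  have hker : LinearMap.ker (mom ∘ₗ L) ≤ LinearMap.ker φ := by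
    intro a ha
    have := h2 a
    rw [LinearMap.mem_ker.1 ha, norm_zero, mul_zero] at this
    exact norm_le_zero_iff.1 this
  let φ' : LinearMap.range (mom ∘ₗ L) →ₗ[ℂ] ℂ :=
    (LinearMap.ker (mom ∘ₗ L)).liftQ φ hker ∘ₗ (mom ∘ₗ L).quotKerEquivRange.symm.toLinearMap
  have hφ' : ∀ a, φ' ⟨(mom ∘ₗ L) a, LinearMap.mem_range_self _ a⟩ = φ a := by
    intro a
    simp only [φ', LinearMap.comp_apply (f := (LinearMap.ker (mom ∘ₗ L)).liftQ φ hker),
      LinearEquiv.coe_coe]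
    rw [LinearMap.quotKerEquivRange_symm_apply_image]
    rfl
  obtain ⟨Ψ, hΨ, -⟩ := exists_extension_norm_eq (LinearMap.range (mom ∘ₗ L))
    (φ'.mkContinuous √C (by
      rintro ⟨_, a, rfl⟩
      rw [hφ']
      exact h2 a))
  have hΨ' : ∀ a, Ψ (mom (L a)) = φ a := fun a =>
    (hΨ ⟨(mom ∘ₗ L) a, LinearMap.mem_range_self _ a⟩).trans (hφ' a)
  obtain ⟨G, hG⟩ := exists_rep Ψ
  refine ⟨G, fun t ht => ?_, fun l hl => ?_⟩
  · have := hΨ' (Finsupp.single ⟨t, ht⟩ 1)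
    rw [hG] at this
    simpa [L, φ] using this
  · have h3 := mom_mem_closure (LinearMap.range L) l fun f hf => hl f fun t ht => by
      have := hf _ (LinearMap.mem_range_self L (Finsupp.single ⟨t, ht⟩ 1))
      simpa [L] using this
    have h4 := closure_minimal (t := {ξ : Hs d | ‖Ψ ξ‖ ^ 2 ≤ ∑' w : Wd d,
      ((bc p w.1).re * (ρ * ((d : ℝ) + 1)) ^ (2 * w.1)) * ‖ξ w‖ ^ 2}) (by
        rintro _ ⟨_, ⟨a, rfl⟩, rfl⟩
        simp only [Set.mem_ofPred_eq]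
        rw [hΨ', ← beta_eq]
        exact h1 a) (isClosed_wt hw Ψ) h3
    simp only [Set.mem_ofPred_eq] at h4
    rwa [hG, ← beta_eq] at h4

end Pool.Agent.Lib.MP_078bb2_an
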