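import Mathlib

set_option autoImplicit false

namespace Pool.Agent.Lib.MP_078bb2_an

open Filter Topology

section algebra

variable {A : Type*} [CommRing A] [Algebra ℂ A]

/-- The ideal has finite codimension over the complex numbers. -/
def Cof (N : Ideal A) : Prop :=
  ∃ F : Submodule ℂ A, F.FG ∧ ∀ f : A, ∃ v ∈ F, f - v ∈ N

theorem Cof.mono {N N' : Ideal A} (h : Cof N) (hN : N ≤ N') : Cof N' := by
  obtain ⟨F, hF, h⟩ := h
  exact ⟨F, hF, fun f => (h f).imp fun v hv => ⟨hv.1, hN hv.2⟩⟩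

theorem Cof.cofg {N : Ideal A} (h : Cof N) : (N.restrictScalars ℂ).CoFG := by
  obtain ⟨F, hF, h⟩ := h
  refine hF.cofg_of_codisjoint (codisjoint_iff.2 (eq_top_iff.2 fun f _ => ?_))
  obtain ⟨v, hv, hf⟩ := h f
  exact Submodule.mem_sup.2 ⟨v, hv, f - v, hf, by ring⟩

theorem cof_pow {m : Ideal A} (hm : m.FG) (hc : ∀ f : A, ∃ c : ℂ, f - algebraMap ℂ A c ∈ m)
    (k : ℕ) : Cof (m ^ k) := by
  induction k with
  | zero => exact ⟨⊥, Submodule.fg_bot, fun f => ⟨0, zero_mem _, by simp⟩⟩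
  | succ k ih =>
    obtain ⟨F, hF, h⟩ := ih
    obtain ⟨s, hs⟩ := hm.pow (n := k)
    have key : ∀ g ∈ m ^ k, ∃ v ∈ Submodule.span ℂ (s : Set A), v ∈ m ^ k ∧
        g - v ∈ m ^ (k + 1) := by
      intro g hg
      rw [← hs] at hg
      induction hg using Submodule.span_induction with
      | mem x hx =>
        exact ⟨x, Submodule.subset_span hx, hs ▸ Ideal.subset_span hx, by simp⟩
      | zero => exact ⟨0, zero_mem _, zero_mem _, by simp⟩
      | add x y _ _ ihx ihy =>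
        obtain ⟨v, h1, h2, h3⟩ := ihx
        obtain ⟨w, g1, g2, g3⟩ := ihy
        refine ⟨v + w, add_mem h1 g1, add_mem h2 g2, ?_⟩
        have : x + y - (v + w) = (x - v) + (y - w) := by ring
        rw [this]; exact add_mem h3 g3
      | smul a x _ ihx =>
        obtain ⟨v, h1, h2, h3⟩ := ihx
        obtain ⟨c, hc⟩ := hc a
        refine ⟨c • v, Submodule.smul_mem _ _ h1, ?_, ?_⟩
        · rw [Algebra.smul_def]; exact Ideal.mul_mem_left _ _ h2
        · have : a • x - c • v = a * (x - v) + v * (a - algebraMap ℂ A c) := by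
            rw [Algebra.smul_def c, smul_eq_mul]; ring
          rw [this]
          refine add_mem (Ideal.mul_mem_left _ _ h3) ?_
          rw [pow_succ]
          exact Ideal.mul_mem_mul h2 hc
    refine ⟨F ⊔ Submodule.span ℂ (s : Set A), hF.sup (Submodule.fg_span s.finite_toSet),
      fun f => ?_⟩
    obtain ⟨v, hv, hf⟩ := h f
    obtain ⟨w, hw, -, hw'⟩ := key _ hf
    refine ⟨v + w, Submodule.add_mem_sup hv hw, ?_⟩
    rwa [← sub_sub]

/-- The annihilator chain of `u` modulo the adic closure of `J` stabilises. -/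
theorem exists_stable {J m : Ideal A} {u : A} (hu : u ∈ m) (hc : Cof (J ⊔ Ideal.span {u})) :
    ∃ j : ℕ, ∀ f : A, u ^ (j + 1) * f ∈ (⨅ k : ℕ, J ⊔ m ^ k) →
      u ^ j * f ∈ (⨅ k : ℕ, J ⊔ m ^ k) := by
  set H : Ideal A := ⨅ k : ℕ, J ⊔ m ^ k with hH
  have hJH : J ≤ H := le_iInf fun k => le_sup_left
  let K : ℕ → Ideal A := fun j => H.colon {u ^ j}
  have hK : ∀ j f, f ∈ K j ↔ u ^ j * f ∈ H := fun j f => by
    simp only [K, Submodule.mem_colon_singleton, smul_eq_mul, mul_comm]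
  have hmono : Monotone K := by
    refine monotone_nat_of_le_succ fun j f hf => ?_
    rw [hK] at hf ⊢
    rw [pow_succ', mul_assoc]
    exact Ideal.mul_mem_left _ _ hf
  set N := (J ⊔ Ideal.span {u}).restrictScalars ℂ with hN
  have : Module.Finite ℂ (A ⧸ N) := hc.cofg
  obtain ⟨j, hj⟩ := monotone_stabilizes_iff_noetherian.2
    (inferInstance : IsNoetherian ℂ (A ⧸ N))
    ⟨fun j => ((K j).restrictScalars ℂ).map N.mkQ, fun a b hab =>
      Submodule.map_mono fun f hf => hmono hab hf⟩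
  have step : ∀ i, j ≤ i → ∀ f ∈ K i, ∃ g ∈ K j, ∃ h, f = g + u * h := by
    intro i hi f hf
    have h1 : N.mkQ f ∈ ((K j).restrictScalars ℂ).map N.mkQ := by
      have := hj i hi
      simp only [OrderHom.coe_mk] at this
      rw [this]
      exact Submodule.mem_map_of_mem hf
    obtain ⟨g, hg, hgf⟩ := h1
    have h2 : f - g ∈ J ⊔ Ideal.span {u} := by
      have : f - g ∈ N := (Submodule.Quotient.eq N).1 hgf.symm
      exact this
    obtain ⟨a, ha, b, hb, hab⟩ := Submodule.mem_sup.1 h2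
    obtain ⟨h, rfl⟩ := Ideal.mem_span_singleton'.1 hb
    refine ⟨g + a, add_mem hg ((hK j a).2 (Ideal.mul_mem_left _ _ (hJH ha))), h, ?_⟩
    linear_combination -hab
  have iter : ∀ n i, j ≤ i → ∀ f ∈ K i, ∃ g ∈ K j, ∃ h, f = g + u ^ n * h := by
    intro n
    induction n with
    | zero => exact fun i _ f _ => ⟨0, zero_mem _, f, by simp⟩
    | succ n ih =>
      intro i hi f hf
      obtain ⟨g, hg, h, hfg⟩ := step i hi f hf
      have h1 : h ∈ K (i + 1) := by
        rw [hK]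
        have : u ^ (i + 1) * h = u ^ i * f - u ^ i * g := by rw [hfg]; ring
        rw [this]
        exact sub_mem ((hK i f).1 hf) ((hK i g).1 (hmono hi hg))
      obtain ⟨g', hg', h', hh⟩ := ih (i + 1) (by omega) h h1
      refine ⟨g + u * g', add_mem hg (Ideal.mul_mem_left _ _ hg'), h', ?_⟩
      rw [hfg, hh]; ring
  refine ⟨j, fun f hf => ?_⟩
  refine Ideal.mem_iInf.2 fun n => ?_
  obtain ⟨g, hg, h, hfg⟩ := iter n (j + 1) (by omega) f ((hK _ _).2 hf)
  have h1 : u ^ j * g ∈ J ⊔ m ^ n := Ideal.mem_iInf.1 ((hK _ _).1 hg) n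
  have h2 : u ^ j * f = u ^ j * g + u ^ n * (u ^ j * h) := by rw [hfg]; ring
  rw [h2]
  exact add_mem h1 (Ideal.mem_sup_right (Ideal.mul_mem_right _ _ (Ideal.pow_mem_pow hu n)))

/-- Auxiliary polynomial relation by a dimension count. -/
theorem exists_relation {I : Ideal A} {x : A} (hc : Cof (I ⊔ Ideal.span {x})) (G : A) :
    ∃ ν : ℕ, ∀ k k' : ℕ, k * ν < k' * (ν + 1) → ∃ r : Fin k' × Fin (ν + 1) → ℂ, r ≠ 0 ∧
      ∑ q, r q • (x ^ (q.1 : ℕ) * G ^ (q.2 : ℕ)) ∈ I ⊔ Ideal.span {x ^ k} := by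
  obtain ⟨F, hF, h⟩ := hc
  obtain ⟨ν, b, hb⟩ := Submodule.fg_iff_exists_fin_generating_family.1 hF
  refine ⟨ν, fun k k' hk => ?_⟩
  have span : ∀ k : ℕ, ∀ f : A, ∃ v ∈ Submodule.span ℂ
      (Set.range fun q : Fin k × Fin ν => x ^ (q.1 : ℕ) * b q.2),
      f - v ∈ I ⊔ Ideal.span {x ^ k} := by
    intro k
    induction k with
    | zero => exact fun f => ⟨0, zero_mem _, by simp⟩
    | succ k ih =>
      intro f
      obtain ⟨v, hv, hf⟩ := ih f
      obtain ⟨a, ha, c, hc, hac⟩ := Submodule.mem_sup.1 hf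
      obtain ⟨g, rfl⟩ := Ideal.mem_span_singleton'.1 hc
      obtain ⟨w, hw, hg⟩ := h g
      obtain ⟨a', ha', c', hc', hac'⟩ := Submodule.mem_sup.1 hg
      obtain ⟨g', rfl⟩ := Ideal.mem_span_singleton'.1 hc'
      refine ⟨v + x ^ k * w, add_mem ?_ ?_, ?_⟩
      · refine Submodule.span_mono ?_ hv
        rintro _ ⟨q, rfl⟩
        exact ⟨(q.1.castSucc, q.2), rfl⟩
      · rw [← hb] at hw
        obtain ⟨c, rfl⟩ := (Submodule.mem_span_range_iff_exists_fun ℂ).1 hw
        rw [Finset.mul_sum]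
        refine Submodule.sum_mem _ fun l _ => ?_
        rw [mul_smul_comm]
        exact Submodule.smul_mem _ _ (Submodule.subset_span ⟨(Fin.last k, l), rfl⟩)
      · have : f - (v + x ^ k * w) = (a + x ^ k * a') + g' * x ^ (k + 1) := by
          linear_combination -hac - x ^ k * hac'
        rw [this]
        exact Submodule.add_mem_sup (add_mem ha (Ideal.mul_mem_left _ _ ha'))
          (Ideal.mem_span_singleton'.2 ⟨g', rfl⟩)
  set N := (I ⊔ Ideal.span {x ^ k}).restrictScalars ℂ with hN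
  have htop : Submodule.span ℂ (Set.range fun q : Fin k × Fin ν =>
      N.mkQ (x ^ (q.1 : ℕ) * b q.2)) = ⊤ := by
    refine eq_top_iff.2 fun y _ => ?_
    obtain ⟨f, rfl⟩ := N.mkQ_surjective y
    obtain ⟨v, hv, hf⟩ := span k f
    have h1 : N.mkQ f = N.mkQ v := (Submodule.Quotient.eq N).2 hf
    rw [h1]
    have h2 := Submodule.mem_map_of_mem (f := N.mkQ) hv
    rwa [Submodule.map_span, ← Set.range_comp] at h2
  have hrank : Module.finrank ℂ (A ⧸ N) ≤ k * ν := by
    have := finrank_le_of_span_eq_top htop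
    simpa using this
  have : Module.Finite ℂ (A ⧸ N) := ⟨htop ▸ Submodule.fg_span (Set.finite_range _)⟩
  have hdep : ¬ LinearIndependent ℂ fun q : Fin k' × Fin (ν + 1) =>
      N.mkQ (x ^ (q.1 : ℕ) * G ^ (q.2 : ℕ)) := by
    intro hli
    have := hli.fintype_card_le_finrank
    simp only [Fintype.card_prod, Fintype.card_fin] at this
    omega
  obtain ⟨r, hr, q0, hq0⟩ := Fintype.not_linearIndependent_iff.1 hdep
  refine ⟨r, fun h0 => hq0 (by rw [h0]; rfl), ?_⟩
  have : N.mkQ (∑ q, r q • (x ^ (q.1 : ℕ) * G ^ (q.2 : ℕ))) = 0 := by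
    rw [map_sum]; simpa using hr
  exact (Submodule.Quotient.mk_eq_zero N).1 this

end algebra

theorem isClosed_range_of_cofg {E F : Type*} [NormedAddCommGroup E] [NormedSpace ℂ E]
    [CompleteSpace E] [NormedAddCommGroup F] [NormedSpace ℂ F] [CompleteSpace F]
    (f : E →L[ℂ] F) (h : f.range.CoFG) : IsClosed (f.range : Set F) := by
  obtain ⟨G, hG⟩ := Submodule.exists_isCompl f.range
  have : FiniteDimensional ℂ G := .of_fg (Submodule.CoFG.fg_of_isCompl hG h)
  have : CompleteSpace G := FiniteDimensional.complete ℂ G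
  have hs : Function.Surjective (f.coprod G.subtypeL) := by
    intro y
    obtain ⟨_, ⟨a, rfl⟩, b, hb, hab⟩ := Submodule.mem_sup.1
      (hG.sup_eq_top.symm ▸ Submodule.mem_top : y ∈ f.range ⊔ G)
    exact ⟨(a, ⟨b, hb⟩), hab⟩
  rw [← ((f.coprod G.subtypeL).isQuotientMap hs).isClosed_preimage]
  have : (f.coprod G.subtypeL) ⁻¹' (f.range : Set F) = {p | p.2 = 0} := by
    ext ⟨a, b⟩
    simp only [Set.mem_preimage, SetLike.mem_coe, Set.mem_ofPred_eq]
    constructor
    · intro hab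
      have h1 : (b : F) ∈ f.range := by
        have h2 : f a ∈ f.range := ⟨a, rfl⟩
        have h3 := sub_mem hab h2
        simpa using h3
      exact Subtype.ext ((Submodule.disjoint_def.1 hG.disjoint) _ h1 b.2)
    · rintro rfl
      exact ⟨a, by simp⟩
  rw [this]
  exact isClosed_eq continuous_snd continuous_const

section banach

variable {A : Type*} [NormedCommRing A] [NormedAlgebra ℂ A] [CompleteSpace A]

theorem isClosed_of_fg_of_cof {N : Ideal A} (hN : N.FG) (hc : Cof N) : IsClosed (N : Set A) := by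
  obtain ⟨n, b, hb⟩ := Submodule.fg_iff_exists_fin_generating_family.1 hN
  let L : (Fin n → A) →L[ℂ] A :=
    ∑ i, (ContinuousLinearMap.mul ℂ A (b i)).comp (ContinuousLinearMap.proj i)
  have hL : ∀ g, L g = ∑ i, g i • b i := fun g => by
    simp [L, mul_comm]
  have hr : L.range = N.restrictScalars ℂ := by
    ext f
    rw [Submodule.restrictScalars_mem, ← hb, Submodule.mem_span_range_iff_exists_fun]
    constructor
    · rintro ⟨g, rfl⟩; exact ⟨g, (hL g).symm⟩
    · rintro ⟨g, rfl⟩; exact ⟨g, hL g⟩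
  have := isClosed_range_of_cofg L (hr ▸ hc.cofg)
  rw [hr] at this
  exact this

omit [CompleteSpace A] in
theorem isClosed_of_le_of_cof {N N' : Ideal A} (hN : IsClosed (N : Set A)) (hc : Cof N)
    (h : N ≤ N') : IsClosed (N' : Set A) := by
  have : FiniteDimensional ℂ (A ⧸ N.restrictScalars ℂ) := hc.cofg
  exact Submodule.isClosed_mono_of_finiteDimensional_quotient (s := N.restrictScalars ℂ)
    (t := N'.restrictScalars ℂ) hN h

theorem not_isUnit_near {B : Type*} [NormedCommRing B] [NormedAlgebra ℂ B] [CompleteSpace B]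
    {x : B} (hinj : ∀ b, x * b = 0 → b = 0) (hc : Cof (Ideal.span {x})) (hx : ¬ IsUnit x) :
    ∃ ε > 0, ∀ c : ℂ, ‖c‖ < ε → ¬ IsUnit (x - algebraMap ℂ B c) := by
  let T := ContinuousLinearMap.mul ℂ B x
  have hr : T.range = (Ideal.span {x}).restrictScalars ℂ := by
    ext f
    rw [Submodule.restrictScalars_mem, Ideal.mem_span_singleton']
    constructor
    · rintro ⟨g, rfl⟩; exact ⟨g, mul_comm _ _⟩
    · rintro ⟨g, rfl⟩; exact ⟨g, mul_comm _ _⟩
  have hcl := isClosed_range_of_cofg T (hr ▸ hc.cofg)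
  have hi : Function.Injective T := by
    intro a b hab
    have : x * (a - b) = 0 := by
      have : x * a = x * b := hab
      rw [mul_sub, this, sub_self]
    exact sub_eq_zero.1 (hinj _ this)
  obtain ⟨K, hK⟩ := T.antilipschitz_of_injective_of_isClosed_range hi hcl
  have hK' : ∀ b : B, ‖b‖ ≤ K * ‖x * b‖ := fun b => by
    simpa [T] using hK.le_mul_dist b 0
  have hpos : 0 < 2 * ((K : ℝ) + 1) * (‖(1 : B)‖ + 1) := by positivity
  refine ⟨1 / (2 * ((K : ℝ) + 1) * (‖(1 : B)‖ + 1)), by positivity, fun c hc hu => hx ?_⟩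
  obtain ⟨v, hv⟩ := hu.exists_right_inv
  have h1 : x * v = 1 + c • v := by
    rw [Algebra.smul_def]; linear_combination hv
  have h2 := hK' v
  rw [h1] at h2
  have h3 : ‖1 + c • v‖ ≤ ‖(1 : B)‖ + ‖c‖ * ‖v‖ := by
    rw [← norm_smul]; exact norm_add_le _ _
  rw [lt_div_iff₀ hpos] at hc
  have hK0 : (0 : ℝ) ≤ K := K.2
  have hc0 := norm_nonneg c
  have hv0 := norm_nonneg v
  have h10 := norm_nonneg (1 : B)
  have h4 : ‖v‖ ≤ K * (‖(1 : B)‖ + ‖c‖ * ‖v‖) := h2.trans (mul_le_mul_of_nonneg_left h3 hK0)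
  have h5 : K * ‖c‖ ≤ 1 / 2 := by nlinarith [mul_nonneg hK0 hc0, mul_nonneg hc0 h10, mul_nonneg (mul_nonneg hK0 hc0) h10]
  have h6 : ‖v‖ ≤ 2 * K * ‖(1 : B)‖ := by nlinarith
  have h7 : ‖-(c • v)‖ < 1 := by
    rw [norm_neg, norm_smul]
    nlinarith [mul_nonneg hK0 hc0, mul_nonneg hc0 h10, mul_nonneg (mul_nonneg hK0 hc0) h10, mul_le_mul_of_nonneg_left h6 hc0]
  have h8 := isUnit_one_sub_of_norm_lt_one h7
  rw [sub_neg_eq_add, ← h1] at h8
  exact isUnit_of_mul_isUnit_left h8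

/-- Fredholm-type lemma: nearby fibres are non-empty. -/
theorem ne_top_near {I : Ideal A} (hI : IsClosed (I : Set A)) {x : A}
    (hnzd : ∀ f, x * f ∈ I → f ∈ I) (hc : Cof (I ⊔ Ideal.span {x}))
    (hx : I ⊔ Ideal.span {x} ≠ ⊤) :
    ∃ ε > 0, ∀ c : ℂ, ‖c‖ < ε → I ⊔ Ideal.span {x - algebraMap ℂ A c} ≠ ⊤ := by
  have := hI
  have unit_iff : ∀ y : A, IsUnit (Ideal.Quotient.mk I y) ↔ I ⊔ Ideal.span {y} = ⊤ := by
    intro y
    constructor
    · intro h
      obtain ⟨v, hv⟩ := h.exists_right_inv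
      obtain ⟨v, rfl⟩ := Ideal.Quotient.mk_surjective v
      rw [← map_mul, ← map_one (Ideal.Quotient.mk I), Ideal.Quotient.eq] at hv
      rw [Ideal.eq_top_iff_one]
      exact Submodule.mem_sup.2 ⟨-(y * v - 1), neg_mem hv, v * y,
        Ideal.mem_span_singleton'.2 ⟨v, rfl⟩, by ring⟩
    · intro h
      rw [Ideal.eq_top_iff_one] at h
      obtain ⟨a, ha, b, hb, hab⟩ := Submodule.mem_sup.1 h
      obtain ⟨v, rfl⟩ := Ideal.mem_span_singleton'.1 hb
      refine IsUnit.of_mul_eq_one (Ideal.Quotient.mk I v) ?_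
      rw [← map_mul, ← map_one (Ideal.Quotient.mk I), Ideal.Quotient.eq]
      have : y * v - 1 = -a := by linear_combination hab
      rw [this]; exact neg_mem ha
  obtain ⟨ε, hε, h⟩ := not_isUnit_near (B := A ⧸ I) (x := Ideal.Quotient.mk I x) (by
      intro b hb
      obtain ⟨b, rfl⟩ := Ideal.Quotient.mk_surjective b
      rw [← map_mul, Ideal.Quotient.eq_zero_iff_mem] at hb
      exact Ideal.Quotient.eq_zero_iff_mem.2 (hnzd b hb)) (by
      obtain ⟨F, hF, h⟩ := hc
      refine ⟨F.map (Ideal.Quotient.mkₐ ℂ I).toLinearMap, hF.map _, fun f => ?_⟩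
      obtain ⟨f, rfl⟩ := Ideal.Quotient.mk_surjective f
      obtain ⟨v, hv, hf⟩ := h f
      refine ⟨_, Submodule.mem_map_of_mem hv, ?_⟩
      obtain ⟨a, ha, b, hb, hab⟩ := Submodule.mem_sup.1 hf
      obtain ⟨w, rfl⟩ := Ideal.mem_span_singleton'.1 hb
      refine Ideal.mem_span_singleton'.2 ⟨Ideal.Quotient.mk I w, ?_⟩
      change _ = Ideal.Quotient.mk I f - Ideal.Quotient.mk I v
      rw [← map_mul, ← map_sub, Ideal.Quotient.eq]
      have : w * x - (f - v) = -a := by linear_combination hab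
      rw [this]; exact neg_mem ha) (by rwa [unit_iff])
  refine ⟨ε, hε, fun c hc => ?_⟩
  have := h c hc
  rw [← Ideal.Quotient.mk_algebraMap, ← map_sub, unit_iff] at this
  exact this

end banach

end Pool.Agent.Lib.MP_078bb2_an
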