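import Mathlib
import Pool.Agent.Lib.MP_078bb2_an.Hilb
import Pool.Agent.Lib.MP_078bb2_an.Spec

set_option autoImplicit false

namespace Pool.Agent.Lib.MP_078bb2_an

open Metric Filter Topology ComplexConjugate

variable {d : ℕ} {p : ℝ}

/-- The form of the kernel is nonnegative on the annihilator of the ideal. -/
def PsdI (p ρ : ℝ) (J : Ideal (Alg d)) : Prop :=
  ∀ l : Alg d →L[ℂ] ℂ, (∀ f ∈ J, l f = 0) → 0 ≤ beta p ρ l

/-- Ideal form of the finiteness statement. -/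
def IdealFin (p : ℝ) (d : ℕ) : Prop :=
  ∀ ρ, Adm d ρ → ∀ J : Ideal (Alg d), PsdI p ρ J →
    ∃ (N : ℕ) (t : ℝ) (ht : |t| ≤ 1), 0 < t ∧ mm d ^ N ≤ J.map (scl d t ht)

/-- Point form of the finiteness statement. -/
def PtFin (p : ℝ) (d : ℕ) : Prop :=
  ∀ (T : Set (Fin d → ℂ)) (a : Fin d → ℂ), Psd (kern p) T → ¬ AccPt a (𝓟 T)

theorem Adm.mul {ρ t : ℝ} (h : Adm d ρ) (ht : |t| ≤ 1) (h0 : 0 < t) : Adm d (ρ * t) := by
  refine ⟨mul_pos h.1 h0, le_trans ?_ h.2⟩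
  have h1 : t ≤ 1 := (le_abs_self t).trans ht
  have h2 := h.1
  rw [← mul_assoc]
  exact mul_le_of_le_one_right (by positivity) h1

theorem Adm.of_succ {ρ : ℝ} (h : Adm (d + 1) ρ) : Adm d ρ := by
  refine ⟨h.1, le_trans ?_ h.2⟩
  have h2 := h.1
  push_cast
  nlinarith

theorem Adm.of_le {ρ ρ' : ℝ} (h : Adm d ρ) (h0 : 0 < ρ') (h1 : ρ' ≤ ρ) : Adm d ρ' :=
  ⟨h0, le_trans (by gcongr) h.2⟩

theorem exists_adm (d : ℕ) : ∃ ρ, Adm d ρ :=
  ⟨1 / (2 * ((d : ℝ) + 1)), by positivity, by rw [mul_one_div_cancel (by positivity)]⟩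

theorem scl_mono (t : ℝ) (ht : |t| ≤ 1) (w : Wd d) :
    scl d t ht (mono w) = ((t : ℂ) ^ w.1) • mono w := by
  refine Alg.ext' fun z => ?_
  rw [ev_scl, map_smul, ev_mono, ev_mono]
  change ∏ j, (t : ℂ) * z.1 (w.2 j) = _
  simp [Finset.prod_mul_distrib]

theorem PsdI.map_scl {ρ : ℝ} {J : Ideal (Alg d)} (h : PsdI p ρ J) (t : ℝ) (ht : |t| ≤ 1) :
    PsdI p (ρ * t) (J.map (scl d t ht)) := by
  intro l hl
  have h1 := h (l.comp ⟨(scl d t ht).toLinearMap, continuous_scl t ht⟩)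
    fun f hf => hl _ (Ideal.mem_map_of_mem _ hf)
  refine h1.trans_eq (tsum_congr fun w => ?_)
  change _ * ‖l (scl d t ht (mono w))‖ ^ 2 = _
  rw [scl_mono, map_smul, norm_smul, norm_pow, Complex.norm_real, Real.norm_eq_abs, mul_pow,
    mul_pow, ← pow_mul, mul_comm w.1 2, pow_mul |t|, sq_abs, ← pow_mul]
  ring

theorem PsdI.map_rst {ρ : ℝ} {J : Ideal (Alg (d + 1))} (h : PsdI p ρ J) :
    PsdI p ρ (J.map (rst d)) := by
  intro l hl
  have h1 := h (l.comp ⟨(rst d).toLinearMap, continuous_rst⟩)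
    fun f hf => hl _ (Ideal.mem_map_of_mem _ hf)
  refine h1.trans_eq ?_
  let e : Wd d → Wd (d + 1) := fun w => ⟨w.1, fun j => (w.2 j).succ⟩
  have he : Function.Injective e := by
    rintro ⟨n, f⟩ ⟨m, g⟩ hfg
    simp only [e, Sigma.mk.injEq] at hfg
    obtain ⟨rfl, h2⟩ := hfg
    have h3 := eq_of_heq h2
    congr 1
    exact funext fun j => Fin.succ_injective _ (congrFun h3 j)
  unfold beta
  rw [← he.tsum_eq]
  · refine tsum_congr fun w => ?_
    have : Pool.Agent.Lib.MP_078bb2_an.rst d (mono (e w)) = mono w := by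
      simp [mono, e, rst_uu_succ]
    change _ * ‖l (Pool.Agent.Lib.MP_078bb2_an.rst d (mono (e w)))‖ ^ 2 = _
    rw [this]
  · rintro ⟨n, f⟩ hw
    by_contra hcon
    apply hw
    have h2 : ∃ j, f j = 0 := by
      by_contra h3
      push Not at h3
      choose g hg using fun j => Fin.exists_succ_eq.2 (h3 j)
      exact hcon ⟨⟨n, g⟩, by simp only [e]; congr 1; exact funext hg⟩
    obtain ⟨j, hj⟩ := h2
    have : Pool.Agent.Lib.MP_078bb2_an.rst d (mono ⟨n, f⟩) = 0 := by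
      rw [mono, map_prod]
      exact Finset.prod_eq_zero (Finset.mem_univ j) (by
        change rst d (uu (f j)) = 0
        rw [hj, rst_uu_zero])
    change _ * ‖l (Pool.Agent.Lib.MP_078bb2_an.rst d (mono ⟨n, f⟩))‖ ^ 2 = 0
    rw [this]
    simp

theorem PsdI.mono {ρ : ℝ} {J J' : Ideal (Alg d)} (h : PsdI p ρ J) (hJ : J ≤ J') :
    PsdI p ρ J' := fun l hl => h l fun f hf => hl f (hJ hf)

theorem map_scl_mm (t : ℝ) (ht : |t| ≤ 1) (h0 : 0 < t) : (mm d).map (scl d t ht) = mm d := by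
  apply le_antisymm
  · rw [mm, Ideal.map_span, Ideal.span_le]
    rintro _ ⟨_, ⟨i, rfl⟩, rfl⟩
    rw [scl_uu, Algebra.smul_def]
    exact Ideal.mul_mem_left _ _ (uu_mem_mm i)
  · rw [mm, Ideal.span_le]
    rintro _ ⟨i, rfl⟩
    have h1 : uu i = algebraMap ℂ (Alg d) (t : ℂ)⁻¹ * scl d t ht (uu i) := by
      rw [scl_uu, ← Algebra.smul_def, smul_smul, inv_mul_cancel₀ (by exact_mod_cast h0.ne'),
        one_smul]
    rw [SetLike.mem_coe, h1]
    exact Ideal.mul_mem_left _ _ (Ideal.mem_map_of_mem _ (uu_mem_mm i))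

theorem map_scl_span (t : ℝ) (ht : |t| ≤ 1) (i : Fin d) :
    (Ideal.span {uu i}).map (scl d t ht) ≤ Ideal.span {uu i} := by
  rw [Ideal.map_span, Ideal.span_le]
  rintro _ ⟨_, rfl, rfl⟩
  rw [scl_uu, Algebra.smul_def]
  exact Ideal.mul_mem_left _ _ (Ideal.subset_span rfl)

theorem map_scl_scl (J : Ideal (Alg d)) (t s : ℝ) (ht : |t| ≤ 1) (hs : |s| ≤ 1)
    (hts : |t * s| ≤ 1) : (J.map (scl d t ht)).map (scl d s hs) ≤ J.map (scl d (t * s) hts) := by
  rw [Ideal.map_le_iff_le_comap, Ideal.map_le_iff_le_comap]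
  intro f hf
  rw [Ideal.mem_comap, Ideal.mem_comap, scl_scl t s ht hs hts]
  exact Ideal.mem_map_of_mem _ hf

theorem abs_mul_le_one {t s : ℝ} (ht : |t| ≤ 1) (hs : |s| ≤ 1) : |t * s| ≤ 1 := by
  rw [abs_mul]; exact mul_le_one₀ ht (abs_nonneg _) hs

theorem map_rst_mm : (mm (d + 1)).map (rst d) ≤ mm d := by
  rw [mm, Ideal.map_span, Ideal.span_le]
  rintro _ ⟨_, ⟨i, rfl⟩, rfl⟩
  refine Fin.cases ?_ (fun j => ?_) i
  · rw [rst_uu_zero]; exact zero_mem _
  · rw [rst_uu_succ]; exact uu_mem_mm j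

theorem hyper (hI : IdealFin p d) {ρ : ℝ} (hρ : Adm (d + 1) ρ) {J : Ideal (Alg (d + 1))}
    (hJ : PsdI p ρ J) : ∃ (N : ℕ) (t : ℝ) (ht : |t| ≤ 1), 0 < t ∧
      mm (d + 1) ^ N ≤ J.map (scl (d + 1) t ht) ⊔ Ideal.span {uu 0} := by
  obtain ⟨N, t, ht, h0, h⟩ := hI ρ hρ.of_succ _ hJ.map_rst
  refine ⟨N, t, ht, h0, fun f hf => ?_⟩
  have h1 : rst d f ∈ mm d ^ N := by
    have := Ideal.mem_map_of_mem (rst d) hf
    rw [Ideal.map_pow] at this
    exact Ideal.pow_right_mono map_rst_mm N this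
  have h2 : (J.map (rst d)).map (scl d t ht) ≤ (J.map (scl (d + 1) t ht)).map (rst d) := by
    rw [Ideal.map_le_iff_le_comap, Ideal.map_le_iff_le_comap]
    intro g hg
    rw [Ideal.mem_comap, Ideal.mem_comap, ← rst_scl]
    exact Ideal.mem_map_of_mem _ (Ideal.mem_map_of_mem _ hg)
  obtain ⟨g, hg, hgf⟩ := (Ideal.mem_map_iff_of_surjective (rst d)
    (fun x => ⟨sec d x, rst_sec x⟩)).1 (h2 (h h1))
  obtain ⟨q, hq⟩ := gleason (f - g)
  rw [map_sub, hgf, sub_self, map_zero, zero_add] at hq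
  exact Submodule.mem_sup.2 ⟨g, hg, q * uu 0, Ideal.mem_span_singleton'.2 ⟨q, rfl⟩,
    by linear_combination -hq⟩

theorem exists_scl_small (f : Alg d) (hf : ev (org d) f = 0) {ε : ℝ} (hε : 0 < ε) :
    ∃ (t : ℝ) (ht : |t| ≤ 1), 0 < t ∧ ‖scl d t ht f‖ ≤ ε := by
  have h1 := (continuous_ev_pt f).continuousAt (x := org d)
  rw [Metric.continuousAt_iff] at h1
  obtain ⟨δ, hδ, h⟩ := h1 ε hε
  have h2 : |min (δ / 2) 1| ≤ 1 := by
    rw [abs_of_pos (by positivity)]; exact min_le_right _ _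
  refine ⟨min (δ / 2) 1, h2, by positivity, norm_le_of_ev fun z => ?_⟩
  have h3 : dist (scaleMap d _ h2 z) (org d) < δ := by
    change dist (((min (δ / 2) 1 : ℝ) : ℂ) • z.1) 0 < δ
    rw [dist_zero_right, norm_smul, Complex.norm_real, Real.norm_of_nonneg (by positivity)]
    calc _ ≤ min (δ / 2) 1 * 1 := by gcongr; exact pd_norm_le z
      _ ≤ δ / 2 := by rw [mul_one]; exact min_le_left _ _
      _ < δ := by linarith
  have h4 := h h3
  rw [hf, dist_zero_right] at h4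
  exact h4.le

theorem exists_scl_unit (f : Alg d) (hf : ev (org d) f ≠ 0) :
    ∃ (t : ℝ) (ht : |t| ≤ 1), 0 < t ∧ IsUnit (scl d t ht f) := by
  obtain ⟨t, ht, h0, h⟩ := exists_scl_small (1 - (ev (org d) f)⁻¹ • f)
    (by simp [inv_mul_cancel₀ hf]) (ε := 1 / 2) (by norm_num)
  refine ⟨t, ht, h0, ?_⟩
  have h1 := isUnit_one_sub_of_norm_lt_one (h.trans_lt (by norm_num))
  rw [map_sub, map_one, sub_sub_cancel, map_smul, Algebra.smul_def] at h1
  exact isUnit_of_mul_isUnit_right h1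

theorem nakayama_shrink {J : Ideal (Alg d)} {N : ℕ} (h : mm d ^ N ≤ J ⊔ mm d ^ (N + 1)) :
    ∃ (t : ℝ) (ht : |t| ≤ 1), 0 < t ∧ mm d ^ N ≤ J.map (scl d t ht) := by
  obtain ⟨r, hr, h1⟩ := Submodule.exists_sub_one_mem_and_smul_le_of_fg_of_le_sup (I := mm d)
    (N := J) (N' := mm d ^ N) (P := mm d ^ N) mm_fg.pow le_rfl (by
      rwa [smul_eq_mul, ← pow_succ'])
  have h2 : ev (org d) r ≠ 0 := by
    have := ev_org_of_mem_mm hr
    rw [map_sub, map_one, sub_eq_zero] at this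
    rw [this]; exact one_ne_zero
  obtain ⟨t, ht, h0, hu⟩ := exists_scl_unit r h2
  refine ⟨t, ht, h0, ?_⟩
  conv_lhs => rw [← map_scl_mm t ht h0, ← Ideal.map_pow]
  rw [Ideal.map_le_iff_le_comap]
  intro g hg
  have h3 : r * g ∈ J := h1 (Submodule.smul_mem_pointwise_smul g r _ hg)
  have h4 := Ideal.mem_map_of_mem (scl d t ht) h3
  rw [map_mul] at h4
  rw [Ideal.mem_comap]
  exact (Ideal.unit_mul_mem_iff_mem _ hu).1 h4

theorem cof_mm_pow (k : ℕ) : Cof (mm d ^ k) :=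
  cof_pow mm_fg (fun f => ⟨_, sub_const_mem_mm f⟩) k

theorem isClosed_mm_pow (k : ℕ) : IsClosed ((mm d ^ k : Ideal (Alg d)) : Set (Alg d)) :=
  isClosed_of_fg_of_cof mm_fg.pow (cof_mm_pow k)

theorem PsdI.psd {ρ : ℝ} (hρ : Adm d ρ) {J : Ideal (Alg d)} (h : PsdI p ρ J) :
    Psd (kern p) ((fun z : Pd d => (ρ : ℂ) • z.1) '' {z | ∀ f ∈ J, ev z f = 0}) := by
  intro ι _ x a hx
  choose y hy hxy using hx
  have h1 := h (∑ i, a i • evL (y i)) fun f hf => by
    simp [fun i => hy i f hf]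
  rw [beta_eval p hρ] at h1
  simpa only [← hxy] using h1

theorem idealFin_zero : IdealFin p 0 := by
  intro ρ _ J _
  refine ⟨1, 1, by simp, one_pos, ?_⟩
  rw [pow_one, mm, Ideal.span_le]
  rintro _ ⟨i, rfl⟩
  exact i.elim0

theorem ptFin_zero : PtFin p 0 := by
  intro T a _ h
  obtain ⟨y, hy, -⟩ := (accPt_iff_frequently.1 h).exists
  exact hy (Subsingleton.elim _ _)

theorem idealFin_succ (hI : IdealFin p d) (hP : PtFin p (d + 1)) : IdealFin p (d + 1) := by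
  intro ρ hρ J hJ
  obtain ⟨N, t, ht, h0, hN⟩ := hyper hI hρ hJ
  set J' := J.map (scl (d + 1) t ht) with hJ'
  have hc : Cof (J' ⊔ Ideal.span {uu 0}) := (cof_mm_pow N).mono hN
  obtain ⟨j, hj⟩ := exists_stable (m := mm (d + 1)) (uu_mem_mm 0) hc
  set H : Ideal (Alg (d + 1)) := ⨅ k : ℕ, J' ⊔ mm (d + 1) ^ k with hH
  have hJH : J' ≤ H := le_iInf fun k => le_sup_left
  let I' : Ideal (Alg (d + 1)) := H.colon {uu 0 ^ j}
  have hI' : ∀ f, f ∈ I' ↔ uu 0 ^ j * f ∈ H := fun f => by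
    simp only [I', Submodule.mem_colon_singleton, smul_eq_mul, mul_comm]
  have hJI : J' ≤ I' := fun f hf => (hI' f).2 (Ideal.mul_mem_left _ _ (hJH hf))
  by_cases htop : I' ⊔ Ideal.span {uu 0} = ⊤
  · rw [Ideal.eq_top_iff_one] at htop
    obtain ⟨f, hf, b, hb, hfb⟩ := Submodule.mem_sup.1 htop
    have hbm : b ∈ mm (d + 1) :=
      (Ideal.span_singleton_le_iff_mem _).2 (uu_mem_mm 0) hb
    have h1 : ∀ n, uu 0 ^ j ∈ J' ⊔ mm (d + 1) ^ n := by
      intro n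
      have h2 : uu 0 ^ j * f ∈ J' ⊔ mm (d + 1) ^ n := Ideal.mem_iInf.1 ((hI' f).1 hf) n
      have h3 : (uu 0 : Alg (d + 1)) ^ j = uu 0 ^ j * f * ∑ i ∈ Finset.range n, b ^ i +
          uu 0 ^ j * b ^ n := by
        have h4 : f = 1 - b := by linear_combination hfb
        rw [h4, mul_assoc, mul_neg_geom_sum]; ring
      rw [h3]
      exact add_mem (Ideal.mul_mem_right _ _ h2)
        (Ideal.mem_sup_right (Ideal.mul_mem_left _ _ (Ideal.pow_mem_pow hbm n)))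
    have h2 : mm (d + 1) ^ (N * (1 + j)) ≤ J' ⊔ mm (d + 1) ^ (N * (1 + j) + 1) := by
      rw [pow_mul]
      refine (Ideal.pow_right_mono hN _).trans (Ideal.sup_pow_add_le_pow_sup_pow.trans ?_)
      rw [pow_one, Ideal.span_singleton_pow]
      exact sup_le le_sup_left ((Ideal.span_singleton_le_iff_mem _).2 (h1 _))
    obtain ⟨s, hs, hs0, h3⟩ := nakayama_shrink h2
    exact ⟨_, t * s, abs_mul_le_one ht hs, mul_pos h0 hs0, h3.trans (map_scl_scl J t s ht hs _)⟩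
  · exfalso
    have hcl : IsClosed (I' : Set (Alg (d + 1))) := by
      have h1 : IsClosed (H : Set (Alg (d + 1))) := by
        rw [hH, Submodule.coe_iInf]
        exact isClosed_iInter fun k =>
          isClosed_of_le_of_cof (isClosed_mm_pow k) (cof_mm_pow k) le_sup_right
      have h2 : (I' : Set (Alg (d + 1))) = (fun f => uu 0 ^ j * f) ⁻¹' H := Set.ext hI'
      rw [h2]
      exact h1.preimage (continuous_const.mul continuous_id)
    obtain ⟨ε, hε, hne⟩ := ne_top_near hcl (x := uu 0) (fun f hf => by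
      rw [hI'] at hf ⊢
      apply hj
      rwa [pow_succ, mul_assoc]) (hc.mono (sup_le_sup_right hJI _)) htop
    have hρ' := hρ.mul ht h0
    have hpsd := (hJ.map_scl t ht).psd hρ'
    set T := (fun z : Pd (d + 1) => ((ρ * t : ℝ) : ℂ) • z.1) '' {z | ∀ f ∈ J', ev z f = 0}
      with hT
    have hinf : T.Infinite := by
      refine Set.Infinite.of_image (fun z => z 0 / ((ρ * t : ℝ) : ℂ)) ?_
      refine Set.Infinite.mono (s := ball (0 : ℂ) ε) (fun c hc => ?_) ?_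
      · obtain ⟨z, hz⟩ := exists_common_zero (hne c (mem_ball_zero_iff.1 hc))
        refine ⟨_, ⟨z, fun f hf => hz f (Ideal.mem_sup_left (hJI hf)), rfl⟩, ?_⟩
        have h1 := hz _ (Ideal.mem_sup_right (Ideal.subset_span rfl))
        rw [map_sub, ev_uu, AlgHom.commutes, sub_eq_zero] at h1
        have h2 : ((ρ * t : ℝ) : ℂ) ≠ 0 := by exact_mod_cast hρ'.1.ne'
        simp only [Pi.smul_apply, smul_eq_mul, h1]
        field_simp
        rfl
      · exact infinite_of_mem_nhds (0 : ℂ) (ball_mem_nhds _ hε)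
    have hcomp : IsCompact (Set.range fun z : Pd (d + 1) => ((ρ * t : ℝ) : ℂ) • z.1) :=
      isCompact_range (by fun_prop)
    obtain ⟨a, -, ha⟩ := hinf.exists_accPt_of_subset_isCompact hcomp (Set.image_subset_range _ _)
    exact hP T a hpsd ha

end Pool.Agent.Lib.MP_078bb2_an
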