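import Mathlib
import Pool.Agent.Lib.MP_078bb2_an.LocIdeal

set_option autoImplicit false

namespace Pool.Agent.Lib.MP_078bb2_an

open Metric Filter Topology ComplexConjugate

variable {d n m : ℕ} {p : ℝ}

/-- Functions represented by the polydisc algebra at radius `ρ`. -/
def Hol (ρ : ℝ) (f : (Fin n → ℂ) → ℂ) : Prop :=
  ∃ F : Alg n, ∀ u : Pd n, ev u F = f ((ρ : ℂ) • u.1)

theorem norm_smul_pd_le {ρ : ℝ} (h : 0 ≤ ρ) (u : Pd n) : ‖(ρ : ℂ) • u.1‖ ≤ ρ := by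
  rw [norm_smul, Complex.norm_real, Real.norm_of_nonneg h]
  exact mul_le_of_le_one_right h (pd_norm_le u)

theorem inv_smul_mem {ρ : ℝ} (h : 0 < ρ) {z : Fin n → ℂ} (hz : ‖z‖ ≤ ρ) :
    (ρ : ℂ)⁻¹ • z ∈ closedBall (0 : Fin n → ℂ) 1 := by
  rw [mem_closedBall_zero_iff, norm_smul, norm_inv, Complex.norm_real, Real.norm_of_nonneg h.le,
    inv_mul_le_iff₀ h, mul_one]
  exact hz

theorem exists_pd {ρ : ℝ} (h : 0 < ρ) {z : Fin n → ℂ} (hz : ‖z‖ ≤ ρ) :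
    ∃ u : Pd n, (ρ : ℂ) • u.1 = z :=
  ⟨⟨_, inv_smul_mem h hz⟩, smul_inv_smul₀ (by exact_mod_cast h.ne') z⟩

theorem exists_hol {ρ : ℝ} (h : 0 < ρ) (F : Alg n) :
    ∃ f : (Fin n → ℂ) → ℂ, ∀ u : Pd n, ev u F = f ((ρ : ℂ) • u.1) := by
  classical
  refine ⟨fun z => if hz : ‖z‖ ≤ ρ then ev ⟨_, inv_smul_mem h hz⟩ F else 0, fun u => ?_⟩
  beta_reduce
  rw [dif_pos (norm_smul_pd_le h.le u)]
  have h1 : (ρ : ℂ) ≠ 0 := by exact_mod_cast h.ne'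
  exact congrArg (fun v => ev v F) (Subtype.ext (inv_smul_smul₀ h1 u.1).symm)

theorem abs_div_le_one {ρ ρ' : ℝ} (h0 : 0 < ρ') (h : ρ' ≤ ρ) : |ρ' / ρ| ≤ 1 := by
  have := h0.trans_le h
  rw [abs_of_pos (by positivity), div_le_one this]
  exact h

theorem Hol.scale {ρ t : ℝ} {f : (Fin n → ℂ) → ℂ} (h : Hol ρ f) (ht : |t| ≤ 1) :
    Hol (ρ * t) f := by
  obtain ⟨F, hF⟩ := h
  refine ⟨scl n t ht F, fun u => ?_⟩
  rw [ev_scl, hF]
  change f ((ρ : ℂ) • (t : ℂ) • u.1) = _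
  rw [smul_smul, Complex.ofReal_mul]

theorem Hol.shrink {ρ ρ' : ℝ} {f : (Fin n → ℂ) → ℂ} (h : Hol ρ f) (h0 : 0 < ρ') (h1 : ρ' ≤ ρ) :
    Hol ρ' f := by
  have := h.scale (abs_div_le_one h0 h1)
  rwa [mul_div_cancel₀ _ (h0.trans_le h1).ne'] at this

theorem Hol.sub {ρ : ℝ} {f g : (Fin n → ℂ) → ℂ} (hf : Hol ρ f) (hg : Hol ρ g) :
    Hol ρ fun z => f z - g z := by
  obtain ⟨F, hF⟩ := hf
  obtain ⟨G, hG⟩ := hg
  exact ⟨F - G, fun u => by rw [map_sub, hF, hG]⟩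

theorem Hol.continuousOn {ρ : ℝ} {f : (Fin n → ℂ) → ℂ} (h0 : 0 < ρ) (h : Hol ρ f) :
    ContinuousOn f (closedBall 0 ρ) := by
  obtain ⟨F, hF⟩ := h
  rw [continuousOn_iff_continuous_domRestrict]
  have : (closedBall (0 : Fin n → ℂ) ρ).domRestrict f = fun z : closedBall (0 : Fin n → ℂ) ρ =>
      ev ⟨_, inv_smul_mem h0 (mem_closedBall_zero_iff.1 z.2)⟩ F := by
    ext z
    rw [hF]
    change f z.1 = f ((ρ : ℂ) • (ρ : ℂ)⁻¹ • z.1)
    rw [smul_inv_smul₀ (by exact_mod_cast h0.ne')]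
  rw [this]
  exact (continuous_ev_pt F).comp (Continuous.subtype_mk (by fun_prop) _)

theorem Hol.comp {ρ ρ' : ℝ} {f : (Fin m → ℂ) → ℂ} (h0 : 0 < ρ) (h0' : 0 ≤ ρ') (h : Hol ρ f)
    {Φ : (Fin n → ℂ) → (Fin m → ℂ)} (hΦ : ∀ i, Hol ρ' fun z => Φ z i)
    (hb : ∀ z, ‖z‖ ≤ ρ' → ‖Φ z‖ ≤ ρ) : Hol ρ' fun z => f (Φ z) := by
  obtain ⟨F, hF⟩ := h
  choose E hE using hΦ
  have hm : ∀ u : Pd n, (fun i => (ρ : ℂ)⁻¹ * ev u (E i)) = (ρ : ℂ)⁻¹ • Φ ((ρ' : ℂ) • u.1) := by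
    intro u
    ext i
    simp [hE]
  have hc : Continuous fun u : Pd n => fun i => (ρ : ℂ)⁻¹ * ev u (E i) :=
    continuous_pi fun i => continuous_const.mul (continuous_ev_pt _)
  have hmem : ∀ u : Pd n, (fun i => (ρ : ℂ)⁻¹ * ev u (E i)) ∈ closedBall (0 : Fin m → ℂ) 1 :=
    fun u => by rw [hm]; exact inv_smul_mem h0 (hb _ (norm_smul_pd_le h0' u))
  let Ψ : C(Pd n, Pd m) := ⟨fun u => ⟨fun i => (ρ : ℂ)⁻¹ * ev u (E i), hmem u⟩,
    Continuous.subtype_mk hc hmem⟩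
  refine ⟨pull Ψ (fun i => ?_) F, fun u => ?_⟩
  · have : (crd i).comp Ψ = ((ρ : ℂ)⁻¹ • E i).1 := rfl
    rw [this]
    exact ((ρ : ℂ)⁻¹ • E i).2
  · rw [ev_pull, hF]
    change f ((ρ : ℂ) • fun i => (ρ : ℂ)⁻¹ * ev u (E i)) = _
    rw [hm, smul_inv_smul₀ (by exact_mod_cast h0.ne')]

theorem hol_of_analyticAt {f : (Fin n → ℂ) → ℂ} (h : AnalyticAt ℂ f 0) :
    ∃ ρ > 0, Hol ρ f := by
  classical
  obtain ⟨q, r, hq⟩ := h
  obtain ⟨ρ, hρ0, hρ⟩ := ENNReal.lt_iff_exists_nnreal_btwn.1 hq.r_pos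
  have hρ0' : (0 : ℝ) < ρ := by exact_mod_cast hρ0
  let F : ℕ → Alg n := fun k => ∑ c : Fin k → Fin n,
    (((ρ : ℝ) : ℂ) ^ k * q k fun j => Pi.single (c j) 1) • mono ⟨k, c⟩
  have hF : ∀ k (u : Pd n), ev u (F k) = q k fun _ => ((ρ : ℝ) : ℂ) • u.1 := by
    intro k u
    have h1 : (fun _ : Fin k => ((ρ : ℝ) : ℂ) • u.1) = fun _ : Fin k =>
        ∑ i : Fin n, (((ρ : ℝ) : ℂ) * u.1 i) • (Pi.single i 1 : Fin n → ℂ) := by
      ext j i
      simp [Pi.single_apply]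
    rw [h1, ContinuousMultilinearMap.map_sum, map_sum]
    refine Finset.sum_congr rfl fun c _ => ?_
    rw [ContinuousMultilinearMap.map_smul_univ, map_smul, ev_mono]
    simp only [Finset.prod_mul_distrib, Finset.prod_const, Finset.card_univ, Fintype.card_fin,
      smul_eq_mul]
    ring
  have hs : Summable F := by
    refine Summable.of_norm_bounded (q.summable_norm_mul_pow (hρ.trans_le hq.r_le)) fun k => ?_
    refine norm_le_of_ev fun u => ?_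
    rw [hF]
    refine ((q k).le_opNorm _).trans ?_
    rw [Finset.prod_const, Finset.card_univ, Fintype.card_fin]
    gcongr
    exact norm_smul_pd_le hρ0'.le u
  refine ⟨ρ, hρ0', ∑' k, F k, fun u => ?_⟩
  have h1 := (evL u).hasSum hs.hasSum
  have h2 := hq.hasSum (y := ((ρ : ℝ) : ℂ) • u.1) (by
    rw [Metric.mem_eball, edist_zero_right, ← ofReal_norm]
    refine lt_of_le_of_lt ?_ hρ
    rw [← ENNReal.ofReal_coe_nnreal]
    exact ENNReal.ofReal_le_ofReal (norm_smul_pd_le hρ0'.le u))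
  simp only [evL_apply, hF] at h1
  rw [zero_add] at h2
  exact h1.unique h2

/-- Elements of the algebra vanishing on the rescaled set. -/
def van (ρ : ℝ) (T : Set (Fin n → ℂ)) : Ideal (Alg n) where
  carrier := {f | ∀ u : Pd n, (ρ : ℂ) • u.1 ∈ T → ev u f = 0}
  add_mem' hf hg u hu := by rw [map_add, hf u hu, hg u hu, add_zero]
  zero_mem' u _ := map_zero _
  smul_mem' c f hf u hu := by rw [smul_eq_mul, map_mul, hf u hu, mul_zero]

theorem mem_van {ρ : ℝ} {T : Set (Fin n → ℂ)} {f : Alg n} :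
    f ∈ van ρ T ↔ ∀ u : Pd n, (ρ : ℂ) • u.1 ∈ T → ev u f = 0 := Iff.rfl

/-- The holomorphic hull at radius `ρ`. -/
def hull (ρ : ℝ) (T : Set (Fin n → ℂ)) : Set (Fin n → ℂ) :=
  {z | ‖z‖ ≤ ρ ∧ ∀ f, Hol ρ f → (∀ t ∈ T, ‖t‖ ≤ ρ → f t = 0) → f z = 0}

theorem hull_mono {ρ ρ' : ℝ} {T T' : Set (Fin n → ℂ)} (h0 : 0 < ρ') (h1 : ρ' ≤ ρ) (hT : T' ⊆ T) :
    hull ρ' T' ⊆ hull ρ T := fun _ hz =>
  ⟨hz.1.trans h1, fun f hf h => hz.2 f (hf.shrink h0 h1) fun t ht ht' =>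
    h t (hT ht) (ht'.trans h1)⟩

theorem mem_hull_of_mem {ρ : ℝ} {T : Set (Fin n → ℂ)} {z : Fin n → ℂ} (hz : z ∈ T)
    (h : ‖z‖ ≤ ρ) : z ∈ hull ρ T := ⟨h, fun _ _ hf => hf z hz h⟩

theorem mem_hull_iff {ρ : ℝ} (h0 : 0 < ρ) {T : Set (Fin n → ℂ)} (u : Pd n) :
    (ρ : ℂ) • u.1 ∈ hull ρ T ↔ ∀ F ∈ van ρ T, ev u F = 0 := by
  constructor
  · intro h F hF
    obtain ⟨f, hf⟩ := exists_hol h0 F
    rw [hf]
    refine h.2 f ⟨F, hf⟩ fun t ht ht' => ?_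
    obtain ⟨v, rfl⟩ := exists_pd h0 ht'
    rw [← hf]
    exact hF v ht
  · intro h
    refine ⟨norm_smul_pd_le h0.le u, ?_⟩
    rintro f ⟨F, hF⟩ hf
    rw [← hF]
    exact h F fun v hv => by rw [hF]; exact hf _ hv (norm_smul_pd_le h0.le v)

theorem isClosed_hull {ρ : ℝ} (h0 : 0 < ρ) (T : Set (Fin n → ℂ)) : IsClosed (hull ρ T) := by
  have : hull ρ T = closedBall 0 ρ ∩ ⋂ f : {f : (Fin n → ℂ) → ℂ //
      Hol ρ f ∧ ∀ t ∈ T, ‖t‖ ≤ ρ → f t = 0}, (closedBall 0 ρ ∩ f.1 ⁻¹' {0}) := by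
    ext z
    simp only [hull, Set.mem_ofPred_eq, Set.mem_inter_iff, mem_closedBall_zero_iff,
      Set.mem_iInter, Set.mem_preimage, Set.mem_singleton_iff]
    exact ⟨fun h => ⟨h.1, fun f => ⟨h.1, h.2 f.1 f.2.1 f.2.2⟩⟩,
      fun h => ⟨h.1, fun f h1 h2 => (h.2 ⟨f, h1, h2⟩).2⟩⟩
  rw [this]
  exact isClosed_closedBall.inter (isClosed_iInter fun f =>
    (f.2.1.continuousOn h0).preimage_isClosed_of_isClosed isClosed_closedBall isClosed_singleton)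

theorem isClosed_van (ρ : ℝ) (T : Set (Fin n → ℂ)) : IsClosed (van ρ T : Set (Alg n)) := by
  have : (van ρ T : Set (Alg n)) =
      ⋂ u : {u : Pd n // (ρ : ℂ) • u.1 ∈ T}, {f | ev u.1 f = 0} := by
    ext f
    simp only [SetLike.mem_coe, mem_van, Set.mem_iInter, Set.mem_ofPred_eq]
    exact ⟨fun h u => h u.1 u.2, fun h u hu => h ⟨u, hu⟩⟩
  rw [this]
  exact isClosed_iInter fun u => isClosed_eq (continuous_ev _) continuous_const

theorem zero_mem_hull {ρ : ℝ} (h0 : 0 < ρ) {T : Set (Fin n → ℂ)} (hT : AccPt 0 (𝓟 T)) :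
    (0 : Fin n → ℂ) ∈ hull ρ T := by
  refine (isClosed_hull h0 T).closure_subset ?_
  rw [mem_closure_iff_frequently]
  refine ((accPt_iff_frequently.1 hT).and_eventually (closedBall_mem_nhds 0 h0)).mono ?_
  exact fun z hz => mem_hull_of_mem hz.1.2 (mem_closedBall_zero_iff.1 hz.2)

theorem ev_org_van {ρ : ℝ} (h0 : 0 < ρ) {T : Set (Fin n → ℂ)} (hT : AccPt 0 (𝓟 T)) {F : Alg n}
    (hF : F ∈ van ρ T) : ev (org n) F = 0 := by
  refine (mem_hull_iff h0 (org n)).1 ?_ F hF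
  have : (ρ : ℂ) • (org n).1 = 0 := smul_zero _
  rw [this]
  exact zero_mem_hull h0 hT

theorem map_scl_van (ρ t : ℝ) (ht : |t| ≤ 1) (T : Set (Fin n → ℂ)) :
    (van ρ T).map (scl n t ht) ≤ van (ρ * t) T := by
  rw [Ideal.map_le_iff_le_comap]
  intro f hf
  rw [Ideal.mem_comap, mem_van]
  intro u hu
  rw [ev_scl]
  refine hf _ ?_
  change (ρ : ℂ) • (t : ℂ) • u.1 ∈ T
  rwa [smul_smul, ← Complex.ofReal_mul]

theorem Psd.mono {X : Type} {κ : X → X → ℂ} {T T' : Set X} (h : Psd κ T) (hT : T' ⊆ T) :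
    Psd κ T' := fun ι _ x a hx => h ι x a fun i => hT (hx i)

theorem Psd.comp {X Y : Type} {κ : X → X → ℂ} {T : Set X} (h : Psd κ T) (φ : Y → X) :
    Psd (fun y y' => κ (φ y) (φ y')) (φ ⁻¹' T) := fun ι _ x a hx => h ι (fun i => φ (x i)) a hx

theorem Psd.congr {X : Type} {κ κ' : X → X → ℂ} {T : Set X} (h : Psd κ T)
    (he : ∀ x ∈ T, ∀ y ∈ T, κ x y = κ' x y) : Psd κ' T := by
  intro ι _ x a hx
  have := h ι x a hx
  simpa only [fun i j => he _ (hx i) _ (hx j)] using this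

theorem Psd.mul {X : Type} {κ : X → X → ℂ} {T : Set X} (h : Psd κ T) (φ : X → ℂ) :
    Psd (fun x y => φ x * conj (φ y) * κ x y) T := by
  intro ι _ x a hx
  refine (h ι x (fun i => a i * φ (x i)) hx).trans_eq ?_
  congr 1
  refine Finset.sum_congr rfl fun i _ => Finset.sum_congr rfl fun j _ => ?_
  rw [map_mul]
  ring

theorem sum_rank_one {ι : Type} [Fintype ι] (a γ : ι → ℂ) :
    ∑ i, ∑ j, a i * conj (a j) * (γ i * conj (γ j)) = ((‖∑ i, a i * γ i‖ ^ 2 : ℝ) : ℂ) := by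
  push_cast
  rw [← Complex.mul_conj']
  simp only [map_sum, map_mul, Finset.sum_mul_sum]
  refine Finset.sum_congr rfl fun i _ => Finset.sum_congr rfl fun j _ => ?_
  ring

theorem psd_sub_iff {X : Type} {κ : X → X → ℂ} {γ : X → ℂ} {T : Set X} :
    Psd (fun x y => κ x y - γ x * conj (γ y)) T ↔ ∀ (ι : Type) [Fintype ι] (x : ι → X)
      (a : ι → ℂ), (∀ i, x i ∈ T) →
      ‖∑ i, a i * γ (x i)‖ ^ 2 ≤ (∑ i, ∑ j, a i * conj (a j) * κ (x i) (x j)).re := by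
  refine forall₅_congr fun ι _ x a _ => ?_
  simp only [mul_sub, Finset.sum_sub_distrib, Complex.sub_re, sum_rank_one, Complex.ofReal_re,
    sub_nonneg]

theorem Psd.of_sub {X : Type} {κ : X → X → ℂ} {γ : X → ℂ} {T : Set X}
    (h : Psd (fun x y => κ x y - γ x * conj (γ y)) T) : Psd κ T := fun ι _ x a hx =>
  (sq_nonneg _).trans (psd_sub_iff.1 h ι x a hx)

theorem hilbert_hull {ρ : ℝ} (h : Adm n ρ) {T : Set (Fin n → ℂ)} {γ : (Fin n → ℂ) → ℂ}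
    (hT : Psd (fun x y => kern p x y - γ x * conj (γ y)) T) :
    ∃ g, Hol ρ g ∧ (∀ t ∈ T, ‖t‖ ≤ ρ → g t = γ t) ∧
      Psd (fun x y => kern p x y - g x * conj (g y)) (hull ρ T) := by
  obtain ⟨G, h1, h2⟩ := hilbert_step p h _ (fun u => γ ((ρ : ℂ) • u.1))
    (hT.comp fun u : Pd n => (ρ : ℂ) • u.1)
  obtain ⟨g, hg⟩ := exists_hol h.1 G
  refine ⟨g, ⟨G, hg⟩, fun t ht ht' => ?_, psd_sub_iff.2 fun ι _ x a hx => ?_⟩
  · obtain ⟨u, rfl⟩ := exists_pd h.1 ht'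
    rw [← hg, h1 u ht]
  · choose u hu using fun i => exists_pd h.1 (hx i).1
    have h3 := h2 (∑ i, a i • evL (u i)) fun f hf => by
      have h4 : ∀ i, ev (u i) f = 0 := fun i =>
        (mem_hull_iff h.1 (u i)).1 (by rw [hu]; exact hx i) f hf
      simp [h4]
    rw [beta_eval p h] at h3
    simpa [hg, hu] using h3

theorem psdI_van {ρ : ℝ} (h : Adm n ρ) {T : Set (Fin n → ℂ)} (hT : Psd (kern p) T) :
    PsdI p ρ (van ρ T) := by
  obtain ⟨G, -, h2⟩ := hilbert_step p h _ (fun _ => 0)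
    ((hT.comp fun u : Pd n => (ρ : ℂ) • u.1).congr fun x _ y _ => by simp)
  exact fun l hl => (sq_nonneg _).trans (h2 l hl)

theorem core (hI : IdealFin p d) {T : Set (Fin (d + 1) → ℂ)} (hT : Psd (kern p) T) :
    ∃ ρ, Adm (d + 1) ρ ∧ ∀ ρ', 0 < ρ' → ρ' ≤ ρ → Cof (van ρ' T ⊔ Ideal.span {uu 0}) := by
  obtain ⟨ρ, hρ⟩ := exists_adm (d + 1)
  obtain ⟨N, t, ht, h0, h⟩ := hyper hI hρ (psdI_van hρ hT)
  refine ⟨ρ * t, hρ.mul ht h0, fun ρ' h1 h2 => (cof_mm_pow N).mono ?_⟩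
  have h3 := abs_div_le_one h1 h2
  have h4 : 0 < ρ * t := h1.trans_le h2
  rw [← map_scl_mm _ h3 (div_pos h1 h4), ← Ideal.map_pow]
  refine (Ideal.map_mono (h.trans (sup_le_sup_right (map_scl_van ρ t ht T) _))).trans ?_
  rw [Ideal.map_sup]
  refine sup_le_sup ((map_scl_van _ _ h3 T).trans_eq ?_) (map_scl_span _ h3 0)
  rw [mul_div_cancel₀ _ h4.ne']

theorem herm_cons (a b : ℂ) (z w : Fin n → ℂ) :
    herm (Fin.cons a z : Fin (n + 1) → ℂ) (Fin.cons b w) = a * conj b + herm z w := by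
  simp [herm, Fin.sum_univ_succ]

theorem accPt_off (hP : PtFin p d) {T : Set (Fin (d + 1) → ℂ)} (hT : Psd (kern p) T)
    (h0 : AccPt 0 (𝓟 T)) : AccPt 0 (𝓟 {z | z ∈ T ∧ z 0 ≠ 0}) := by
  have h1 := hP _ 0 ((hT.comp fun w : Fin d → ℂ => Fin.cons 0 w).congr
    (κ' := kern p) fun x _ y _ => by simp [kern, herm_cons])
  rw [accPt_iff_frequently] at h0 h1 ⊢
  rw [not_frequently] at h1
  have h2 : Tendsto (fun z : Fin (d + 1) → ℂ => Fin.tail z) (𝓝 0) (𝓝 0) :=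
    (continuous_pi fun j => continuous_apply j.succ).tendsto' _ _ rfl
  refine (h0.and_eventually (h2.eventually h1)).mono fun z hz => ⟨hz.1.1, hz.1.2, fun h => ?_⟩
  have h3 : Fin.cons 0 (Fin.tail z) = z := by rw [← h]; exact Fin.cons_self_tail z
  refine hz.2 ⟨fun h4 => hz.1.1 ?_, ?_⟩
  · rw [← h3, h4]
    ext i
    exact Fin.cases rfl (fun _ => rfl) i
  · change Fin.cons 0 (Fin.tail z) ∈ T
    rw [h3]; exact hz.1.2

theorem local_surj (hI : IdealFin p d) (hP : PtFin p d) {T : Set (Fin (d + 1) → ℂ)}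
    (hT : Psd (kern p) T) (h0 : AccPt 0 (𝓟 T)) {e : (Fin (d + 1) → ℂ) → ℂ}
    (he : AnalyticAt ℂ e 0) (he0 : e 0 ≠ 0) {ρ : ℝ} (hρ : 0 < ρ) :
    ∃ ε > 0, ∀ c : ℂ, ‖c‖ < ε → ∃ z ∈ hull ρ T, z 0 * e z = c := by
  have hsub : {z | z ∈ T ∧ z 0 ≠ 0} ⊆ T := fun z hz => hz.1
  have hacc := accPt_off hP hT h0
  set T₁ := {z | z ∈ T ∧ z 0 ≠ 0} with hT₁
  obtain ⟨ρ₁, hρ₁, hc⟩ := core hI (hT.mono hsub)
  obtain ⟨ρ₂, hρ₂, hh⟩ := hol_of_analyticAt he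
  have h3 : 0 < min ρ (min ρ₁ ρ₂) := lt_min hρ (lt_min hρ₁.1 hρ₂)
  set ρ₃ := min ρ (min ρ₁ ρ₂) with hρ₃
  obtain ⟨E, hE⟩ := hh.shrink h3 ((min_le_right _ _).trans (min_le_right _ _))
  obtain ⟨t, ht, ht0, hu⟩ := exists_scl_unit E (by
    rw [hE]
    have : (ρ₃ : ℂ) • (org (d + 1)).1 = 0 := smul_zero _
    rwa [this])
  have h4 : 0 < ρ₃ * t := mul_pos h3 ht0
  have h5 : ρ₃ * t ≤ ρ₃ := mul_le_of_le_one_right h3.le ((le_abs_self t).trans ht)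
  have hE' : ∀ u : Pd (d + 1), ev u (scl _ t ht E) = e (((ρ₃ * t : ℝ) : ℂ) • u.1) := fun u => by
    rw [ev_scl, hE]
    change e ((ρ₃ : ℂ) • (t : ℂ) • u.1) = _
    rw [smul_smul, Complex.ofReal_mul]
  have h6 : ((ρ₃ * t : ℝ) : ℂ) ≠ 0 := by exact_mod_cast h4.ne'
  obtain ⟨ε, hε, hne⟩ := ne_top_near (isClosed_van (ρ₃ * t) T₁) (x := uu 0 * scl _ t ht E)
    (fun f hf u hu' => by
      have h7 := hf u hu'
      rw [map_mul, map_mul, ev_uu] at h7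
      have h8 : u.1 0 ≠ 0 := fun h => hu'.2 (by simp [h])
      exact (mul_eq_zero.1 h7).resolve_left (mul_ne_zero h8 (hu.map (ev u)).ne_zero))
    (by
      rw [Ideal.span_singleton_mul_right_unit hu]
      exact hc _ h4 (h5.trans ((min_le_right _ _).trans (min_le_left _ _))))
    (by
      intro htop
      have h7 : van (ρ₃ * t) T₁ ⊔ Ideal.span {uu 0 * scl _ t ht E} ≤
          RingHom.ker (ev (org (d + 1))) := by
        refine sup_le (fun f hf => ev_org_van h4 hacc hf) ?_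
        rw [Ideal.span_singleton_le_iff_mem, RingHom.mem_ker, map_mul, ev_uu]
        exact zero_mul _
      rw [htop] at h7
      have h8 := h7 (Submodule.mem_top (x := 1))
      rw [RingHom.mem_ker, map_one] at h8
      exact one_ne_zero h8)
  refine ⟨ρ₃ * t * ε, mul_pos h4 hε, fun c hc' => ?_⟩
  obtain ⟨u, hz⟩ := exists_common_zero (hne (c / ((ρ₃ * t : ℝ) : ℂ)) (by
    rw [norm_div, Complex.norm_real, Real.norm_of_nonneg h4.le, div_lt_iff₀' h4]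
    exact hc'))
  refine ⟨((ρ₃ * t : ℝ) : ℂ) • u.1, hull_mono h4 (h5.trans (min_le_left _ _)) hsub
    ((mem_hull_iff h4 u).2 fun F hF => hz F (Ideal.mem_sup_left hF)), ?_⟩
  have h7 := hz _ (Ideal.mem_sup_right (Ideal.subset_span rfl))
  rw [map_sub, map_mul, ev_uu, AlgHom.commutes, hE', sub_eq_zero] at h7
  rw [Pi.smul_apply, smul_eq_mul, mul_assoc, h7]
  exact mul_div_cancel₀ _ h6

end Pool.Agent.Lib.MP_078bb2_an
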