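import Mathlib
import Pool.Agent.Lib.MP_078bb2_an.Hol

set_option autoImplicit false

namespace Pool.Agent.Lib.MP_078bb2_an

open Metric Filter Topology ComplexConjugate

variable {d n m : ℕ} {p : ℝ}

theorem tendsto_rpow_zero {α : Type} {L : Filter α} {x : α → ℝ} (hx : Tendsto x L (𝓝 0))
    {δ : ℝ} (hδ : 0 < δ) : Tendsto (fun a => x a ^ δ) L (𝓝 0) := by
  have := (Real.continuousAt_rpow_const 0 δ (Or.inr hδ.le)).tendsto.comp hx
  rwa [Real.zero_rpow hδ.ne'] at this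

theorem dominance {α Q : Type} [Fintype Q] {L : Filter α} [L.NeBot] {x : α → ℝ}
    (hx : Tendsto x L (𝓝 0)) {c e : Q → ℝ} (he : Function.Injective e)
    {K C : ℝ} (hK : ∀ q, e q < K) {t : α → Q → ℂ}
    (h : ∀ᶠ a in L, 0 < x a ∧ (∀ q, ‖t a q‖ = c q * x a ^ e q) ∧ ‖∑ q, t a q‖ ≤ C * x a ^ K)
    (hc : ∀ q, 0 ≤ c q) (q₁ : Q) : c q₁ = 0 := by
  classical
  by_contra hne
  obtain ⟨q₀, hq₀, hmin⟩ := Finset.exists_min_image (Finset.univ.filter fun q => c q ≠ 0) e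
    ⟨q₁, by simpa using hne⟩
  have h0 : 0 < c q₀ := lt_of_le_of_ne (hc q₀) (Ne.symm (by simpa using hq₀))
  have h1 : Tendsto (fun a => C * x a ^ (K - e q₀) +
      ∑ q ∈ Finset.univ.erase q₀, c q * x a ^ (e q - e q₀)) L (𝓝 0) := by
    have h2 : Tendsto (fun a => ∑ q ∈ Finset.univ.erase q₀, c q * x a ^ (e q - e q₀)) L
        (𝓝 (∑ _q ∈ Finset.univ.erase q₀, (0 : ℝ))) := by
      refine tendsto_finsetSum _ fun q hq => ?_
      by_cases hcq : c q = 0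
      · simp [hcq]
      · have h3 : e q₀ < e q := lt_of_le_of_ne (hmin q (by simpa using hcq))
          fun h => (Finset.mem_erase.1 hq).1 (he h).symm
        simpa using (tendsto_rpow_zero hx (sub_pos.2 h3)).const_mul (c q)
    simpa using ((tendsto_rpow_zero hx (sub_pos.2 (hK q₀))).const_mul C).add h2
  have h2 : c q₀ ≤ 0 := by
    refine ge_of_tendsto h1 (h.mono fun a ha => ?_)
    obtain ⟨hp, ht, hs⟩ := ha
    have h3 : t a q₀ = ∑ q, t a q - ∑ q ∈ Finset.univ.erase q₀, t a q := by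
      rw [← Finset.add_sum_erase _ _ (Finset.mem_univ q₀)]; ring
    have h4 : c q₀ * x a ^ e q₀ ≤ C * x a ^ K + ∑ q ∈ Finset.univ.erase q₀, c q * x a ^ e q := by
      rw [← ht, h3]
      refine (norm_sub_le _ _).trans (add_le_add hs ((norm_sum_le _ _).trans_eq ?_))
      exact Finset.sum_congr rfl fun q _ => ht q
    have h5 : 0 < x a ^ e q₀ := Real.rpow_pos_of_pos hp _
    refine le_of_mul_le_mul_right (h4.trans_eq ?_) h5
    rw [add_mul, Finset.sum_mul, mul_assoc, ← Real.rpow_add hp, sub_add_cancel]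
    congr 1
    refine Finset.sum_congr rfl fun q _ => ?_
    rw [mul_assoc, ← Real.rpow_add hp, sub_add_cancel]
  exact absurd h0 (not_lt.2 h2)

theorem newton (hI : IdealFin p d) (hP : PtFin p d) (hp : Irrational p) (hp0 : 0 < p)
    {T : Set (Fin (d + 1) → ℂ)} {γ : (Fin (d + 1) → ℂ) → ℂ}
    (hT : Psd (fun x y => kern p x y - γ x * conj (γ y)) T) (h0 : AccPt 0 (𝓟 T))
    (hγ : ∀ z ∈ T, ‖γ z‖ = ‖z 0‖ ^ p) : False := by
  have hsub : {z | z ∈ T ∧ z 0 ≠ 0} ⊆ T := fun z hz => hz.1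
  have hacc := accPt_off hP hT.of_sub h0
  set T₁ := {z | z ∈ T ∧ z 0 ≠ 0} with hT₁
  obtain ⟨ρ, hρ, hc⟩ := core hI (hT.of_sub.mono hsub)
  obtain ⟨g, ⟨G, hG⟩, hg, -⟩ := hilbert_hull hρ hT
  obtain ⟨ν, hν⟩ := exists_relation (hc ρ hρ.1 le_rfl) G
  obtain ⟨M, hM⟩ := exists_nat_ge (p * ν)
  obtain ⟨r, hr, hrel⟩ := hν (M * ν + 1 + M) (M * ν + 1) (by nlinarith)
  obtain ⟨f, hf, b, hb, hfb⟩ := Submodule.mem_sup.1 hrel
  obtain ⟨H, rfl⟩ := Ideal.mem_span_singleton'.1 hb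
  have hρ0 := hρ.1
  have hρ1 : (ρ : ℂ) ≠ 0 := by exact_mod_cast hρ0.ne'
  have : (𝓝[≠] (0 : Fin (d + 1) → ℂ) ⊓ 𝓟 T₁).NeBot := hacc
  have hx : Tendsto (fun z : Fin (d + 1) → ℂ => ‖z 0‖) (𝓝[≠] 0 ⊓ 𝓟 T₁) (𝓝 0) :=
    (((continuous_apply 0).norm.tendsto' (0 : Fin (d + 1) → ℂ) 0 (by simp)).mono_left
      nhdsWithin_le_nhds).mono_left inf_le_left
  apply hr
  ext q₁
  have key := dominance hx (c := fun q : Fin (M * ν + 1) × Fin (ν + 1) => ‖r q‖ / ρ ^ (q.1 : ℕ))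
    (e := fun q => (q.1 : ℕ) + p * (q.2 : ℕ)) (K := (M * ν + 1 + M : ℕ))
    (C := ‖H‖ / ρ ^ (M * ν + 1 + M))
    (t := fun z q => r q * ((z 0 / ρ) ^ (q.1 : ℕ) * γ z ^ (q.2 : ℕ))) ?_ ?_ ?_
    (fun q => by positivity) q₁
  · simpa [hρ0.ne'] using key
  · rintro ⟨i, j⟩ ⟨i', j'⟩ h
    simp only at h
    have hj : (j : ℕ) = j' := by
      by_contra hne
      have h1 : ((j : ℕ) : ℤ) - (j' : ℕ) ≠ 0 := by omega
      have h2 := hp.mul_intCast h1
      apply h2.ne_int (((i' : ℕ) : ℤ) - (i : ℕ))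
      push_cast
      linarith
    have hi : (i : ℕ) = i' := by
      rw [hj] at h
      exact_mod_cast add_right_cancel h
    exact Prod.ext (Fin.ext hi) (Fin.ext hj)
  · rintro ⟨i, j⟩
    have h1 : ((i : ℕ) : ℝ) ≤ M * ν := by exact_mod_cast Nat.lt_succ_iff.1 i.2
    have h2 : ((j : ℕ) : ℝ) ≤ ν := by exact_mod_cast Nat.lt_succ_iff.1 j.2
    push_cast
    nlinarith
  · have h1 : ∀ᶠ z in 𝓝[≠] (0 : Fin (d + 1) → ℂ) ⊓ 𝓟 T₁, z ∈ T₁ :=
      mem_inf_of_right (mem_principal_self _)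
    have h2 : ∀ᶠ z in 𝓝[≠] (0 : Fin (d + 1) → ℂ) ⊓ 𝓟 T₁, z ∈ closedBall 0 ρ :=
      mem_inf_of_left (mem_nhdsWithin_of_mem_nhds (closedBall_mem_nhds _ hρ0))
    refine (h1.and h2).mono fun z hz => ?_
    have h3 : 0 < ‖z 0‖ := norm_pos_iff.2 hz.1.2
    have h4 := mem_closedBall_zero_iff.1 hz.2
    refine ⟨h3, fun q => ?_, ?_⟩
    · rw [norm_mul, norm_mul, norm_pow, norm_pow, norm_div, hγ z hz.1.1, Complex.norm_real,
        Real.norm_of_nonneg hρ0.le, Real.rpow_add h3, Real.rpow_natCast, Real.rpow_mul h3.le,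
        Real.rpow_natCast, div_pow]
      ring
    · obtain ⟨u, rfl⟩ := exists_pd hρ0 h4
      have h5 := congrArg (ev u) hfb
      rw [map_add, hf u hz.1, zero_add, map_sum, map_mul, map_pow, ev_uu] at h5
      simp only [map_smul, map_mul, map_pow, ev_uu, hG, hg _ hz.1.1 h4, smul_eq_mul] at h5
      have h6 : ((ρ : ℂ) • u.1) 0 / ρ = u.1 0 := by
        rw [Pi.smul_apply, smul_eq_mul, mul_div_cancel_left₀ _ hρ1]
      rw [h6, ← h5, norm_mul, norm_pow, Real.rpow_natCast, Pi.smul_apply, norm_smul,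
        Complex.norm_real, Real.norm_of_nonneg hρ0.le, mul_pow, ← mul_assoc,
        div_mul_cancel₀ _ (by positivity)]
      gcongr
      exact norm_ev_le u H

end Pool.Agent.Lib.MP_078bb2_an
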