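import Mathlib
import Pool.Agent.Lib.MP_078bb2_an.Newton

set_option autoImplicit false

namespace Pool.Agent.Lib.MP_078bb2_an

open Metric Filter Topology ComplexConjugate

variable {d n m : ℕ} {p : ℝ}

theorem cpow_mul_of_re_pos {x y : ℂ} (hx : 0 < x.re) (hy : 0 < y.re) (w : ℂ) :
    (x * y) ^ w = x ^ w * y ^ w := by
  have hx0 : x ≠ 0 := fun h => by simp [h] at hx
  have hy0 : y ≠ 0 := fun h => by simp [h] at hy
  have h1 := abs_lt.1 (Complex.abs_arg_lt_pi_div_two_iff.2 (Or.inl hx))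
  have h2 := abs_lt.1 (Complex.abs_arg_lt_pi_div_two_iff.2 (Or.inl hy))
  rw [Complex.cpow_def_of_ne_zero (mul_ne_zero hx0 hy0), Complex.cpow_def_of_ne_zero hx0,
    Complex.cpow_def_of_ne_zero hy0, Complex.log_mul hx0 hy0 ⟨by linarith, by linarith⟩, add_mul,
    Complex.exp_add]

theorem conj_cpow_of_re_pos {x : ℂ} (hx : 0 < x.re) (p : ℝ) :
    conj x ^ (p : ℂ) = conj (x ^ (p : ℂ)) := by
  have h1 := abs_lt.1 (Complex.abs_arg_lt_pi_div_two_iff.2 (Or.inl hx))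
  rw [Complex.conj_cpow _ _ (by linarith [Real.pi_pos]), Complex.conj_ofReal]

/-- Space of homogeneous coordinates. -/
abbrev Eh (n : ℕ) : Type := EuclideanSpace ℂ (Fin (n + 1))

/-- Homogenisation. -/
def hom (z : Fin n → ℂ) : Eh n := WithLp.toLp 2 (Fin.cons 1 z)

@[simp] theorem hom_zero (z : Fin n → ℂ) : hom z 0 = 1 := rfl
@[simp] theorem hom_succ (z : Fin n → ℂ) (j : Fin n) : hom z j.succ = z j := rfl

theorem inner_hom (z w : Fin n → ℂ) : inner ℂ (hom w) (hom z) = 1 + herm z w := by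
  simp [PiLp.inner_apply, Fin.sum_univ_succ, herm]

theorem hom_org : hom (0 : Fin n → ℂ) = EuclideanSpace.single 0 1 := by
  ext i
  refine Fin.cases (by simp) (fun j => by simp) i

theorem hom_ne_zero (z : Fin n → ℂ) : hom z ≠ 0 := fun h => by
  have := congrArg (fun v : Eh n => v 0) h
  simp at this

theorem analyticAt_hom (z : Fin n → ℂ) : AnalyticAt ℂ hom z := by
  have h1 : AnalyticAt ℂ (fun z : Fin n → ℂ => fun i => (Fin.cons 1 z : Fin (n + 1) → ℂ) i) z := by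
    refine AnalyticAt.pi fun i => ?_
    refine Fin.cases ?_ (fun j => ?_) i
    · exact analyticAt_const
    · exact (ContinuousLinearMap.proj (R := ℂ) (φ := fun _ : Fin n => ℂ) j).analyticAt z
  exact ((PiLp.continuousLinearEquiv 2 ℂ fun _ : Fin (n + 1) => ℂ).symm.analyticAt _).comp h1

theorem analyticAt_inner_hom (U : Eh n ≃ₗᵢ[ℂ] Eh n) (η : Eh n) (z : Fin n → ℂ) :
    AnalyticAt ℂ (fun z => inner ℂ η (U (hom z))) z :=
  ((innerSL ℂ η).analyticAt _).comp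
    ((U.toContinuousLinearEquiv.analyticAt _).comp (analyticAt_hom z))

theorem analyticAt_coord (U : Eh n ≃ₗᵢ[ℂ] Eh n) (i : Fin (n + 1)) (z : Fin n → ℂ) :
    AnalyticAt ℂ (fun z => U (hom z) i) z := by
  have := analyticAt_inner_hom U (EuclideanSpace.single i 1) z
  simpa only [EuclideanSpace.inner_single_left, map_one, one_mul] using this

/-- Denominator of the chart change. -/
noncomputable def lam (U : Eh n ≃ₗᵢ[ℂ] Eh n) (z : Fin n → ℂ) : ℂ := U (hom z) 0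

/-- The chart change. -/
noncomputable def Phi (U : Eh n ≃ₗᵢ[ℂ] Eh n) (z : Fin n → ℂ) : Fin n → ℂ :=
  fun j => U (hom z) j.succ / lam U z

theorem analyticAt_lam (U : Eh n ≃ₗᵢ[ℂ] Eh n) (z : Fin n → ℂ) : AnalyticAt ℂ (lam U) z :=
  analyticAt_coord U 0 z

theorem analyticAt_Phi_apply {U : Eh n ≃ₗᵢ[ℂ] Eh n} {z : Fin n → ℂ} (h : lam U z ≠ 0) (j : Fin n) :
    AnalyticAt ℂ (fun z => Phi U z j) z :=
  (analyticAt_coord U j.succ z).div (analyticAt_lam U z) h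

theorem analyticAt_Phi {U : Eh n ≃ₗᵢ[ℂ] Eh n} {z : Fin n → ℂ} (h : lam U z ≠ 0) :
    AnalyticAt ℂ (Phi U) z := AnalyticAt.pi (analyticAt_Phi_apply h)

theorem smul_hom_Phi {U : Eh n ≃ₗᵢ[ℂ] Eh n} {z : Fin n → ℂ} (h : lam U z ≠ 0) :
    U (hom z) = lam U z • hom (Phi U z) := by
  ext i
  refine Fin.cases ?_ (fun j => ?_) i
  · simp [lam]
  · simp [Phi, mul_div_cancel₀ _ h]

theorem lam_eq_of {U : Eh n ≃ₗᵢ[ℂ] Eh n} {z a : Fin n → ℂ} {c : ℂ} (h : U (hom z) = c • hom a) :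
    lam U z = c := by
  simp [lam, h]

theorem Phi_eq_of {U : Eh n ≃ₗᵢ[ℂ] Eh n} {z a : Fin n → ℂ} {c : ℂ} (hc : c ≠ 0)
    (h : U (hom z) = c • hom a) : Phi U z = a := by
  ext j
  simp [Phi, lam_eq_of h, h, hc]

theorem symm_hom {U : Eh n ≃ₗᵢ[ℂ] Eh n} {z a : Fin n → ℂ} {c : ℂ} (hc : c ≠ 0)
    (h : U (hom z) = c • hom a) : U.symm (hom a) = c⁻¹ • hom z := by
  rw [← U.symm_apply_apply (hom z), h, map_smul, inv_smul_smul₀ hc]

theorem Phi_Phi {U : Eh n ≃ₗᵢ[ℂ] Eh n} {z : Fin n → ℂ} (h : lam U.symm z ≠ 0) :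
    Phi U (Phi U.symm z) = z :=
  Phi_eq_of (inv_ne_zero h) (symm_hom (U := U.symm) h (smul_hom_Phi h))

theorem accPt_chart {U : Eh n ≃ₗᵢ[ℂ] Eh n} {a : Fin n → ℂ} {c : ℂ} (hc : c ≠ 0)
    (h : U (hom 0) = c • hom a) {Z : Set (Fin n → ℂ)} (hZ : AccPt a (𝓟 Z))
    {V : Set (Fin n → ℂ)} (hV : V ∈ 𝓝 0) : AccPt 0 (𝓟 (V ∩ Phi U ⁻¹' Z)) := by
  have h1 := symm_hom hc h
  have h2 : lam U.symm a ≠ 0 := by rw [lam_eq_of h1]; exact inv_ne_zero hc
  have h3 : Tendsto (Phi U.symm) (𝓝 a) (𝓝 0) := by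
    have := (analyticAt_Phi h2).continuousAt.tendsto
    rwa [Phi_eq_of (inv_ne_zero hc) h1] at this
  have h4 : ∀ᶠ z in 𝓝 a, lam U.symm z ≠ 0 :=
    (analyticAt_lam U.symm a).continuousAt.eventually_ne h2
  rw [accPt_iff_frequently] at hZ ⊢
  refine h3.frequently ((hZ.and_eventually (h4.and (h3.eventually hV))).mono fun z hz => ?_)
  obtain ⟨⟨h5, h6⟩, h7, h8⟩ := hz
  refine ⟨fun h9 => h5 ?_, h8, ?_⟩
  · rw [← Phi_Phi h7, h9, Phi_eq_of hc h]
  · change Phi U (Phi U.symm z) ∈ Z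
    rwa [Phi_Phi h7]

theorem herm_self_re (a : Fin n → ℂ) : 0 ≤ (herm a a).re := by
  rw [herm, Complex.re_sum]
  exact Finset.sum_nonneg fun i _ => by rw [Complex.mul_conj]; simpa using Complex.normSq_nonneg _

theorem continuous_herm : Continuous fun x : (Fin n → ℂ) × (Fin n → ℂ) => herm x.1 x.2 := by
  unfold herm
  fun_prop

theorem one_add_herm_chart {U : Eh n ≃ₗᵢ[ℂ] Eh n} {z w : Fin n → ℂ} (hz : lam U z ≠ 0)
    (hw : lam U w ≠ 0) :
    1 + herm z w = lam U z * conj (lam U w) * (1 + herm (Phi U z) (Phi U w)) := by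
  rw [← inner_hom, ← U.inner_map_map, smul_hom_Phi hz, smul_hom_Phi hw, inner_smul_left,
    inner_smul_right, inner_hom]
  ring

theorem kern_chart {U : Eh n ≃ₗᵢ[ℂ] Eh n} (h : 0 < (lam U 0).re) (p : ℝ) :
    ∃ V ∈ 𝓝 (0 : Fin n → ℂ), (∀ z ∈ V, 0 < (lam U z).re) ∧ ∀ z ∈ V, ∀ w ∈ V,
      kern p z w = lam U z ^ (p : ℂ) * conj (lam U w ^ (p : ℂ)) * kern p (Phi U z) (Phi U w) := by
  have h0 : lam U 0 ≠ 0 := fun h' => by simp [h'] at h
  have hl := (analyticAt_lam U 0).continuousAt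
  have hΦ := (analyticAt_Phi h0).continuousAt
  have h1 : ∀ᶠ z in 𝓝 (0 : Fin n → ℂ), 0 < (lam U z).re :=
    (Complex.continuous_re.continuousAt.comp hl).eventually (lt_mem_nhds h)
  have hf : ContinuousAt (Prod.fst : (Fin n → ℂ) × (Fin n → ℂ) → _) (0, 0) := continuousAt_fst
  have hs : ContinuousAt (Prod.snd : (Fin n → ℂ) × (Fin n → ℂ) → _) (0, 0) := continuousAt_snd
  have h2 : ∀ᶠ x : (Fin n → ℂ) × (Fin n → ℂ) in 𝓝 (0, 0),
      0 < (lam U x.1 * conj (lam U x.2)).re := by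
    have : ContinuousAt (fun x : (Fin n → ℂ) × (Fin n → ℂ) =>
        (lam U x.1 * conj (lam U x.2)).re) (0, 0) :=
      Complex.continuous_re.continuousAt.comp ((hl.comp_of_eq hf rfl).mul
        (Complex.continuous_conj.continuousAt.comp (hl.comp_of_eq hs rfl)))
    refine this.eventually (lt_mem_nhds ?_)
    change 0 < (lam U 0 * conj (lam U 0)).re
    rw [Complex.mul_conj, Complex.ofReal_re]
    exact Complex.normSq_pos.2 h0
  have h3 : ∀ᶠ x : (Fin n → ℂ) × (Fin n → ℂ) in 𝓝 (0, 0),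
      0 < (1 + herm (Phi U x.1) (Phi U x.2)).re := by
    have : ContinuousAt (fun x : (Fin n → ℂ) × (Fin n → ℂ) =>
        (1 + herm (Phi U x.1) (Phi U x.2)).re) (0, 0) :=
      Complex.continuous_re.continuousAt.comp (continuousAt_const.add
        (continuous_herm.continuousAt.comp (f := fun x : (Fin n → ℂ) × (Fin n → ℂ) =>
          (Phi U x.1, Phi U x.2)) ((hΦ.comp_of_eq hf rfl).prodMk (hΦ.comp_of_eq hs rfl))))
    refine this.eventually (lt_mem_nhds ?_)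
    have := herm_self_re (Phi U 0)
    change 0 < (1 + herm (Phi U 0) (Phi U 0)).re
    rw [Complex.add_re, Complex.one_re]
    linarith
  have h4 := h2.and h3
  rw [nhds_prod_eq, eventually_prod_self_iff'] at h4
  obtain ⟨V, hV, h5⟩ := h4
  refine ⟨V ∩ {z | 0 < (lam U z).re}, inter_mem hV h1, fun z hz => hz.2, fun z hz w hw => ?_⟩
  have hz0 : lam U z ≠ 0 := fun h' => by simpa [h'] using hz.2
  have hw0 : lam U w ≠ 0 := fun h' => by simpa [h'] using hw.2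
  obtain ⟨h6, h7⟩ := h5 z hz.1 w hw.1
  rw [kern, kern, one_add_herm_chart hz0 hw0, cpow_mul_of_re_pos h6 h7,
    cpow_mul_of_re_pos hz.2 (by simpa using hw.2), conj_cpow_of_re_pos hw.2]

theorem exists_frame {f₀ f₁ : Eh (d + 1)} (h0 : ‖f₀‖ = 1) (h1 : ‖f₁‖ = 1)
    (h01 : inner ℂ f₀ f₁ = 0) : ∃ U : Eh (d + 1) ≃ₗᵢ[ℂ] Eh (d + 1), U (hom 0) = f₀ ∧
      ∀ z, inner ℂ f₀ (U (hom z)) = 1 ∧ inner ℂ f₁ (U (hom z)) = z 0 := by
  classical
  let v : Fin (d + 2) → Eh (d + 1) := Fin.cons f₀ fun _ => f₁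
  have hv : Orthonormal ℂ (({0, Fin.succ 0} : Set (Fin (d + 2))).domRestrict v) := by
    rw [orthonormal_iff_ite]
    rintro ⟨i, hi⟩ ⟨j, hj⟩
    have h10 : inner ℂ f₁ f₀ = 0 := inner_eq_zero_symm.1 h01
    rcases hi with rfl | rfl <;> rcases hj with rfl | rfl
    · simp [v, inner_self_eq_norm_sq_to_K, h0]
    · simp [v, h01]
    · simp [v, h10]
    · simp [v, inner_self_eq_norm_sq_to_K, h1]
  obtain ⟨b, hb⟩ := hv.exists_orthonormalBasis_extension_of_card_eq (by simp)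
  have hb0 : b 0 = f₀ := hb 0 (by simp)
  have hb1 : b (Fin.succ 0) = f₁ := hb _ (by simp)
  refine ⟨b.repr.symm, by rw [hom_org, b.repr_symm_single, hb0], fun z => ⟨?_, ?_⟩⟩
  · rw [← hb0, ← b.repr_apply_apply, b.repr.apply_symm_apply, hom_zero]
  · rw [← hb1, ← b.repr_apply_apply, b.repr.apply_symm_apply, hom_succ]

end Pool.Agent.Lib.MP_078bb2_an
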