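import Mathlib
import Pool.Agent.Lib.MP_078bb2_an.Chart

set_option autoImplicit false

namespace Pool.Agent.Lib.MP_078bb2_an

open Metric Filter Topology ComplexConjugate

variable {d n m : ℕ} {p : ℝ}

/-- The affine function attached to the parameter `s`. -/
noncomputable def aff (s : ℝ) (z : Fin (d + 1) → ℂ) : ℂ := (s : ℂ) + (√(1 - s ^ 2) : ℝ) * z 0

/-- Configurations with parameter `s`. -/
def Conf (p : ℝ) (d : ℕ) (s : ℝ) : Prop :=
  ∃ T : Set (Fin (d + 1) → ℂ), AccPt 0 (𝓟 T) ∧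
    Psd (fun z w => kern p z w - aff s z ^ (p : ℂ) * conj (aff s w ^ (p : ℂ))) T

theorem not_conf_zero (hI : IdealFin p d) (hP : PtFin p d) (hp : Irrational p) (hp0 : 0 < p) :
    ¬ Conf p d 0 := by
  rintro ⟨T, h0, hT⟩
  exact newton hI hP hp hp0 hT h0 fun z _ => by simp [aff, Complex.norm_cpow_real]

theorem one_le_norm_hom (a : Fin n → ℂ) : 1 ≤ ‖hom a‖ := by
  simpa using PiLp.norm_apply_le (hom a) 0

theorem recenter {Z : Set (Fin (d + 1) → ℂ)} {a : Fin (d + 1) → ℂ} (hZ : AccPt a (𝓟 Z))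
    {η : Eh (d + 1)} (hη : ‖η‖ = 1) (hre : 0 < (inner ℂ η (hom a)).re)
    (hlt : ‖inner ℂ η (hom a)‖ < ‖hom a‖)
    (hT : Psd (fun z w => kern p z w -
      inner ℂ η (hom z) ^ (p : ℂ) * conj (inner ℂ η (hom w) ^ (p : ℂ))) Z) :
    Conf p d (‖inner ℂ η (hom a)‖ / ‖hom a‖) := by
  set θ := inner ℂ η (hom a) with hθ
  have hθ0 : θ ≠ 0 := fun h => by simp [h] at hre
  have hθ1 : 0 < ‖θ‖ := norm_pos_iff.2 hθ0
  have hN : 0 < ‖hom a‖ := norm_pos_iff.2 (hom_ne_zero a)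
  set s := ‖θ‖ / ‖hom a‖ with hs
  have hs0 : 0 < s := div_pos hθ1 hN
  have hs1 : s < 1 := (div_lt_one hN).2 hlt
  have hb2 : 0 < 1 - s ^ 2 := by nlinarith
  set b := √(1 - s ^ 2) with hb
  have hb0 : 0 < b := Real.sqrt_pos.2 hb2
  have hbb : b ^ 2 = 1 - s ^ 2 := Real.sq_sqrt hb2.le
  set c : ℂ := conj θ * (((‖θ‖ * ‖hom a‖)⁻¹ : ℝ) : ℂ) with hc
  have hcre : 0 < c.re := by
    rw [hc, Complex.re_mul_ofReal, Complex.conj_re]
    positivity
  have hc0 : c ≠ 0 := fun h => by simp [h] at hcre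
  have hf0 : ‖c • hom a‖ = 1 := by
    rw [norm_smul, hc, norm_mul, Complex.norm_conj, Complex.norm_real,
      Real.norm_of_nonneg (by positivity)]
    field_simp
  have h1 : inner ℂ η (c • hom a) = s := by
    rw [inner_smul_right, ← hθ, hc, mul_right_comm, Complex.conj_mul', hs]
    have : (‖θ‖ : ℂ) ≠ 0 := by exact_mod_cast hθ1.ne'
    push_cast
    field_simp
  have h2 : inner ℂ (c • hom a) η = s := by
    rw [← inner_conj_symm, h1, Complex.conj_ofReal]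
  have h3 : inner ℂ (c • hom a) (c • hom a) = 1 := by
    rw [inner_self_eq_norm_sq_to_K, hf0]; simp
  have h4 : inner ℂ η η = 1 := by
    rw [inner_self_eq_norm_sq_to_K, hη]; simp
  have hbc : (b : ℂ) ≠ 0 := by exact_mod_cast hb0.ne'
  generalize hf : c • hom a = f₀ at *
  have hf1 : ‖(b : ℂ)⁻¹ • (η - (s : ℂ) • f₀)‖ = 1 := by
    have h5 : inner ℂ (η - (s : ℂ) • f₀) (η - (s : ℂ) • f₀) = ((b ^ 2 : ℝ) : ℂ) := by
      rw [inner_sub_left, inner_sub_right, inner_sub_right, inner_smul_left, inner_smul_left,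
        inner_smul_right, inner_smul_right, h1, h2, h3, h4, hbb, Complex.conj_ofReal]
      push_cast
      ring
    rw [inner_self_eq_norm_sq_to_K] at h5
    have h6 : ‖η - (s : ℂ) • f₀‖ ^ 2 = b ^ 2 := by
      apply Complex.ofReal_injective
      rw [← h5, Complex.ofReal_pow]
      rfl
    rw [norm_smul, norm_inv, Complex.norm_real, Real.norm_of_nonneg hb0.le,
      (pow_left_inj₀ (norm_nonneg _) hb0.le two_ne_zero).1 h6, inv_mul_cancel₀ hb0.ne']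
  obtain ⟨U, hU0, hU⟩ := exists_frame hf0 hf1 (by
    rw [inner_smul_right, inner_sub_right, inner_smul_right, h2, h3]; simp)
  have hU1 : ∀ z, inner ℂ η (U (hom z)) = aff s z := by
    intro z
    have h5 := (hU z).2
    rw [inner_smul_left, inner_sub_left, inner_smul_left, (hU z).1, map_inv₀,
      Complex.conj_ofReal, Complex.conj_ofReal, inv_mul_eq_iff_eq_mul₀ hbc] at h5
    rw [aff, ← hb]
    linear_combination h5
  rw [← hf] at hU0
  have hl : lam U 0 = c := lam_eq_of hU0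
  obtain ⟨V, hV, hV1, hV2⟩ := kern_chart (U := U) (by rwa [hl]) p
  have hW : ∀ᶠ z in 𝓝 (0 : Fin (d + 1) → ℂ), 0 < (inner ℂ η (hom (Phi U z))).re := by
    have : ContinuousAt (fun z => (inner ℂ η (hom (Phi U z))).re) 0 :=
      Complex.continuous_re.continuousAt.comp (continuousAt_const.inner
        ((analyticAt_hom _).continuousAt.comp (analyticAt_Phi (by rwa [hl])).continuousAt))
    refine this.eventually (lt_mem_nhds ?_)
    change 0 < (inner ℂ η (hom (Phi U 0))).re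
    rwa [Phi_eq_of hc0 hU0]
  have hg : ∀ z ∈ V, 0 < (inner ℂ η (hom (Phi U z))).re →
      aff s z ^ (p : ℂ) = lam U z ^ (p : ℂ) * inner ℂ η (hom (Phi U z)) ^ (p : ℂ) := by
    intro z hz hz'
    have h5 : lam U z ≠ 0 := fun h => by simpa [h] using hV1 z hz
    rw [← hU1, smul_hom_Phi h5, inner_smul_right, cpow_mul_of_re_pos (hV1 z hz) hz']
  refine ⟨_, accPt_chart hc0 hU0 hZ (inter_mem hV hW), ?_⟩
  refine (((hT.comp (Phi U)).mul fun z => lam U z ^ (p : ℂ)).mono Set.inter_subset_right).congr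
    fun z hz w hw => ?_
  rw [hV2 z hz.1.1 w hw.1.1, hg z hz.1.1 hz.1.2, hg w hw.1.1 hw.1.2, map_mul]
  ring

theorem eventually_hol {f : (Fin n → ℂ) → ℂ} (h : AnalyticAt ℂ f 0) :
    ∀ᶠ ρ in 𝓝[>] (0 : ℝ), Hol ρ f := by
  obtain ⟨ρ, hρ, hf⟩ := hol_of_analyticAt h
  filter_upwards [Ioc_mem_nhdsGT hρ] with r hr using hf.shrink hr.1 hr.2

theorem local_step (hI : IdealFin p d) (hP : PtFin p d) {Z : Set (Fin (d + 1) → ℂ)}
    (hT : Psd (kern p) Z) {a : Fin (d + 1) → ℂ} (hZ : AccPt a (𝓟 Z))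
    {g : (Fin (d + 1) → ℂ) → ℂ} (hg : AnalyticAt ℂ g a) {ρ : ℝ} (hρ : ‖a‖ < ρ)
    {V : Set (Fin (d + 1) → ℂ)} (hV : V ∈ 𝓝 a) :
    ∃ ε > 0, ∀ c : ℂ, ‖c‖ < ε → ∃ z ∈ V, z 0 = a 0 + c ∧ z ∈ hull ρ Z ∧
      ∀ f, Hol ρ f → (∀ t ∈ Z, ‖t‖ ≤ ρ → f t = g t) → f z = g z := by
  have hρ0 : 0 < ρ := (norm_nonneg a).trans_lt hρ
  let ν : Eh (d + 1) := EuclideanSpace.single (Fin.succ 0) 1 - EuclideanSpace.single 0 (conj (a 0))
  have hν : ∀ v : Eh (d + 1), inner ℂ ν v = v (Fin.succ 0) - a 0 * v 0 := fun v => by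
    simp only [ν, inner_sub_left, EuclideanSpace.inner_single_left, map_one, one_mul,
      Complex.conj_conj]
  have hν0 : ν ≠ 0 := fun h => by
    have := hν (EuclideanSpace.single (Fin.succ 0) 1)
    rw [h] at this
    simp at this
  have hν1 : (‖ν‖ : ℂ) ≠ 0 := by exact_mod_cast norm_ne_zero_iff.2 hν0
  have hN : 0 < ‖hom a‖ := norm_pos_iff.2 (hom_ne_zero a)
  have hc0 : (‖hom a‖ : ℂ)⁻¹ ≠ 0 := inv_ne_zero (by exact_mod_cast hN.ne')
  obtain ⟨U, hU0, hU⟩ := exists_frame (norm_smul_inv_norm (𝕜 := ℂ) (hom_ne_zero a))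
    (norm_smul_inv_norm (𝕜 := ℂ) hν0) (by
      rw [inner_eq_zero_symm, inner_smul_left, inner_smul_right, hν, hom_succ, hom_zero]; simp)
  have hU0' : U (hom 0) = (‖hom a‖ : ℂ)⁻¹ • hom a := hU0
  have hl := lam_eq_of hU0'
  have hl0 : lam U 0 ≠ 0 := by rwa [hl]
  have hΦ := Phi_eq_of hc0 hU0'
  obtain ⟨W, hW, hW1, hW2⟩ := kern_chart (U := U) (by
    rw [hl, ← Complex.ofReal_inv, Complex.ofReal_re]; positivity) p
  have hT' : Psd (kern p) (W ∩ Phi U ⁻¹' Z) :=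
    (((hT.comp (Phi U)).mul fun z => lam U z ^ (p : ℂ)).mono Set.inter_subset_right).congr
      fun z hz w hw => (hW2 z hz.1 w hw.1).symm
  have h1 : W ∩ Phi U ⁻¹' (V ∩ closedBall 0 ρ) ∈ 𝓝 (0 : Fin (d + 1) → ℂ) := by
    refine inter_mem hW ((analyticAt_Phi hl0).continuousAt.preimage_mem_nhds ?_)
    rw [hΦ]
    exact inter_mem hV (closedBall_mem_nhds_of_mem (mem_ball_zero_iff.2 hρ))
  have h2 : ∀ᶠ r in 𝓝[>] (0 : ℝ), closedBall 0 r ⊆ W ∩ Phi U ⁻¹' (V ∩ closedBall 0 ρ) :=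
    mem_nhdsWithin_of_mem_nhds (eventually_closedBall_subset h1)
  have h3 : ∀ᶠ r in 𝓝[>] (0 : ℝ), ∀ i, Hol r fun z => Phi U z i :=
    eventually_all.2 fun i => eventually_hol (analyticAt_Phi_apply hl0 i)
  have h4 : ∀ᶠ r in 𝓝[>] (0 : ℝ), Hol r fun z => g (Phi U z) :=
    eventually_hol (hg.comp_of_eq (analyticAt_Phi hl0) hΦ)
  obtain ⟨r, hr0, hr2, hr3, hr4⟩ := (eventually_mem_nhdsWithin.and (h2.and (h3.and h4))).exists
  have hr0' : 0 < r := hr0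
  have hb : ∀ z, ‖z‖ ≤ r → ‖Phi U z‖ ≤ ρ := fun z hz =>
    mem_closedBall_zero_iff.1 (hr2 (mem_closedBall_zero_iff.2 hz)).2.2
  obtain ⟨ε, hε, h⟩ := local_surj hI hP hT' (accPt_chart hc0 hU0' hZ hW)
    (e := fun z => (‖ν‖ : ℂ) / lam U z) (analyticAt_const.div (analyticAt_lam U 0) hl0)
    (div_ne_zero hν1 hl0) hr0'
  refine ⟨ε, hε, fun c hc => ?_⟩
  obtain ⟨z, hz, hzc⟩ := h c hc
  have h5 := hr2 (mem_closedBall_zero_iff.2 hz.1)
  have h6 : lam U z ≠ 0 := fun h => by simpa [h] using hW1 z h5.1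
  refine ⟨Phi U z, h5.2.1, ?_, ⟨hb z hz.1, fun f hf hf0 => ?_⟩, fun f hf hf0 => ?_⟩
  · have h7 := (hU z).2
    rw [inner_smul_left, smul_hom_Phi h6, inner_smul_right, hν, hom_succ, hom_zero] at h7
    have h8 : conj ((‖ν‖ : ℂ)⁻¹) = (‖ν‖ : ℂ)⁻¹ := by rw [map_inv₀, Complex.conj_ofReal]
    change conj ((‖ν‖ : ℂ)⁻¹) * _ = _ at h7
    rw [h8] at h7
    rw [← hzc, ← h7]
    field_simp
    ring
  · exact hz.2 _ (hf.comp hρ0 hr0'.le hr3 hb) fun t ht ht' => hf0 _ ht.2 (hb t ht')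
  · exact sub_eq_zero.1 (hz.2 _ ((hf.comp hρ0 hr0'.le hr3 hb).sub hr4) fun t ht ht' =>
      sub_eq_zero.2 (hf0 _ ht.2 (hb t ht')))

theorem acc_step {Z K : Set (Fin (d + 1) → ℂ)} (hK : IsCompact K) {a₀ : ℂ} {ε : ℝ}
    (h : ∀ c : ℂ, ‖c‖ < ε → ∃ z ∈ K, z 0 = a₀ + c ∧ z ∈ Z) {c : ℂ} (hc : ‖c‖ < ε) :
    ∃ z ∈ K, z 0 = a₀ + c ∧ AccPt z (𝓟 Z) := by
  choose! ζ h1 h2 h3 using h
  have h4 : ∀ᶠ c' in 𝓝[≠] c, ‖c'‖ < ε :=
    mem_nhdsWithin_of_mem_nhds (continuous_norm.continuousAt.eventually (gt_mem_nhds hc))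
  obtain ⟨x, hx, h5⟩ := hK.exists_mapClusterPt (f := 𝓝[≠] c) (u := ζ)
    (le_principal_iff.2 (h4.mono fun c' hc' => h1 c' hc'))
  have h6 : x 0 = a₀ + c := by
    have h7 : Tendsto (fun c' => ζ c' 0) (𝓝[≠] c) (𝓝 (a₀ + c)) :=
      ((continuous_const.add continuous_id).tendsto c |>.mono_left nhdsWithin_le_nhds).congr'
        (h4.mono fun c' hc' => (h2 c' hc').symm)
    have h8 := h5.continuousAt_comp (f := fun z : Fin (d + 1) → ℂ => z 0)
      (continuous_apply 0).continuousAt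
    exact eq_of_nhds_neBot (h8.clusterPt.mono h7)
  refine ⟨x, hx, h6, accPt_iff_nhds.2 fun W hW => ?_⟩
  obtain ⟨c', h7, h8, h9⟩ := ((h5.frequently hW).and_eventually
    (h4.and self_mem_nhdsWithin)).exists
  refine ⟨ζ c', ⟨h7, h3 c' h8⟩, fun h10 => h9 ?_⟩
  have := h2 c' h8
  rw [h10, h6] at this
  exact (add_left_cancel this).symm

theorem analyticAt_aff (s : ℝ) (a : Fin (d + 1) → ℂ) : AnalyticAt ℂ (aff s) a :=
  analyticAt_const.add (analyticAt_const.mul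
    ((ContinuousLinearMap.proj (R := ℂ) (φ := fun _ : Fin (d + 1) => ℂ) 0).analyticAt a))

theorem continuous_aff : Continuous fun x : ℝ × (Fin (d + 1) → ℂ) => aff x.1 x.2 := by
  unfold aff
  fun_prop

theorem aff_re (s : ℝ) (z : Fin (d + 1) → ℂ) : (aff s z).re = s + √(1 - s ^ 2) * (z 0).re := by
  simp [aff]

theorem exists_big (hI : IdealFin p d) (hP : PtFin p d) {s : ℝ} (hs : 0 < s)
    (h : Conf p d s) {ρ : ℝ} (hρ : Adm (d + 1) ρ) : ∃ Z : Set (Fin (d + 1) → ℂ),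
    Psd (fun z w => kern p z w - aff s z ^ (p : ℂ) * conj (aff s w ^ (p : ℂ))) Z ∧
    (∀ r, 0 < r → r < ρ → ∃ a ∈ Z, ‖a‖ = r ∧ 0 ≤ (a 0).re) ∧
    ∃ ε > 0, ∀ c : ℂ, ‖c‖ < ε → ∃ a, a 0 = c ∧ AccPt a (𝓟 Z) := by
  obtain ⟨T, h0, hT⟩ := h
  obtain ⟨G, hG, hGT, hpsd⟩ := hilbert_hull hρ hT
  have hρ0 := hρ.1
  have hca : Continuous fun z : Fin (d + 1) → ℂ => (aff s z).re :=
    Complex.continuous_re.comp (continuous_aff.comp (continuous_const.prodMk continuous_id))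
  let Z : Set (Fin (d + 1) → ℂ) := (hull ρ T ∩ {z | s / 2 ≤ (aff s z).re}) ∩
    (fun z => G z - aff s z ^ (p : ℂ)) ⁻¹' {0}
  have hZG : ∀ z ∈ Z, G z = aff s z ^ (p : ℂ) := fun z hz => sub_eq_zero.1 hz.2
  have hZ : Psd (fun z w => kern p z w - aff s z ^ (p : ℂ) * conj (aff s w ^ (p : ℂ))) Z :=
    (hpsd.mono fun z hz => hz.1.1).congr fun z hz w hw => by rw [hZG z hz, hZG w hw]
  have han : ∀ z : Fin (d + 1) → ℂ, s / 2 ≤ (aff s z).re →
      AnalyticAt ℂ (fun z => aff s z ^ (p : ℂ)) z := fun z hz =>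
    (analyticAt_aff s z).cpow analyticAt_const (Or.inl (by linarith))
  have hcl : IsClosed Z := by
    refine ContinuousOn.preimage_isClosed_of_isClosed ?_
      ((isClosed_hull hρ0 T).inter (isClosed_le continuous_const hca)) isClosed_singleton
    exact ((hG.continuousOn hρ0).mono fun z hz => mem_closedBall_zero_iff.2 hz.1.1).sub
      fun z hz => (han z hz.2).continuousAt.continuousWithinAt
  have hstep : ∀ a, AccPt a (𝓟 Z) → ‖a‖ < ρ → 0 ≤ (a 0).re → ∀ δ > 0, ∃ ε > 0, ∀ c : ℂ,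
      ‖c‖ < ε → ∃ z ∈ closedBall a δ, z 0 = a 0 + c ∧ AccPt z (𝓟 Z) := by
    intro a ha ha1 ha2 δ hδ
    have h1 : s / 2 < (aff s a).re := by
      rw [aff_re]
      have := mul_nonneg (Real.sqrt_nonneg (1 - s ^ 2)) ha2
      linarith
    obtain ⟨ε, hε, h⟩ := local_step hI hP hZ.of_sub ha (han a h1.le) ha1
      (inter_mem (closedBall_mem_nhds a hδ) (hca.continuousAt.eventually (lt_mem_nhds h1)))
    refine ⟨ε, hε, fun c hc => acc_step (isCompact_closedBall a δ) (fun c hc => ?_) hc⟩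
    obtain ⟨z, hz, h2, h3, h4⟩ := h c hc
    have h5 : s / 2 < (aff s z).re := hz.2
    exact ⟨z, hz.1, h2, ⟨⟨h3.1, fun f hf hf0 => h3.2 f hf fun t ht _ => ht.1.1.2 f hf hf0⟩,
      h5.le⟩, sub_eq_zero.2 (h4 G hG fun t ht _ => hZG t ht)⟩
  have hacc : AccPt 0 (𝓟 Z) := by
    rw [accPt_iff_frequently] at h0 ⊢
    have h1 : s / 2 < (aff s (0 : Fin (d + 1) → ℂ)).re := by
      rw [aff_re]; simp [hs]
    refine (h0.and_eventually ((hca.continuousAt.eventually (lt_mem_nhds h1)).and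
      (closedBall_mem_nhds 0 hρ0))).mono fun z hz => ⟨hz.1.1, ?_⟩
    have h2 := mem_closedBall_zero_iff.1 hz.2.2
    exact ⟨⟨mem_hull_of_mem hz.1.2 h2, le_of_lt hz.2.1⟩, sub_eq_zero.2 (hGT z hz.1.2 h2)⟩
  refine ⟨Z, hZ, fun r hr0 hr => ?_, ?_⟩
  · have hc0 : Continuous fun z : Fin (d + 1) → ℂ => (z 0).re := by fun_prop
    have hK : IsCompact (closedBall (0 : Fin (d + 1) → ℂ) r ∩
        (derivedSet Z ∩ {z | 0 ≤ (z 0).re})) :=
      (isCompact_closedBall _ _).inter_right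
        ((isClosed_derivedSet Z).inter (isClosed_le continuous_const hc0))
    obtain ⟨a, ha, hmax⟩ := hK.exists_isMaxOn
      ⟨0, mem_closedBall_self hr0.le, hacc, by simp⟩ hc0.continuousOn
    have h1 := mem_closedBall_zero_iff.1 ha.1
    refine ⟨a, (isClosed_iff_derivedSet_subset Z).1 hcl ha.2.1, ?_, ha.2.2⟩
    by_contra hne
    have h2 : ‖a‖ < r := lt_of_le_of_ne h1 hne
    obtain ⟨ε, hε, h⟩ := hstep a ha.2.1 (h2.trans hr) ha.2.2 (r - ‖a‖) (sub_pos.2 h2)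
    obtain ⟨z, h3, h4, h5⟩ := h ((ε / 2 : ℝ) : ℂ) (by
      rw [Complex.norm_real, Real.norm_of_nonneg (by positivity)]; linarith)
    have h6 : (z 0).re = (a 0).re + ε / 2 := by rw [h4, Complex.add_re, Complex.ofReal_re]
    have h7 : 0 ≤ (a 0).re := ha.2.2
    have h8 : (z 0).re ≤ (a 0).re := hmax ⟨by
      rw [mem_closedBall_zero_iff]
      have := norm_le_norm_add_norm_sub' z a
      rw [mem_closedBall, dist_eq_norm] at h3
      linarith, h5, by change 0 ≤ (z 0).re; linarith⟩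
    linarith
  · obtain ⟨ε, hε, h⟩ := hstep 0 hacc (by simpa using hρ0) (by simp) 1 one_pos
    refine ⟨ε, hε, fun c hc => ?_⟩
    obtain ⟨z, -, h1, h2⟩ := h c hc
    exact ⟨z, by simpa using h1, h2⟩

end Pool.Agent.Lib.MP_078bb2_an
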