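import Mathlib
import Pool.Agent.Lib.MP_078bb2_an.Global

set_option autoImplicit false

namespace Pool.Agent.Lib.MP_078bb2_an

open Metric Filter Topology ComplexConjugate

variable {d n m : ℕ} {p : ℝ}

theorem conf_lt (hI : IdealFin p d) (hP : PtFin p d) {s : ℝ} (hs : 0 < s) (hs1 : s < 1)
    (h : Conf p d s) : ∃ s', 0 ≤ s' ∧ s' < s ∧ Conf p d s' := by
  obtain ⟨ρ, hρ⟩ := exists_adm (d + 1)
  obtain ⟨Z, hZ, -, ε, hε, h⟩ := exists_big hI hP hs h hρ
  have hb2 : 0 < 1 - s ^ 2 := by nlinarith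
  have hb0 : 0 < √(1 - s ^ 2) := Real.sqrt_pos.2 hb2
  have hb1 : √(1 - s ^ 2) ≤ 1 := Real.sqrt_le_one.2 (by nlinarith)
  have ht : 0 < min (ε / 2) (s / 2) := by positivity
  obtain ⟨a, ha0, ha⟩ := h ((-min (ε / 2) (s / 2) : ℝ) : ℂ) (by
    rw [Complex.norm_real, norm_neg, Real.norm_of_nonneg ht.le]
    linarith [min_le_left (ε / 2) (s / 2)])
  let η : Eh (d + 1) := EuclideanSpace.single 0 (s : ℂ) +
    EuclideanSpace.single (Fin.succ 0) ((√(1 - s ^ 2) : ℝ) : ℂ)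
  have hη : ∀ v : Eh (d + 1), inner ℂ η v = s * v 0 + (√(1 - s ^ 2) : ℝ) * v (Fin.succ 0) :=
    fun v => by
      simp only [η, inner_add_left, EuclideanSpace.inner_single_left, Complex.conj_ofReal]
  have hη1 : ∀ z, inner ℂ η (hom z) = aff s z := fun z => by
    rw [hη, hom_zero, hom_succ, mul_one, aff]
  have hη2 : ‖η‖ = 1 := by
    have h1 : inner ℂ η η = 1 := by
      have h2 : η 0 = s := by simp [η]
      have h3 : η (Fin.succ 0) = (√(1 - s ^ 2) : ℝ) := by simp [η]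
      rw [hη, h2, h3, ← Complex.ofReal_mul, ← Complex.ofReal_mul, Real.mul_self_sqrt hb2.le]
      push_cast
      ring
    rw [inner_self_eq_norm_sq_to_K] at h1
    have h2 : ‖η‖ ^ 2 = 1 := by
      apply Complex.ofReal_injective
      rw [Complex.ofReal_one, ← h1, Complex.ofReal_pow]
      rfl
    exact (pow_eq_one_iff_of_nonneg (norm_nonneg _) two_ne_zero).1 h2
  have h1 : aff s a = ((s - √(1 - s ^ 2) * min (ε / 2) (s / 2) : ℝ) : ℂ) := by
    rw [aff, ha0]; push_cast; ring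
  have h2 : 0 < √(1 - s ^ 2) * min (ε / 2) (s / 2) := by positivity
  have h3 : √(1 - s ^ 2) * min (ε / 2) (s / 2) < s := by
    nlinarith [min_le_right (ε / 2) (s / 2)]
  have h4 : ‖inner ℂ η (hom a)‖ < s := by
    rw [hη1, h1, Complex.norm_real, Real.norm_of_nonneg (by linarith)]; linarith
  have h5 := one_le_norm_hom a
  refine ⟨_, by positivity, (div_le_self (norm_nonneg _) h5).trans_lt h4,
    recenter ha hη2 (by rw [hη1, h1, Complex.ofReal_re]; linarith) (by linarith) ?_⟩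
  simpa only [hη1] using hZ

theorem tendsto_herm {α : Type} {L : Filter α} {x y : α → Fin n → ℂ} {a b : Fin n → ℂ}
    (hx : Tendsto x L (𝓝 a)) (hy : Tendsto y L (𝓝 b)) :
    Tendsto (fun k => herm (x k) (y k)) L (𝓝 (herm a b)) := by
  have := (continuous_herm.tendsto (a, b)).comp (hx.prodMk_nhds hy)
  exact this

theorem conf_limit (hI : IdealFin p d) (hP : PtFin p d) (hp0 : 0 < p) {s : ℕ → ℝ} {m : ℝ}
    (hs : ∀ k, 0 < s k) (h : ∀ k, Conf p d (s k)) (hm : Tendsto s atTop (𝓝 m)) :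
    Conf p d m := by
  obtain ⟨ρ, hρ⟩ := exists_adm (d + 1)
  have hρ0 := hρ.1
  choose Z hZ hbig _ using fun k => exists_big hI hP (hs k) (h k) hρ
  have hr : ∀ j : ℕ, 0 < ρ / ((j : ℝ) + 2) ∧ ρ / ((j : ℝ) + 2) < ρ := fun j =>
    ⟨by positivity, div_lt_self hρ0 (by linarith [Nat.cast_nonneg (α := ℝ) j])⟩
  choose A hA1 hA2 hA3 using fun (k j : ℕ) => hbig k _ (hr j).1 (hr j).2
  obtain ⟨a, -, φ, hφ, hlim⟩ := (isCompact_univ_pi fun _ : ℕ =>
    isCompact_closedBall (0 : Fin (d + 1) → ℂ) ρ).tendsto_subseq (x := A)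
    fun k j _ => mem_closedBall_zero_iff.2 ((hA2 k j).trans_le (hr j).2.le)
  have hl : ∀ j, Tendsto (fun k => A (φ k) j) atTop (𝓝 (a j)) := fun j =>
    tendsto_pi_nhds.1 hlim j
  have ha2 : ∀ j, ‖a j‖ = ρ / ((j : ℝ) + 2) := fun j =>
    tendsto_nhds_unique (hl j).norm (by simpa only [hA2] using tendsto_const_nhds)
  have ha3 : ∀ j, 0 ≤ (a j 0).re := fun j =>
    ge_of_tendsto' ((Complex.continuous_re.tendsto _).comp (tendsto_pi_nhds.1 (hl j) 0))
      fun k => hA3 (φ k) j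
  have hm0 : 0 ≤ m := ge_of_tendsto' hm fun k => (hs k).le
  have hg : ∀ j, Tendsto (fun k => aff (s (φ k)) (A (φ k) j) ^ (p : ℂ)) atTop
      (𝓝 (aff m (a j) ^ (p : ℂ))) := fun j => by
    refine (Complex.continuousAt_cpow_const_of_re_pos (Or.inl ?_) (by simpa using hp0)).tendsto.comp
      ((continuous_aff.tendsto (m, a j)).comp ((hm.comp hφ.tendsto_atTop).prodMk_nhds (hl j)))
    rw [aff_re]
    exact add_nonneg hm0 (mul_nonneg (Real.sqrt_nonneg _) (ha3 j))
  have hk : ∀ i j, Tendsto (fun k => kern p (A (φ k) i) (A (φ k) j)) atTop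
      (𝓝 (kern p (a i) (a j))) := fun i j => by
    have h0 : Tendsto (fun k => 1 + herm (A (φ k) i) (A (φ k) j)) atTop
        (𝓝 (1 + herm (a i) (a j))) := tendsto_const_nhds.add (tendsto_herm (hl i) (hl j))
    refine (Complex.continuousAt_cpow_const_of_re_pos (w := (p : ℂ)) (Or.inl ?_)
      (by simpa using hp0)).tendsto.comp h0
    have h1 := norm_herm_le ((ha2 i).trans_le (hr i).2.le) ((ha2 j).trans_le (hr j).2.le)
    have h2 := hρ.lt_one
    have h3 := abs_le.1 (Complex.abs_re_le_norm (herm (a i) (a j)))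
    have h4 : 0 ≤ ((d + 1 : ℕ) : ℝ) * (ρ * ρ) := by positivity
    rw [Complex.add_re, Complex.one_re]
    nlinarith
  refine ⟨Set.range a, ?_, fun ι _ x c hx => ?_⟩
  · rw [accPt_iff_frequently]
    have h1 : Tendsto a atTop (𝓝 0) := by
      rw [tendsto_zero_iff_norm_tendsto_zero]
      simp only [ha2]
      exact tendsto_const_nhds.div_atTop
        (tendsto_atTop_add_const_right _ _ tendsto_natCast_atTop_atTop)
    refine h1.frequently (Frequently.of_forall fun j => ⟨fun h0 => ?_, j, rfl⟩)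
    have := ha2 j
    rw [h0, norm_zero] at this
    exact (hr j).1.ne this
  · choose J hJ using hx
    simp only [← hJ]
    refine ge_of_tendsto' ((Complex.continuous_re.tendsto _).comp
      (tendsto_finsetSum _ fun i _ => tendsto_finsetSum _ fun j _ =>
        ((hk (J i) (J j)).sub ((hg (J i)).mul
          ((Complex.continuous_conj.tendsto _).comp (hg (J j))))).const_mul _)) fun k => ?_
    exact hZ (φ k) ι (fun i => A (φ k) (J i)) c fun i => hA1 _ _

theorem not_conf (hI : IdealFin p d) (hP : PtFin p d) (hp : Irrational p) (hp0 : 0 < p) {s : ℝ}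
    (hs0 : 0 ≤ s) (hs1 : s < 1) : ¬ Conf p d s := by
  intro h
  have hpos : ∀ t, 0 ≤ t → Conf p d t → 0 < t := fun t ht hc =>
    lt_of_le_of_ne ht fun h0 => not_conf_zero hI hP hp hp0 (h0 ▸ hc)
  have hcl : IsClosed {t | 0 ≤ t ∧ Conf p d t} := by
    refine IsSeqClosed.isClosed fun u m hu hm => ⟨ge_of_tendsto' hm fun k => (hu k).1, ?_⟩
    exact conf_limit hI hP hp0 (fun k => hpos _ (hu k).1 (hu k).2) (fun k => (hu k).2) hm
  have hm := hcl.csInf_mem ⟨s, hs0, h⟩ ⟨0, fun t ht => ht.1⟩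
  have hle : ∀ t, 0 ≤ t → Conf p d t → sInf {t | 0 ≤ t ∧ Conf p d t} ≤ t := fun t h1 h2 =>
    csInf_le ⟨0, fun t ht => ht.1⟩ ⟨h1, h2⟩
  obtain ⟨s', h1, h2, h3⟩ := conf_lt hI hP (hpos _ hm.1 hm.2) ((hle s hs0 h).trans_lt hs1) hm.2
  exact absurd (hle s' h1 h3) (not_le.2 h2)

theorem Psd.schur {X : Type} {κ : X → X → ℂ} {T : Set X} (h : Psd κ T) {x : X} (hx : x ∈ T)
    (hc : ∀ z ∈ T, κ x z = conj (κ z x)) {R : ℝ} (hR : 0 < R) (hxx : κ x x = (R : ℂ) ^ 2) :
    Psd (fun z w => κ z w - (κ z x / R) * conj (κ w x / R)) T := by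
  refine psd_sub_iff.2 fun ι _ y a hy => ?_
  set S := ∑ i, a i * κ (y i) x with hS
  have h1 := h (Option ι) (fun o => o.elim x y) (fun o => o.elim (-S / (R : ℂ) ^ 2) a)
    fun o => by cases o; exacts [hx, hy _]
  have hR' : (R : ℂ) ≠ 0 := by exact_mod_cast hR.ne'
  have h2 : ∑ i, a i * (κ (y i) x / R) = S / R := by
    rw [hS, Finset.sum_div]
    exact Finset.sum_congr rfl fun i _ => by ring
  have h3 : ∑ j, -S / (R : ℂ) ^ 2 * conj (a j) * κ x (y j) = -S / (R : ℂ) ^ 2 * conj S := by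
    conv_rhs => rw [hS, map_sum, ← hS, Finset.mul_sum]
    exact Finset.sum_congr rfl fun j _ => by rw [map_mul, hc _ (hy j), mul_assoc]
  have h4 : ∑ i, a i * conj (-S / (R : ℂ) ^ 2) * κ (y i) x = conj (-S / (R : ℂ) ^ 2) * S := by
    conv_rhs => rw [hS, Finset.mul_sum, ← hS]
    exact Finset.sum_congr rfl fun j _ => by ring
  simp only [Fintype.sum_option, Option.elim, Finset.sum_add_distrib, h3, h4, hxx] at h1
  have h5 : -S / (R : ℂ) ^ 2 * conj (-S / (R : ℂ) ^ 2) * (R : ℂ) ^ 2 + conj (-S / (R : ℂ) ^ 2) * S +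
      (-S / (R : ℂ) ^ 2 * conj S + ∑ i, ∑ j, a i * conj (a j) * κ (y i) (y j)) =
      ∑ i, ∑ j, a i * conj (a j) * κ (y i) (y j) - ((‖S / R‖ ^ 2 : ℝ) : ℂ) := by
    rw [Complex.ofReal_pow, ← Complex.mul_conj']
    simp only [map_div₀, map_neg, map_pow, Complex.conj_ofReal]
    field_simp
    ring
  rw [h5, Complex.sub_re, Complex.ofReal_re] at h1
  rw [h2]
  linarith

theorem herm_conj (z w : Fin n → ℂ) : conj (herm z w) = herm w z := by
  simp [herm, mul_comm]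

theorem ptFin_succ (hI : IdealFin p d) (hP : PtFin p d) (hp : Irrational p) (hp0 : 0 < p) :
    PtFin p (d + 1) := by
  intro T a hT ha
  have h1 : ∀ᶠ x : (Fin (d + 1) → ℂ) × (Fin (d + 1) → ℂ) in 𝓝 (a, a),
      0 < (1 + herm x.1 x.2).re := by
    refine (Complex.continuous_re.comp (continuous_const.add continuous_herm)).continuousAt.eventually
      (lt_mem_nhds ?_)
    have := herm_self_re a
    change 0 < (1 + herm a a).re
    rw [Complex.add_re, Complex.one_re]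
    linarith
  rw [nhds_prod_eq, eventually_prod_self_iff'] at h1
  obtain ⟨V, hV, h1⟩ := h1
  obtain ⟨x, ⟨hxa, hxT⟩, hxV⟩ := ((accPt_iff_frequently.1 ha).and_eventually hV).exists
  have hacc : AccPt a (𝓟 (V ∩ T)) := ha.nhds_inter hV
  have hN : 0 < ‖hom x‖ := norm_pos_iff.2 (hom_ne_zero x)
  have hη : ∀ z, inner ℂ ((‖hom x‖ : ℂ)⁻¹ • hom x) (hom z) =
      ((‖hom x‖⁻¹ : ℝ) : ℂ) * (1 + herm z x) := fun z => by
    rw [inner_smul_left, inner_hom, map_inv₀, Complex.conj_ofReal, Complex.ofReal_inv]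
  have hη1 : ‖(‖hom x‖ : ℂ)⁻¹ • hom x‖ = 1 := norm_smul_inv_norm (𝕜 := ℂ) (hom_ne_zero x)
  have hlt : ‖inner ℂ ((‖hom x‖ : ℂ)⁻¹ • hom x) (hom a)‖ < ‖hom a‖ := by
    refine lt_of_le_of_ne ((norm_inner_le_norm _ _).trans_eq (by rw [hη1, one_mul])) fun he => ?_
    have h2 : (‖hom x‖ : ℂ)⁻¹ • hom x ≠ 0 := fun h => by simp [h] at hη1
    obtain ⟨r, -, hr⟩ := (norm_inner_eq_norm_iff h2 (hom_ne_zero a)).1 (by rw [he, hη1, one_mul])
    rw [smul_smul] at hr
    have h3 := congrArg (fun v : Eh (d + 1) => v 0) hr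
    simp only [hom_zero, PiLp.smul_apply, smul_eq_mul, mul_one] at h3
    rw [← h3, one_smul] at hr
    exact hxa (funext fun j => (congrArg (fun v : Eh (d + 1) => v j.succ) hr).symm)
  have hpsd := (hT.mono Set.inter_subset_right).schur (T := V ∩ T) ⟨hxV, hxT⟩ (fun z hz => by
    rw [kern, kern, ← conj_cpow_of_re_pos (h1 z hz.1 x hxV), map_add, map_one, herm_conj])
    (R := ‖hom x‖ ^ p) (by positivity) (by
      rw [kern, ← inner_hom, inner_self_eq_norm_sq_to_K, Complex.ofReal_cpow hN.le, sq, sq]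
      exact Complex.mul_cpow_ofReal_nonneg hN.le hN.le _)
  have hγ : ∀ z ∈ V, inner ℂ ((‖hom x‖ : ℂ)⁻¹ • hom x) (hom z) ^ (p : ℂ) =
      kern p z x / ((‖hom x‖ ^ p : ℝ) : ℂ) := fun z hz => by
    rw [hη, cpow_mul_of_re_pos (by rw [Complex.ofReal_re]; positivity) (h1 z hz x hxV),
      ← Complex.ofReal_cpow (by positivity), Real.inv_rpow hN.le, Complex.ofReal_inv, kern,
      div_eq_inv_mul]
  refine not_conf hI hP hp hp0 (by positivity)
    ((div_lt_one (norm_pos_iff.2 (hom_ne_zero a))).2 hlt) (recenter hacc hη1 ?_ hlt ?_)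
  · rw [hη, Complex.re_ofReal_mul]
    exact mul_pos (by positivity) (h1 a (mem_of_mem_nhds hV) x hxV)
  · exact hpsd.congr fun z hz w hw => by rw [hγ z hz.1, hγ w hw.1]

theorem fin_all (hp : Irrational p) (hp0 : 0 < p) : ∀ d, IdealFin p d ∧ PtFin p d
  | 0 => ⟨idealFin_zero, ptFin_zero⟩
  | d + 1 =>
    have h := fin_all hp hp0 d
    have h1 := ptFin_succ h.1 h.2 hp hp0
    ⟨idealFin_succ h.1 h1, h1⟩

end Pool.Agent.Lib.MP_078bb2_an
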