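import Mathlib

set_option autoImplicit false

namespace Pool.Agent.Lib.MP_078bb2_an

open MeasureTheory Metric Filter Topology

variable {X : Type} [MetricSpace X] [CompactSpace X] [MeasurableSpace X] [BorelSpace X]
  {K : X → X → ℝ} {μ : Measure X}

/-- Minimisers of the energy among probability measures. -/
def IsMinim (K : X → X → ℝ) (μ : Measure X) : Prop :=
  ∀ ν : Measure X, IsProbabilityMeasure ν → ∫ x, ∫ y, K x y ∂μ ∂μ ≤ ∫ x, ∫ y, K x y ∂ν ∂ν

theorem integrable_cont {Y : Type} [TopologicalSpace Y] [CompactSpace Y] [MeasurableSpace Y]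
    [OpensMeasurableSpace Y] {ν : Measure Y} [IsFiniteMeasure ν] {f : Y → ℝ}
    (hf : Continuous f) : Integrable f ν :=
  hf.integrable_of_hasCompactSupport (HasCompactSupport.of_compactSpace f)

theorem energy_density [IsProbabilityMeasure μ] (hK : Continuous fun z : X × X => K z.1 z.2)
    (h : IsMinim K μ) {g : X → ℝ} (hg : Continuous g) (h0 : ∀ x, 0 ≤ g x)
    (h1 : ∫ x, g x ∂μ = 1) :
    ∫ z, K z.1 z.2 ∂μ.prod μ ≤ ∫ z, g z.1 * g z.2 * K z.1 z.2 ∂μ.prod μ := by
  have hm : Measurable fun x => (g x).toNNReal := hg.measurable.real_toNNReal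
  have h2 := h (μ.withDensity fun x => (g x).toNNReal) ⟨by
    rw [withDensity_apply _ MeasurableSet.univ, Measure.restrict_univ]
    have := ofReal_integral_eq_lintegral_ofReal (integrable_cont (ν := μ) hg)
      (Eventually.of_forall h0)
    rw [h1, ENNReal.ofReal_one] at this
    exact this.symm⟩
  simp only [integral_withDensity_eq_integral_smul hm, NNReal.smul_def, Real.coe_toNNReal _ (h0 _),
    smul_eq_mul, ← integral_const_mul] at h2
  rw [integral_prod _ (integrable_cont hK), integral_prod _ (integrable_cont (by fun_prop))]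
  simpa only [mul_assoc] using h2

theorem quad_nonneg {b q δ : ℝ} (hδ : 0 < δ) (h : ∀ t, |t| ≤ δ → 0 ≤ t * b + t ^ 2 * q) :
    b = 0 ∧ 0 ≤ q := by
  have h1 : ∀ b' : ℝ, (∀ t, 0 < t → t ≤ δ → 0 ≤ t * b' + t ^ 2 * q) → 0 ≤ b' := by
    intro b' hb
    have h2 : Tendsto (fun t : ℝ => b' + t * q) (𝓝[>] 0) (𝓝 b') := by
      have : Continuous fun t : ℝ => b' + t * q := by fun_prop
      simpa using (this.tendsto 0).mono_left nhdsWithin_le_nhds
    refine ge_of_tendsto h2 ?_
    filter_upwards [Ioc_mem_nhdsGT hδ] with t ht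
    have := hb t ht.1 ht.2
    by_contra hn
    nlinarith [ht.1]
  have h2 := h1 b fun t h0 ht => h t (by rwa [abs_of_pos h0])
  have h3 := h1 (-b) fun t h0 ht => by
    have := h (-t) (by rwa [abs_neg, abs_of_pos h0])
    linarith
  have h4 : b = 0 := by linarith
  refine ⟨h4, ?_⟩
  have := h δ (by rw [abs_of_pos hδ])
  rw [h4, mul_zero, zero_add] at this
  exact nonneg_of_mul_nonneg_right this (by positivity) |> fun h => by
    by_contra hn
    nlinarith [pow_pos hδ 2]

theorem form_nonneg [IsProbabilityMeasure μ] (hK : Continuous fun z : X × X => K z.1 z.2)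
    (hK0 : ∀ x y, 0 ≤ K x y) (h : IsMinim K μ) {g : X → ℝ} (hg : Continuous g) :
    0 ≤ ∫ z, g z.1 * g z.2 * K z.1 z.2 ∂μ.prod μ := by
  set m := ∫ x, g x ∂μ with hm
  obtain ⟨C, hC⟩ := isCompact_univ.exists_bound_of_continuousOn
    (f := fun x => g x - m) (by fun_prop)
  have hC' : ∀ x, |g x - m| ≤ |C| + 1 := fun x =>
    (hC x trivial).trans (by linarith [le_abs_self C])
  have i0 : Integrable (fun z : X × X => K z.1 z.2) (μ.prod μ) := integrable_cont hK
  have i1 : Integrable (fun z : X × X => ((g z.1 - m) + (g z.2 - m)) * K z.1 z.2) (μ.prod μ) :=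
    integrable_cont (by fun_prop)
  have i2 : Integrable (fun z : X × X => (g z.1 - m) * (g z.2 - m) * K z.1 z.2) (μ.prod μ) :=
    integrable_cont (by fun_prop)
  have key : ∀ s t : ℝ, ∫ z, (s + t * (g z.1 - m)) * (s + t * (g z.2 - m)) * K z.1 z.2 ∂μ.prod μ =
      s ^ 2 * ∫ z, K z.1 z.2 ∂μ.prod μ +
      (s * t * ∫ z, ((g z.1 - m) + (g z.2 - m)) * K z.1 z.2 ∂μ.prod μ +
      t ^ 2 * ∫ z, (g z.1 - m) * (g z.2 - m) * K z.1 z.2 ∂μ.prod μ) := by
    intro s t
    rw [← integral_const_mul, ← integral_const_mul, ← integral_const_mul,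
      ← integral_add (i1.const_mul _) (i2.const_mul _),
      ← integral_add (i0.const_mul _) (integrable_cont (by fun_prop))]
    refine integral_congr_ae (Eventually.of_forall fun z => ?_)
    ring
  obtain ⟨h1, h2⟩ := quad_nonneg (δ := 1 / (|C| + 1))
    (b := ∫ z, ((g z.1 - m) + (g z.2 - m)) * K z.1 z.2 ∂μ.prod μ)
    (q := ∫ z, (g z.1 - m) * (g z.2 - m) * K z.1 z.2 ∂μ.prod μ) (by positivity) fun t ht => by
      have h3 := energy_density hK h (g := fun x => 1 + t * (g x - m)) (by fun_prop)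
        (fun x => by
          have h4 : |t * (g x - m)| ≤ 1 := by
            rw [abs_mul]
            calc _ ≤ 1 / (|C| + 1) * (|C| + 1) := by gcongr; exact hC' x
              _ = 1 := by field_simp
          linarith [neg_abs_le (t * (g x - m))])
        (by
          rw [integral_add (integrable_const _) (integrable_cont (by fun_prop)), integral_const_mul,
            integral_sub (integrable_cont hg) (integrable_const _)]
          simp [hm])
      rw [key] at h3
      linarith
  have h3 := key m 1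
  simp only [one_mul, add_sub_cancel] at h3
  rw [h3, h1]
  have h4 : 0 ≤ ∫ z, K z.1 z.2 ∂μ.prod μ := integral_nonneg fun z => hK0 _ _
  nlinarith [mul_nonneg (sq_nonneg m) h4]

theorem psd_support [IsProbabilityMeasure μ] (hK : Continuous fun z : X × X => K z.1 z.2)
    (hK0 : ∀ x y, 0 ≤ K x y) (h : IsMinim K μ) {ι : Type} [Fintype ι] (x : ι → X) (a : ι → ℝ)
    (hx : ∀ i, x i ∈ μ.support) : 0 ≤ ∑ i, ∑ j, a i * a j * K (x i) (x j) := by
  have key : ∀ ε > 0, 0 ≤ ∑ i, ∑ j, (a i * a j * K (x i) (x j) + ε * |a i * a j|) := by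
    intro ε hε
    obtain ⟨δ, hδ, hu⟩ := Metric.uniformContinuous_iff.1
      (CompactSpace.uniformContinuous_of_continuous hK) ε hε
    let φ : ι → X → ℝ := fun i y => max (δ - dist y (x i)) 0
    have hφ : ∀ i, Continuous (φ i) := fun i => by fun_prop
    have hφ0 : ∀ i y, 0 ≤ φ i y := fun i y => le_max_right _ _
    have hφ1 : ∀ i y, φ i y ≠ 0 → dist y (x i) < δ := fun i y hy => by
      by_contra hn
      exact hy (max_eq_right (by linarith))
    have hw : ∀ i, 0 < ∫ y, φ i y ∂μ := fun i => by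
      rw [integral_pos_iff_support_of_nonneg (hφ0 i) (integrable_cont (hφ i))]
      refine (Measure.mem_support_iff_forall _).1 (hx i) _
        ((hφ i).isOpen_support.mem_nhds ?_)
      simp only [φ, Function.mem_support, dist_self, sub_zero, max_eq_left hδ.le]
      exact hδ.ne'
    let ψ : ι → X → ℝ := fun i y => (∫ y, φ i y ∂μ)⁻¹ * φ i y
    have hψ : ∀ i, Continuous (ψ i) := fun i => continuous_const.mul (hφ i)
    have hψ0 : ∀ i y, 0 ≤ ψ i y := fun i y => mul_nonneg (inv_pos.2 (hw i)).le (hφ0 i y)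
    have hψ1 : ∀ i, ∫ y, ψ i y ∂μ = 1 := fun i => by
      rw [integral_const_mul, inv_mul_cancel₀ (hw i).ne']
    have h1 := form_nonneg hK hK0 h (g := fun y => ∑ i, a i * ψ i y) (by fun_prop)
    refine h1.trans ?_
    have h2 : ∀ i j, a i * a j * K (x i) (x j) + ε * |a i * a j| =
        ∫ z, (a i * a j * K (x i) (x j) + ε * |a i * a j|) * (ψ i z.1 * ψ j z.2) ∂μ.prod μ := by
      intro i j
      rw [integral_const_mul, integral_prod_mul, hψ1, hψ1, mul_one, mul_one]
    have h3 : ∑ i, ∑ j, (a i * a j * K (x i) (x j) + ε * |a i * a j|) = ∫ z, ∑ i, ∑ j,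
        (a i * a j * K (x i) (x j) + ε * |a i * a j|) * (ψ i z.1 * ψ j z.2) ∂μ.prod μ := by
      rw [integral_finsetSum _ fun i _ => integrable_cont (by fun_prop)]
      refine Finset.sum_congr rfl fun i _ => ?_
      rw [integral_finsetSum _ fun j _ => integrable_cont (by fun_prop)]
      exact Finset.sum_congr rfl fun j _ => h2 i j
    rw [h3]
    refine integral_mono (integrable_cont (by fun_prop)) (integrable_cont (by fun_prop)) fun z => ?_
    beta_reduce
    rw [Finset.sum_mul_sum, Finset.sum_mul]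
    refine Finset.sum_le_sum fun i _ => ?_
    rw [Finset.sum_mul]
    refine Finset.sum_le_sum fun j _ => ?_
    by_cases h4 : φ i z.1 = 0
    · simp [ψ, h4]
    by_cases h5 : φ j z.2 = 0
    · simp [ψ, h5]
    have h6 := hu (a := z) (b := (x i, x j)) (by
      rw [Prod.dist_eq]; exact max_lt (hφ1 i _ h4) (hφ1 j _ h5))
    rw [Real.dist_eq] at h6
    have h7 : a i * a j * K z.1 z.2 ≤ a i * a j * K (x i) (x j) + ε * |a i * a j| := by
      have h8 : |a i * a j * (K z.1 z.2 - K (x i) (x j))| ≤ |a i * a j| * ε := by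
        rw [abs_mul (a i * a j)]
        gcongr
      linarith [le_abs_self (a i * a j * (K z.1 z.2 - K (x i) (x j)))]
    calc _ = a i * a j * K z.1 z.2 * (ψ i z.1 * ψ j z.2) := by ring
      _ ≤ _ := mul_le_mul_of_nonneg_right h7 (mul_nonneg (hψ0 _ _) (hψ0 _ _))
  have h1 : Tendsto (fun ε : ℝ => ∑ i, ∑ j, (a i * a j * K (x i) (x j) + ε * |a i * a j|))
      (𝓝[>] 0) (𝓝 (∑ i, ∑ j, a i * a j * K (x i) (x j))) := by
    have : Continuous fun ε : ℝ => ∑ i, ∑ j, (a i * a j * K (x i) (x j) + ε * |a i * a j|) := by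
      fun_prop
    simpa using (this.tendsto 0).mono_left nhdsWithin_le_nhds
  exact ge_of_tendsto h1 (eventually_mem_nhdsWithin.mono fun ε hε => key ε hε)

end Pool.Agent.Lib.MP_078bb2_an
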