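import Mathlib
import Pool.Agent.Lib.MP_078bb2_an.Hol

set_option autoImplicit false

namespace Pool.Agent.Lib.MP_078bb2_an

open Metric Filter Topology Polynomial

variable {d n : ℕ}

theorem not_isUnit_near' {B : Type*} [NormedCommRing B] [NormedAlgebra ℂ B] [CompleteSpace B]
    {x : B} (hinj : ∀ b, x * b = 0 → b = 0) (hc : Cof (Ideal.span {x})) (hx : ¬ IsUnit x) :
    ∃ ε > 0, ∀ y : B, ‖y‖ < ε → ¬ IsUnit (x - y) := by
  let T := ContinuousLinearMap.mul ℂ B x
  have hr : T.range = (Ideal.span {x}).restrictScalars ℂ := by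
    ext f
    rw [Submodule.restrictScalars_mem, Ideal.mem_span_singleton']
    constructor
    · rintro ⟨g, rfl⟩; exact ⟨g, mul_comm _ _⟩
    · rintro ⟨g, rfl⟩; exact ⟨g, mul_comm _ _⟩
  have hcl := isClosed_range_of_cofg T (hr ▸ hc.cofg)
  have hi : Function.Injective T := by
    intro a b hab
    have : x * (a - b) = 0 := by
      have : x * a = x * b := hab
      rw [mul_sub, this, sub_self]
    exact sub_eq_zero.1 (hinj _ this)
  obtain ⟨K, hK⟩ := T.antilipschitz_of_injective_of_isClosed_range hi hcl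
  have hK' : ∀ b : B, ‖b‖ ≤ K * ‖x * b‖ := fun b => by
    simpa [T] using hK.le_mul_dist b 0
  have hpos : 0 < 2 * ((K : ℝ) + 1) * (‖(1 : B)‖ + 1) := by positivity
  refine ⟨1 / (2 * ((K : ℝ) + 1) * (‖(1 : B)‖ + 1)), by positivity, fun c hc hu => hx ?_⟩
  obtain ⟨v, hv⟩ := hu.exists_right_inv
  have h1 : x * v = 1 + c * v := by linear_combination hv
  have h2 := hK' v
  rw [h1] at h2
  have h3' := norm_mul_le c v
  have h3 : ‖1 + c * v‖ ≤ ‖(1 : B)‖ + ‖c‖ * ‖v‖ := (norm_add_le _ _).trans (by linarith)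
  rw [lt_div_iff₀ hpos] at hc
  have hK0 : (0 : ℝ) ≤ K := K.2
  have hc0 := norm_nonneg c
  have hv0 := norm_nonneg v
  have h10 := norm_nonneg (1 : B)
  have h4 : ‖v‖ ≤ K * (‖(1 : B)‖ + ‖c‖ * ‖v‖) := h2.trans (mul_le_mul_of_nonneg_left h3 hK0)
  have h5 : K * ‖c‖ ≤ 1 / 2 := by
    nlinarith [mul_nonneg hK0 hc0, mul_nonneg hc0 h10, mul_nonneg (mul_nonneg hK0 hc0) h10]
  have h6 : ‖v‖ ≤ 2 * K * ‖(1 : B)‖ := by nlinarith
  have h7 : ‖-(c * v)‖ < 1 := by
    rw [norm_neg]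
    nlinarith [mul_nonneg hK0 hc0, mul_nonneg hc0 h10, mul_nonneg (mul_nonneg hK0 hc0) h10,
      mul_le_mul_of_nonneg_left h6 hc0]
  have h8 := isUnit_one_sub_of_norm_lt_one h7
  rw [sub_neg_eq_add, ← h1] at h8
  exact isUnit_of_mul_isUnit_left h8

theorem ne_top_near' {A : Type*} [NormedCommRing A] [NormedAlgebra ℂ A] [CompleteSpace A]
    {I : Ideal A} (hI : IsClosed (I : Set A)) {x : A}
    (hnzd : ∀ f, x * f ∈ I → f ∈ I) (hc : Cof (I ⊔ Ideal.span {x}))
    (hx : I ⊔ Ideal.span {x} ≠ ⊤) :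
    ∃ ε > 0, ∀ y : A, ‖y‖ < ε → I ⊔ Ideal.span {x - y} ≠ ⊤ := by
  have := hI
  have unit_iff : ∀ y : A, IsUnit (Ideal.Quotient.mk I y) ↔ I ⊔ Ideal.span {y} = ⊤ := by
    intro y
    constructor
    · intro h
      obtain ⟨v, hv⟩ := h.exists_right_inv
      obtain ⟨v, rfl⟩ := Ideal.Quotient.mk_surjective v
      rw [← map_mul, ← map_one (Ideal.Quotient.mk I), Ideal.Quotient.eq] at hv
      rw [Ideal.eq_top_iff_one]
      exact Submodule.mem_sup.2 ⟨-(y * v - 1), neg_mem hv, v * y,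
        Ideal.mem_span_singleton'.2 ⟨v, rfl⟩, by ring⟩
    · intro h
      rw [Ideal.eq_top_iff_one] at h
      obtain ⟨a, ha, b, hb, hab⟩ := Submodule.mem_sup.1 h
      obtain ⟨v, rfl⟩ := Ideal.mem_span_singleton'.1 hb
      refine IsUnit.of_mul_eq_one (Ideal.Quotient.mk I v) ?_
      rw [← map_mul, ← map_one (Ideal.Quotient.mk I), Ideal.Quotient.eq]
      have : y * v - 1 = -a := by linear_combination hab
      rw [this]; exact neg_mem ha
  obtain ⟨ε, hε, h⟩ := not_isUnit_near' (B := A ⧸ I) (x := Ideal.Quotient.mk I x) (by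
      intro b hb
      obtain ⟨b, rfl⟩ := Ideal.Quotient.mk_surjective b
      rw [← map_mul, Ideal.Quotient.eq_zero_iff_mem] at hb
      exact Ideal.Quotient.eq_zero_iff_mem.2 (hnzd b hb)) (by
      obtain ⟨F, hF, h⟩ := hc
      refine ⟨F.map (Ideal.Quotient.mkₐ ℂ I).toLinearMap, hF.map _, fun f => ?_⟩
      obtain ⟨f, rfl⟩ := Ideal.Quotient.mk_surjective f
      obtain ⟨v, hv, hf⟩ := h f
      refine ⟨_, Submodule.mem_map_of_mem hv, ?_⟩
      obtain ⟨a, ha, b, hb, hab⟩ := Submodule.mem_sup.1 hf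
      obtain ⟨w, rfl⟩ := Ideal.mem_span_singleton'.1 hb
      refine Ideal.mem_span_singleton'.2 ⟨Ideal.Quotient.mk I w, ?_⟩
      change _ = Ideal.Quotient.mk I f - Ideal.Quotient.mk I v
      rw [← map_mul, ← map_sub, Ideal.Quotient.eq]
      have : w * x - (f - v) = -a := by linear_combination hab
      rw [this]; exact neg_mem ha) (by rwa [unit_iff])
  refine ⟨ε, hε, fun y hy => ?_⟩
  have := h (Ideal.Quotient.mk I y) ((Ideal.Quotient.norm_mk_le I y).trans_lt hy)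
  rw [← map_sub, unit_iff] at this
  exact this

theorem exists_expansion {I : Ideal (Alg n)} (hI : IsClosed (I : Set (Alg n))) {x : Alg n}
    (hc : Cof (I ⊔ Ideal.span {x})) : ∃ (ν : ℕ) (b : Fin ν → Alg n) (r : ℝ), 0 < r ∧
      ∀ f : Alg n, ∃ φ : Fin ν → ℂ → ℂ, (∀ i, AnalyticOnNhd ℂ (φ i) (ball 0 r)) ∧
        ∀ u : Pd n, (∀ g ∈ I, ev u g = 0) → ‖ev u x‖ < r →
          ev u f = ∑ i, φ i (ev u x) * ev u (b i) := by
  obtain ⟨F, hF, h⟩ := hc
  obtain ⟨ν, b, hb⟩ := Submodule.fg_iff_exists_fin_generating_family.1 hF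
  have : CompleteSpace (I.restrictScalars ℂ) := hI.completeSpace_coe
  let L : ((Fin ν → ℂ) × (I.restrictScalars ℂ) × Alg n) →L[ℂ] Alg n :=
    (∑ i, (ContinuousLinearMap.proj i : (Fin ν → ℂ) →L[ℂ] ℂ).smulRight (b i)).coprod
      ((I.restrictScalars ℂ).subtypeL.coprod (ContinuousLinearMap.mul ℂ (Alg n) x))
  have hL : ∀ v, L v = ∑ i, v.1 i • b i + (v.2.1 + x * v.2.2) := fun v => by
    simp [L]
  have hs : Function.Surjective L := by
    intro f
    obtain ⟨v, hv, hf⟩ := h f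
    rw [← hb, Submodule.mem_span_range_iff_exists_fun] at hv
    obtain ⟨c, rfl⟩ := hv
    obtain ⟨a, ha, e, he, hae⟩ := Submodule.mem_sup.1 hf
    obtain ⟨w, rfl⟩ := Ideal.mem_span_singleton'.1 he
    exact ⟨(c, ⟨a, ha⟩, w), by rw [hL]; linear_combination hae⟩
  obtain ⟨C, hC, hpre⟩ := L.exists_preimage_norm_le hs
  choose pre hpre1 hpre2 using hpre
  refine ⟨ν, b, 1 / (2 * C), by positivity, fun f => ?_⟩
  let a : ℕ → Alg n := fun k => (fun g => (pre g).2.2)^[k] f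
  have ha : ∀ k, a (k + 1) = (pre (a k)).2.2 := fun k => Function.iterate_succ_apply' _ _ _
  have ha1 : ∀ k, ‖a k‖ ≤ C ^ k * ‖f‖ := by
    intro k
    induction k with
    | zero => simp [a]
    | succ k ih =>
      rw [ha, pow_succ', mul_assoc]
      exact ((norm_snd_le _).trans ((norm_snd_le _).trans (hpre2 _))).trans (by gcongr)
  have hhalf : ∀ (k : ℕ) (t : ℂ), ‖t‖ < 1 / (2 * C) → C ^ k * ‖t‖ ^ k ≤ (1 / 2) ^ k := by
    intro k t ht
    rw [← mul_pow]
    refine pow_le_pow_left₀ (by positivity) ?_ k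
    rw [lt_div_iff₀ (by positivity)] at ht
    linarith
  have hbd : ∀ i k (t : ℂ), t ∈ ball (0 : ℂ) (1 / (2 * C)) →
      ‖(pre (a k)).1 i * t ^ k‖ ≤ C * ‖f‖ * (1 / 2) ^ k := by
    intro i k t ht
    have h1 : ‖(pre (a k)).1 i‖ ≤ C * (C ^ k * ‖f‖) :=
      ((norm_le_pi_norm _ i).trans ((norm_fst_le _).trans (hpre2 _))).trans (by gcongr; exact ha1 k)
    rw [norm_mul, norm_pow]
    calc _ ≤ C * (C ^ k * ‖f‖) * ‖t‖ ^ k := by gcongr
      _ = C * ‖f‖ * (C ^ k * ‖t‖ ^ k) := by ring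
      _ ≤ _ := by gcongr; exact hhalf k t (mem_ball_zero_iff.1 ht)
  have hsum : Summable fun k : ℕ => C * ‖f‖ * (1 / 2 : ℝ) ^ k :=
    summable_geometric_two.mul_left _
  refine ⟨fun i t => ∑' k, (pre (a k)).1 i * t ^ k, fun i => ?_, fun u hu ht => ?_⟩
  · exact (Complex.differentiableOn_tsum_of_summable_norm hsum (fun k => by fun_prop) isOpen_ball
      (hbd i)).analyticOnNhd isOpen_ball
  · set t := ev u x with htx
    have h1 : HasSum (fun k => ∑ i, (pre (a k)).1 i * t ^ k * ev u (b i))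
        (∑ i, (∑' k, (pre (a k)).1 i * t ^ k) * ev u (b i)) :=
      hasSum_sum fun i _ => (Summable.of_norm_bounded hsum fun k =>
        hbd i k t (mem_ball_zero_iff.2 ht)).hasSum.mul_right _
    have h2 : ∀ k, ∑ i, (pre (a k)).1 i * t ^ k * ev u (b i) =
        t ^ k * ev u (a k) - t ^ (k + 1) * ev u (a (k + 1)) := by
      intro k
      have h3 := congrArg (ev u) (hpre1 (a k))
      rw [hL, map_add, map_add, map_mul, map_sum, hu _ (pre (a k)).2.1.2, ← ha] at h3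
      simp only [map_smul, smul_eq_mul] at h3
      rw [← h3, mul_add, Finset.mul_sum, ← htx]
      simp only [mul_left_comm (t ^ k), mul_assoc]
      ring
    have h3 := h1.tendsto_sum_nat
    simp only [h2, Finset.sum_range_sub' fun k => t ^ k * ev u (a k)] at h3
    have h4 : Tendsto (fun k => t ^ k * ev u (a k)) atTop (𝓝 0) := by
      refine squeeze_zero_norm (a := fun k => ‖f‖ * (1 / 2) ^ k) (fun k => ?_) ?_
      · rw [norm_mul, norm_pow]
        calc _ ≤ ‖t‖ ^ k * (C ^ k * ‖f‖) := by gcongr; exact (norm_ev_le u _).trans (ha1 k)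
          _ = ‖f‖ * (C ^ k * ‖t‖ ^ k) := by ring
          _ ≤ _ := by gcongr; exact hhalf k t ht
      · simpa using (tendsto_pow_atTop_nhds_zero_of_lt_one (r := (1 / 2 : ℝ)) (by norm_num)
          (by norm_num)).const_mul ‖f‖
    have h5 := tendsto_nhds_unique h3 (tendsto_const_nhds.sub h4)
    rw [h5]
    simp [a]

/-- Functions analytic on the disc of radius `r`. -/
def Oa (r : ℝ) : Subring (ℂ → ℂ) where
  carrier := {f | AnalyticOnNhd ℂ f (ball 0 r)}
  mul_mem' hf hg := hf.mul hg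
  one_mem' := analyticOnNhd_const
  add_mem' hf hg := hf.add hg
  zero_mem' := analyticOnNhd_const
  neg_mem' hf := hf.neg

/-- Evaluation of analytic functions at a point. -/
noncomputable def evO (r : ℝ) (t : ℂ) : Oa r →+* ℂ := (Pi.evalRingHom _ t).comp (Oa r).subtype

theorem exists_monic {I : Ideal (Alg n)} (hI : IsClosed (I : Set (Alg n))) {x : Alg n}
    (hc : Cof (I ⊔ Ideal.span {x})) : ∃ r : ℝ, 0 < r ∧ ∀ f : Alg n, ∃ P : (Oa r)[X], P.Monic ∧
      ∀ u : Pd n, (∀ g ∈ I, ev u g = 0) → ‖ev u x‖ < r →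
        (P.map (evO r (ev u x))).eval (ev u f) = 0 := by
  classical
  obtain ⟨ν, b, r, hr, h⟩ := exists_expansion hI hc
  choose φ hφ h using h
  refine ⟨r, hr, fun f => ?_⟩
  let M : Matrix (Fin ν) (Fin ν) (Oa r) := fun i l => ⟨φ (f * b i) l, hφ _ l⟩
  refine ⟨M.charpoly, M.charpoly_monic, fun u hu ht => ?_⟩
  rw [← Matrix.charpoly_map, Matrix.eval_charpoly, ← Matrix.exists_mulVec_eq_zero_iff]
  refine ⟨fun i => ev u (b i), fun h0 => ?_, ?_⟩
  · have h1 := h 1 u hu ht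
    simp only [fun i => congrFun h0 i, Pi.zero_apply, mul_zero, Finset.sum_const_zero,
      map_one] at h1
    exact one_ne_zero h1
  · ext i
    have h1 := h (f * b i) u hu ht
    rw [Matrix.sub_mulVec, Pi.sub_apply, Pi.zero_apply, sub_eq_zero]
    rw [map_mul] at h1
    simp only [Matrix.scalar_apply, Matrix.mulVec_diagonal, h1]
    rfl

end Pool.Agent.Lib.MP_078bb2_an
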