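import Mathlib
import Pool.Agent.Lib.MP_078bb2_an.Modu

set_option autoImplicit false

namespace Pool.Agent.Lib.MP_078bb2_an

open Metric Filter Topology Polynomial

variable {d n : ℕ}

theorem wronsk {U : Set ℂ} (hU : IsOpen U) (hUc : IsPreconnected U) {t₀ : ℂ} (ht₀ : t₀ ∈ U) :
    ∀ (N : ℕ) (f : Fin N → ℂ → ℂ), (∀ j, AnalyticOnNhd ℂ (f j) U) →
      (∃ᶠ t in 𝓝[≠] t₀, ∃ c : Fin N → ℂ, c ≠ 0 ∧
        (N : ℕ∞) ≤ analyticOrderAt (fun s => ∑ j, c j * f j s) t) →
      ∃ c : Fin N → ℂ, c ≠ 0 ∧ ∀ s ∈ U, ∑ j, c j * f j s = 0 := by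
  intro N
  induction N with
  | zero =>
    intro f _ h
    obtain ⟨t, c, hc, -⟩ := h.exists
    exact absurd (Subsingleton.elim _ _) hc
  | succ N ih =>
    intro f hf h
    rcases (hf 0 t₀ ht₀).eventually_eq_zero_or_eventually_ne_zero with h0 | h0
    · refine ⟨Pi.single 0 1, by simp, fun s hs => ?_⟩
      have := (hf 0).eqOn_zero_of_preconnected_of_eventuallyEq_zero hUc ht₀ h0 hs
      simpa [Fin.sum_univ_succ] using this
    have han : ∀ {M : ℕ} (c : Fin M → ℂ) (F : Fin M → ℂ → ℂ), (∀ j, AnalyticOnNhd ℂ (F j) U) →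
        AnalyticOnNhd ℂ (fun s => ∑ j, c j * F j s) U := fun c F hF s hs =>
      Finset.analyticAt_fun_sum _ fun j _ => analyticAt_const.mul (hF j s hs)
    have hder : ∀ {M : ℕ} (c : Fin M → ℂ) (F : Fin M → ℂ → ℂ), (∀ j, AnalyticOnNhd ℂ (F j) U) →
        ∀ s ∈ U, deriv (fun s => ∑ j, c j * F j s) s = ∑ j, c j * deriv (F j) s :=
      fun c F hF s hs => (HasDerivAt.fun_sum fun j _ =>
        (hF j s hs).differentiableAt.hasDerivAt.const_mul (c j)).deriv
    have hUe : ∀ᶠ t in 𝓝[≠] t₀, t ∈ U := mem_nhdsWithin_of_mem_nhds (hU.mem_nhds ht₀)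
    obtain ⟨c, hc, hc0⟩ := ih
      (fun j s => deriv (f j.succ) s * f 0 s - f j.succ s * deriv (f 0) s)
      (fun j s hs => ((hf _ s hs).deriv.mul (hf 0 s hs)).sub ((hf _ s hs).mul (hf 0 s hs).deriv))
      ((h.and_eventually (h0.and hUe)).mono fun t ht => by
        obtain ⟨⟨c, hc, ho⟩, h1, h2⟩ := ht
        have ha := han c f hf t h2
        have hz : ∑ j, c j * f j t = 0 :=
          apply_eq_zero_of_analyticOrderAt_ne_zero (f := fun s => ∑ j, c j * f j s)
            (fun h3 => by rw [h3] at ho; simp at ho)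
        refine ⟨fun j => c j.succ, fun h3 => hc ?_, ?_⟩
        · have h4 : ∀ j : Fin N, c j.succ = 0 := fun j => congrFun h3 j
          rw [Fin.sum_univ_succ] at hz
          simp only [h4, zero_mul, Finset.sum_const_zero, add_zero] at hz
          ext j
          exact Fin.cases ((mul_eq_zero.1 hz).resolve_right h1) h4 j
        · have h3 : (fun s => ∑ j : Fin N, c j.succ *
              (deriv (f j.succ) s * f 0 s - f j.succ s * deriv (f 0) s)) =ᶠ[𝓝 t]
              deriv (fun s => ∑ j, c j * f j s) * f 0 -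
                (fun s => ∑ j, c j * f j s) * deriv (f 0) := by
            filter_upwards [hU.mem_nhds h2] with s hs
            rw [Pi.sub_apply, Pi.mul_apply, Pi.mul_apply, hder c f hf s hs]
            simp only [Fin.sum_univ_succ, add_mul,
              Finset.sum_mul, mul_sub, Finset.sum_sub_distrib, mul_assoc]
            ring
          rw [analyticOrderAt_congr h3]
          refine le_trans (le_min ?_ ?_) le_analyticOrderAt_sub
          · rw [analyticOrderAt_mul ha.deriv (hf 0 t h2)]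
            exact le_add_right ((analyticOrderAt_deriv_ge_iff ha hz).2 (by exact_mod_cast ho))
          · rw [analyticOrderAt_mul ha (hf 0 t h2).deriv]
            exact le_add_right (le_trans (by exact_mod_cast Nat.le_succ N) ho))
    obtain ⟨t₁, h1, h2⟩ := (h0.and hUe).exists
    obtain ⟨δ, hδ, hB⟩ := Metric.mem_nhds_iff.1
      (inter_mem (hU.mem_nhds h2) ((hf 0 t₁ h2).continuousAt.eventually_ne h1))
    have hH := han c (fun j => f j.succ) fun j => hf _
    obtain ⟨a, ha⟩ := isOpen_ball.exists_is_const_of_deriv_eq_zero (convex_ball t₁ δ).isPreconnected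
      (f := fun s => (∑ j, c j * f j.succ s) / f 0 s)
      (fun s hs => ((hH s (hB hs).1).div (hf 0 s (hB hs).1)
        (hB hs).2).differentiableAt.differentiableWithinAt) fun s hs => by
        rw [deriv_fun_div (hH s (hB hs).1).differentiableAt (hf 0 s (hB hs).1).differentiableAt
          (hB hs).2, hder c (fun j => f j.succ) (fun j => hf _) s (hB hs).1, Pi.zero_apply,
          div_eq_zero_iff]
        left
        rw [← hc0 s (hB hs).1]
        simp only [Finset.sum_mul, mul_sub, Finset.sum_sub_distrib, mul_assoc]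
    refine ⟨Fin.cons (-a) c, fun h3 => hc (funext fun j => congrFun h3 j.succ), ?_⟩
    refine (han (Fin.cons (-a) c) f hf).eqOn_zero_of_preconnected_of_eventuallyEq_zero hUc h2 ?_
    filter_upwards [ball_mem_nhds t₁ hδ] with s hs
    have h3 := ha s hs
    rw [div_eq_iff (hB hs).2] at h3
    simp [Fin.sum_univ_succ, h3]

theorem Hol.analyticAt_comp {ρ : ℝ} (h0 : 0 < ρ) {f : (Fin n → ℂ) → ℂ} (h : Hol ρ f)
    {γ : ℂ → Fin n → ℂ} {U : Set ℂ} (hU : IsOpen U) (hγ : AnalyticOnNhd ℂ γ U)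
    (hb : ∀ t ∈ U, ‖γ t‖ ≤ ρ) : AnalyticOnNhd ℂ (fun t => f (γ t)) U := by
  classical
  obtain ⟨F, hF⟩ := h
  let σ : ℂ → Pd n := fun t => if ht : t ∈ U then ⟨_, inv_smul_mem h0 (hb t ht)⟩ else org n
  have hσ : ∀ t ∈ U, (σ t).1 = (ρ : ℂ)⁻¹ • γ t := fun t ht => by simp only [σ, dif_pos ht]
  have key : ∀ G : Alg n, DifferentiableOn ℂ (fun t => ev (σ t) G) U := by
    intro G
    induction G using Alg.induction with
    | hc =>
      refine IsSeqClosed.isClosed fun x G hx hG => ?_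
      refine TendstoLocallyUniformlyOn.differentiableOn (φ := atTop)
        (F := fun k t => ev (σ t) (x k)) (TendstoUniformlyOn.tendstoLocallyUniformlyOn ?_)
        (Eventually.of_forall hx) hU
      rw [Metric.tendstoUniformlyOn_iff]
      intro ε hε
      filter_upwards [Metric.tendsto_nhds.1 hG ε hε] with k hk t _
      rw [dist_comm, dist_eq_norm, ← map_sub]
      exact (norm_ev_le _ _).trans_lt (by rwa [← dist_eq_norm])
    | hp G hG =>
      obtain ⟨E, hE, h1⟩ := exists_entire G hG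
      refine DifferentiableOn.congr (f := fun t => E ((ρ : ℂ)⁻¹ • γ t))
        (hE.comp_differentiableOn (hγ.differentiableOn.fun_const_smul _)) fun t ht => ?_
      rw [h1, hσ t ht]
  refine ((key F).congr fun t ht => ?_).analyticOnNhd hU
  rw [hF, hσ t ht, smul_inv_smul₀ (by exact_mod_cast h0.ne')]

theorem exists_accPt_of_not_countable {X : Type} [TopologicalSpace X] [SecondCountableTopology X]
    {B : Set X} (h : ¬ B.Countable) : ∃ b ∈ B, AccPt b (𝓟 B) := by
  by_contra hn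
  push Not at hn
  have := discreteTopology_of_noAccPts hn
  exact h (countable_of_Lindelof_of_discrete (X := B))

theorem analyticAt_evP {r : ℝ} (P : (Oa r)[X]) {v : ℂ × ℂ} (hv : v.1 ∈ ball (0 : ℂ) r) :
    AnalyticAt ℂ (fun v : ℂ × ℂ => (P.map (evO r v.1)).eval v.2) v := by
  simp only [eval_map, eval₂_eq_sum_range]
  refine Finset.analyticAt_fun_sum _ fun i _ => AnalyticAt.mul ?_ (analyticAt_snd.pow i)
  exact ((P.coeff i).2 v.1 hv).comp analyticAt_fst

theorem root_param {r : ℝ} (P : (Oa r)[X]) {v : ℂ × ℂ} (hv : v.1 ∈ ball (0 : ℂ) r)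
    (h0 : (P.map (evO r v.1)).eval v.2 = 0) (h1 : (P.derivative.map (evO r v.1)).eval v.2 ≠ 0) :
    ∃ ψ : ℂ → ℂ, AnalyticAt ℂ ψ v.1 ∧
      ∀ᶠ w in 𝓝 v, (P.map (evO r w.1)).eval w.2 = 0 → ψ w.1 = w.2 := by
  have ha := analyticAt_evP P hv
  have hc : ContDiffAt ℂ ⊤ (fun v : ℂ × ℂ => (P.map (evO r v.1)).eval v.2) v := ha.contDiffAt
  have hinv : (fderiv ℂ (fun v : ℂ × ℂ => (P.map (evO r v.1)).eval v.2) v ∘L
      .inr ℂ ℂ ℂ).IsInvertible := by
    have h2 := HasFDerivAt.comp (g := fun v : ℂ × ℂ => (P.map (evO r v.1)).eval v.2)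
      (f := fun y => (v.1, y)) v.2 ha.differentiableAt.hasFDerivAt
      (hasFDerivAt_prodMk_right (𝕜 := ℂ) v.1 v.2)
    have h3 := ((P.map (evO r v.1)).hasDerivAt v.2).hasFDerivAt_equiv
      (by rwa [derivative_map])
    exact ⟨_, h3.unique h2⟩
  refine ⟨hc.implicitFunction (by simp) hinv, (hc.contDiffAt_implicitFunction _ hinv).analyticAt, ?_⟩
  filter_upwards [hc.eventually_apply_eq_iff_implicitFunction (by simp) hinv] with w hw h
  exact hw.1 (h.trans h0.symm)

theorem exists_simple {Q : ℂ[X]} (hQ : Q ≠ 0) {y : ℂ} (h : Q.eval y = 0) :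
    ∃ k, (derivative^[k] Q).eval y = 0 ∧ (derivative^[k + 1] Q).eval y ≠ 0 := by
  by_contra hn
  push Not at hn
  have h1 : ∀ k, (derivative^[k] Q).eval y = 0 := fun k => by
    induction k with
    | zero => exact h
    | succ k ih => exact hn k ih
  exact lt_irrefl _ (lt_rootMultiplicity_of_isRoot_iterate_derivative (n := Q.rootMultiplicity y)
    hQ fun m _ => h1 m)

theorem exists_param {r : ℝ} (P : Fin d → (Oa r)[X]) (hP : ∀ j, (P j).Monic)
    {B : Set (Fin (d + 1) → ℂ)} (hB : ¬ B.Countable) (h0 : ∀ z ∈ B, z 0 ∈ ball (0 : ℂ) r)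
    (h1 : ∀ z ∈ B, ∀ j, ((P j).map (evO r (z 0))).eval (z j.succ) = 0) :
    ∃ (γ : ℂ → Fin (d + 1) → ℂ) (t₀ : ℂ), AnalyticAt ℂ γ t₀ ∧ γ t₀ ∈ B ∧ (∀ t, γ t 0 = t) ∧
      ∃ᶠ t in 𝓝[≠] t₀, γ t ∈ B := by
  choose! κ hκ0 hκ1 using fun z (hz : z ∈ B) j =>
    exists_simple ((hP j).map (evO r (z 0))).ne_zero (h1 z hz j)
  obtain ⟨k, hk⟩ : ∃ k : Fin d → ℕ, ¬ {z | z ∈ B ∧ κ z = k}.Countable := by
    by_contra hn
    push Not at hn
    exact hB ((Set.countable_iUnion hn).mono fun z hz => Set.mem_iUnion.2 ⟨κ z, And.intro hz rfl⟩)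
  obtain ⟨b, hb, hacc⟩ := exists_accPt_of_not_countable hk
  choose ψ hψ hψ' using fun j => root_param (derivative^[k j] (P j)) (v := (b 0, b j.succ))
    (h0 b hb.1) (by rw [← iterate_derivative_map, ← hb.2]; exact hκ0 b hb.1 j) (by
      rw [← Function.iterate_succ_apply' derivative, ← iterate_derivative_map, ← hb.2]
      exact hκ1 b hb.1 j)
  have h2 : ∀ᶠ z in 𝓝 b, z ∈ {z | z ∈ B ∧ κ z = k} →
      (Fin.cons (z 0) fun j => ψ j (z 0) : Fin (d + 1) → ℂ) = z := by
    have h3 : ∀ j : Fin d, ∀ᶠ z in 𝓝 b, z ∈ {z | z ∈ B ∧ κ z = k} → ψ j (z 0) = z j.succ := by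
      intro j
      have h4 : Tendsto (fun z : Fin (d + 1) → ℂ => (z 0, z j.succ)) (𝓝 b) (𝓝 (b 0, b j.succ)) :=
        ((continuous_apply 0).prodMk (continuous_apply j.succ)).tendsto b
      filter_upwards [h4.eventually (hψ' j)] with z hz hz'
      refine hz ?_
      rw [← iterate_derivative_map, ← hz'.2]
      exact hκ0 z hz'.1 j
    filter_upwards [eventually_all.2 h3] with z hz hz'
    ext i
    exact Fin.cases rfl (fun j => hz j hz') i
  refine ⟨fun t => Fin.cons t fun j => ψ j t, b 0, ?_, ?_, fun t => rfl, ?_⟩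
  · refine AnalyticAt.pi (f := fun i t => (Fin.cons t fun j => ψ j t : Fin (d + 1) → ℂ) i)
      fun i => ?_
    exact Fin.cases analyticAt_id (fun j => hψ j) i
  · beta_reduce
    rw [h2.self_of_nhds hb]
    exact hb.1
  · rw [accPt_iff_frequently] at hacc
    rw [frequently_nhdsWithin_iff]
    refine ((continuous_apply 0).tendsto b).frequently ((hacc.and_eventually h2).mono
      fun z hz => ⟨?_, fun h3 => hz.1.1 ?_⟩)
    · beta_reduce
      rw [hz.2 hz.1.2]; exact hz.1.2.1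
    · rw [← hz.2 hz.1.2, ← h2.self_of_nhds hb, (h3 : z 0 = b 0)]

end Pool.Agent.Lib.MP_078bb2_an
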