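import Mathlib
import Pool.Agent.Lib.MP_078bb2_an.Final
import Pool.Agent.Lib.MP_078bb2_an.Param

set_option autoImplicit false

namespace Pool.Agent.Lib.MP_078bb2_an

open Metric Filter Topology ComplexConjugate

variable {d n m k : ℕ} {p : ℝ}

theorem Hol.pow {ρ : ℝ} {f : (Fin n → ℂ) → ℂ} (hf : Hol ρ f) (j : ℕ) :
    Hol ρ fun z => f z ^ j := by
  obtain ⟨F, hF⟩ := hf
  exact ⟨F ^ j, fun u => by rw [map_pow, hF]⟩

theorem inner_hom_eq (η : Eh n) (z : Fin n → ℂ) :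
    inner ℂ η (hom z) = ∑ j, conj (η j) * hom z j := by
  simp [PiLp.inner_apply, mul_comm]

theorem hol_inner (ρ : ℝ) (η : Eh n) : Hol ρ fun z => inner ℂ η (hom z) :=
  ⟨algebraMap ℂ _ (conj (η 0)) + ∑ j, (conj (η j.succ) * ρ) • uu j, fun u => by
    simp [inner_hom_eq, Fin.sum_univ_succ, mul_assoc]⟩

theorem continuous_hom : Continuous (hom : (Fin n → ℂ) → Eh n) :=
  continuous_iff_continuousAt.2 fun z => (analyticAt_hom z).continuousAt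

/-- Every vector of `Ω` carries a root of a power of its linear form dominated by the kernel. -/
def Good (p : ℝ) (m k : ℕ) (Ω : Set (Eh n)) (T : Set (Fin n → ℂ)) : Prop :=
  ∀ η ∈ Ω, ∃ γ : (Fin n → ℂ) → ℂ, Psd (fun z w => kern p z w - γ z * conj (γ w)) T ∧
    ∀ z ∈ T, γ z ^ m = inner ℂ η (hom z) ^ k

theorem psd_hull {ρ : ℝ} (h : Adm n ρ) {T : Set (Fin n → ℂ)} (hT : Psd (kern p) T) :
    Psd (kern p) (hull ρ T) := by
  obtain ⟨g, -, -, h1⟩ := hilbert_hull (p := p) h (γ := fun _ => 0) (hT.congr fun x _ y _ => by simp)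
  exact h1.of_sub

theorem good_hull {ρ : ℝ} (h : Adm n ρ) {Ω : Set (Eh n)} {T : Set (Fin n → ℂ)}
    (hT : Good p m k Ω T) : ∀ η ∈ Ω, ∃ G, Hol ρ G ∧
      Psd (fun z w => kern p z w - G z * conj (G w)) (hull ρ T) ∧
      ∀ z ∈ hull ρ T, G z ^ m = inner ℂ η (hom z) ^ k := by
  intro η hη
  obtain ⟨γ, h1, h2⟩ := hT η hη
  obtain ⟨G, h3, h4, h5⟩ := hilbert_hull h h1
  exact ⟨G, h3, h5, fun z hz => sub_eq_zero.1 (hz.2 _ ((h3.pow m).sub ((hol_inner ρ η).pow k))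
    fun t ht ht' => by rw [h4 t ht ht', h2 t ht, sub_self])⟩

theorem good_chart (hmk : (m : ℝ) * p = k) {Ω : Set (Eh n)} {Z : Set (Fin n → ℂ)}
    (hZ : Psd (kern p) Z) (hG : Good p m k Ω Z) {a : Fin n → ℂ} (ha : AccPt a (𝓟 Z))
    {V : Eh n ≃ₗᵢ[ℂ] Eh n} {c : ℂ} (hc : 0 < c.re) (hV : V (hom 0) = c • hom a) :
    ∃ T, AccPt 0 (𝓟 T) ∧ Psd (kern p) T ∧ Good p m k (V.symm '' Ω) T ∧
      ∀ z ∈ T, lam V z ≠ 0 ∧ Phi V z ∈ Z := by
  have hc0 : c ≠ 0 := fun h => by simp [h] at hc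
  obtain ⟨W, hW, hW1, hW2⟩ := kern_chart (U := V) (by rwa [lam_eq_of hV]) p
  have h0 : ∀ z ∈ W, lam V z ≠ 0 := fun z hz h => by simpa [h] using hW1 z hz
  refine ⟨W ∩ Phi V ⁻¹' Z, accPt_chart hc0 hV ha hW,
    (((hZ.comp (Phi V)).mul fun z => lam V z ^ (p : ℂ)).mono Set.inter_subset_right).congr
      fun z hz w hw => (hW2 z hz.1 w hw.1).symm, ?_, fun z hz => ⟨h0 z hz.1, hz.2⟩⟩
  rintro _ ⟨η, hη, rfl⟩
  obtain ⟨γ, h1, h2⟩ := hG η hη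
  refine ⟨fun z => lam V z ^ (p : ℂ) * γ (Phi V z),
    (((h1.comp (Phi V)).mul fun z => lam V z ^ (p : ℂ)).mono Set.inter_subset_right).congr
      fun z hz w hw => ?_, fun z hz => ?_⟩
  · rw [hW2 z hz.1 w hw.1, map_mul]
    ring
  · have h3 : (m : ℂ) * (p : ℂ) = (k : ℂ) := by exact_mod_cast hmk
    rw [mul_pow, h2 _ hz.2, ← Complex.cpow_nat_mul, h3, Complex.cpow_natCast, ← mul_pow,
      ← V.inner_map_map (V.symm η), V.apply_symm_apply, smul_hom_Phi (h0 z hz.1), inner_smul_right]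

theorem exists_frame' {a : Fin (d + 1) → ℂ} {ν : Eh (d + 1)} (hν0 : ν ≠ 0)
    (hν : inner ℂ ν (hom a) = 0) : ∃ U : Eh (d + 1) ≃ₗᵢ[ℂ] Eh (d + 1),
      U (hom 0) = (‖hom a‖ : ℂ)⁻¹ • hom a ∧ ∀ z, inner ℂ ν (U (hom z)) = ‖ν‖ * z 0 := by
  obtain ⟨U, hU0, hU⟩ := exists_frame (norm_smul_inv_norm (𝕜 := ℂ) (hom_ne_zero a))
    (norm_smul_inv_norm (𝕜 := ℂ) hν0) (by
      rw [inner_eq_zero_symm, inner_smul_left, inner_smul_right, hν]; simp)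
  refine ⟨U, hU0, fun z => ?_⟩
  have hν1 : (‖ν‖ : ℂ) ≠ 0 := by exact_mod_cast norm_ne_zero_iff.2 hν0
  have h7 := (hU z).2
  rw [inner_smul_left] at h7
  have h8 : conj ((‖ν‖ : ℂ)⁻¹) = (‖ν‖ : ℂ)⁻¹ := by rw [map_inv₀, Complex.conj_ofReal]
  change conj ((‖ν‖ : ℂ)⁻¹) * _ = _ at h7
  rw [h8, inv_mul_eq_iff_eq_mul₀ hν1] at h7
  exact h7

theorem inv_norm_hom_re (a : Fin n → ℂ) : 0 < ((‖hom a‖ : ℂ)⁻¹).re := by
  have := norm_pos_iff.2 (hom_ne_zero a)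
  rw [← Complex.ofReal_inv, Complex.ofReal_re]; positivity

theorem hyperplane_fin (hP : PtFin p d) {T : Set (Fin (d + 1) → ℂ)} (hT : Psd (kern p) T)
    {a : Fin (d + 1) → ℂ} (ha : AccPt a (𝓟 T)) {ν : Eh (d + 1)} (hν0 : ν ≠ 0)
    (hν : ∀ z ∈ T, inner ℂ ν (hom z) = 0) : False := by
  have h1 : inner ℂ ν (hom a) = 0 :=
    (isClosed_eq (continuous_const.inner continuous_hom) continuous_const).closure_subset_iff.2
      hν (mem_closure_iff_clusterPt.2 ha.clusterPt)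
  obtain ⟨U, hU0, hU⟩ := exists_frame' hν0 h1
  obtain ⟨T', h2, h3, -, h4⟩ := good_chart (m := 0) (k := 0) (Ω := ∅) (by simp) hT
    (fun _ h => h.elim) ha (inv_norm_hom_re a) hU0
  obtain ⟨z, -, hz, hz0⟩ := (accPt_iff_frequently.1 (accPt_off hP h3 h2)).exists
  have h5 := hU z
  rw [smul_hom_Phi (h4 z hz).1, inner_smul_right, hν _ (h4 z hz).2, mul_zero] at h5
  exact hz0 ((mul_eq_zero.1 h5.symm).resolve_left (by exact_mod_cast norm_ne_zero_iff.2 hν0))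

theorem local_step' (hI : IdealFin p d) (hP : PtFin p d) {Z : Set (Fin (d + 1) → ℂ)}
    (hT : Psd (kern p) Z) {a : Fin (d + 1) → ℂ} (hZ : AccPt a (𝓟 Z))
    {ν : Eh (d + 1)} (hν0 : ν ≠ 0) (hν : inner ℂ ν (hom a) = 0) {ρ : ℝ} (hρ : ‖a‖ < ρ)
    {V : Set (Fin (d + 1) → ℂ)} (hV : V ∈ 𝓝 a) :
    ∃ ε > 0, ∀ c : ℂ, ‖c‖ < ε → ∃ z ∈ V, inner ℂ ν (hom z) = c ∧ z ∈ hull ρ Z := by
  have hρ0 : 0 < ρ := (norm_nonneg a).trans_lt hρ
  have hν1 : (‖ν‖ : ℂ) ≠ 0 := by exact_mod_cast norm_ne_zero_iff.2 hν0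
  obtain ⟨U, hU0, hU⟩ := exists_frame' hν0 hν
  have hc0 : (‖hom a‖ : ℂ)⁻¹ ≠ 0 := fun h => by simpa [h] using inv_norm_hom_re a
  have hl0 : lam U 0 ≠ 0 := by rwa [lam_eq_of hU0]
  have hΦ := Phi_eq_of hc0 hU0
  obtain ⟨T', hacc, hT', -, hT1⟩ := good_chart (m := 0) (k := 0) (Ω := ∅) (by simp) hT
    (fun _ h => h.elim) hZ (inv_norm_hom_re a) hU0
  have h1 : {z | lam U z ≠ 0} ∩ Phi U ⁻¹' (V ∩ closedBall 0 ρ) ∈ 𝓝 (0 : Fin (d + 1) → ℂ) := by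
    refine inter_mem ((analyticAt_lam U 0).continuousAt.eventually_ne hl0)
      ((analyticAt_Phi hl0).continuousAt.preimage_mem_nhds ?_)
    rw [hΦ]
    exact inter_mem hV (closedBall_mem_nhds_of_mem (mem_ball_zero_iff.2 hρ))
  have h2 : ∀ᶠ r in 𝓝[>] (0 : ℝ),
      closedBall 0 r ⊆ {z | lam U z ≠ 0} ∩ Phi U ⁻¹' (V ∩ closedBall 0 ρ) :=
    mem_nhdsWithin_of_mem_nhds (eventually_closedBall_subset h1)
  have h3 : ∀ᶠ r in 𝓝[>] (0 : ℝ), ∀ i, Hol r fun z => Phi U z i :=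
    eventually_all.2 fun i => eventually_hol (analyticAt_Phi_apply hl0 i)
  obtain ⟨r, hr0, hr2, hr3⟩ := (eventually_mem_nhdsWithin.and (h2.and h3)).exists
  have hr0' : 0 < r := hr0
  have hb : ∀ z, ‖z‖ ≤ r → ‖Phi U z‖ ≤ ρ := fun z hz =>
    mem_closedBall_zero_iff.1 (hr2 (mem_closedBall_zero_iff.2 hz)).2.2
  obtain ⟨ε, hε, h⟩ := local_surj hI hP hT' hacc
    (e := fun z => (‖ν‖ : ℂ) / lam U z) (analyticAt_const.div (analyticAt_lam U 0) hl0)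
    (div_ne_zero hν1 hl0) hr0'
  refine ⟨ε, hε, fun c hc => ?_⟩
  obtain ⟨z, hz, hzc⟩ := h c hc
  have h5 := hr2 (mem_closedBall_zero_iff.2 hz.1)
  have h6 : lam U z ≠ 0 := h5.1
  refine ⟨Phi U z, h5.2.1, ?_, hb z hz.1, fun f hf hf0 => ?_⟩
  · have h7 := hU z
    rw [smul_hom_Phi h6, inner_smul_right] at h7
    rw [← hzc, ← mul_div_assoc, mul_comm, ← h7, mul_div_cancel_left₀ _ h6]
  · exact hz.2 _ (hf.comp hρ0 hr0'.le hr3 hb) fun t ht ht' => hf0 _ (hT1 t ht).2 (hb t ht')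

theorem acc_step' {Z K : Set (Fin n → ℂ)} (hK : IsCompact K) {φ : (Fin n → ℂ) → ℂ}
    (hφ : Continuous φ) {ε : ℝ}
    (h : ∀ c : ℂ, ‖c‖ < ε → ∃ z ∈ K, φ z = c ∧ z ∈ Z) {c : ℂ} (hc : ‖c‖ < ε) :
    ∃ z ∈ K, φ z = c ∧ AccPt z (𝓟 Z) := by
  choose! ζ h1 h2 h3 using h
  have h4 : ∀ᶠ c' in 𝓝[≠] c, ‖c'‖ < ε :=
    mem_nhdsWithin_of_mem_nhds (continuous_norm.continuousAt.eventually (gt_mem_nhds hc))
  obtain ⟨x, hx, h5⟩ := hK.exists_mapClusterPt (f := 𝓝[≠] c) (u := ζ)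
    (le_principal_iff.2 (h4.mono fun c' hc' => h1 c' hc'))
  have h6 : φ x = c := by
    have h7 : Tendsto (fun c' => φ (ζ c')) (𝓝[≠] c) (𝓝 c) :=
      (tendsto_id.mono_left nhdsWithin_le_nhds).congr'
        (h4.mono fun c' hc' => (h2 c' hc').symm)
    exact eq_of_nhds_neBot ((h5.continuousAt_comp hφ.continuousAt).clusterPt.mono h7)
  refine ⟨x, hx, h6, accPt_iff_nhds.2 fun W hW => ?_⟩
  obtain ⟨c', h7, h8, h9⟩ := ((h5.frequently hW).and_eventually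
    (h4.and self_mem_nhdsWithin)).exists
  refine ⟨ζ c', ⟨h7, h3 c' h8⟩, fun h10 => h9 ?_⟩
  have := h2 c' h8
  rw [h10, h6] at this
  exact this.symm

theorem hull_step (hI : IdealFin p d) (hP : PtFin p d) {ρ : ℝ} (hρ : Adm (d + 1) ρ)
    {T : Set (Fin (d + 1) → ℂ)} (hT : Psd (kern p) T) {a : Fin (d + 1) → ℂ}
    (ha : AccPt a (𝓟 (hull ρ T))) (ha1 : ‖a‖ < ρ) {ν : Eh (d + 1)} (hν0 : ν ≠ 0)
    (hν : inner ℂ ν (hom a) = 0) {δ : ℝ} (hδ : 0 < δ) : ∃ ε > 0, ∀ c : ℂ, ‖c‖ < ε →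
      ∃ z ∈ closedBall a δ, inner ℂ ν (hom z) = c ∧ AccPt z (𝓟 (hull ρ T)) := by
  obtain ⟨ε, hε, h⟩ := local_step' hI hP (psd_hull hρ hT) ha hν0 hν ha1 (closedBall_mem_nhds a hδ)
  refine ⟨ε, hε, fun c hc => acc_step' (isCompact_closedBall a δ)
    (continuous_const.inner continuous_hom) (fun c hc => ?_) hc⟩
  obtain ⟨z, hz, h2, h3⟩ := h c hc
  exact ⟨z, hz, h2, h3.1, fun f hf hf0 => h3.2 f hf fun t ht _ => ht.2 f hf hf0⟩

theorem accPt_hull {ρ : ℝ} (hρ0 : 0 < ρ) {T : Set (Fin n → ℂ)} (h0 : AccPt 0 (𝓟 T)) :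
    AccPt 0 (𝓟 (hull ρ T)) := by
  rw [accPt_iff_frequently] at h0 ⊢
  exact (h0.and_eventually (closedBall_mem_nhds 0 hρ0)).mono fun z hz =>
    ⟨hz.1.1, mem_hull_of_mem hz.1.2 (mem_closedBall_zero_iff.1 hz.2)⟩

theorem exists_nu (a : Fin (d + 1) → ℂ) :
    ∃ ν : Eh (d + 1), ν ≠ 0 ∧ ∀ z, inner ℂ ν (hom z) = z 0 - a 0 := by
  refine ⟨EuclideanSpace.single (Fin.succ 0) 1 - EuclideanSpace.single 0 (conj (a 0)),
    fun h => ?_, fun z => ?_⟩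
  · have := congrArg (fun v : Eh (d + 1) => v (Fin.succ 0)) h
    simp at this
  · simp only [inner_sub_left, EuclideanSpace.inner_single_left, map_one, one_mul,
      Complex.conj_conj, hom_succ, hom_zero, mul_one]

theorem exists_sphere_pt (hI : IdealFin p d) (hP : PtFin p d) {ρ : ℝ} (hρ : Adm (d + 1) ρ)
    {T : Set (Fin (d + 1) → ℂ)} (hT : Psd (kern p) T) (h0 : AccPt 0 (𝓟 T)) {r : ℝ} (hr0 : 0 < r)
    (hr : r < ρ) : ∃ a, ‖a‖ = r ∧ AccPt a (𝓟 (hull ρ T)) := by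
  have hc0 : Continuous fun z : Fin (d + 1) → ℂ => (z 0).re := by fun_prop
  have hK : IsCompact (closedBall (0 : Fin (d + 1) → ℂ) r ∩ derivedSet (hull ρ T)) :=
    (isCompact_closedBall _ _).inter_right (isClosed_derivedSet _)
  obtain ⟨a, ha, hmax⟩ := hK.exists_isMaxOn
    ⟨0, mem_closedBall_self hr0.le, accPt_hull hρ.1 h0⟩ hc0.continuousOn
  have h1 := mem_closedBall_zero_iff.1 ha.1
  refine ⟨a, ?_, ha.2⟩
  by_contra hne
  have h2 : ‖a‖ < r := lt_of_le_of_ne h1 hne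
  obtain ⟨ν, hν0, hν⟩ := exists_nu a
  obtain ⟨ε, hε, h⟩ := hull_step hI hP hρ hT ha.2 (h2.trans hr) hν0 (by rw [hν, sub_self])
    (sub_pos.2 h2)
  obtain ⟨z, h3, h4, h5⟩ := h ((ε / 2 : ℝ) : ℂ) (by
    rw [Complex.norm_real, Real.norm_of_nonneg (by positivity)]; linarith)
  rw [hν] at h4
  have h6 := congrArg Complex.re h4
  rw [Complex.sub_re, Complex.ofReal_re] at h6
  have h8 : (z 0).re ≤ (a 0).re := hmax ⟨by
    rw [mem_closedBall_zero_iff]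
    have := norm_le_norm_add_norm_sub' z a
    rw [mem_closedBall, dist_eq_norm] at h3
    linarith, h5⟩
  linarith

end Pool.Agent.Lib.MP_078bb2_an
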