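import Mathlib
import Pool.Agent.Lib.MP_078bb2_an.RatA

set_option autoImplicit false

namespace Pool.Agent.Lib.MP_078bb2_an

open Metric Filter Topology ComplexConjugate

variable {d n m k : ℕ} {p : ℝ}

/-- The set `Ω` is uncountable near `η₁` and meets every hyperplane in a countable set. -/
def Rich (Ω : Set (Eh n)) (η₁ : Eh n) : Prop :=
  (∀ ε > 0, ¬ (Ω ∩ ball η₁ ε).Countable) ∧ ∀ b ≠ 0, {η | η ∈ Ω ∧ inner ℂ η b = 0}.Countable

theorem Rich.image {Ω : Set (Eh n)} {η₁ : Eh n} (h : Rich Ω η₁) (U : Eh n ≃ₗᵢ[ℂ] Eh n) :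
    Rich (U '' Ω) (U η₁) := by
  refine ⟨fun ε hε hc => h.1 ε hε ?_, fun b hb => ?_⟩
  · refine (hc.image U.symm).mono ?_
    intro η hη
    refine ⟨U η, ⟨⟨η, hη.1, rfl⟩, ?_⟩, U.symm_apply_apply η⟩
    rw [mem_ball, U.dist_map]
    exact hη.2
  · refine ((h.2 (U.symm b) (by simpa using hb)).image U).mono ?_
    rintro _ ⟨⟨η, hη, rfl⟩, h1⟩
    refine ⟨η, ⟨hη, ?_⟩, rfl⟩
    rw [← U.inner_map_map, U.apply_symm_apply, h1]

theorem le_order_of_pow {f g : ℂ → ℂ} {t : ℂ} (hf : AnalyticAt ℂ f t) (hg : AnalyticAt ℂ g t)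
    (hm : 0 < m) (hco : Nat.Coprime m k) (h : ∀ᶠ s in 𝓝 t, g s ^ m = f s ^ k) (h0 : f t = 0) :
    (m : ℕ∞) ≤ analyticOrderAt f t := by
  have h1 : m • analyticOrderAt g t = k • analyticOrderAt f t := by
    rw [← analyticOrderAt_pow hg, ← analyticOrderAt_pow hf]
    exact analyticOrderAt_congr h
  have h2 := hf.analyticOrderAt_ne_zero.2 h0
  generalize analyticOrderAt f t = b at *
  generalize analyticOrderAt g t = a at *
  induction b with
  | top => exact le_top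
  | coe b =>
    induction a with
    | top =>
      rw [nsmul_eq_mul, nsmul_eq_mul, ENat.mul_top (by exact_mod_cast hm.ne')] at h1
      exact absurd h1.symm (by exact_mod_cast ENat.natCast_ne_top (k * b))
    | coe a =>
      have h3 : m * a = k * b := by
        rw [nsmul_eq_mul, nsmul_eq_mul] at h1
        exact_mod_cast h1
      have h4 : m ∣ b := hco.dvd_of_dvd_mul_left ⟨a, h3.symm⟩
      exact_mod_cast Nat.le_of_dvd (Nat.pos_of_ne_zero (by exact_mod_cast h2)) h4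

theorem final_rat (hI : IdealFin p d) (hP : PtFin p d) (hm : d + 2 ≤ m) (hco : Nat.Coprime m k)
    {T : Set (Fin (d + 1) → ℂ)} (hT : Psd (kern p) T) (h0 : AccPt 0 (𝓟 T))
    {Ω : Set (Eh (d + 1))} (hG : Good p m k Ω T) {η₁ : Eh (d + 1)} (hR : Rich Ω η₁)
    (hη₁ : ∀ z, inner ℂ η₁ (hom z) = z 0) : False := by
  have hsub : {z | z ∈ T ∧ z 0 ≠ 0} ⊆ T := fun z hz => hz.1
  have hacc := accPt_off hP hT h0
  set T₁ := {z | z ∈ T ∧ z 0 ≠ 0} with hT₁
  obtain ⟨ρ₁, hρ₁, hc⟩ := core hI (hT.mono hsub)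
  have hρ₁0 := hρ₁.1
  have hρ : 0 < ρ₁ / 2 := by positivity
  have hρ' : ρ₁ / 2 < ρ₁ := by linarith
  set ρ := ρ₁ / 2 with hρdef
  have hρc : (ρ : ℂ) ≠ 0 := by exact_mod_cast hρ.ne'
  have hc' := hc ρ hρ hρ'.le
  obtain ⟨r, hr, hmon⟩ := exists_monic (isClosed_van ρ T₁) hc'
  choose P hP1 hP2 using fun j : Fin d => hmon (uu j.succ)
  obtain ⟨ε, hε, hne⟩ := ne_top_near' (isClosed_van ρ T₁) (x := uu 0)
    (fun f hf u hu' => by
      have h7 := hf u hu'
      rw [map_mul, ev_uu] at h7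
      exact (mul_eq_zero.1 h7).resolve_left fun h => hu'.2 (by simp [h])) hc'
    (by
      intro htop
      have h7 : van ρ T₁ ⊔ Ideal.span {uu 0} ≤ RingHom.ker (ev (org (d + 1))) := by
        refine sup_le (fun f hf => ev_org_van hρ hacc hf) ?_
        rw [Ideal.span_singleton_le_iff_mem, RingHom.mem_ker, ev_uu]
        rfl
      rw [htop] at h7
      have h8 := h7 (Submodule.mem_top (x := 1))
      rw [RingHom.mem_ker, map_one] at h8
      exact one_ne_zero h8)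
  obtain ⟨C, hC⟩ := (isCompact_closedBall (0 : Fin (d + 1) → ℂ) ρ).exists_bound_of_continuousOn
    continuous_hom.continuousOn
  have hC0 : 0 < C := one_pos.trans_le ((one_le_norm_hom 0).trans (hC 0 (mem_closedBall_self hρ.le)))
  have hη0 : η₁ ≠ 0 := fun h => by simpa [h] using hη₁ fun _ => 1
  have hδ : 0 < min ‖η₁‖ (min ε r * ρ / C) := lt_min (norm_pos_iff.2 hη0) (by positivity)
  set δ := min ‖η₁‖ (min ε r * ρ / C) with hδdef
  have key : ∀ η ∈ ball η₁ δ, ∃ u : Pd (d + 1), (∀ g ∈ van ρ T₁, ev u g = 0) ∧ ‖u.1 0‖ < r ∧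
      inner ℂ η (hom ((ρ : ℂ) • u.1)) = 0 := by
    intro η hη
    obtain ⟨Y, hY⟩ := hol_inner ρ (η₁ - η)
    have h1 : ‖(ρ : ℂ)⁻¹ • Y‖ < min ε r := by
      have h2 : ‖Y‖ ≤ ‖η₁ - η‖ * C := norm_le_of_ev fun u => by
        rw [hY]
        exact (norm_inner_le_norm _ _).trans (mul_le_mul_of_nonneg_left
          (hC _ (mem_closedBall_zero_iff.2 (norm_smul_pd_le hρ.le u))) (norm_nonneg _))
      have h3 : ‖η₁ - η‖ < min ε r * ρ / C := by
        rw [← dist_eq_norm, dist_comm]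
        exact (mem_ball.1 hη).trans_le (min_le_right _ _)
      rw [lt_div_iff₀ hC0] at h3
      rw [norm_smul, norm_inv, Complex.norm_real, Real.norm_of_nonneg hρ.le, inv_mul_lt_iff₀ hρ]
      linarith
    obtain ⟨u, hu⟩ := exists_common_zero (hne _ (h1.trans_le (min_le_left _ _)))
    have h2 := hu _ (Ideal.mem_sup_right (Ideal.subset_span rfl))
    rw [map_sub, ev_uu, sub_eq_zero] at h2
    refine ⟨u, fun g hg => hu g (Ideal.mem_sup_left hg), ?_, ?_⟩
    · rw [h2]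
      exact (norm_ev_le _ _).trans_lt (h1.trans_le (min_le_right _ _))
    · rw [map_smul, hY, smul_eq_mul, eq_inv_mul_iff_mul_eq₀ hρc] at h2
      beta_reduce at h2
      rw [inner_sub_left, hη₁, Pi.smul_apply, smul_eq_mul] at h2
      linear_combination h2
  let B : Set (Fin (d + 1) → ℂ) := {z | z 0 ∈ ball (0 : ℂ) r ∧
    (∀ j, ((P j).map (evO r (z 0))).eval (z j.succ) = 0) ∧ (ρ : ℂ) • z ∈ hull ρ T₁ ∧
    ∃ η ∈ Ω, η ≠ 0 ∧ inner ℂ η (hom ((ρ : ℂ) • z)) = 0}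
  have hB : ¬ B.Countable := by
    intro hcount
    refine hR.1 δ hδ ((hcount.biUnion fun z _ => hR.2 _ (hom_ne_zero ((ρ : ℂ) • z))).mono
      fun η hη => ?_)
    obtain ⟨u, h1, h2, h3⟩ := key η hη.2
    refine Set.mem_biUnion (x := u.1) ⟨mem_ball_zero_iff.2 h2, fun j => hP2 j u h1 h2,
      (mem_hull_iff hρ u).2 h1, η, hη.1, fun h => ?_, h3⟩ ⟨hη.1, h3⟩
    have h4 := (mem_ball.1 hη.2).trans_le (min_le_left _ _)
    rw [h, dist_zero_left] at h4
    exact lt_irrefl _ h4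
  obtain ⟨γ, t₀, hγ, hγ0, hγ1, hfr⟩ := exists_param P hP1 hB (fun z hz => hz.1) fun z hz => hz.2.1
  have hhull : ∀ z ∈ B, (ρ : ℂ) • z ∈ hull ρ₁ T := fun z hz =>
    hull_mono hρ hρ'.le hsub hz.2.2.1
  obtain ⟨δ', hδ', hD⟩ := Metric.mem_nhds_iff.1 (inter_mem hγ.eventually_analyticAt
    ((hγ.continuousAt.const_smul (ρ : ℂ)).norm.eventually
      (gt_mem_nhds (hγ0.2.2.1.1.trans_lt hρ'))))
  have hΓ : AnalyticOnNhd ℂ (fun t => (ρ : ℂ) • γ t) (ball t₀ δ') := fun t ht =>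
    AnalyticAt.fun_const_smul (hD ht).1
  have hf : ∀ j, AnalyticOnNhd ℂ (fun t => hom ((ρ : ℂ) • γ t) j) (ball t₀ δ') := fun j t ht =>
    (analyticAt_coord (LinearIsometryEquiv.refl ℂ _) j _).comp (hΓ t ht)
  obtain ⟨c, hc0, hc1⟩ := wronsk isOpen_ball (convex_ball t₀ δ').isPreconnected
    (mem_ball_self hδ') (d + 2) _ hf ((hfr.and_eventually
      (mem_nhdsWithin_of_mem_nhds (ball_mem_nhds t₀ hδ'))).mono fun t ht => by
      obtain ⟨η, hη, hη0, hη1⟩ := ht.1.2.2.2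
      obtain ⟨G, hG1, -, hG2⟩ := good_hull hρ₁ hG η hη
      have h1 := hG1.analyticAt_comp hρ₁0 isOpen_ball hΓ fun t ht => le_of_lt (hD ht).2
      have h2 : AnalyticOnNhd ℂ (fun t => inner ℂ η (hom ((ρ : ℂ) • γ t))) (ball t₀ δ') :=
        fun t ht => (analyticAt_inner_hom (LinearIsometryEquiv.refl ℂ _) η _).comp (hΓ t ht)
      have h3 := (h1.pow m).eqOn_of_preconnected_of_frequently_eq (h2.pow k)
        (convex_ball t₀ δ').isPreconnected (mem_ball_self hδ')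
        (hfr.mono fun s hs => hG2 _ (hhull _ hs))
      refine ⟨fun j => conj (η j), fun h => hη0 ?_, ?_⟩
      · ext j
        simpa using congrFun h j
      · simp only [← inner_hom_eq]
        refine le_trans (by exact_mod_cast hm) (le_order_of_pow (h2 t ht.2) (h1 t ht.2)
          (by omega) hco ?_ hη1)
        filter_upwards [isOpen_ball.mem_nhds ht.2] with s hs using h3 hs)
  refine hyperplane_fin hP (T := (fun t => (ρ : ℂ) • γ t) '' {t | t ∈ ball t₀ δ' ∧ γ t ∈ B})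
    ((psd_hull hρ₁ hT).mono ?_) (a := (ρ : ℂ) • γ t₀)
    ?_ (ν := WithLp.toLp 2 fun j => conj (c j)) (fun h => hc0 ?_) ?_
  · rintro _ ⟨t, ht, rfl⟩
    exact hhull _ ht.2
  · rw [accPt_iff_frequently]
    rw [frequently_nhdsWithin_iff] at hfr
    refine (hγ.continuousAt.const_smul (ρ : ℂ)).tendsto.frequently
      ((hfr.and_eventually (ball_mem_nhds t₀ hδ')).mono fun t ht =>
        ⟨fun h => ht.1.2 ?_, t, ⟨ht.2, ht.1.1⟩, rfl⟩)
    have h1 := congrFun h 0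
    simpa [hγ1, hρc] using h1
  · ext j
    simpa using congrArg (fun v : Eh (d + 1) => v j) h
  · rintro _ ⟨t, ht, rfl⟩
    rw [inner_hom_eq]
    simpa using hc1 t ht.1

end Pool.Agent.Lib.MP_078bb2_an
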