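import Mathlib
import Pool.Agent.Lib.MP_078bb2_an.RatB

set_option autoImplicit false

namespace Pool.Agent.Lib.MP_078bb2_an

open Metric Filter Topology ComplexConjugate

variable {d n m k : ℕ} {p : ℝ}

/-- Configurations seen through the isometry `A`. -/
def ConfR (p : ℝ) (m k : ℕ) (Ω : Set (Eh n)) (A : Eh n →L[ℂ] Eh n) : Prop :=
  (∀ v, ‖A v‖ = ‖v‖) ∧ ∃ T : Set (Fin n → ℂ), AccPt 0 (𝓟 T) ∧ Psd (kern p) T ∧
    Good p m k (A '' Ω) T

theorem exists_equiv {A : Eh n →L[ℂ] Eh n} (h : ∀ v, ‖A v‖ = ‖v‖) :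
    ∃ U : Eh n ≃ₗᵢ[ℂ] Eh n, ∀ v, U v = A v :=
  ⟨(⟨A.toLinearMap, h⟩ : Eh n →ₗᵢ[ℂ] Eh n).toLinearIsometryEquiv rfl, fun _ => rfl⟩

theorem re_one_add_herm_pos {ρ : ℝ} (hρ : Adm n ρ) {z w : Fin n → ℂ} (hz : ‖z‖ ≤ ρ)
    (hw : ‖w‖ ≤ ρ) : ‖herm z w‖ < 1 ∧ 0 < (1 + herm z w).re := by
  have h1 := norm_herm_le hz hw
  have h2 := hρ.lt_one
  have h3 := abs_le.1 (Complex.abs_re_le_norm (herm z w))
  have h4 : 0 ≤ (n : ℝ) * (ρ * ρ) := by have := hρ.1; positivity
  rw [Complex.add_re, Complex.one_re]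
  constructor <;> nlinarith

theorem confR_limit (hI : IdealFin p d) (hP : PtFin p d) (hp0 : 0 < p) {Ω : Set (Eh (d + 1))}
    {A : ℕ → Eh (d + 1) →L[ℂ] Eh (d + 1)} {A' : Eh (d + 1) →L[ℂ] Eh (d + 1)}
    (h : ∀ i, ConfR p m k Ω (A i)) (hA : Tendsto A atTop (𝓝 A')) : ConfR p m k Ω A' := by
  have hAv : ∀ v, Tendsto (fun i => A i v) atTop (𝓝 (A' v)) := fun v =>
    ((ContinuousLinearMap.apply ℂ _ v).continuous.tendsto A').comp hA
  refine ⟨fun v => tendsto_nhds_unique (hAv v).norm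
    (by simpa only [fun i => (h i).1 v] using tendsto_const_nhds), ?_⟩
  obtain ⟨ρ, hρ⟩ := exists_adm (d + 1)
  have hρ0 := hρ.1
  choose T h0 hT hG using fun i => (h i).2
  have hr : ∀ j : ℕ, 0 < ρ / ((j : ℝ) + 2) ∧ ρ / ((j : ℝ) + 2) < ρ := fun j =>
    ⟨by positivity, div_lt_self hρ0 (by linarith [Nat.cast_nonneg (α := ℝ) j])⟩
  choose x hx2 hx1' using fun (i j : ℕ) =>
    exists_sphere_pt hI hP hρ (hT i) (h0 i) (hr j).1 (hr j).2
  have hx1 : ∀ i j, x i j ∈ hull ρ (T i) := fun i j =>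
    (isClosed_iff_derivedSet_subset _).1 (isClosed_hull hρ0 _) (hx1' i j)
  obtain ⟨a, -, φ, hφ, hlim⟩ := (isCompact_univ_pi fun _ : ℕ =>
    isCompact_closedBall (0 : Fin (d + 1) → ℂ) ρ).tendsto_subseq (x := x)
    fun i j _ => mem_closedBall_zero_iff.2 (hx1 i j).1
  have hl : ∀ j, Tendsto (fun i => x (φ i) j) atTop (𝓝 (a j)) := fun j =>
    tendsto_pi_nhds.1 hlim j
  have ha2 : ∀ j, ‖a j‖ = ρ / ((j : ℝ) + 2) := fun j =>
    tendsto_nhds_unique (hl j).norm (by simpa only [hx2] using tendsto_const_nhds)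
  have hk : ∀ i j, Tendsto (fun l => kern p (x (φ l) i) (x (φ l) j)) atTop
      (𝓝 (kern p (a i) (a j))) := fun i j =>
    (Complex.continuousAt_cpow_const_of_re_pos (w := (p : ℂ)) (Or.inl (re_one_add_herm_pos hρ
      ((ha2 i).trans_le (hr i).2.le) ((ha2 j).trans_le (hr j).2.le)).2.le)
      (by simpa using hp0)).tendsto.comp (tendsto_const_nhds.add (tendsto_herm (hl i) (hl j)))
  have hinj : Function.Injective a := fun i j hij => by
    have h1 := ha2 i
    rw [hij, ha2 j, div_eq_div_iff (by positivity) (by positivity)] at h1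
    have h2 := mul_left_cancel₀ hρ0.ne' h1
    exact_mod_cast add_right_cancel h2
  refine ⟨Set.range a, ?_, fun ι _ y c hy => ?_, ?_⟩
  · rw [accPt_iff_frequently]
    have h1 : Tendsto a atTop (𝓝 0) := by
      rw [tendsto_zero_iff_norm_tendsto_zero]
      simp only [ha2]
      exact tendsto_const_nhds.div_atTop
        (tendsto_atTop_add_const_right _ _ tendsto_natCast_atTop_atTop)
    refine h1.frequently (Frequently.of_forall fun j => ⟨fun h0 => ?_, j, rfl⟩)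
    have := ha2 j
    rw [h0, norm_zero] at this
    exact (hr j).1.ne this
  · choose J hJ using hy
    simp only [← hJ]
    refine ge_of_tendsto' ((Complex.continuous_re.tendsto _).comp
      (tendsto_finsetSum _ fun i _ => tendsto_finsetSum _ fun j _ =>
        (hk (J i) (J j)).const_mul _)) fun l => ?_
    exact psd_hull hρ (hT (φ l)) ι (fun i => x (φ l) (J i)) c fun i => hx1 _ _
  · rintro _ ⟨η, hη, rfl⟩
    choose G _ hG1 hG2 using fun i => good_hull hρ (hG i) _ ⟨η, hη, rfl⟩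
    obtain ⟨g, -, ψ, hψ, hlim'⟩ := (isCompact_univ_pi fun _ : ℕ =>
      isCompact_closedBall (0 : ℂ) (√(2 ^ p))).tendsto_subseq
      (x := fun l j => G (φ l) (x (φ l) j)) fun l j _ => by
        have h1 := psd_sub_iff.1 (hG1 (φ l)) Unit (fun _ => x (φ l) j) (fun _ => 1)
          fun _ => hx1 _ _
        simp only [Finset.univ_unique, Finset.sum_singleton, one_mul, map_one] at h1
        rw [mem_closedBall_zero_iff]
        refine Real.le_sqrt_of_sq_le (h1.trans ((Complex.re_le_norm _).trans ?_))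
        rw [kern, Complex.norm_cpow_real]
        refine Real.rpow_le_rpow (norm_nonneg _) ((norm_add_le _ _).trans ?_) hp0.le
        have := (re_one_add_herm_pos hρ (hx1 (φ l) j).1 (hx1 (φ l) j).1).1
        rw [norm_one]
        linarith
    have hg : ∀ j, Tendsto (fun l => G (φ (ψ l)) (x (φ (ψ l)) j)) atTop (𝓝 (g j)) := fun j =>
      tendsto_pi_nhds.1 hlim' j
    have hinv : ∀ j, Function.invFun a (a j) = j := Function.leftInverse_invFun hinj
    refine ⟨fun z => g (Function.invFun a z), fun ι _ y c hy => ?_, ?_⟩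
    · choose J hJ using hy
      simp only [← hJ, hinv]
      refine ge_of_tendsto' ((Complex.continuous_re.tendsto _).comp
        (tendsto_finsetSum _ fun i _ => tendsto_finsetSum _ fun j _ =>
          (((hk (J i) (J j)).comp hψ.tendsto_atTop).sub ((hg (J i)).mul
            ((Complex.continuous_conj.tendsto _).comp (hg (J j))))).const_mul _)) fun l => ?_
      exact hG1 (φ (ψ l)) ι (fun i => x (φ (ψ l)) (J i)) c fun i => hx1 _ _
    · rintro _ ⟨j, rfl⟩
      simp only [hinv j]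
      refine tendsto_nhds_unique ((hg j).pow m) ?_
      simp only [fun l => hG2 (φ (ψ l)) _ (hx1 _ j)]
      exact (((hAv η).comp (hφ.comp hψ).tendsto_atTop).inner
        ((continuous_hom.tendsto _).comp ((hl j).comp hψ.tendsto_atTop))).pow k

theorem confR_chart (hmk : (m : ℝ) * p = k) {Ω : Set (Eh n)} {A : Eh n →L[ℂ] Eh n}
    (hA : ∀ v, ‖A v‖ = ‖v‖) {Z : Set (Fin n → ℂ)} (hZ : Psd (kern p) Z)
    (hG : Good p m k (A '' Ω) Z) {a : Fin n → ℂ} (ha : AccPt a (𝓟 Z))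
    {V : Eh n ≃ₗᵢ[ℂ] Eh n} (hV : V (hom 0) = (‖hom a‖ : ℂ)⁻¹ • hom a) :
    ConfR p m k Ω (V.symm.toContinuousLinearEquiv.toContinuousLinearMap.comp A) := by
  obtain ⟨T, h1, h2, h3, -⟩ := good_chart hmk hZ hG ha (inv_norm_hom_re a) hV
  refine ⟨fun v => (V.symm.norm_map _).trans (hA v), T, h1, h2, ?_⟩
  rw [← Set.image_comp] at h3
  exact h3

theorem one_lt_norm_hom {a : Fin n → ℂ} (ha : a ≠ 0) : 1 < ‖hom a‖ := by
  obtain ⟨j, hj⟩ := Function.ne_iff.1 ha
  have h1 : 1 < ‖hom a‖ ^ 2 := by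
    rw [EuclideanSpace.norm_sq_eq, Fin.sum_univ_succ]
    have h2 : 0 < ∑ i : Fin n, ‖hom a i.succ‖ ^ 2 :=
      Finset.sum_pos' (fun i _ => by positivity) ⟨j, Finset.mem_univ _,
        pow_pos (norm_pos_iff.2 hj) 2⟩
    simpa using h2
  by_contra h
  nlinarith [norm_nonneg (hom a)]

theorem not_confR (hI : IdealFin p d) (hP : PtFin p d) (hp0 : 0 < p) (hmk : (m : ℝ) * p = k)
    (hm : d + 2 ≤ m) (hco : Nat.Coprime m k) {Ω : Set (Eh (d + 1))} {η₁ : Eh (d + 1)}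
    (hη₁ : ‖η₁‖ = 1) (hR : Rich Ω η₁) (A₀ : Eh (d + 1) →L[ℂ] Eh (d + 1)) :
    ¬ ConfR p m k Ω A₀ := by
  intro h₀
  have hK : IsCompact {A | ConfR p m k Ω A} := by
    refine Metric.isCompact_of_isClosed_isBounded
      (IsSeqClosed.isClosed fun A A' hA hA' => confR_limit hI hP hp0 hA hA') ?_
    refine isBounded_iff_forall_norm_le.2 ⟨1, fun A hA => ?_⟩
    exact A.opNorm_le_bound zero_le_one fun v => by rw [hA.1, one_mul]
  obtain ⟨A, ⟨hA, T, h0, hT, hG⟩, hmin⟩ := hK.exists_isMinOn ⟨A₀, h₀⟩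
    (f := fun A => ‖inner ℂ (A η₁) (hom 0)‖) (by fun_prop)
  obtain ⟨ρ, hρ⟩ := exists_adm (d + 1)
  have hρ0 := hρ.1
  have hG' : Good p m k (A '' Ω) (hull ρ T) := fun η hη => by
    obtain ⟨G, -, h1, h2⟩ := good_hull hρ hG η hη
    exact ⟨G, h1, h2⟩
  have key : ∀ a, AccPt a (𝓟 (hull ρ T)) →
      ‖inner ℂ (A η₁) (hom 0)‖ * ‖hom a‖ ≤ ‖inner ℂ (A η₁) (hom a)‖ := by
    intro a ha
    obtain ⟨ν, hν0, hν⟩ := exists_nu a
    obtain ⟨V, hV, -⟩ := exists_frame' hν0 (by rw [hν, sub_self])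
    have h1' := isMinOn_iff.1 hmin _ (confR_chart hmk hA (psd_hull hρ hT) hG' ha hV)
    have h1 : ‖inner ℂ (A η₁) (hom 0)‖ ≤ ‖inner ℂ (V.symm (A η₁)) (hom 0)‖ := h1'
    rw [← V.inner_map_map (V.symm _), V.apply_symm_apply, hV, inner_smul_right, norm_mul, norm_inv,
      Complex.norm_real, norm_norm, le_inv_mul_iff₀ (norm_pos_iff.2 (hom_ne_zero a))] at h1
    linarith
  have h00 : ∀ z : Fin (d + 1) → ℂ, inner ℂ (hom 0) (hom z) = 1 := fun z => by
    simp [inner_hom, herm]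
  by_cases hθ : inner ℂ (A η₁) (hom 0) = 0
  · have h1 : ‖hom (0 : Fin (d + 1) → ℂ)‖ = 1 := by simp [hom_org]
    obtain ⟨V, hV0, hV⟩ := exists_frame h1 ((hA η₁).trans hη₁) (inner_eq_zero_symm.1 hθ)
    obtain ⟨T', h2, h3, h4, -⟩ := good_chart hmk hT hG h0 (c := 1) (by simp)
      (hV0.trans (one_smul _ _).symm)
    obtain ⟨U, hU⟩ := exists_equiv hA
    have h5 := (hR.image U).image V.symm
    rw [hU, Set.image_congr fun v _ => hU v] at h5
    refine final_rat hI hP hm hco h3 h2 h4 h5 fun z => ?_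
    rw [← V.inner_map_map, V.apply_symm_apply, (hV z).2]
  · have hθ' := norm_pos_iff.2 hθ
    set θ := inner ℂ (A η₁) (hom 0) with hθdef
    have hν : ∀ z, inner ℂ (A η₁ - conj θ • hom 0) (hom z) = inner ℂ (A η₁) (hom z) - θ :=
      fun z => by rw [inner_sub_left, inner_smul_left, h00, Complex.conj_conj, mul_one]
    by_cases hν0 : A η₁ - conj θ • hom 0 = 0
    · obtain ⟨a, ha, hacc⟩ := exists_sphere_pt hI hP hρ hT h0 (half_pos hρ0) (half_lt_self hρ0)
      have h1 := key a hacc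
      have h2 := hν a
      rw [hν0, inner_zero_left, eq_comm, sub_eq_zero] at h2
      have h3 := one_lt_norm_hom (a := a) fun h => by
        rw [h, norm_zero] at ha
        linarith
      rw [h2] at h1
      nlinarith
    · obtain ⟨ε, hε, h⟩ := hull_step hI hP hρ hT (accPt_hull hρ0 h0) (by simpa using hρ0) hν0
        (by rw [hν, sub_self]) one_pos
      have ht : 0 < min (1 / 2) (ε / (2 * ‖θ‖)) := by positivity
      have ht1 : min (1 / 2) (ε / (2 * ‖θ‖)) ≤ 1 / 2 := min_le_left _ _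
      have ht2 : min (1 / 2) (ε / (2 * ‖θ‖)) * ‖θ‖ < ε := by
        have := min_le_right (1 / 2) (ε / (2 * ‖θ‖))
        rw [le_div_iff₀ (by positivity)] at this
        nlinarith
      generalize min (1 / 2) (ε / (2 * ‖θ‖)) = t at ht ht1 ht2
      obtain ⟨a, -, ha, hacc⟩ := h (-(t : ℂ) * θ) (by
        rwa [norm_mul, norm_neg, Complex.norm_real, Real.norm_of_nonneg ht.le])
      have h1 := key a hacc
      have h2 : inner ℂ (A η₁) (hom a) = ((1 - t : ℝ) : ℂ) * θ := by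
        rw [hν] at ha
        push_cast
        linear_combination ha
      rw [h2, norm_mul, Complex.norm_real, Real.norm_of_nonneg (by linarith)] at h1
      nlinarith [one_le_norm_hom a, mul_pos ht hθ']

theorem ptFin_succ_rat (hI : IdealFin p d) (hP : PtFin p d) (hp0 : 0 < p) (hmk : (m : ℝ) * p = k)
    (hm : d + 2 ≤ m) (hco : Nat.Coprime m k) : PtFin p (d + 1) := by
  intro T₀ a hT₀ ha
  obtain ⟨ν, hν0, hν⟩ := exists_nu a
  obtain ⟨V, hV, -⟩ := exists_frame' hν0 (by rw [hν, sub_self])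
  obtain ⟨T, h0, hT, -⟩ := good_chart (m := 0) (k := 0) (Ω := ∅) (by simp) hT₀
    (fun _ h => h.elim) ha (inv_norm_hom_re a) hV
  obtain ⟨ρ, hρ⟩ := exists_adm (d + 1)
  have hρ0 := hρ.1
  have hZ := psd_hull hρ hT
  have hacc := accPt_hull hρ0 h0
  let ω : (Fin (d + 1) → ℂ) → Eh (d + 1) := fun x => (‖hom x‖ : ℂ)⁻¹ • hom x
  have hN : ∀ x : Fin (d + 1) → ℂ, (‖hom x‖ : ℂ) ≠ 0 := fun x => by
    exact_mod_cast norm_ne_zero_iff.2 (hom_ne_zero x)
  have hω : Continuous ω :=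
    ((Complex.continuous_ofReal.comp continuous_hom.norm).inv₀ hN).smul continuous_hom
  refine not_confR hI hP hp0 hmk hm hco (Ω := ω '' hull ρ T) (η₁ := ω 0)
    (norm_smul_inv_norm (𝕜 := ℂ) (hom_ne_zero 0)) ⟨fun ε hε hc => ?_, fun b hb => ?_⟩
    (ContinuousLinearMap.id ℂ _) ⟨fun v => rfl, hull ρ T, hacc, hZ, ?_⟩
  · obtain ⟨δ, hδ, h1⟩ := Metric.nhds_basis_closedBall.mem_iff.1
      (hω.continuousAt.preimage_mem_nhds (ball_mem_nhds (ω 0) hε))
    obtain ⟨ν', hν0', hν'⟩ := exists_nu (0 : Fin (d + 1) → ℂ)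
    obtain ⟨ε', hε', h2⟩ := hull_step hI hP hρ hT hacc (by simpa using hρ0) hν0'
      (by rw [hν', sub_self]) hδ
    have h3 : (ball (0 : ℂ) ε').Countable := by
      refine (hc.image fun η : Eh (d + 1) => η (Fin.succ 0) / η 0).mono fun c hc' => ?_
      obtain ⟨z, h3, h4, h5⟩ := h2 c (mem_ball_zero_iff.1 hc')
      refine ⟨ω z, ⟨⟨z, (isClosed_iff_derivedSet_subset _).1 (isClosed_hull hρ0 _) h5, rfl⟩,
        h1 h3⟩, ?_⟩
      rw [hν', Pi.zero_apply, sub_zero] at h4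
      have h6 := hN z
      simp only [ω, PiLp.smul_apply, hom_succ, hom_zero, smul_eq_mul, h4]
      field_simp
    exact (Metric.measure_ball_pos MeasureTheory.volume (0 : ℂ) hε').ne'
      (h3.measure_zero _)
  · have h1 : {x | x ∈ hull ρ T ∧ inner ℂ b (hom x) = 0}.Countable := by
      by_contra hc
      obtain ⟨x, -, hx⟩ := exists_accPt_of_not_countable hc
      exact hyperplane_fin hP (hZ.mono fun z hz => hz.1) hx hb fun z hz => hz.2
    refine (h1.image ω).mono ?_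
    rintro _ ⟨⟨x, hx, rfl⟩, h2⟩
    refine ⟨x, ⟨hx, ?_⟩, rfl⟩
    rw [inner_eq_zero_symm, inner_smul_right] at h2
    exact (mul_eq_zero.1 h2).resolve_left (inv_ne_zero (hN x))
  · rintro _ ⟨_, ⟨x, hx, rfl⟩, rfl⟩
    have hN' : 0 < ‖hom x‖ := norm_pos_iff.2 (hom_ne_zero x)
    refine ⟨fun z => kern p z x / ((‖hom x‖ ^ p : ℝ) : ℂ), hZ.schur hx (fun z hz => ?_)
      (by positivity) ?_, fun z hz => ?_⟩
    · rw [kern, kern, ← conj_cpow_of_re_pos (re_one_add_herm_pos hρ hz.1 hx.1).2, map_add, map_one,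
        herm_conj]
    · rw [kern, ← inner_hom, inner_self_eq_norm_sq_to_K, Complex.ofReal_cpow hN'.le, sq, sq]
      exact Complex.mul_cpow_ofReal_nonneg hN'.le hN'.le _
    · have h3 : (m : ℂ) * (p : ℂ) = (k : ℂ) := by exact_mod_cast hmk
      change (kern p z x / ((‖hom x‖ ^ p : ℝ) : ℂ)) ^ m =
        inner ℂ ((‖hom x‖ : ℂ)⁻¹ • hom x) (hom z) ^ k
      rw [inner_smul_left, inner_hom, map_inv₀, Complex.conj_ofReal, kern,
        Complex.ofReal_cpow hN'.le, div_pow, ← Complex.cpow_nat_mul, ← Complex.cpow_nat_mul, h3,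
        Complex.cpow_natCast, Complex.cpow_natCast, mul_pow, inv_pow, div_eq_inv_mul]

theorem fin_rat (hp0 : 0 < p) (hmk : (m : ℝ) * p = k) (hco : Nat.Coprime m k) :
    ∀ d, d < m → IdealFin p d ∧ PtFin p d
  | 0, _ => ⟨idealFin_zero, ptFin_zero⟩
  | d + 1, hd =>
    have h := fin_rat hp0 hmk hco d (by omega)
    have h1 := ptFin_succ_rat h.1 h.2 hp0 hmk (by omega) hco
    ⟨idealFin_succ h.1 h1, h1⟩

theorem ptFin_of_forall (hp0 : 0 < p) (h : ∀ m k : ℕ, 1 ≤ m → m ≤ d → (m : ℝ) * p ≠ k) :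
    PtFin p d := by
  by_cases hp : Irrational p
  · exact (fin_all hp hp0 d).2
  · obtain ⟨q, rfl⟩ : ∃ q : ℚ, (q : ℝ) = p := by simpa [Irrational] using hp
    have hq : 0 < q := by exact_mod_cast hp0
    have h1 : (q.den : ℝ) * q = q.num.natAbs := by
      have h2 : ((q.num.natAbs : ℤ) : ℝ) = q.num := by
        rw [Int.natAbs_of_nonneg (Rat.num_nonneg.2 hq.le)]
      rw [← Int.cast_natCast, ← Int.cast_natCast (R := ℝ) q.num.natAbs, h2]
      exact_mod_cast Rat.den_mul_eq_num q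
    refine (fin_rat hp0 h1 q.reduced.symm d ?_).2
    by_contra hn
    exact h q.den _ q.pos (not_lt.1 hn) h1

end Pool.Agent.Lib.MP_078bb2_an
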