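import Mathlib
import Pool.Agent.Lib.MP_078bb2_an.RatC
import Pool.Agent.Lib.MP_078bb2_an.Min

set_option autoImplicit false

namespace Pool.Agent.Lib.MP_078bb2_an

open Metric Filter Topology ComplexConjugate

variable {d : ℕ} {p : ℝ}

theorem finite_of_psd' (hP : PtFin p d) {S : Set (sphere (0 : EuclideanSpace ℝ (Fin (d + 1))) 1)}
    (hS : ∀ (ι : Type) [Fintype ι] (x : ι → sphere (0 : EuclideanSpace ℝ (Fin (d + 1))) 1) (a : ι → ℝ),
      (∀ i, x i ∈ S) → 0 ≤ ∑ i, ∑ j, a i * a j * |inner ℝ (x i).1 (x j).1| ^ p) : S.Finite := by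
  by_contra hinf
  obtain ⟨a, -, ha⟩ := Set.Infinite.exists_accPt_of_subset_isCompact hinf isCompact_univ
    (Set.subset_univ _)
  have hn : ∀ x : sphere (0 : EuclideanSpace ℝ (Fin (d + 1))) 1, ‖x.1‖ = 1 := fun x =>
    mem_sphere_zero_iff_norm.1 x.2
  have haa : inner ℝ a.1 a.1 = 1 := by rw [real_inner_self_eq_norm_sq, hn, one_pow]
  have h1 : ∀ᶠ z : sphere (0 : EuclideanSpace ℝ (Fin (d + 1))) 1 × sphere (0 : EuclideanSpace ℝ (Fin (d + 1))) 1
      in 𝓝 (a, a), 0 < inner ℝ z.1.1 z.2.1 := by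
    have : Continuous fun z : sphere (0 : EuclideanSpace ℝ (Fin (d + 1))) 1 ×
        sphere (0 : EuclideanSpace ℝ (Fin (d + 1))) 1 => inner ℝ z.1.1 z.2.1 := by fun_prop
    refine this.continuousAt.eventually (lt_mem_nhds ?_)
    change 0 < inner ℝ a.1 a.1
    rw [haa]; exact one_pos
  rw [nhds_prod_eq, eventually_prod_self_iff'] at h1
  obtain ⟨V, hV, h1⟩ := h1
  have h2 : ∀ x ∈ V, 0 < inner ℝ x.1 a.1 := fun x hx => h1 x hx a (mem_of_mem_nhds hV)
  let ζ : sphere (0 : EuclideanSpace ℝ (Fin (d + 1))) 1 → EuclideanSpace ℝ (Fin (d + 1)) :=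
    fun x => (inner ℝ x.1 a.1)⁻¹ • x.1 - a.1
  let Z : sphere (0 : EuclideanSpace ℝ (Fin (d + 1))) 1 → Fin (d + 1) → ℂ := fun x i => (ζ x i : ℂ)
  have h3 : ∀ x ∈ V, ∀ y ∈ V, kern p (Z x) (Z y) = (((inner ℝ x.1 a.1)⁻¹ ^ p *
      (inner ℝ y.1 a.1)⁻¹ ^ p * |inner ℝ x.1 y.1| ^ p : ℝ) : ℂ) := by
    intro x hx y hy
    have h4 : herm (Z x) (Z y) = (inner ℝ (ζ x) (ζ y) : ℝ) := by
      simp [herm, Z, PiLp.inner_apply, mul_comm]
    have h5 : 1 + inner ℝ (ζ x) (ζ y) =
        (inner ℝ x.1 a.1)⁻¹ * (inner ℝ y.1 a.1)⁻¹ * |inner ℝ x.1 y.1| := by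
      have h6 := (h2 x hx).ne'
      have h7 := (h2 y hy).ne'
      have h8 : 0 < inner ℝ x.1 y.1 := h1 x hx y hy
      simp only [ζ, inner_sub_left, inner_sub_right, real_inner_smul_left, real_inner_smul_right,
        haa, real_inner_comm y.1 a.1, abs_of_pos h8]
      field_simp
      ring
    have h6 := (inv_pos.2 (h2 x hx)).le
    have h7 := (inv_pos.2 (h2 y hy)).le
    rw [kern, h4, ← Complex.ofReal_one, ← Complex.ofReal_add, h5,
      ← Complex.ofReal_cpow (by positivity), Real.mul_rpow (by positivity) (abs_nonneg _),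
      Real.mul_rpow h6 h7]
  refine hyperplane_fin hP (T := Z '' (V ∩ S)) (fun ι _ z c hz => ?_) (a := 0) ?_
    (ν := WithLp.toLp 2 (Fin.cons 0 fun i => (a.1 i : ℂ))) (fun h => ?_) ?_
  · choose x hx hxz using hz
    have h4 := hS ι x (fun i => (c i).re * (inner ℝ (x i).1 a.1)⁻¹ ^ p) fun i => (hx i).2
    have h5 := hS ι x (fun i => (c i).im * (inner ℝ (x i).1 a.1)⁻¹ ^ p) fun i => (hx i).2
    refine (add_nonneg h4 h5).trans_eq ?_
    simp only [← hxz, fun i j => h3 _ (hx i).1 _ (hx j).1, Complex.re_sum, Complex.re_mul_ofReal,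
      ← Finset.sum_add_distrib]
    refine Finset.sum_congr rfl fun i _ => Finset.sum_congr rfl fun j _ => ?_
    simp only [Complex.mul_re, Complex.conj_re, Complex.conj_im]
    ring
  · have h4 : ContinuousAt ζ a := by
      have h5 : Continuous fun x : sphere (0 : EuclideanSpace ℝ (Fin (d + 1))) 1 =>
          inner ℝ x.1 a.1 := by fun_prop
      exact ((h5.continuousAt.inv₀ (by rw [haa]; exact one_ne_zero)).smul
        continuous_subtype_val.continuousAt).sub continuousAt_const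
    have h5 : ζ a = 0 := by simp only [ζ, haa, inv_one, one_smul, sub_self]
    have h6 : Tendsto Z (𝓝 a) (𝓝 0) := by
      have h7 : Continuous fun v : EuclideanSpace ℝ (Fin (d + 1)) => fun i => (v i : ℂ) := by fun_prop
      have h8 := (h7.tendsto' 0 0 (by ext i; simp)).comp (h5 ▸ h4.tendsto)
      exact h8
    rw [accPt_iff_frequently] at ha ⊢
    refine h6.frequently ((ha.and_eventually hV).mono fun x hx =>
      ⟨fun h0 => hx.1.1 ?_, x, ⟨hx.2, hx.1.2⟩, rfl⟩)
    have h7 : ζ x = 0 := by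
      ext i
      simpa [Z] using congrFun h0 i
    have h8 : (inner ℝ x.1 a.1)⁻¹ • x.1 = a.1 := sub_eq_zero.1 h7
    have h9 := congrArg norm h8
    rw [norm_smul, hn, hn, mul_one, Real.norm_of_nonneg (inv_pos.2 (h2 x hx.2)).le] at h9
    rw [h9, one_smul] at h8
    exact Subtype.ext h8
  · have h4 : a.1 = 0 := by
      ext i
      simpa using congrArg (fun v : Eh (d + 1) => v i.succ) h
    simp [h4] at haa
  · rintro _ ⟨x, hx, rfl⟩
    have h4 : inner ℝ (ζ x) a.1 = 0 := by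
      simp only [ζ, inner_sub_left, real_inner_smul_left, haa, inv_mul_cancel₀ (h2 x hx.1).ne',
        sub_self]
    have h5 : ((inner ℝ (ζ x) a.1 : ℝ) : ℂ) = ∑ i, (a.1 i : ℂ) * Z x i := by
      simp [Z, PiLp.inner_apply]
    rw [inner_hom_eq, Fin.sum_univ_succ]
    simp only [hom_succ, Fin.cons_succ, Fin.cons_zero, map_zero, zero_mul, zero_add,
      Complex.conj_ofReal]
    rw [← h5, h4, Complex.ofReal_zero]

end Pool.Agent.Lib.MP_078bb2_an
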