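import Pool.Agent.Lib.MP_078bb2_an.Rank

set_option autoImplicit false

namespace Pool.Agent.Lib.MP_078bb2_an

open MeasureTheory Metric Filter Topology

theorem chordA {p a t : ℝ} (h2 : 2 < p) (h3 : p ≤ 3) (ht : 0 < t) (hta : t ≤ a) :
    t * ((p - 1) * ((a + t) ^ (p - 2) + (a - t) ^ (p - 2))) ≤
      (a + t) ^ (p - 1) - (a - t) ^ (p - 1) := by
  have hd : ∀ s : ℝ, HasDerivAt (fun s : ℝ => (a + s) ^ (p - 1) - (a - s) ^ (p - 1))
      ((p - 1) * ((a + s) ^ (p - 2) + (a - s) ^ (p - 2))) s := by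
    intro s
    have e1 := ((hasDerivAt_id s).const_add a).rpow_const (p := p - 1) (Or.inr (by linarith))
    have e2 := ((hasDerivAt_id s).const_sub a).rpow_const (p := p - 1) (Or.inr (by linarith))
    have e : p - 1 - 1 = p - 2 := by ring
    simp only [id, e] at e1 e2
    exact (e1.fun_sub e2).congr_deriv (by ring)
  obtain ⟨c, hc, hc2⟩ := exists_hasDerivAt_eq_slope _ _ ht
    (fun s _ => (hd s).continuousAt.continuousWithinAt) fun s _ => hd s
  simp only [add_zero, sub_zero, sub_self] at hc2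
  rw [eq_div_iff ht.ne'] at hc2
  rw [← hc2, mul_comm]
  refine mul_le_mul_of_nonneg_right (mul_le_mul_of_nonneg_left ?_ (by linarith)) ht.le
  have hcc := Real.concaveOn_rpow (p := p - 2) (by linarith) (by linarith)
  have l1 : 0 ≤ (t + c) / (2 * t) := div_nonneg (by linarith [hc.1]) (by linarith)
  have l2 : 0 ≤ (t - c) / (2 * t) := div_nonneg (by linarith [hc.2]) (by linarith)
  have l3 : (t + c) / (2 * t) + (t - c) / (2 * t) = 1 := by field_simp; ring
  have m1 : a + t ∈ Set.Ici (0 : ℝ) := by simp only [Set.mem_Ici]; linarith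
  have m2 : a - t ∈ Set.Ici (0 : ℝ) := by simp only [Set.mem_Ici]; linarith
  have i1 := hcc.2 m1 m2 l1 l2 l3
  have i2 := hcc.2 m1 m2 l2 l1 (by linarith)
  simp only [smul_eq_mul] at i1 i2
  have f1 : (t + c) / (2 * t) * (a + t) + (t - c) / (2 * t) * (a - t) = a + c := by
    field_simp; ring
  have f2 : (t - c) / (2 * t) * (a + t) + (t + c) / (2 * t) * (a - t) = a - c := by
    field_simp; ring
  rw [f1] at i1
  rw [f2] at i2
  have : (a + t) ^ (p - 2) + (a - t) ^ (p - 2) = ((t + c) / (2 * t) + (t - c) / (2 * t)) *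
      ((a + t) ^ (p - 2) + (a - t) ^ (p - 2)) := by rw [l3, one_mul]
  rw [this]
  nlinarith

theorem chordB {p a t : ℝ} (h2 : 2 < p) (h3 : p ≤ 3) (ht : 0 ≤ t) (hta : t ≤ a) :
    2 * a ^ p ≤ (a + t) ^ p + (a - t) ^ p -
      p / 2 * t * ((a + t) ^ (p - 1) - (a - t) ^ (p - 1)) := by
  rcases ht.eq_or_lt with rfl | ht
  · simp only [add_zero, sub_zero, mul_zero, zero_mul]
    linarith
  have hd : ∀ s : ℝ, HasDerivAt (fun s : ℝ => (a + s) ^ p + (a - s) ^ p -
      p / 2 * s * ((a + s) ^ (p - 1) - (a - s) ^ (p - 1)))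
      (p / 2 * (((a + s) ^ (p - 1) - (a - s) ^ (p - 1)) -
        s * ((p - 1) * ((a + s) ^ (p - 2) + (a - s) ^ (p - 2))))) s := by
    intro s
    have e1 := ((hasDerivAt_id s).const_add a).rpow_const (p := p - 1) (Or.inr (by linarith))
    have e2 := ((hasDerivAt_id s).const_sub a).rpow_const (p := p - 1) (Or.inr (by linarith))
    have e3 := ((hasDerivAt_id s).const_add a).rpow_const (p := p) (Or.inr (by linarith))
    have e4 := ((hasDerivAt_id s).const_sub a).rpow_const (p := p) (Or.inr (by linarith))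
    have e : p - 1 - 1 = p - 2 := by ring
    simp only [id, e] at e1 e2 e3 e4
    have e5 := ((hasDerivAt_id s).const_mul (p / 2)).fun_mul (e1.fun_sub e2)
    simp only [id] at e5
    exact ((e3.fun_add e4).fun_sub e5).congr_deriv (by ring)
  obtain ⟨c, hc, hc2⟩ := exists_hasDerivAt_eq_slope _ _ ht
    (fun s _ => (hd s).continuousAt.continuousWithinAt) fun s _ => hd s
  simp only [add_zero, sub_zero, mul_zero, zero_mul] at hc2
  rw [eq_div_iff ht.ne'] at hc2
  have h1 := chordA h2 h3 hc.1 (hc.2.le.trans hta)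
  have h4 : 0 ≤ p / 2 * (((a + c) ^ (p - 1) - (a - c) ^ (p - 1)) -
      c * ((p - 1) * ((a + c) ^ (p - 2) + (a - c) ^ (p - 2)))) * t :=
    mul_nonneg (mul_nonneg (by linarith) (by linarith)) ht.le
  linarith

theorem chordC {p a b : ℝ} (h2 : 2 < p) (h3 : p ≤ 3) (h : |b| ≤ |a|) :
    2 * |a| ^ p ≤ |a + b| ^ p + |a - b| ^ p -
      1 / 2 * (p * |a + b| ^ (p - 2) * (a + b) * b - p * |a - b| ^ (p - 2) * (a - b) * b) := by
  have key : ∀ u v : ℝ, 0 ≤ v → v ≤ u → 2 * |u| ^ p ≤ |u + v| ^ p + |u - v| ^ p -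
      1 / 2 * (p * |u + v| ^ (p - 2) * (u + v) * v - p * |u - v| ^ (p - 2) * (u - v) * v) := by
    intro u v hv huv
    have h1 := chordB h2 h3 hv huv
    have e : p - 1 = p - 2 + 1 := by ring
    rw [e, Real.rpow_add_one' (by linarith) (by linarith),
      Real.rpow_add_one' (by linarith) (by linarith)] at h1
    rw [abs_of_nonneg (by linarith : 0 ≤ u), abs_of_nonneg (by linarith : 0 ≤ u + v),
      abs_of_nonneg (by linarith : 0 ≤ u - v)]
    linarith
  have h1 := key |a| |b| (abs_nonneg b) h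
  rw [abs_abs] at h1
  refine h1.trans (le_of_eq ?_)
  rcases abs_cases a with ⟨x, -⟩ | ⟨x, -⟩ <;> rcases abs_cases b with ⟨y, -⟩ | ⟨y, -⟩ <;>
    rw [x, y]
  · rw [sub_neg_eq_add, ← sub_eq_add_neg]
    ring
  · rw [show -a + b = -(a - b) by ring, show -a - b = -(a + b) by ring, abs_neg, abs_neg]
    ring
  · rw [show -a + -b = -(a + b) by ring, show -a - -b = -(a - b) by ring, abs_neg, abs_neg]
    ring

/-- Two different contact points of a finite potential are separated by one of its walls. -/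
theorem chord_false {ι : Type} [Fintype ι] {p I : ℝ} (h2 : 2 < p) (h3 : p ≤ 3) (hI : 0 < I)
    {n : ℕ} {w : Fin n → ℝ} (hw : ∀ j, 0 ≤ w j) (y : Fin n → EuclideanSpace ℝ ι)
    (hF : ∀ z : EuclideanSpace ℝ ι, I * ‖z‖ ^ p ≤ ∑ j, w j * |inner ℝ z (y j)| ^ p)
    {x₁ x₂ : EuclideanSpace ℝ ι} (n1 : ‖x₁‖ = 1) (n2 : ‖x₂‖ = 1) (h12 : x₁ ≠ x₂)
    (e1 : ∑ j, w j * |inner ℝ x₁ (y j)| ^ p = I) (e2 : ∑ j, w j * |inner ℝ x₂ (y j)| ^ p = I)
    (hc : ∀ j, 0 ≤ inner ℝ x₁ (y j) * inner ℝ x₂ (y j)) : False := by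
  set m : EuclideanSpace ℝ ι := (1 / 2 : ℝ) • (x₁ + x₂) with hm
  set h : EuclideanSpace ℝ ι := (1 / 2 : ℝ) • (x₁ - x₂) with hh
  have hx1 : x₁ = m + h := by rw [hm, hh]; module
  have hx2 : x₂ = m - h := by rw [hm, hh]; module
  clear_value m h
  have k1 := norm_add_sq_real m h
  have k2 := norm_sub_sq_real m h
  rw [← hx1, n1] at k1
  rw [← hx2, n2] at k2
  have hmh : inner ℝ m h = 0 := by linarith
  have hb : 0 < ‖h‖ ^ 2 := by
    have : h ≠ 0 := fun h0 => h12 (by rw [hx1, hx2, h0]; simp)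
    positivity
  have hm2 : ‖m‖ ^ 2 = 1 - ‖h‖ ^ 2 := by linarith
  have hb1 : ‖h‖ ^ 2 ≤ 1 := by nlinarith [sq_nonneg ‖m‖]
  have hnorm : ∀ s : ℝ, ‖m + s • h‖ ^ p = (1 - ‖h‖ ^ 2 + s ^ 2 * ‖h‖ ^ 2) ^ (p / 2) := by
    intro s
    have : ‖m + s • h‖ ^ 2 = 1 - ‖h‖ ^ 2 + s ^ 2 * ‖h‖ ^ 2 := by
      rw [norm_add_sq_real, real_inner_smul_right, hmh, norm_smul, mul_pow, Real.norm_eq_abs,
        sq_abs, hm2]
      ring
    rw [← this, ← Real.rpow_natCast, ← Real.rpow_mul (norm_nonneg _)]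
    congr 1
    push_cast
    ring
  generalize ‖h‖ ^ 2 = β at hb hb1 hnorm
  let a : Fin n → ℝ := fun j => inner ℝ m (y j)
  let b : Fin n → ℝ := fun j => inner ℝ h (y j)
  have hin : ∀ (s : ℝ) j, inner ℝ (m + s • h) (y j) = a j + s * b j := fun s j => by
    rw [inner_add_left, real_inner_smul_left]
  have g1 : ∀ j, inner ℝ x₁ (y j) = a j + b j := fun j => by rw [hx1, inner_add_left]
  have g2 : ∀ j, inner ℝ x₂ (y j) = a j - b j := fun j => by rw [hx2, inner_sub_left]
  simp only [g1, g2] at e1 e2 hc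
  have hab : ∀ j, |b j| ≤ |a j| := fun j => by
    rw [← sq_le_sq]
    nlinarith [hc j]
  let V : ℝ → ℝ := fun s => ∑ j, w j * (|a j + s * b j| ^ p + |a j - s * b j| ^ p) -
    2 * I * (1 - β + s ^ 2 * β) ^ (p / 2)
  have hV0 : ∀ s, 0 ≤ V s := by
    intro s
    have a1 := hF (m + s • h)
    have a2 := hF (m + (-s) • h)
    rw [hnorm] at a1 a2
    simp only [hin, neg_mul, neg_sq, ← sub_eq_add_neg] at a1 a2
    simp only [V, mul_add, Finset.sum_add_distrib]
    linarith
  have hV1 : V 1 = 0 := by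
    simp only [V, mul_add, Finset.sum_add_distrib, one_mul, one_pow, sub_add_cancel,
      Real.one_rpow, e1, e2]
    ring
  have hd : HasDerivAt V (∑ j, w j * (p * |a j + b j| ^ (p - 2) * (a j + b j) * b j -
      p * |a j - b j| ^ (p - 2) * (a j - b j) * b j) - 2 * I * (p * β)) 1 := by
    refine HasDerivAt.sub (HasDerivAt.fun_sum fun j _ => HasDerivAt.const_mul _ ?_)
      (HasDerivAt.const_mul _ ?_)
    · have c1 : HasDerivAt (fun s : ℝ => a j + s * b j) (b j) 1 := by
        simpa using ((hasDerivAt_id (1 : ℝ)).mul_const (b j)).const_add (a j)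
      have c2 : HasDerivAt (fun s : ℝ => a j - s * b j) (-b j) 1 := by
        simpa using ((hasDerivAt_id (1 : ℝ)).mul_const (b j)).const_sub (a j)
      have d1 := (hasDerivAt_abs_rpow (a j + 1 * b j) (p := p) (by linarith)).comp 1 c1
      have d2 := (hasDerivAt_abs_rpow (a j - 1 * b j) (p := p) (by linarith)).comp 1 c2
      simp only [one_mul] at d1 d2
      exact (d1.fun_add d2).congr_deriv (by ring)
    · have c1 : HasDerivAt (fun s : ℝ => 1 - β + s ^ 2 * β) (2 * β) 1 := by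
        simpa using ((hasDerivAt_pow 2 (1 : ℝ)).mul_const β).const_add (1 - β)
      have d1 := c1.rpow_const (p := p / 2) (Or.inr (by linarith))
      simp only [one_pow, one_mul, sub_add_cancel, Real.one_rpow] at d1
      exact d1.congr_deriv (by ring)
  have hz := IsLocalMin.hasDerivAt_eq_zero (Eventually.of_forall fun s => by
    rw [hV1]; exact hV0 s) hd
  have a0 := hV0 0
  have a1 : ∑ j, w j * (2 * |a j| ^ p) ≤ ∑ j, w j * (|a j + b j| ^ p + |a j - b j| ^ p -
      1 / 2 * (p * |a j + b j| ^ (p - 2) * (a j + b j) * b j -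
        p * |a j - b j| ^ (p - 2) * (a j - b j) * b j)) :=
    Finset.sum_le_sum fun j _ => mul_le_mul_of_nonneg_left (chordC h2 h3 (hab j)) (hw j)
  have a2 : ∑ j, w j * (|a j + b j| ^ p + |a j - b j| ^ p -
      1 / 2 * (p * |a j + b j| ^ (p - 2) * (a j + b j) * b j -
        p * |a j - b j| ^ (p - 2) * (a j - b j) * b j)) = 2 * I - I * (p * β) := by
    have : ∑ j, w j * (p * |a j + b j| ^ (p - 2) * (a j + b j) * b j -
      p * |a j - b j| ^ (p - 2) * (a j - b j) * b j) = 2 * I * (p * β) := by linarith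
    have a4 : ∀ j, w j * (|a j + b j| ^ p + |a j - b j| ^ p -
        1 / 2 * (p * |a j + b j| ^ (p - 2) * (a j + b j) * b j -
          p * |a j - b j| ^ (p - 2) * (a j - b j) * b j)) =
        w j * |a j + b j| ^ p + w j * |a j - b j| ^ p -
        1 / 2 * (w j * (p * |a j + b j| ^ (p - 2) * (a j + b j) * b j -
          p * |a j - b j| ^ (p - 2) * (a j - b j) * b j)) := fun j => by ring
    simp only [a4, Finset.sum_sub_distrib, Finset.sum_add_distrib, ← Finset.mul_sum, e1, e2, this]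
    ring
  have a3 := one_add_mul_self_lt_rpow_one_add (s := -β) (by linarith) (by linarith)
    (p := p / 2) (by linarith)
  simp only [V, zero_mul, add_zero, sub_zero, ne_eq, OfNat.ofNat_ne_zero, not_false_eq_true,
    zero_pow, ← two_mul] at a0
  rw [← sub_eq_add_neg] at a3
  nlinarith [mul_lt_mul_of_pos_left a3 hI]

/-- If the kernel has finite rank on the support of a minimiser, the potential on the support is
reproduced by finitely many atoms of the support. -/
theorem exists_atoms_pot {X : Type} [MetricSpace X] [CompactSpace X] [MeasurableSpace X]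
    [BorelSpace X] {K : X → X → ℝ} {μ : Measure X} [IsProbabilityMeasure μ]
    (hK : Continuous fun z : X × X => K z.1 z.2)
    (hs : ∀ x y, K x y = K y x) (h : IsMinim K μ) {β : Type} [Fintype β] (b : β → X)
    (hb : ∀ y ∈ μ.support, ∃ c : β → ℝ, ∀ x ∈ μ.support, K y x = ∑ i, c i * K (b i) x) :
    ∃ (n : ℕ) (w : Fin n → ℝ) (x : Fin n → X), (∀ j, 0 ≤ w j) ∧
      (∀ y, ∫ a, ∫ z, K a z ∂μ ∂μ ≤ ∑ j, w j * K y (x j)) ∧
      ∀ y ∈ μ.support, ∑ j, w j * K y (x j) = ∫ a, ∫ z, K a z ∂μ ∂μ := by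
  have hc : ∀ a, Continuous fun y => K a y := fun a => hK.comp (Continuous.prodMk_right a)
  let H : X → β → ℝ := fun y i => K (b i) y
  have hH : Continuous H := continuous_pi fun i => hc _
  obtain ⟨n, w, x, h0, h1, hx, hsum⟩ := richter μ H hH
  have hν := atoms_prob x h0 h1
  have e2 : ∀ i, ∫ z, K (b i) z ∂μ = ∑ j, w j * K (b i) (x j) := fun i => by
    have h2 := congrFun hsum i
    rw [Finset.sum_apply, eval_integral fun o => integrable_cont (hc (b o))] at h2
    simpa only [Pi.smul_apply, smul_eq_mul] using h2.symm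
  have hpot : ∀ y ∈ μ.support, ∑ j, w j * K y (x j) = ∫ a, ∫ z, K a z ∂μ ∂μ := by
    intro y hy
    obtain ⟨c, hcy⟩ := hb y hy
    rw [← pot_eq hK hs h hy]
    have e1 : ∫ z, K y z ∂μ = ∑ i, c i * ∫ z, K (b i) z ∂μ := by
      rw [integral_congr_ae (g := fun z => ∑ i, c i * K (b i) z) (by
        filter_upwards [Measure.support_mem_ae (μ := μ)] with z hz using hcy z hz),
        integral_finsetSum (f := fun i z => c i * K (b i) z) _ fun i _ =>
          integrable_cont (continuous_const.mul (hc _))]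
      exact Finset.sum_congr rfl fun i _ => integral_const_mul _ _
    rw [e1]
    simp only [e2, hcy _ (hx _), Finset.mul_sum]
    rw [Finset.sum_comm]
    exact Finset.sum_congr rfl fun i _ => Finset.sum_congr rfl fun j _ => by ring
  have hE : ∫ a, ∫ z, K a z ∂atoms w x ∂atoms w x = ∫ a, ∫ z, K a z ∂μ ∂μ := by
    rw [integral_atoms x h0 (pot_cont hK)]
    simp only [integral_atoms x h0 (hc _), hpot _ (hx _)]
    rw [← Finset.sum_mul, h1, one_mul]
  refine ⟨n, w, x, h0, fun y => ?_, hpot⟩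
  have h3 := pot_ge (μ := atoms w x) hK hs (fun ρ hρ => hE.le.trans (h ρ hρ)) y
  rwa [hE, integral_atoms x h0 (hc _)] at h3

/-- Finite support for rational exponents between two and three. -/
theorem finite_rat_three {ι : Type} [Fintype ι] {p : ℝ} (h2 : 2 < p) (h3 : p ≤ 3) {m k : ℕ}
    (hm : 1 ≤ m) (hmk : (m : ℝ) * p = k) (μ : Measure (sphere (0 : EuclideanSpace ℝ ι) 1))
    [IsProbabilityMeasure μ]
    (hmin : IsMinim (fun x y : sphere (0 : EuclideanSpace ℝ ι) 1 => |inner ℝ x.1 y.1| ^ p) μ) :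
    μ.support.Finite := by
  by_contra hinf
  have hp0 : 0 < p := by linarith
  have hK : Continuous fun z : sphere (0 : EuclideanSpace ℝ ι) 1 × sphere (0 : EuclideanSpace ℝ ι) 1
      => |inner ℝ z.1.1 z.2.1| ^ p :=
    Continuous.rpow_const (by fun_prop) fun _ => Or.inr hp0.le
  have hs : ∀ x y : sphere (0 : EuclideanSpace ℝ ι) 1,
      |inner ℝ x.1 y.1| ^ p = |inner ℝ y.1 x.1| ^ p := fun x y => by rw [real_inner_comm]
  have hn : ∀ x : sphere (0 : EuclideanSpace ℝ ι) 1, ‖x.1‖ = 1 := fun x => by simp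
  obtain ⟨r, b, hb⟩ := finite_rank hs μ.support
    (fun κ _ x a hx => psd_support (μ := μ) hK (fun x y => by positivity) hmin x a hx) _
    fun b => not_posDef hm hmk fun i => (b i).1
  obtain ⟨n, w, y, hw, hge, heq⟩ := exists_atoms_pot hK hs hmin b hb
  set I := ∫ a, ∫ y, |inner ℝ a.1 y.1| ^ p ∂μ ∂μ with hI
  obtain ⟨x₁, h1, x₂, h2', h12, hc⟩ := Set.Infinite.exists_ne_map_eq_of_mapsTo
    (f := fun (x : sphere (0 : EuclideanSpace ℝ ι) 1) (j : Fin n) =>
      decide (0 ≤ inner ℝ x.1 (y j).1)) hinf (Set.mapsTo_univ _ _) Set.finite_univ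
  have hI0 : 0 < I := by
    rw [hI, ← pot_eq hK hs hmin h1]
    refine pos_of_mem_support (hK.comp (Continuous.prodMk_right x₁)) (fun y => by positivity) h1 ?_
    rw [real_inner_self_eq_norm_sq, hn]
    norm_num
  refine chord_false h2 h3 hI0 hw (fun j => (y j).1) (fun z => ?_) (hn x₁) (hn x₂)
    (fun h => h12 (Subtype.ext h)) (heq _ h1) (heq _ h2') fun j => ?_
  · by_cases hz : z = 0
    · simp [hz, Real.zero_rpow hp0.ne']
    have hz' : 0 < ‖z‖ := norm_pos_iff.2 hz
    have a1 := hge ⟨‖z‖⁻¹ • z, by simp [norm_smul, hz]⟩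
    have a2 : ∀ j, w j * |inner ℝ (‖z‖⁻¹ • z) (y j).1| ^ p =
        (‖z‖ ^ p)⁻¹ * (w j * |inner ℝ z (y j).1| ^ p) := fun j => by
      rw [real_inner_smul_left, abs_mul, Real.mul_rpow (abs_nonneg _) (abs_nonneg _), abs_inv,
        abs_norm, Real.inv_rpow hz'.le]
      ring
    simp only [a2, ← Finset.mul_sum] at a1
    rwa [← div_eq_inv_mul, le_div_iff₀ (by positivity)] at a1
  · have a1 := congrFun hc j
    simp only [decide_eq_decide] at a1
    by_cases a2 : 0 ≤ inner ℝ x₁.1 (y j).1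
    · exact mul_nonneg a2 (a1.1 a2)
    · exact mul_nonneg_of_nonpos_of_nonpos (not_le.1 a2).le (not_le.1 fun a3 => a2 (a1.2 a3)).le

end Pool.Agent.Lib.MP_078bb2_an
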