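import Pool.Agent.Lib.MP_078bb2_an.Min

set_option autoImplicit false

namespace Pool.Agent.Lib.MP_078bb2_an

open MeasureTheory Metric Filter Topology

section el

variable {X : Type} [MetricSpace X] [CompactSpace X] [MeasurableSpace X] [BorelSpace X]
  {K : X → X → ℝ} {μ : Measure X}

theorem pot_cont [IsProbabilityMeasure μ] (hK : Continuous fun z : X × X => K z.1 z.2) :
    Continuous fun x => ∫ y, K x y ∂μ := by
  have := continuous_parametric_integral_of_continuous (μ := μ) (f := K) hK isCompact_univ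
  simpa using this

theorem pot_ge [IsProbabilityMeasure μ] (hK : Continuous fun z : X × X => K z.1 z.2)
    (hs : ∀ x y, K x y = K y x) (h : IsMinim K μ) (x : X) :
    ∫ a, ∫ y, K a y ∂μ ∂μ ≤ ∫ y, K x y ∂μ := by
  set I := ∫ a, ∫ y, K a y ∂μ ∂μ with hI
  set f := ∫ y, K x y ∂μ with hf
  have hc : ∀ a, Continuous fun y => K a y := fun a => hK.comp (Continuous.prodMk_right a)
  have key : ∀ t : ℝ, 0 < t → t ≤ 1 → 0 ≤ 2 * (f - I) + t * (I - 2 * f + K x x) := by
    intro t h0 h1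
    let ν : Measure X := (1 - t).toNNReal • μ + t.toNNReal • Measure.dirac x
    have hν : IsProbabilityMeasure ν := ⟨by
      simp only [ν, Measure.add_apply, Measure.smul_apply, measure_univ, ENNReal.smul_def,
        smul_eq_mul, mul_one]
      rw [← ENNReal.coe_add, ← Real.toNNReal_add (by linarith) h0.le]
      simp⟩
    have hint : ∀ g : X → ℝ, Continuous g → ∫ y, g y ∂ν = (1 - t) * ∫ y, g y ∂μ + t * g x := by
      intro g hg
      rw [integral_add_measure (integrable_cont hg) (integrable_cont hg),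
        integral_smul_nnreal_measure, integral_smul_nnreal_measure, integral_dirac]
      simp only [NNReal.smul_def, Real.coe_toNNReal _ h0.le,
        Real.coe_toNNReal _ (show 0 ≤ 1 - t by linarith), smul_eq_mul]
    have h2 := h ν hν
    simp only [hint _ (hc _)] at h2
    have hc2 : Continuous fun a => K a x := hK.comp (Continuous.prodMk_left x)
    have hc3 := pot_cont (μ := μ) hK
    rw [hint (fun a => (1 - t) * ∫ y, K a y ∂μ + t * K a x) (by fun_prop),
      integral_add (integrable_cont (by fun_prop)) (integrable_cont (by fun_prop)),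
      integral_const_mul, integral_const_mul] at h2
    simp only [hs _ x] at h2
    rw [← hI, ← hf] at h2
    by_contra hn
    nlinarith
  have h2 : Tendsto (fun t : ℝ => 2 * (f - I) + t * (I - 2 * f + K x x)) (𝓝[>] 0)
      (𝓝 (2 * (f - I))) := by
    have : Continuous fun t : ℝ => 2 * (f - I) + t * (I - 2 * f + K x x) := by fun_prop
    simpa using (this.tendsto 0).mono_left nhdsWithin_le_nhds
  have h3 : 0 ≤ 2 * (f - I) := by
    refine ge_of_tendsto h2 ?_
    filter_upwards [Ioc_mem_nhdsGT one_pos] with t ht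
    exact key t ht.1 ht.2
  linarith

theorem pos_of_mem_support [IsProbabilityMeasure μ] {g : X → ℝ} (hg : Continuous g)
    (h0 : ∀ y, 0 ≤ g y) {x : X} (hx : x ∈ μ.support) (hgx : g x ≠ 0) : 0 < ∫ y, g y ∂μ := by
  rw [integral_pos_iff_support_of_nonneg h0 (integrable_cont hg)]
  exact (Measure.mem_support_iff_forall _).1 hx _ (hg.isOpen_support.mem_nhds hgx)

theorem pot_eq [IsProbabilityMeasure μ] (hK : Continuous fun z : X × X => K z.1 z.2)
    (hs : ∀ x y, K x y = K y x) (h : IsMinim K μ) {x : X} (hx : x ∈ μ.support) :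
    ∫ y, K x y ∂μ = ∫ a, ∫ y, K a y ∂μ ∂μ := by
  by_contra hn
  have h1 := pos_of_mem_support (μ := μ) (g := fun y => ∫ z, K y z ∂μ - ∫ a, ∫ y, K a y ∂μ ∂μ)
    ((pot_cont hK).sub continuous_const)
    (fun y => sub_nonneg.2 (pot_ge hK hs h y)) hx (sub_ne_zero.2 hn)
  rw [integral_sub (integrable_cont (pot_cont hK)) (integrable_const _)] at h1
  simp at h1

end el

section cubic

variable {ι : Type} [Fintype ι]

/-- The third tensor power of a vector. -/
def cube (x : EuclideanSpace ℝ ι) : ι × ι × ι → ℝ := fun a => x a.1 * x a.2.1 * x a.2.2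

theorem inner_cube (x y : EuclideanSpace ℝ ι) :
    inner ℝ x y ^ 3 = ∑ a, cube x a * cube y a := by
  simp only [PiLp.inner_apply, RCLike.inner_apply, conj_trivial, cube, Fintype.sum_prod_type,
    pow_succ, pow_zero, one_mul, Finset.sum_mul, Finset.mul_sum]
  refine Finset.sum_congr rfl fun i _ => Finset.sum_congr rfl fun j _ =>
    Finset.sum_congr rfl fun k _ => by ring

/-- An infinite set with a positive semidefinite kernel has two points on the same side of every
hyperplane orthogonal to a point of the set. -/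
theorem exists_consistent (S T : Set (EuclideanSpace ℝ ι)) (hTS : T ⊆ S) (hT : T.Infinite)
    (hpos : ∀ x ∈ T, ∀ y ∈ T, 0 ≤ inner ℝ x y)
    (hpsd : ∀ (κ : Type) [Fintype κ] (x : κ → EuclideanSpace ℝ ι) (a : κ → ℝ), (∀ i, x i ∈ S) →
      0 ≤ ∑ i, ∑ j, a i * a j * |inner ℝ (x i) (x j)| ^ 3) :
    ∃ x₁ ∈ T, ∃ x₂ ∈ T, x₁ ≠ x₂ ∧ ∀ y ∈ S, 0 ≤ inner ℝ x₁ y * inner ℝ x₂ y := by
  classical
  have hex : ∃ n, ∃ T' ⊆ T, T'.Infinite ∧
      Module.finrank ℝ (Submodule.span ℝ (cube '' T')) = n := ⟨_, T, le_rfl, hT, rfl⟩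
  obtain ⟨T', hT'T, hT', hn⟩ := Nat.find_spec hex
  have hspan : ∀ U ⊆ T', U.Infinite → ∀ x ∈ T', cube x ∈ Submodule.span ℝ (cube '' U) := by
    intro U hU hUi x hx
    have h1 : Submodule.span ℝ (cube '' U) = Submodule.span ℝ (cube '' T') :=
      Submodule.eq_of_le_of_finrank_le (Submodule.span_mono (Set.image_mono hU))
        (hn ▸ Nat.find_min' hex ⟨U, hU.trans hT'T, hUi, rfl⟩)
    rw [h1]
    exact Submodule.subset_span ⟨x, hx, rfl⟩
  have hrel : ∀ (U : Set (EuclideanSpace ℝ ι)), U ⊆ T' → U.Infinite → ∀ y ∈ S, ∀ e : ℝ,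
      (∀ u ∈ U, |inner ℝ u y| ^ 3 = e * inner ℝ u y ^ 3) → ∀ x ∈ T',
      |inner ℝ x y| ^ 3 = e * inner ℝ x y ^ 3 := by
    intro U hU hUi y hy e he x hx
    obtain ⟨n, c, v, hv⟩ := Submodule.mem_span_set'.1 (hspan U hU hUi x hx)
    choose u hu1 hu2 using fun i => (v i).2
    let z : Option (Fin n) → EuclideanSpace ℝ ι := fun o => o.elim x u
    let a : Option (Fin n) → ℝ := fun o => o.elim (-1) c
    have hz : ∀ o, z o ∈ T := by
      rintro (_ | i)
      · exact hT'T hx
      · exact hT'T (hU (hu1 i))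
    have hlin : ∀ w, ∑ o, a o * inner ℝ (z o) w ^ 3 = 0 := by
      intro w
      simp only [inner_cube, Finset.mul_sum]
      rw [Finset.sum_comm]
      refine Finset.sum_eq_zero fun α _ => ?_
      have := congrFun hv α
      simp only [Finset.sum_apply, Pi.smul_apply, smul_eq_mul, ← hu2] at this
      simp only [Fintype.sum_option, a, z, Option.elim, ← mul_assoc, ← Finset.sum_mul, this]
      ring
    have h0 : ∑ o, ∑ o', a o * a o' * |inner ℝ (z o) (z o')| ^ 3 = 0 := by
      rw [Finset.sum_comm]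
      refine Finset.sum_eq_zero fun o' _ => ?_
      have : ∀ o, a o * a o' * |inner ℝ (z o) (z o')| ^ 3 =
          a o' * (a o * inner ℝ (z o) (z o') ^ 3) := fun o => by
        rw [abs_of_nonneg (hpos _ (hz o) _ (hz o'))]; ring
      simp only [this, ← Finset.mul_sum, hlin, mul_zero]
    have h1 := quad_nonneg (b := 2 * ∑ o, a o * |inner ℝ (z o) y| ^ 3) (q := |inner ℝ y y| ^ 3)
      one_pos (fun t _ => by
        have h2 := hpsd (Option (Option (Fin n))) (fun o => o.elim y z) (fun o => o.elim t a) (by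
          rintro (_ | o)
          · exact hy
          · exact hTS (hz o))
        rw [Fintype.sum_option] at h2
        simp only [Fintype.sum_option (α := Option (Fin n)), Option.elim, Finset.sum_add_distrib,
          h0, real_inner_comm (z _) y] at h2
        have h3 : ∑ o, t * a o * |inner ℝ (z o) y| ^ 3 = t * ∑ o, a o * |inner ℝ (z o) y| ^ 3 := by
          rw [Finset.mul_sum]
          exact Finset.sum_congr rfl fun o _ => by ring
        have h4 : ∑ o, a o * t * |inner ℝ (z o) y| ^ 3 = t * ∑ o, a o * |inner ℝ (z o) y| ^ 3 := by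
          rw [Finset.mul_sum]
          exact Finset.sum_congr rfl fun o _ => by ring
        rw [h3, h4] at h2
        linarith)
    have h2 : ∑ o, a o * |inner ℝ (z o) y| ^ 3 = 0 := by linarith [h1.1]
    have h3 := hlin y
    simp only [Fintype.sum_option, a, z, Option.elim] at h2 h3
    have h4 : ∑ i, c i * |inner ℝ (u i) y| ^ 3 = e * ∑ i, c i * inner ℝ (u i) y ^ 3 := by
      rw [Finset.mul_sum]
      exact Finset.sum_congr rfl fun i _ => by rw [he _ (hu1 i)]; ring
    rw [h4] at h2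
    linear_combination e * h3 - h2
  obtain ⟨x₁, h1, x₂, h2, h12⟩ := hT'.nontrivial
  refine ⟨x₁, hT'T h1, x₂, hT'T h2, h12, fun y hy => ?_⟩
  have hsplit : T' = {u ∈ T' | 0 ≤ inner ℝ u y} ∪ {u ∈ T' | inner ℝ u y ≤ 0} := by
    ext u
    simp only [Set.mem_union, Set.mem_ofPred_eq]
    have := le_total 0 (inner ℝ u y)
    tauto
  rw [hsplit, Set.infinite_union] at hT'
  have hodd : Odd 3 := by decide
  rcases hT' with h | h
  · have key : ∀ x ∈ T', 0 ≤ inner ℝ x y := fun x hx => by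
      have := hrel _ (Set.sep_subset _ _) h y hy 1 (fun u hu => by
        rw [abs_of_nonneg hu.2, one_mul]) x hx
      rw [← hodd.pow_nonneg_iff, ← one_mul (_ ^ 3), ← this]
      positivity
    exact mul_nonneg (key _ h1) (key _ h2)
  · have key : ∀ x ∈ T', inner ℝ x y ≤ 0 := fun x hx => by
      have := hrel _ (Set.sep_subset _ _) h y hy (-1) (fun u hu => by
        rw [abs_of_nonpos hu.2]; ring) x hx
      rw [← hodd.pow_nonpos_iff]
      have h3 : 0 ≤ |inner ℝ x y| ^ 3 := by positivity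
      linarith
    exact mul_nonneg_of_nonpos_of_nonpos (key _ h1) (key _ h2)

end cubic

/-- The pointwise inequality along a chord. -/
theorem chord_ineq (u v s : ℝ) (h : |v| ≤ |u|) (hv : |v| ≤ 1) (hs : 1 ≤ s) :
    |u + s * v| ^ 3 + |u - s * v| ^ 3 ≤
      2 * |u| ^ 3 + 6 * s ^ 2 * (|u| * v ^ 2) + 2 * (s - 1) ^ 3 := by
  have key : ∀ a b : ℝ, 0 ≤ b → b ≤ a → b ≤ 1 →
      |a + s * b| ^ 3 + |a - s * b| ^ 3 ≤ 2 * a ^ 3 + 6 * s ^ 2 * (a * b ^ 2) + 2 * (s - 1) ^ 3 := by
    intro a b hb hab hb1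
    have h0 : 0 ≤ s * b := by positivity
    have h1 : 0 ≤ (s - 1) ^ 3 := pow_nonneg (by linarith) 3
    rw [abs_of_nonneg (by linarith)]
    rcases le_total (s * b) a with h2 | h2
    · rw [abs_of_nonneg (by linarith)]
      nlinarith
    · rw [abs_of_nonpos (by linarith)]
      have h3 : s * b - a ≤ s - 1 := by nlinarith
      have h4 : (s * b - a) ^ 3 ≤ (s - 1) ^ 3 := pow_le_pow_left₀ (by linarith) h3 3
      nlinarith
  have h1 := key |u| |v| (abs_nonneg v) h hv
  rw [sq_abs] at h1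
  refine le_trans (le_of_eq ?_) h1
  rcases abs_cases u with ⟨a, -⟩ | ⟨a, -⟩ <;> rcases abs_cases v with ⟨b, -⟩ | ⟨b, -⟩ <;>
    rw [a, b]
  · rw [mul_neg, sub_neg_eq_add, ← sub_eq_add_neg, add_comm]
  · rw [add_comm, ← abs_neg (u - s * v), ← abs_neg (u + s * v)]
    ring_nf
  · rw [← abs_neg (u - s * v), ← abs_neg (u + s * v)]
    ring_nf

theorem chord_eq (u v : ℝ) (h : |v| ≤ |u|) :
    |u + v| ^ 3 + |u - v| ^ 3 = 2 * |u| ^ 3 + 6 * (|u| * v ^ 2) := by
  obtain ⟨h1, h2⟩ := abs_le.1 h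
  rcases abs_cases u with ⟨a, -⟩ | ⟨a, -⟩ <;> rw [a] at h1 h2 ⊢
  · rw [abs_of_nonneg (by linarith), abs_of_nonneg (by linarith)]; ring
  · rw [abs_of_nonpos (by linarith), abs_of_nonpos (by linarith)]; ring

theorem chord_final {I A B b : ℝ} (hI : 0 < I) (hb : 0 < b) (hb1 : b ≤ 1) (h1 : A + 3 * B = I)
    (h0 : I * √(1 - b) ^ 3 ≤ A)
    (h2 : ∀ s, 1 ≤ s → I * √(1 - b + s ^ 2 * b) ^ 3 ≤ A + 3 * s ^ 2 * B + (s - 1) ^ 3) : False := by
  have h3 : ∀ t : ℝ, 0 < t → I * b / 2 ≤ B + t ^ 2 / 6 := by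
    intro t ht
    have a1 := h2 (1 + t) (by linarith)
    have a0 : 1 ≤ 1 - b + (1 + t) ^ 2 * b := by nlinarith [mul_pos ht hb, mul_pos (mul_pos ht ht) hb]
    have a2 : 1 ≤ √(1 - b + (1 + t) ^ 2 * b) := Real.one_le_sqrt.2 a0
    have a3 : √(1 - b + (1 + t) ^ 2 * b) ^ 2 = 1 - b + (1 + t) ^ 2 * b :=
      Real.sq_sqrt (by linarith)
    generalize √(1 - b + (1 + t) ^ 2 * b) = r at *
    have a4 : 1 + 3 / 2 * (r ^ 2 - 1) ≤ r ^ 3 := by nlinarith [sq_nonneg (r - 1)]
    have a5 := mul_le_mul_of_nonneg_left a4 hI.le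
    have a6 : (2 * t + t ^ 2) * (I * b / 2 - B) * 3 ≤ t ^ 3 := by nlinarith
    by_contra hn
    have a7 : t ^ 2 / 6 < I * b / 2 - B := by linarith
    have a8 : 0 < t ^ 2 := by positivity
    nlinarith [mul_lt_mul_of_pos_left a7 (show 0 < (2 * t + t ^ 2) * 3 by positivity),
      mul_pos a8 a8]
  have h4 : I * b / 2 ≤ B := by
    have a1 : Tendsto (fun t : ℝ => B + t ^ 2 / 6) (𝓝[>] 0) (𝓝 B) := by
      have : Continuous fun t : ℝ => B + t ^ 2 / 6 := by fun_prop
      simpa using (this.tendsto 0).mono_left nhdsWithin_le_nhds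
    exact ge_of_tendsto a1 (eventually_nhdsWithin_of_forall fun t ht => h3 t ht)
  have a2 : 0 ≤ √(1 - b) := Real.sqrt_nonneg _
  have a3 : √(1 - b) ^ 2 = 1 - b := Real.sq_sqrt (by linarith)
  generalize √(1 - b) = r at *
  have a4 : r ≠ 1 := by
    rintro rfl
    linarith
  have a5 : 0 < (r - 1) ^ 2 := by positivity
  have a6 : 1 - 3 / 2 * b < r ^ 3 := by nlinarith
  nlinarith [mul_lt_mul_of_pos_left a6 hI]

theorem finite_cubic {ι : Type} [Fintype ι] (μ : Measure (sphere (0 : EuclideanSpace ℝ ι) 1))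
    [IsProbabilityMeasure μ]
    (hmin : IsMinim (fun x y : sphere (0 : EuclideanSpace ℝ ι) 1 => |inner ℝ x.1 y.1| ^ 3) μ) :
    μ.support.Finite := by
  by_contra hinf
  have hK : Continuous fun z : sphere (0 : EuclideanSpace ℝ ι) 1 × sphere (0 : EuclideanSpace ℝ ι) 1
      => |inner ℝ z.1.1 z.2.1| ^ 3 := by fun_prop
  have hs : ∀ x y : sphere (0 : EuclideanSpace ℝ ι) 1,
      |inner ℝ x.1 y.1| ^ 3 = |inner ℝ y.1 x.1| ^ 3 := fun x y => by rw [real_inner_comm]
  have hn : ∀ x : sphere (0 : EuclideanSpace ℝ ι) 1, ‖x.1‖ = 1 := fun x => by simp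
  obtain ⟨c, hc⟩ : ∃ c, (μ.support ∩ ball c (1 / 2)).Infinite := by
    by_contra h
    push Not at h
    obtain ⟨t, -, ht, hcov⟩ := finite_cover_balls_of_compact
      (isCompact_univ (X := sphere (0 : EuclideanSpace ℝ ι) 1)) (e := 1 / 2) (by norm_num)
    refine hinf ((ht.biUnion fun c _ => h c).subset fun x hx => ?_)
    obtain ⟨c, hc, h1⟩ := Set.mem_iUnion₂.1 (hcov (Set.mem_univ x))
    exact Set.mem_iUnion₂.2 ⟨c, hc, hx, h1⟩
  obtain ⟨_, ⟨x₁, h1, rfl⟩, _, ⟨x₂, h2, rfl⟩, h12, hcons⟩ := exists_consistent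
    (Subtype.val '' μ.support) (Subtype.val '' (μ.support ∩ ball c (1 / 2)))
    (Set.image_mono Set.inter_subset_left) (hc.image Subtype.val_injective.injOn) (by
      rintro _ ⟨x, hx, rfl⟩ _ ⟨y, hy, rfl⟩
      have a1 : ‖x.1 - y.1‖ < 1 := by
        have := dist_triangle_right x y c
        have a2 : dist x c < 1 / 2 := hx.2
        have a3 : dist y c < 1 / 2 := hy.2
        rw [← dist_eq_norm, ← Subtype.dist_eq]
        linarith
      have a2 := norm_sub_sq_real x.1 y.1
      rw [hn, hn] at a2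
      nlinarith [norm_nonneg (x.1 - y.1)]) (by
      intro κ _ x a hx
      choose z hz1 hz2 using hx
      simpa only [hz2] using psd_support hK (fun x y => by positivity) hmin z a hz1)
  set I := ∫ a, ∫ y, |inner ℝ a.1 y.1| ^ 3 ∂μ ∂μ with hI
  have e1 : ∫ y, |inner ℝ x₁.1 y.1| ^ 3 ∂μ = I := pot_eq hK hs hmin h1.1
  have e2 : ∫ y, |inner ℝ x₂.1 y.1| ^ 3 ∂μ = I := pot_eq hK hs hmin h2.1
  have hI0 : 0 < I := by
    rw [← e1]
    refine pos_of_mem_support (by fun_prop) (fun y => by positivity) h1.1 ?_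
    rw [real_inner_self_eq_norm_sq, hn]
    norm_num
  have hF : ∀ z : EuclideanSpace ℝ ι, I * ‖z‖ ^ 3 ≤ ∫ y, |inner ℝ z y.1| ^ 3 ∂μ := by
    intro z
    by_cases hz : z = 0
    · simp [hz]
    have hz' : 0 < ‖z‖ := norm_pos_iff.2 hz
    have a1 := pot_ge hK hs hmin ⟨‖z‖⁻¹ • z, by simp [norm_smul, hz]⟩
    simp only [real_inner_smul_left, abs_mul, mul_pow, integral_const_mul, abs_inv, abs_norm,
      inv_pow] at a1
    rw [← hI, ← div_eq_inv_mul, le_div_iff₀ (by positivity)] at a1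
    exact a1
  set m : EuclideanSpace ℝ ι := (1 / 2 : ℝ) • (x₁.1 + x₂.1) with hm
  set h : EuclideanSpace ℝ ι := (1 / 2 : ℝ) • (x₁.1 - x₂.1) with hh
  have hx1 : x₁.1 = m + h := by rw [hm, hh]; module
  have hx2 : x₂.1 = m - h := by rw [hm, hh]; module
  clear_value m h
  have n1 := norm_add_sq_real m h
  have n2 := norm_sub_sq_real m h
  rw [← hx1, hn] at n1
  rw [← hx2, hn] at n2
  have hmh : inner ℝ m h = 0 := by linarith
  have hb : 0 < ‖h‖ ^ 2 := by
    have : h ≠ 0 := fun h0 => h12 (by rw [hx1, hx2, h0]; simp)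
    positivity
  have hm2 : ‖m‖ ^ 2 = 1 - ‖h‖ ^ 2 := by linarith
  have hb1 : ‖h‖ ^ 2 ≤ 1 := by nlinarith [sq_nonneg ‖m‖]
  have hnorm : ∀ s : ℝ, ‖m + s • h‖ = √(1 - ‖h‖ ^ 2 + s ^ 2 * ‖h‖ ^ 2) := by
    intro s
    rw [← Real.sqrt_sq (norm_nonneg (m + s • h)), norm_add_sq_real, real_inner_smul_right, hmh,
      norm_smul, mul_pow, Real.norm_eq_abs, sq_abs, hm2]
    simp
  have hae : ∀ᵐ y ∂μ, |inner ℝ h y.1| ≤ |inner ℝ m y.1| := by
    filter_upwards [μ.support_mem_ae] with y hy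
    have := hcons _ ⟨y, hy, rfl⟩
    rw [hx1, hx2, inner_add_left, inner_sub_left] at this
    rw [← sq_le_sq]
    nlinarith
  refine chord_final (A := ∫ y, |inner ℝ m y.1| ^ 3 ∂μ)
    (B := ∫ y, |inner ℝ m y.1| * inner ℝ h y.1 ^ 2 ∂μ) hI0 hb hb1 ?_ ?_ ?_
  · have a1 : ∫ y, (|inner ℝ x₁.1 y.1| ^ 3 + |inner ℝ x₂.1 y.1| ^ 3) ∂μ =
        ∫ y, (2 * |inner ℝ m y.1| ^ 3 + 6 * (|inner ℝ m y.1| * inner ℝ h y.1 ^ 2)) ∂μ := by
      refine integral_congr_ae ?_
      filter_upwards [hae] with y hy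
      rw [hx1, hx2, inner_add_left, inner_sub_left, chord_eq _ _ hy]
    rw [integral_add (integrable_cont (by fun_prop)) (integrable_cont (by fun_prop)),
      integral_add (integrable_cont (by fun_prop)) (integrable_cont (by fun_prop)),
      integral_const_mul, integral_const_mul, e1, e2] at a1
    linarith
  · have := hF m
    rwa [← Real.sqrt_sq (norm_nonneg m), hm2] at this
  · intro s hs1
    have a1 : ∫ y, (|inner ℝ (m + s • h) y.1| ^ 3 + |inner ℝ (m + (-s) • h) y.1| ^ 3) ∂μ ≤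
        ∫ y, (2 * |inner ℝ m y.1| ^ 3 + 6 * s ^ 2 * (|inner ℝ m y.1| * inner ℝ h y.1 ^ 2) +
          2 * (s - 1) ^ 3) ∂μ := by
      refine integral_mono_ae (integrable_cont (by fun_prop)) (integrable_cont (by fun_prop)) ?_
      filter_upwards [hae] with y hy
      rw [inner_add_left, inner_add_left, real_inner_smul_left, real_inner_smul_left, neg_mul,
        ← sub_eq_add_neg]
      refine chord_ineq _ _ s hy ((abs_real_inner_le_norm _ _).trans ?_) hs1
      rw [hn, mul_one]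
      nlinarith [norm_nonneg h]
    rw [integral_add (integrable_cont (by fun_prop)) (integrable_cont (by fun_prop)),
      integral_add (integrable_cont (by fun_prop)) (integrable_cont (by fun_prop)),
      integral_add (integrable_cont (by fun_prop)) (integrable_cont (by fun_prop)),
      integral_const_mul, integral_const_mul, integral_const] at a1
    have a2 := hF (m + s • h)
    have a3 := hF (m + (-s) • h)
    rw [hnorm] at a2 a3
    rw [neg_sq] at a3
    simp only [probReal_univ, one_smul] at a1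
    linarith

end Pool.Agent.Lib.MP_078bb2_an
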