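import Mathlib

set_option autoImplicit false

namespace Pool.Agent.Lib.MP_078bb2_an

open MeasureTheory

/-- The `p`-frame energy of a measure on the unit sphere of an inner product space. -/
noncomputable def energy {E : Type} [NormedAddCommGroup E] [InnerProductSpace ℝ E]
    [MeasurableSpace E] (p : ℝ) (μ : Measure (Metric.sphere (0 : E) 1)) : ℝ :=
  ∫ x, ∫ y, |inner ℝ x.1 y.1| ^ p ∂μ ∂μ

/-- Probability measures minimising the `p`-frame energy among probability measures. -/
def IsMinimizer {E : Type} [NormedAddCommGroup E] [InnerProductSpace ℝ E]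
    [MeasurableSpace E] (p : ℝ) (μ : Measure (Metric.sphere (0 : E) 1)) : Prop :=
  IsProbabilityMeasure μ ∧ ∀ ν : Measure (Metric.sphere (0 : E) 1),
    IsProbabilityMeasure ν → energy p μ ≤ energy p ν

end Pool.Agent.Lib.MP_078bb2_an
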