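import Pool.Agent.Lib.MP_078bb2_an.Defs

set_option autoImplicit false

namespace Pool.Agent.Lib.MP_078bb2_an

open MeasureTheory

/-- Any finite list of integrals of continuous functions against `μ` is reproduced by a finitely
supported minimiser whose support lies in the support of `μ`. -/
def FiniteMatch {E : Type} [NormedAddCommGroup E] [InnerProductSpace ℝ E]
    [MeasurableSpace E] (p : ℝ) (μ : Measure (Metric.sphere (0 : E) 1)) : Prop :=
  ∀ (s : ℕ) (g : Fin s → Metric.sphere (0 : E) 1 → ℝ), (∀ i, Continuous (g i)) →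
    ∃ ν : Measure (Metric.sphere (0 : E) 1), IsMinimizer p ν ∧ ν.support.Finite ∧
      ν.support ⊆ μ.support ∧ ∀ i, ∫ x, g i x ∂ν = ∫ x, g i x ∂μ

end Pool.Agent.Lib.MP_078bb2_an
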