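import Pool.Agent.Lib.MP_078bb2_an.Min

set_option autoImplicit false

namespace Pool.Agent.Lib.MP_078bb2_an.Loc

open MeasureTheory Metric Filter Topology
open scoped NNReal ENNReal

open Pool.Agent.Lib.MP_078bb2_an

variable {X : Type} [MetricSpace X] [CompactSpace X] [MeasurableSpace X] [BorelSpace X]
  {K : X → X → ℝ} {μ : Measure X}

/-- The energy does not drop along an initial part of each segment from `μ` towards a probability
measure that is absolutely continuous with respect to `μ`. -/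
def IsLoc (K : X → X → ℝ) (μ : Measure X) : Prop :=
  ∀ ν : Measure X, IsProbabilityMeasure ν → ν.AbsolutelyContinuous μ → ∃ τ : ℝ≥0, 0 < τ ∧
    ∀ t : ℝ≥0, t ≤ τ → t ≤ 1 → ∫ x, ∫ y, K x y ∂μ ∂μ ≤
      ∫ x, ∫ y, K x y ∂((1 - t) • μ + t • ν) ∂((1 - t) • μ + t • ν)

theorem energy_density [IsProbabilityMeasure μ] (hK : Continuous fun z : X × X => K z.1 z.2)
    (h : IsLoc K μ) {g : X → ℝ} (hg : Continuous g) (h0 : ∀ x, |g x| ≤ 1)
    (h1 : ∫ x, g x ∂μ = 0) : ∃ τ : ℝ, 0 < τ ∧ ∀ t : ℝ, 0 ≤ t → t ≤ τ →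
    ∫ z, K z.1 z.2 ∂μ.prod μ ≤ ∫ z, (1 + t * g z.1) * (1 + t * g z.2) * K z.1 z.2 ∂μ.prod μ := by
  have hg0 : ∀ x, 0 ≤ 1 + g x := fun x => by linarith [neg_abs_le (g x), h0 x]
  have hm : Measurable fun x => (1 + g x).toNNReal :=
    (continuous_const.add hg).measurable.real_toNNReal
  obtain ⟨τ, hτ, h2⟩ := h (μ.withDensity fun x => (1 + g x).toNNReal) ⟨by
    rw [withDensity_apply _ MeasurableSet.univ, Measure.restrict_univ]
    have := ofReal_integral_eq_lintegral_ofReal
      (integrable_cont (ν := μ) (f := fun x => 1 + g x) (by fun_prop)) (Eventually.of_forall hg0)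
    rw [integral_add (integrable_const _) (integrable_cont hg), h1, add_zero, integral_const,
      probReal_univ, one_smul, ENNReal.ofReal_one] at this
    exact this.symm⟩ (withDensity_absolutelyContinuous _ _)
  refine ⟨min τ 1, lt_min (by exact_mod_cast hτ) one_pos, fun t ht0 ht => ?_⟩
  lift t to ℝ≥0 using ht0
  have ht1 : t ≤ 1 := by exact_mod_cast ht.trans (min_le_right _ _)
  have ht2 : t ≤ τ := by exact_mod_cast ht.trans (min_le_left _ _)
  have h3 := h2 t ht2 ht1
  have ht1' : (t : ℝ) ≤ 1 := by exact_mod_cast ht1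
  have hw0 : ∀ x, 0 ≤ 1 + (t : ℝ) * g x := fun x => by
    nlinarith [hg0 x, t.coe_nonneg]
  have hm2 : Measurable fun x => (1 + (t : ℝ) * g x).toNNReal :=
    (continuous_const.add (continuous_const.mul hg)).measurable.real_toNNReal
  have h4 : (1 - t) • μ + t • (μ.withDensity fun x => (1 + g x).toNNReal) =
      μ.withDensity fun x => (1 + (t : ℝ) * g x).toNNReal := by
    have h5 : (fun x => (((1 + (t : ℝ) * g x).toNNReal : ℝ≥0) : ℝ≥0∞)) =
        (fun _ => ((1 - t : ℝ≥0) : ℝ≥0∞)) +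
          (t : ℝ≥0∞) • fun x => (((1 + g x).toNNReal : ℝ≥0) : ℝ≥0∞) := by
      funext x
      have h6 : (1 + (t : ℝ) * g x).toNNReal = (1 - t) + t * (1 + g x).toNNReal := by
        apply NNReal.eq
        rw [Real.coe_toNNReal _ (hw0 x), NNReal.coe_add, NNReal.coe_mul, NNReal.coe_sub ht1,
          Real.coe_toNNReal _ (hg0 x), NNReal.coe_one]
        ring
      rw [h6]
      simp only [Pi.add_apply, Pi.smul_apply, smul_eq_mul, ENNReal.coe_add, ENNReal.coe_mul]
    rw [h5, withDensity_add_left measurable_const, withDensity_const,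
      withDensity_smul _ hm.coe_nnreal_ennreal]
    rfl
  rw [h4] at h3
  simp only [integral_withDensity_eq_integral_smul hm2, NNReal.smul_def,
    Real.coe_toNNReal _ (hw0 _), smul_eq_mul, ← integral_const_mul] at h3
  rw [integral_prod _ (integrable_cont hK), integral_prod _ (integrable_cont (by fun_prop))]
  simpa only [mul_assoc] using h3

theorem form_nonneg [IsProbabilityMeasure μ] (hK : Continuous fun z : X × X => K z.1 z.2)
    (hK0 : ∀ x y, 0 ≤ K x y) (h : IsLoc K μ) {g : X → ℝ} (hg : Continuous g) :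
    0 ≤ ∫ z, g z.1 * g z.2 * K z.1 z.2 ∂μ.prod μ := by
  set m := ∫ x, g x ∂μ with hm
  obtain ⟨C, hC⟩ := isCompact_univ.exists_bound_of_continuousOn
    (f := fun x => g x - m) (by fun_prop)
  have hC' : ∀ x, |g x - m| ≤ |C| + 1 := fun x =>
    (hC x trivial).trans (by linarith [le_abs_self C])
  have i0 : Integrable (fun z : X × X => K z.1 z.2) (μ.prod μ) := integrable_cont hK
  have i1 : Integrable (fun z : X × X => ((g z.1 - m) + (g z.2 - m)) * K z.1 z.2) (μ.prod μ) :=
    integrable_cont (by fun_prop)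
  have i2 : Integrable (fun z : X × X => (g z.1 - m) * (g z.2 - m) * K z.1 z.2) (μ.prod μ) :=
    integrable_cont (by fun_prop)
  have key : ∀ s t : ℝ, ∫ z, (s + t * (g z.1 - m)) * (s + t * (g z.2 - m)) * K z.1 z.2 ∂μ.prod μ =
      s ^ 2 * ∫ z, K z.1 z.2 ∂μ.prod μ +
      (s * t * ∫ z, ((g z.1 - m) + (g z.2 - m)) * K z.1 z.2 ∂μ.prod μ +
      t ^ 2 * ∫ z, (g z.1 - m) * (g z.2 - m) * K z.1 z.2 ∂μ.prod μ) := by
    intro s t
    rw [← integral_const_mul, ← integral_const_mul, ← integral_const_mul,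
      ← integral_add (i1.const_mul _) (i2.const_mul _),
      ← integral_add (i0.const_mul _) (integrable_cont (by fun_prop))]
    refine integral_congr_ae (Eventually.of_forall fun z => ?_)
    ring
  have hD : 0 < |C| + 1 := by positivity
  have hint : ∫ x, (g x - m) ∂μ = 0 := by
    rw [integral_sub (integrable_cont hg) (integrable_const _)]
    simp [hm]
  have hside : ∀ σ : ℝ, |σ| = 1 → ∃ τ : ℝ, 0 < τ ∧ ∀ t : ℝ, 0 ≤ t → t ≤ τ →
      0 ≤ (σ * t) * ∫ z, ((g z.1 - m) + (g z.2 - m)) * K z.1 z.2 ∂μ.prod μ +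
        (σ * t) ^ 2 * ∫ z, (g z.1 - m) * (g z.2 - m) * K z.1 z.2 ∂μ.prod μ := by
    intro σ hσ
    obtain ⟨τ, hτ, h3⟩ := energy_density hK h (g := fun x => σ / (|C| + 1) * (g x - m))
      (by fun_prop)
      (fun x => by
        rw [abs_mul, abs_div, hσ, abs_of_pos hD]
        calc _ ≤ 1 / (|C| + 1) * (|C| + 1) := by gcongr; exact hC' x
          _ = 1 := by field_simp)
      (by rw [integral_const_mul, hint, mul_zero])
    refine ⟨τ / (|C| + 1), by positivity, fun t ht0 ht => ?_⟩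
    have h4 := h3 (t * (|C| + 1)) (by positivity) (by rwa [le_div_iff₀ hD] at ht)
    have h5 : ∀ y : ℝ, t * (|C| + 1) * (σ / (|C| + 1) * y) = σ * t * y := fun y => by
      field_simp
    simp only [h5] at h4
    rw [key] at h4
    linarith
  obtain ⟨τ₁, hτ₁, hs1⟩ := hside 1 (by simp)
  obtain ⟨τ₂, hτ₂, hs2⟩ := hside (-1) (by simp)
  obtain ⟨h1, h2⟩ := quad_nonneg (δ := min τ₁ τ₂)
    (b := ∫ z, ((g z.1 - m) + (g z.2 - m)) * K z.1 z.2 ∂μ.prod μ)
    (q := ∫ z, (g z.1 - m) * (g z.2 - m) * K z.1 z.2 ∂μ.prod μ) (lt_min hτ₁ hτ₂) fun t ht => by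
      rcases le_total 0 t with h0 | h0
      · rw [abs_of_nonneg h0] at ht
        simpa using hs1 t h0 (ht.trans (min_le_left _ _))
      · rw [abs_of_nonpos h0] at ht
        simpa using hs2 (-t) (by linarith) (ht.trans (min_le_right _ _))
  have h3 := key m 1
  simp only [one_mul, add_sub_cancel] at h3
  rw [h3, h1]
  have h4 : 0 ≤ ∫ z, K z.1 z.2 ∂μ.prod μ := integral_nonneg fun z => hK0 _ _
  nlinarith [mul_nonneg (sq_nonneg m) h4]

theorem psd_support [IsProbabilityMeasure μ] (hK : Continuous fun z : X × X => K z.1 z.2)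
    (hK0 : ∀ x y, 0 ≤ K x y) (h : IsLoc K μ) {ι : Type} [Fintype ι] (x : ι → X) (a : ι → ℝ)
    (hx : ∀ i, x i ∈ μ.support) : 0 ≤ ∑ i, ∑ j, a i * a j * K (x i) (x j) := by
  have key : ∀ ε > 0, 0 ≤ ∑ i, ∑ j, (a i * a j * K (x i) (x j) + ε * |a i * a j|) := by
    intro ε hε
    obtain ⟨δ, hδ, hu⟩ := Metric.uniformContinuous_iff.1
      (CompactSpace.uniformContinuous_of_continuous hK) ε hε
    let φ : ι → X → ℝ := fun i y => max (δ - dist y (x i)) 0
    have hφ : ∀ i, Continuous (φ i) := fun i => by fun_prop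
    have hφ0 : ∀ i y, 0 ≤ φ i y := fun i y => le_max_right _ _
    have hφ1 : ∀ i y, φ i y ≠ 0 → dist y (x i) < δ := fun i y hy => by
      by_contra hn
      exact hy (max_eq_right (by linarith))
    have hw : ∀ i, 0 < ∫ y, φ i y ∂μ := fun i => by
      rw [integral_pos_iff_support_of_nonneg (hφ0 i) (integrable_cont (hφ i))]
      refine (Measure.mem_support_iff_forall _).1 (hx i) _
        ((hφ i).isOpen_support.mem_nhds ?_)
      simp only [φ, Function.mem_support, dist_self, sub_zero, max_eq_left hδ.le]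
      exact hδ.ne'
    let ψ : ι → X → ℝ := fun i y => (∫ y, φ i y ∂μ)⁻¹ * φ i y
    have hψ : ∀ i, Continuous (ψ i) := fun i => continuous_const.mul (hφ i)
    have hψ0 : ∀ i y, 0 ≤ ψ i y := fun i y => mul_nonneg (inv_pos.2 (hw i)).le (hφ0 i y)
    have hψ1 : ∀ i, ∫ y, ψ i y ∂μ = 1 := fun i => by
      rw [integral_const_mul, inv_mul_cancel₀ (hw i).ne']
    have h1 := form_nonneg hK hK0 h (g := fun y => ∑ i, a i * ψ i y) (by fun_prop)
    refine h1.trans ?_
    have h2 : ∀ i j, a i * a j * K (x i) (x j) + ε * |a i * a j| =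
        ∫ z, (a i * a j * K (x i) (x j) + ε * |a i * a j|) * (ψ i z.1 * ψ j z.2) ∂μ.prod μ := by
      intro i j
      rw [integral_const_mul, integral_prod_mul, hψ1, hψ1, mul_one, mul_one]
    have h3 : ∑ i, ∑ j, (a i * a j * K (x i) (x j) + ε * |a i * a j|) = ∫ z, ∑ i, ∑ j,
        (a i * a j * K (x i) (x j) + ε * |a i * a j|) * (ψ i z.1 * ψ j z.2) ∂μ.prod μ := by
      rw [integral_finsetSum _ fun i _ => integrable_cont (by fun_prop)]
      refine Finset.sum_congr rfl fun i _ => ?_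
      rw [integral_finsetSum _ fun j _ => integrable_cont (by fun_prop)]
      exact Finset.sum_congr rfl fun j _ => h2 i j
    rw [h3]
    refine integral_mono (integrable_cont (by fun_prop)) (integrable_cont (by fun_prop)) fun z => ?_
    beta_reduce
    rw [Finset.sum_mul_sum, Finset.sum_mul]
    refine Finset.sum_le_sum fun i _ => ?_
    rw [Finset.sum_mul]
    refine Finset.sum_le_sum fun j _ => ?_
    by_cases h4 : φ i z.1 = 0
    · simp [ψ, h4]
    by_cases h5 : φ j z.2 = 0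
    · simp [ψ, h5]
    have h6 := hu (a := z) (b := (x i, x j)) (by
      rw [Prod.dist_eq]; exact max_lt (hφ1 i _ h4) (hφ1 j _ h5))
    rw [Real.dist_eq] at h6
    have h7 : a i * a j * K z.1 z.2 ≤ a i * a j * K (x i) (x j) + ε * |a i * a j| := by
      have h8 : |a i * a j * (K z.1 z.2 - K (x i) (x j))| ≤ |a i * a j| * ε := by
        rw [abs_mul (a i * a j)]
        gcongr
      linarith [le_abs_self (a i * a j * (K z.1 z.2 - K (x i) (x j)))]
    calc _ = a i * a j * K z.1 z.2 * (ψ i z.1 * ψ j z.2) := by ring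
      _ ≤ _ := mul_le_mul_of_nonneg_right h7 (mul_nonneg (hψ0 _ _) (hψ0 _ _))
  have h1 : Tendsto (fun ε : ℝ => ∑ i, ∑ j, (a i * a j * K (x i) (x j) + ε * |a i * a j|))
      (𝓝[>] 0) (𝓝 (∑ i, ∑ j, a i * a j * K (x i) (x j))) := by
    have : Continuous fun ε : ℝ => ∑ i, ∑ j, (a i * a j * K (x i) (x j) + ε * |a i * a j|) := by
      fun_prop
    simpa using (this.tendsto 0).mono_left nhdsWithin_le_nhds
  exact ge_of_tendsto h1 (eventually_mem_nhdsWithin.mono fun ε hε => key ε hε)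

end Pool.Agent.Lib.MP_078bb2_an.Loc
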