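import Pool.Agent.Lib.MP_078bb2_an.Richter

set_option autoImplicit false

namespace Pool.Agent.Lib.MP_078bb2_an

open Matrix

/-- A positive semidefinite kernel whose positive definite Gram matrices have bounded size has
finite rank. -/
theorem finite_rank {X : Type} {K : X → X → ℝ} (hs : ∀ x y, K x y = K y x) (S : Set X)
    (hpsd : ∀ (ι : Type) [Fintype ι] (x : ι → X) (a : ι → ℝ), (∀ i, x i ∈ S) →
      0 ≤ ∑ i, ∑ j, a i * a j * K (x i) (x j))
    (N : ℕ) (hN : ∀ b : Fin (N + 1) → X,
      ¬ (Matrix.of fun i j => K (b i) (b j)).PosDef) :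
    ∃ (n : ℕ) (b : Fin n → X), ∀ y ∈ S, ∃ c : Fin n → ℝ, ∀ x ∈ S, K y x = ∑ i, c i * K (b i) x := by
  classical
  let v : S → S → ℝ := fun y x => K y.1 x.1
  obtain ⟨κ, a, -, hspan, hli⟩ := exists_linearIndependent' ℝ v
  have hfin : Finite κ := by
    by_contra hinf
    rw [not_finite_iff_infinite] at hinf
    let e : Fin (N + 1) ↪ κ := Fin.valEmbedding.trans (Infinite.natEmbedding κ)
    have hli' := hli.comp e e.injective
    refine hN (fun i => (a (e i)).1) ?_
    refine Matrix.PosDef.of_dotProduct_mulVec_pos ?_ fun c hc => ?_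
    · ext i j
      simp only [conjTranspose_apply, of_apply, star_trivial]
      exact hs _ _
    · have hq : star c ⬝ᵥ (Matrix.of fun i j => K (a (e i)).1 (a (e j)).1) *ᵥ c =
          ∑ i, ∑ j, c i * c j * K (a (e i)).1 (a (e j)).1 := by
        simp only [star_trivial, dotProduct, mulVec, of_apply, Finset.mul_sum]
        exact Finset.sum_congr rfl fun i _ => Finset.sum_congr rfl fun j _ => by ring
      rw [hq]
      refine lt_of_le_of_ne (hpsd _ _ c fun i => (a (e i)).2) fun h0 => hc ?_
      have hz : ∑ i, c i • (v ∘ a ∘ e) i = 0 := by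
        funext x
        have hd : ∀ t : ℝ,
            0 ≤ K x.1 x.1 * (t * t) + (2 * ∑ i, c i * K (a (e i)).1 x.1) * t + 0 := by
          intro t
          have h1 := hpsd (Option (Fin (N + 1))) (fun o => o.elim x.1 fun i => (a (e i)).1)
            (fun o => o.elim t c) (fun o => by
              cases o with
              | none => exact x.2
              | some i => exact (a (e i)).2)
          simp only [Fintype.sum_option, Option.elim_none, Option.elim_some,
            Finset.sum_add_distrib, ← h0] at h1
          have h2 : ∑ i, t * c i * K x.1 (a (e i)).1 = (∑ i, c i * K (a (e i)).1 x.1) * t := by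
            rw [Finset.sum_mul]
            exact Finset.sum_congr rfl fun i _ => by rw [hs x.1]; ring
          have h3 : ∑ i, c i * t * K (a (e i)).1 x.1 = (∑ i, c i * K (a (e i)).1 x.1) * t := by
            rw [Finset.sum_mul]
            exact Finset.sum_congr rfl fun i _ => by ring
          rw [h2, h3] at h1
          linarith
        have h4 := discrim_le_zero hd
        rw [discrim] at h4
        have h5 : ∑ i, c i * K (a (e i)).1 x.1 = 0 := by
          nlinarith [sq_nonneg (∑ i, c i * K (a (e i)).1 x.1)]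
        rw [Finset.sum_apply]
        exact h5
      funext i
      exact Fintype.linearIndependent_iff.1 hli' c hz i
  obtain ⟨n, ⟨f⟩⟩ := Finite.exists_equiv_fin κ
  refine ⟨n, fun i => (a (f.symm i)).1, fun y hy => ?_⟩
  have h1 : v ⟨y, hy⟩ ∈ Submodule.span ℝ (Set.range (v ∘ a ∘ f.symm)) := by
    rw [← Function.comp_assoc, f.symm.surjective.range_comp, hspan]
    exact Submodule.subset_span ⟨_, rfl⟩
  obtain ⟨c, hc⟩ := (Submodule.mem_span_range_iff_exists_fun ℝ).1 h1
  refine ⟨c, fun x hx => ?_⟩
  have h2 := congrFun hc ⟨x, hx⟩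
  rw [Finset.sum_apply] at h2
  exact h2.symm

theorem posDef_pow {n : Type} [Fintype n] {A : Matrix n n ℝ} (hA : A.PosDef) (m : ℕ) :
    (Matrix.of fun i j => A i j ^ (m + 1)).PosDef := by
  induction m with
  | zero =>
    have e : (Matrix.of fun i j => A i j ^ (0 + 1)) = A := by
      ext i j
      simp only [of_apply, zero_add, pow_one]
    rw [e]
    exact hA
  | succ m ih =>
    have e : (Matrix.of fun i j => A i j ^ (m + 1 + 1)) =
        (Matrix.of fun i j => A i j ^ (m + 1)) ⊙ A := by
      ext i j
      simp only [of_apply, hadamard_apply]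
      ring
    rw [e]
    exact ih.hadamard hA

/-- For rational exponents the positive definite Gram matrices have bounded size. -/
theorem not_posDef {ι : Type} [Fintype ι] {p : ℝ} {m k : ℕ} (hm : 1 ≤ m) (hp : (m : ℝ) * p = k)
    (b : Fin (Fintype.card ι ^ (2 * k) + 1) → EuclideanSpace ℝ ι) :
    ¬ (Matrix.of fun i j => |inner ℝ (b i) (b j)| ^ p).PosDef := by
  classical
  intro h
  have h1 := posDef_pow h (2 * m - 1)
  let A : Matrix (Fin (Fintype.card ι ^ (2 * k) + 1)) (Fin (2 * k) → ι) ℝ :=
    Matrix.of fun i f => ∏ l, b i (f l)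
  have h2 : (Matrix.of fun i j => (Matrix.of fun i j => |inner ℝ (b i) (b j)| ^ p) i j ^
      (2 * m - 1 + 1)) = A * Aᵀ := by
    ext i j
    have e1 : 2 * m - 1 + 1 = 2 * m := by omega
    have e2 : p * ((2 * m : ℕ) : ℝ) = ((2 * k : ℕ) : ℝ) := by
      push_cast
      linarith
    rw [of_apply, of_apply, e1, ← Real.rpow_natCast, ← Real.rpow_mul (abs_nonneg _), e2,
      Real.rpow_natCast, (even_two_mul k).pow_abs, mul_apply, PiLp.inner_apply,
      Fintype.sum_pow]
    refine Finset.sum_congr rfl fun f _ => ?_
    simp only [A, of_apply, transpose_apply, ← Finset.prod_mul_distrib]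
    exact Finset.prod_congr rfl fun l _ => by simp [mul_comm]
  rw [h2] at h1
  have h3 := Matrix.rank_of_isUnit _ h1.isUnit
  have h4 := (Matrix.rank_mul_le_left A Aᵀ).trans (Matrix.rank_le_card_width A)
  rw [h3] at h4
  simp only [Fintype.card_fin, Fintype.card_fun] at h4
  omega

end Pool.Agent.Lib.MP_078bb2_an
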