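import Mathlib
import Pool.Agent.Lib.MP_078bb2_an.Chord

set_option autoImplicit false

namespace Pool.Agent.Lib.MP_078bb2_an

open MeasureTheory Metric Filter Topology Polynomial

/-- Elimination of radicals by iterated resultants. -/
theorem null_elim {M : ℕ} (hM : M ≠ 0) (n : ℕ) : ∀ (A : Type) [CommRing A] (c a : Fin n → A) (z : A),
    ∃ q : A, ∀ φ : A →+* ℂ, φ q = 0 ↔
      ∃ t : Fin n → ℂ, (∀ j, t j ^ M = φ (a j)) ∧ ∑ j, φ (c j) * t j = φ z := by
  induction n with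
  | zero => exact fun A _ c a z => ⟨z, fun φ => by simp [eq_comm]⟩
  | succ n ih =>
    intro A _ c a z
    obtain ⟨q, hq⟩ := ih A[X] (fun j => C (c j.succ)) (fun j => C (a j.succ)) (C z - C (c 0) * X)
    refine ⟨resultant (X ^ M - C (a 0)) q M q.natDegree, fun φ => ?_⟩
    have h1 := resultant_eq_prod_eval (X ^ M - C (φ (a 0))) (q.map φ) q.natDegree natDegree_map_le
      (IsAlgClosed.splits _)
    have h2 := monic_X_pow_sub_C (φ (a 0)) hM
    rw [natDegree_X_pow_sub_C, h2.leadingCoeff, one_pow, one_mul] at h1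
    rw [← resultant_map_map, Polynomial.map_sub, Polynomial.map_pow, map_X, map_C, h1,
      Multiset.prod_eq_zero_iff, Multiset.mem_map]
    have h3 : ∀ s, (q.map φ).eval s = 0 ↔ ∃ t : Fin n → ℂ, (∀ j, t j ^ M = φ (a j.succ)) ∧
        ∑ j, φ (c j.succ) * t j = φ z - φ (c 0) * s := fun s => by
      simpa [eval_map] using hq (eval₂RingHom φ s)
    simp only [mem_roots h2.ne_zero, IsRoot.def, eval_sub, eval_pow, eval_X, eval_C, sub_eq_zero,
      h3]
    constructor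
    · rintro ⟨s, h4, t, h5, h6⟩
      refine ⟨Fin.cons s t, fun j => Fin.cases (by simpa using h4) (fun j => by simpa using h5 j) j, ?_⟩
      simp [Fin.sum_univ_succ, h6]
    · rintro ⟨t, h4, h5⟩
      refine ⟨t 0, h4 0, fun j => t j.succ, fun j => h4 _, ?_⟩
      rw [← h5, Fin.sum_univ_succ]
      ring

theorem null_root {M : ℕ} (hM : M ≠ 0) {f : ℂ → ℂ} {z : ℂ} (hf : AnalyticAt ℂ f z)
    (h : f z ≠ 0 ∨ ∀ t, f t = 0) : ∃ g : ℂ → ℂ, AnalyticAt ℂ g z ∧ ∀ t, g t ^ M = f t := by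
  rcases h with h | h
  · refine ⟨fun t => f z ^ (M⁻¹ : ℂ) * (f t / f z) ^ (M⁻¹ : ℂ), analyticAt_const.mul
      ((hf.div_const).cpow analyticAt_const (by simp [h])), fun t => ?_⟩
    rw [mul_pow, Complex.cpow_nat_inv_pow _ hM, Complex.cpow_nat_inv_pow _ hM]
    field_simp
  · exact ⟨fun _ => 0, analyticAt_const, fun t => by simp [h, hM]⟩

/-- A sum of radicals of real linear forms is a radical of `1 + t ^ 2` only for even exponents. -/
theorem null_dvd {M k n : ℕ} (hM : M ≠ 0) (hk : k ≠ 0) {I : ℂ} (hI : I ≠ 0) (w : Fin n → ℂ)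
    (α β : Fin n → ℝ) (h : ∀ t : ℂ, ∃ (σ : Fin n → ℂ) (s : ℂ),
      (∀ j, σ j ^ M = (α j + β j * t) ^ (2 * k)) ∧ s ^ M = (1 + t ^ 2) ^ k ∧
        ∑ j, w j * σ j = I * s) : M ∣ k := by
  have h1 : ∀ j, ∃ g : ℂ → ℂ, AnalyticAt ℂ g Complex.I ∧
      ∀ t, g t ^ M = (α j + β j * t) ^ (2 * k) := fun j => by
    refine null_root hM (by fun_prop) ?_
    by_cases h0 : (α j + β j * Complex.I : ℂ) = 0
    · have e1 : α j = 0 := by simpa using congrArg Complex.re h0
      have e2 : β j = 0 := by simpa using congrArg Complex.im h0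
      exact .inr fun t => by simp [e1, e2, hk]
    · exact .inl (pow_ne_zero _ h0)
  choose g hg hgM using h1
  have hfin : {ζ : ℂ | ζ ^ M = 1}.Finite :=
    (nthRoots M (1 : ℂ)).finite_toSet.subset fun ζ hζ =>
      (mem_nthRoots (Nat.pos_of_ne_zero hM)).2 hζ
  have h2 : ∀ t : ℂ, ∃ ζ ∈ Set.univ.pi fun _ : Fin n => {ζ : ℂ | ζ ^ M = 1},
      (∑ j, w j * (ζ j * g j t)) ^ M = I ^ M * (1 + t ^ 2) ^ k := fun t => by
    obtain ⟨σ, s, e1, e2, e3⟩ := h t
    have e4 : ∀ j, ∃ ζ : ℂ, ζ ^ M = 1 ∧ ζ * g j t = σ j := fun j => by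
      by_cases h0 : g j t = 0
      · refine ⟨1, one_pow _, ?_⟩
        rw [h0, mul_zero, eq_comm, ← pow_eq_zero_iff hM, e1, ← hgM, h0, zero_pow hM]
      · exact ⟨σ j / g j t, by rw [div_pow, e1, ← hgM, div_self (pow_ne_zero _ h0)],
          div_mul_cancel₀ _ h0⟩
    choose ζ e5 e6 using e4
    exact ⟨ζ, fun j _ => e5 j, by simp only [e6, e3, mul_pow, e2]⟩
  obtain ⟨ζ, -, h3⟩ : ∃ ζ ∈ Set.univ.pi fun _ : Fin n => {ζ : ℂ | ζ ^ M = 1},
      ∃ᶠ t in 𝓝[≠] Complex.I, (∑ j, w j * (ζ j * g j t)) ^ M = I ^ M * (1 + t ^ 2) ^ k := by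
    by_contra hc
    push Not at hc
    obtain ⟨t, ht⟩ := ((eventually_all_finite (Set.Finite.pi fun _ => hfin)).2 hc).exists
    obtain ⟨ζ, e1, e2⟩ := h2 t
    exact ht ζ e1 e2
  have hG : AnalyticAt ℂ (fun t => ∑ j, w j * (ζ j * g j t)) Complex.I :=
    Finset.analyticAt_fun_sum _ fun j _ => analyticAt_const.mul (analyticAt_const.mul (hg j))
  have h4 := ((hG.fun_pow M).frequently_eq_iff_eventually_eq (by fun_prop)).1 h3
  have h5 : analyticOrderAt ((fun t => ∑ j, w j * (ζ j * g j t)) ^ M) Complex.I = k := by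
    refine (hG.pow M).analyticOrderAt_eq_natCast.2 ⟨fun t => I ^ M * (t + Complex.I) ^ k,
      by fun_prop, by simp [hI, ← two_mul], h4.mono fun t ht => ?_⟩
    rw [Pi.pow_apply, ht, show 1 + t ^ 2 = (t - Complex.I) * (t + Complex.I) by
      linear_combination Complex.I_sq, mul_pow, smul_eq_mul]
    ring
  rw [analyticOrderAt_pow hG] at h5
  generalize analyticOrderAt (fun t => ∑ j, w j * (ζ j * g j t)) Complex.I = o at h5
  induction o with
  | top => simp [hM] at h5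
  | coe o => exact ⟨o, by exact_mod_cast (h5.symm.trans (nsmul_eq_mul _ _))⟩

variable {ι : Type} [Fintype ι]

/-- A finite set of unit vectors lies on a polynomial that vanishes on no great circle. -/
theorem null_finite {S : Set (sphere (0 : EuclideanSpace ℝ ι) 1)} (hS : S.Finite) :
    ∃ Q : MvPolynomial ι ℝ, (∀ x ∈ S, MvPolynomial.eval (fun i => x.1 i) Q = 0) ∧
      ∀ u v : EuclideanSpace ℝ ι, ‖u‖ = 1 → ‖v‖ = 1 → inner ℝ u v = 0 →
        ∃ a b : ℝ, a ^ 2 + b ^ 2 = 1 ∧ MvPolynomial.eval (fun i => (a • u + b • v) i) Q ≠ 0 := by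
  refine ⟨∏ y ∈ hS.toFinset, ∑ i, (MvPolynomial.X i - MvPolynomial.C (y.1 i)) ^ 2,
    fun x hx => ?_, fun u v hu hv huv => ?_⟩
  · rw [map_prod]
    exact Finset.prod_eq_zero (hS.mem_toFinset.2 hx) (by simp)
  obtain ⟨a, ha, h1⟩ := (Set.Icc_infinite (zero_lt_one (α := ℝ))).exists_notMem_finite
    (hS.image fun y => inner ℝ u y.1)
  refine ⟨a, √(1 - a ^ 2), by rw [Real.sq_sqrt (by nlinarith [ha.1, ha.2])]; ring, ?_⟩
  rw [map_prod]
  refine Finset.prod_ne_zero_iff.2 fun y hy h0 => h1 ⟨y, hS.mem_toFinset.1 hy, ?_⟩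
  simp only [map_sum, map_pow, map_sub, MvPolynomial.eval_X, MvPolynomial.eval_C] at h0
  have h2 : a • u + √(1 - a ^ 2) • v = y.1 := by
    ext i
    exact sub_eq_zero.1 (pow_eq_zero_iff two_ne_zero |>.1
      ((Finset.sum_eq_zero_iff_of_nonneg fun _ _ => sq_nonneg _).1 h0 i (Finset.mem_univ i)))
  simp [← h2, inner_add_right, inner_smul_right, huv, hu]

/-- The level set of a finite potential with rational exponent that is not an even integer. -/
theorem null_level {p I : ℝ} (hp0 : 0 < p) (hp : ∀ k : ℕ, p ≠ 2 * k) {m k n : ℕ} (hm : 1 ≤ m)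
    (hmk : (m : ℝ) * p = k) (hI : I ≠ 0) (w : Fin n → ℝ) (y : Fin n → EuclideanSpace ℝ ι) :
    ∃ Q : MvPolynomial ι ℝ, (∀ x : EuclideanSpace ℝ ι, ‖x‖ = 1 →
      ∑ j, w j * |inner ℝ x (y j)| ^ p = I → MvPolynomial.eval (fun i => x i) Q = 0) ∧
      ∀ u v : EuclideanSpace ℝ ι, ‖u‖ = 1 → ‖v‖ = 1 → inner ℝ u v = 0 →
        ∃ a b : ℝ, a ^ 2 + b ^ 2 = 1 ∧ MvPolynomial.eval (fun i => (a • u + b • v) i) Q ≠ 0 := by
  have hM : 2 * m ≠ 0 := by omega
  have hm0 : (0 : ℝ) < m := by exact_mod_cast hm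
  have hk : k ≠ 0 := fun h => (mul_pos hm0 hp0).ne' (by simpa [h] using hmk)
  have hpow : ∀ r : ℝ, 0 ≤ r → (r ^ p) ^ (2 * m) = r ^ (2 * k) := fun r hr => by
    rw [← Real.rpow_natCast, ← Real.rpow_mul hr, ← Real.rpow_natCast]
    congr 1
    push_cast
    linarith
  obtain ⟨Q, hQ⟩ := null_elim hM (n + 1) (MvPolynomial ι ℝ)
    (Fin.cons (MvPolynomial.C (-I)) fun j => MvPolynomial.C (w j))
    (Fin.cons ((∑ i, MvPolynomial.X i ^ 2) ^ k) fun j =>
      (∑ i, MvPolynomial.C (y j i) * MvPolynomial.X i) ^ (2 * k)) 0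
  have hQ' : ∀ x : ι → ℂ, MvPolynomial.eval₂ Complex.ofRealHom x Q = 0 ↔
      ∃ (σ : Fin n → ℂ) (s : ℂ), (∀ j, σ j ^ (2 * m) = (∑ i, y j i * x i) ^ (2 * k)) ∧
        s ^ (2 * m) = (∑ i, x i ^ 2) ^ k ∧ ∑ j, w j * σ j = I * s := fun x => by
    refine (hQ (MvPolynomial.eval₂Hom Complex.ofRealHom x)).trans ⟨?_, ?_⟩
    · rintro ⟨t, h1, h2⟩
      refine ⟨fun j => t j.succ, t 0, fun j => by simpa using h1 j.succ, by simpa using h1 0, ?_⟩
      simp [Fin.sum_univ_succ] at h2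
      linear_combination h2
    · rintro ⟨σ, s, h1, h2, h3⟩
      refine ⟨Fin.cons s σ, fun j => Fin.cases (by simpa using h2) (fun j => by simpa using h1 j) j,
        ?_⟩
      simp [Fin.sum_univ_succ, h3]
  have hre : ∀ x : ι → ℝ, MvPolynomial.eval₂ Complex.ofRealHom (fun i => (x i : ℂ)) Q =
      (MvPolynomial.eval x Q : ℝ) := fun x =>
    (MvPolynomial.eval₂_comp_left Complex.ofRealHom (RingHom.id ℝ) x Q).symm
  have hin : ∀ a b : EuclideanSpace ℝ ι, inner ℝ a b = ∑ i, b i * a i := fun a b => by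
    simp [PiLp.inner_apply]
  have hn : ∀ a : EuclideanSpace ℝ ι, ‖a‖ = 1 → ∑ i, a i ^ 2 = 1 := fun a ha => by
    rw [← EuclideanSpace.real_norm_sq_eq, ha, one_pow]
  refine ⟨Q, fun x hx h => ?_, fun u v hu hv huv => ?_⟩
  · rw [← Complex.ofReal_eq_zero, ← hre, hQ']
    refine ⟨fun j => ((|inner ℝ x (y j)| ^ p : ℝ) : ℂ), 1, fun j => ?_, ?_, ?_⟩
    · have := hpow _ (abs_nonneg (inner ℝ x (y j)))
      rw [pow_mul |_|, sq_abs, ← pow_mul, hin x (y j)] at this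
      simp only [hin]
      exact_mod_cast this
    · have := hn x hx
      rw [one_pow, show ∑ i, (x i : ℂ) ^ 2 = 1 by exact_mod_cast this, one_pow]
    · simp only [mul_one]
      exact_mod_cast h
  by_contra hc
  push Not at hc
  let r : ℂ[X] := MvPolynomial.eval₂ (C.comp Complex.ofRealHom)
    (fun i => C (u i : ℂ) + X * C (v i : ℂ)) Q
  have hr : ∀ t : ℂ, r.eval t =
      MvPolynomial.eval₂ Complex.ofRealHom (fun i => (u i : ℂ) + t * v i) Q := fun t => by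
    refine (MvPolynomial.eval₂_comp_left (evalRingHom t) _ _ Q).trans ?_
    congr 1
    · ext a
      simp
    · ext i
      simp only [Function.comp, coe_evalRingHom, eval_add, eval_mul, eval_C, eval_X]
  have hr0 : r = 0 := by
    refine eq_zero_of_infinite_isRoot r ((Set.infinite_range_of_injective
      Complex.ofReal_injective).mono ?_)
    rintro _ ⟨t, rfl⟩
    have e0 : 0 < 1 + t ^ 2 := by positivity
    have e1 : 0 < √(1 + t ^ 2) := Real.sqrt_pos.2 e0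
    have e2 := hc (1 / √(1 + t ^ 2)) (t / √(1 + t ^ 2)) (by
      rw [div_pow, div_pow, Real.sq_sqrt e0.le]
      field_simp)
    rw [← Complex.ofReal_eq_zero, ← hre, hQ'] at e2
    obtain ⟨σ, s, h1, h2, h3⟩ := e2
    have e3 : ∀ i, (u i : ℂ) + t * v i = (√(1 + t ^ 2) : ℝ) *
        ((((1 / √(1 + t ^ 2)) • u + (t / √(1 + t ^ 2)) • v) i : ℝ) : ℂ) := fun i => by
      have : u i + t * v i = √(1 + t ^ 2) *
          ((1 / √(1 + t ^ 2)) • u + (t / √(1 + t ^ 2)) • v) i := by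
        simp only [PiLp.add_apply, PiLp.smul_apply, smul_eq_mul]
        field_simp
      exact_mod_cast this
    have e4 : ((√(1 + t ^ 2) ^ p : ℝ) : ℂ) ^ (2 * m) = (√(1 + t ^ 2) : ℝ) ^ (2 * k) := by
      exact_mod_cast hpow _ e1.le
    rw [Set.mem_ofPred_eq, IsRoot.def, hr, hQ']
    refine ⟨fun j => (√(1 + t ^ 2) ^ p : ℝ) * σ j, (√(1 + t ^ 2) ^ p : ℝ) * s, fun j => ?_, ?_, ?_⟩
    · rw [mul_pow, e4, h1, ← mul_pow, Finset.mul_sum]
      simp only [e3, mul_left_comm]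
    · rw [mul_pow, e4, h2, pow_mul, ← mul_pow, Finset.mul_sum]
      simp only [e3, mul_pow]
    · rw [mul_left_comm, ← h3, Finset.mul_sum]
      simp only [mul_left_comm]
  obtain ⟨l, hl⟩ := null_dvd (n := n) hM hk (Complex.ofReal_ne_zero.2 hI) (fun j => w j)
    (fun j => inner ℝ u (y j)) (fun j => inner ℝ v (y j)) fun t => by
      obtain ⟨σ, s, h1, h2, h3⟩ := (hQ' _).1 ((hr t).symm.trans (by rw [hr0, eval_zero]))
      refine ⟨σ, s, fun j => (h1 j).trans ?_, h2.trans ?_, h3⟩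
      · simp only [hin, Complex.ofReal_sum, Complex.ofReal_mul, Finset.sum_mul,
          ← Finset.sum_add_distrib]
        exact congrArg (· ^ (2 * k)) (Finset.sum_congr rfl fun i _ => by ring)
      · have e1 : ∑ i, (u i : ℂ) ^ 2 = 1 := by exact_mod_cast hn u hu
        have e2 : ∑ i, (v i : ℂ) ^ 2 = 1 := by exact_mod_cast hn v hv
        have e3 : ∑ i, (v i : ℂ) * u i = 0 := by exact_mod_cast (hin u v).symm.trans huv
        have e4 : ∑ i, ((u i : ℂ) + t * v i) ^ 2 = ∑ i, (u i : ℂ) ^ 2 +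
            2 * t * ∑ i, (v i : ℂ) * u i + t ^ 2 * ∑ i, (v i : ℂ) ^ 2 := by
          simp only [Finset.mul_sum, ← Finset.sum_add_distrib]
          exact Finset.sum_congr rfl fun i _ => by ring
        rw [e4, e1, e2, e3]
        ring
  refine hp l (mul_left_cancel₀ hm0.ne' ?_)
  rw [hmk, hl]
  push_cast
  ring

/-- The case of a rational exponent. -/
theorem null_rat {p : ℝ} (hp0 : 0 < p) (hp : ∀ k : ℕ, p ≠ 2 * k) {m k : ℕ} (hm : 1 ≤ m)
    (hmk : (m : ℝ) * p = k) (μ : Measure (sphere (0 : EuclideanSpace ℝ ι) 1))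
    [IsProbabilityMeasure μ]
    (hmin : IsMinim (fun x y : sphere (0 : EuclideanSpace ℝ ι) 1 => |inner ℝ x.1 y.1| ^ p) μ) :
    ∃ Q : MvPolynomial ι ℝ, (∀ x ∈ μ.support, MvPolynomial.eval (fun i => x.1 i) Q = 0) ∧
      ∀ u v : EuclideanSpace ℝ ι, ‖u‖ = 1 → ‖v‖ = 1 → inner ℝ u v = 0 →
        ∃ a b : ℝ, a ^ 2 + b ^ 2 = 1 ∧ MvPolynomial.eval (fun i => (a • u + b • v) i) Q ≠ 0 := by
  by_cases hfin : μ.support.Finite
  · exact null_finite hfin
  obtain ⟨x₁, h1⟩ := Set.Infinite.nonempty hfin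
  have hK : Continuous fun z : sphere (0 : EuclideanSpace ℝ ι) 1 × sphere (0 : EuclideanSpace ℝ ι) 1
      => |inner ℝ z.1.1 z.2.1| ^ p :=
    Continuous.rpow_const (by fun_prop) fun _ => Or.inr hp0.le
  have hs : ∀ x y : sphere (0 : EuclideanSpace ℝ ι) 1,
      |inner ℝ x.1 y.1| ^ p = |inner ℝ y.1 x.1| ^ p := fun x y => by rw [real_inner_comm]
  have hn : ∀ x : sphere (0 : EuclideanSpace ℝ ι) 1, ‖x.1‖ = 1 := fun x => by simp
  obtain ⟨r, b, hb⟩ := finite_rank hs μ.support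
    (fun κ _ x a hx => psd_support (μ := μ) hK (fun x y => by positivity) hmin x a hx) _
    fun b => not_posDef hm hmk fun i => (b i).1
  obtain ⟨n, w, y, -, -, heq⟩ := exists_atoms_pot hK hs hmin b hb
  have hI0 : 0 < ∫ a, ∫ y, |inner ℝ a.1 y.1| ^ p ∂μ ∂μ := by
    rw [← pot_eq hK hs hmin h1]
    refine pos_of_mem_support (hK.comp (Continuous.prodMk_right x₁)) (fun y => by positivity) h1 ?_
    rw [real_inner_self_eq_norm_sq, hn]
    norm_num
  obtain ⟨Q, h2, h3⟩ := null_level hp0 hp hm hmk hI0.ne' w fun j => (y j).1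
  exact ⟨Q, fun x hx => h2 x.1 (hn x) (heq x hx), h3⟩

end Pool.Agent.Lib.MP_078bb2_an
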