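import Pool.Agent.Lib.MP_078bb2_an.Cubic

set_option autoImplicit false

namespace Pool.Agent.Lib.MP_078bb2_an

open MeasureTheory Metric Filter Topology

section richter

variable {X : Type} [MetricSpace X] [CompactSpace X] [MeasurableSpace X] [BorelSpace X]

/-- Finitely many integrals against a probability measure on a compact space are convex
combinations of values at points of the support. -/
theorem richter (μ : Measure X) [IsProbabilityMeasure μ] {κ : Type} [Fintype κ]
    (h : X → κ → ℝ) (hh : Continuous h) :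
    ∃ (n : ℕ) (w : Fin n → ℝ) (x : Fin n → X), (∀ j, 0 ≤ w j) ∧ ∑ j, w j = 1 ∧
      (∀ j, x j ∈ μ.support) ∧ ∑ j, w j • h (x j) = ∫ y, h y ∂μ := by
  classical
  set n := Fintype.card κ + 1 with hn
  have hS : IsCompact μ.support := Measure.isClosed_support.isCompact
  obtain ⟨x₀, hx₀⟩ : μ.support.Nonempty := Measure.nonempty_support (IsProbabilityMeasure.ne_zero μ)
  let F : (Fin n → ℝ) × (Fin n → X) → (κ → ℝ) := fun z => ∑ j, z.1 j • h (z.2 j)
  have hF : Continuous F := by
    refine continuous_finsetSum _ fun j _ => ?_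
    exact ((continuous_apply j).comp continuous_fst).smul
      (hh.comp ((continuous_apply j).comp continuous_snd))
  have hC : IsCompact (F '' (stdSimplex ℝ (Fin n) ×ˢ Set.pi Set.univ fun _ => μ.support)) :=
    ((isCompact_stdSimplex ℝ (Fin n)).prod (isCompact_univ_pi fun _ => hS)).image hF
  have hsub : convexHull ℝ (h '' μ.support) ⊆
      F '' (stdSimplex ℝ (Fin n) ×ˢ Set.pi Set.univ fun _ => μ.support) := by
    intro v hv
    obtain ⟨ι, _, z, w, hz, hai, hw, hw1, hv⟩ := eq_pos_convex_span_of_mem_convexHull hv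
    have hcard : Fintype.card ι ≤ Fintype.card (Fin n) := by
      have h1 := hai.card_le_finrank_succ
      have h2 := Submodule.finrank_le (vectorSpan ℝ (Set.range z))
      rw [Module.finrank_fintype_fun_eq_card] at h2
      rw [Fintype.card_fin]
      omega
    obtain ⟨e⟩ := Function.Embedding.nonempty_of_card_le hcard
    choose y hy1 hy2 using fun i => hz ⟨i, rfl⟩
    have hsum : ∀ {M : Type} [AddCommMonoid M] (f : Fin n → M) (g : ι → M),
        (∀ i, f (e i) = g i) → (∀ j, j ∉ Set.range e → f j = 0) → ∑ j, f j = ∑ i, g i := by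
      intro M _ f g h1 h2
      exact (Fintype.sum_of_injective e e.injective g f h2 fun i => (h1 i).symm).symm
    refine ⟨(Function.extend e w 0, Function.extend e y fun _ => x₀), ⟨⟨fun j => ?_, ?_⟩,
      fun j _ => ?_⟩, ?_⟩
    · by_cases hj : ∃ i, e i = j
      · obtain ⟨i, rfl⟩ := hj
        simp only [e.injective.extend_apply]
        exact (hw i).le
      · simp only [Function.extend_apply' _ _ _ hj, Pi.zero_apply, le_refl]
    · rw [← hw1]
      exact hsum _ _ (fun i => e.injective.extend_apply _ _ _)
        fun j hj => by simp only [Function.extend_apply' _ _ _ hj, Pi.zero_apply]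
    · by_cases hj : ∃ i, e i = j
      · obtain ⟨i, rfl⟩ := hj
        simp only [e.injective.extend_apply]
        exact hy1 i
      · simp only [Function.extend_apply' _ _ _ hj]
        exact hx₀
    · rw [← hv]
      exact hsum _ _ (fun i => by simp only [e.injective.extend_apply, hy2])
        fun j hj => by simp only [Function.extend_apply' _ _ _ hj, Pi.zero_apply, zero_smul]
  have hmem : ∫ y, h y ∂μ ∈ closure (convexHull ℝ (h '' μ.support)) := by
    refine (convex_convexHull ℝ _).closure.integral_mem isClosed_closure ?_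
      (hh.integrable_of_hasCompactSupport (HasCompactSupport.of_compactSpace h))
    filter_upwards [Measure.support_mem_ae (μ := μ)] with y hy
    exact subset_closure (subset_convexHull ℝ _ ⟨y, hy, rfl⟩)
  obtain ⟨⟨w, x⟩, ⟨⟨h1, h2⟩, h3⟩, h4⟩ := (closure_minimal hsub hC.isClosed) hmem
  exact ⟨n, w, x, h1, h2, fun j => h3 j (Set.mem_univ _), h4⟩

/-- The atomic measure with weights `w` at the points `x`. -/
noncomputable def atoms {n : ℕ} (w : Fin n → ℝ) (x : Fin n → X) : Measure X :=
  ∑ j, (w j).toNNReal • Measure.dirac (x j)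

omit [MetricSpace X] [CompactSpace X] [BorelSpace X] in
theorem atoms_prob {n : ℕ} {w : Fin n → ℝ} (x : Fin n → X) (h0 : ∀ j, 0 ≤ w j)
    (h1 : ∑ j, w j = 1) : IsProbabilityMeasure (atoms w x) := ⟨by
  simp only [atoms, Measure.coe_finsetSum, Finset.sum_apply, Measure.smul_apply, measure_univ,
    ENNReal.smul_def, smul_eq_mul, mul_one]
  rw [← ENNReal.ofNNReal_finsetSum, ← Real.toNNReal_sum_of_nonneg fun j _ => h0 j, h1]
  simp⟩

theorem integral_atoms {n : ℕ} {w : Fin n → ℝ} (x : Fin n → X) (h0 : ∀ j, 0 ≤ w j)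
    {g : X → ℝ} (hg : Continuous g) : ∫ y, g y ∂atoms w x = ∑ j, w j * g (x j) := by
  rw [atoms, integral_finsetSum_measure fun j _ => integrable_cont hg]
  refine Finset.sum_congr rfl fun j _ => ?_
  rw [integral_smul_nnreal_measure, integral_dirac]
  simp only [NNReal.smul_def, Real.coe_toNNReal _ (h0 j), smul_eq_mul]

omit [CompactSpace X] in
theorem support_atoms {n : ℕ} (w : Fin n → ℝ) (x : Fin n → X) :
    (atoms w x).support ⊆ Set.range x := by
  refine Measure.support_subset_of_isClosed (Set.finite_range x).isClosed ?_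
  rw [mem_ae_iff]
  simp only [atoms, Measure.coe_finsetSum, Finset.sum_apply, Measure.smul_apply]
  refine Finset.sum_eq_zero fun j _ => ?_
  rw [Measure.dirac_apply' _ (Set.finite_range x).isClosed.measurableSet.compl,
    Set.indicator_of_notMem (by simp), smul_zero]

variable {K : X → X → ℝ} {μ : Measure X}

/-- If the kernel has finite rank on the support of a minimiser, there is an atomic minimiser
inside the support with finitely many prescribed integrals. -/
theorem exists_atomic [IsProbabilityMeasure μ] (hK : Continuous fun z : X × X => K z.1 z.2)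
    (hs : ∀ x y, K x y = K y x) (h : IsMinim K μ) {β : Type} [Fintype β] (b : β → X)
    (hb : ∀ y ∈ μ.support, ∃ c : β → ℝ, ∀ x ∈ μ.support, K y x = ∑ i, c i * K (b i) x)
    {s : ℕ} (g : Fin s → X → ℝ) (hg : ∀ i, Continuous (g i)) :
    ∃ ν : Measure X, IsProbabilityMeasure ν ∧ IsMinim K ν ∧ ν.support.Finite ∧
      ν.support ⊆ μ.support ∧ ∀ i, ∫ y, g i y ∂ν = ∫ y, g i y ∂μ := by
  have hc : ∀ a, Continuous fun y => K a y := fun a => hK.comp (Continuous.prodMk_right a)
  let H : X → β ⊕ Fin s → ℝ := fun y => Sum.elim (fun i => K (b i) y) fun i => g i y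
  have hH1 : ∀ o, Continuous fun y => H y o := fun o => by
    cases o with
    | inl i => exact hc _
    | inr i => exact hg i
  have hH : Continuous H := continuous_pi hH1
  obtain ⟨n, w, x, h0, h1, hx, hsum⟩ := richter μ H hH
  have hν := atoms_prob x h0 h1
  have hint : ∀ o, ∫ y, H y o ∂atoms w x = ∫ y, H y o ∂μ := fun o => by
    rw [integral_atoms x h0 (hH1 o)]
    have h2 := congrFun hsum o
    rw [Finset.sum_apply, eval_integral fun o => integrable_cont (hH1 o)] at h2
    simpa only [Pi.smul_apply, smul_eq_mul] using h2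
  have hpot : ∀ y ∈ μ.support, ∫ z, K y z ∂atoms w x = ∫ a, ∫ z, K a z ∂μ ∂μ := by
    intro y hy
    obtain ⟨c, hcy⟩ := hb y hy
    rw [← pot_eq hK hs h hy]
    have e1 : ∫ z, K y z ∂μ = ∑ i, c i * ∫ z, K (b i) z ∂μ := by
      rw [integral_congr_ae (g := fun z => ∑ i, c i * K (b i) z) (by
        filter_upwards [Measure.support_mem_ae (μ := μ)] with z hz using hcy z hz),
        integral_finsetSum (f := fun i z => c i * K (b i) z) _ fun i _ =>
          integrable_cont (continuous_const.mul (hc _))]
      exact Finset.sum_congr rfl fun i _ => integral_const_mul _ _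
    have e2 : ∀ i, ∫ z, K (b i) z ∂μ = ∑ j, w j * K (b i) (x j) := fun i => by
      rw [← integral_atoms x h0 (hc _)]
      exact (hint (Sum.inl i)).symm
    rw [e1, integral_atoms x h0 (hc _)]
    simp only [e2, hcy _ (hx _), Finset.mul_sum]
    rw [Finset.sum_comm]
    exact Finset.sum_congr rfl fun i _ => Finset.sum_congr rfl fun j _ => by ring
  refine ⟨atoms w x, hν, fun ρ hρ => le_trans (le_of_eq ?_) (h ρ hρ),
    (Set.finite_range x).subset (support_atoms w x),
    (support_atoms w x).trans (Set.range_subset_iff.2 hx), fun i => hint (Sum.inr i)⟩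
  rw [integral_atoms x h0 (pot_cont hK)]
  simp only [hpot _ (hx _)]
  rw [← Finset.sum_mul, h1, one_mul]

/-- A continuous kernel on a nonempty compact space has a minimiser. -/
theorem exists_minim [Nonempty X] (hK : Continuous fun z : X × X => K z.1 z.2) :
    ∃ μ : Measure X, IsProbabilityMeasure μ ∧ IsMinim K μ := by
  let F : ProbabilityMeasure X → ℝ := fun μ => ∫ z, K z.1 z.2 ∂(μ.prod μ : Measure (X × X))
  have hF : Continuous F :=
    (ProbabilityMeasure.continuous_integral_continuousMap
      (⟨fun z : X × X => K z.1 z.2, hK⟩ : C(X × X, ℝ))).comp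
      (ProbabilityMeasure.continuous_prod.comp (continuous_id.prodMk continuous_id))
  have hE : ∀ μ : ProbabilityMeasure X,
      F μ = ∫ x, ∫ y, K x y ∂(μ : Measure X) ∂(μ : Measure X) := fun μ =>
    integral_prod (μ := (μ : Measure X)) (ν := (μ : Measure X)) _ (integrable_cont hK)
  have : Nonempty (ProbabilityMeasure X) :=
    ⟨⟨Measure.dirac (Classical.arbitrary X), inferInstance⟩⟩
  obtain ⟨μ, -, hμ⟩ := isCompact_univ.exists_isMinOn Set.univ_nonempty hF.continuousOn
  refine ⟨μ, inferInstance, fun ν hν => ?_⟩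
  have h := isMinOn_iff.1 hμ ⟨ν, hν⟩ (Set.mem_univ _)
  rw [hE, hE] at h
  exact h

end richter

end Pool.Agent.Lib.MP_078bb2_an
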