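import Mathlib
import Pool.Agent.Lib.MP_078bb2_an.NI.Main

/-! Two proofs of `NI/Veronese.lean` and `NI/Main.lean` again, with weaker hypotheses. -/

set_option autoImplicit false

namespace Pool.Agent.Lib.MP_078bb2_an

section
open Polynomial ComplexConjugate

variable {m : ℕ}

theorem veronese_slice (hm : 1 < m) {S S₀ : Set (Fin (m + 1) → ℝ)} (hS : S₀ ⊆ S) (hinf : S₀.Infinite)
    (hinj : ∀ y ∈ S₀, ∀ y' ∈ S₀, ∀ c : ℂ, cx y = c • cx y' → y = y')
    (hpos : ∀ x ∈ S₀, ∀ y ∈ S₀, x ⬝ᵥ y ≠ 0)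
    (hEL : ∀ x ∈ S₀, ∀ w : Fin (m + 1) → ℝ, x ⬝ᵥ w = 0 → (∀ y ∈ S, 0 ≤ (x ⬝ᵥ y) * (y ⬝ᵥ w)) →
      ∀ y ∈ S, (x ⬝ᵥ y) * (y ⬝ᵥ w) = 0)
    {E : Fin (m + 1) → ℂ[X]} (hE : ∀ i, (E i).natDegree ≤ m) (hli : LinearIndependent ℂ E)
    (hpure : ∀ y ∈ S, ∃ c l₀ l₁ : ℂ, ∑ i, cx y i • E i = C c * (C l₀ + C l₁ * X) ^ m)
    (hQ : ∀ a b a' b' : Fin (m + 1) → ℂ,
      (∀ y ∈ S₀, (a ⬝ᵥ cx y) * (b ⬝ᵥ cx y) = (a' ⬝ᵥ cx y) * (b' ⬝ᵥ cx y)) →
      (∑ i, a i • E i) * (∑ i, b i • E i) = (∑ i, a' i • E i) * (∑ i, b' i • E i)) : False := by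
  have hm0 : 0 < m := by omega
  obtain ⟨L, hL⟩ := exists_coord hE hli
  let a : Fin (m + 1) → Fin (m + 1) → ℂ := fun j l => (E l).coeff j / m.choose j
  have ha : ∀ j v, a j ⬝ᵥ v = L v j := fun j v => by
    rw [hL, finsetSum_coeff, Finset.sum_div]
    exact Finset.sum_congr rfl fun l _ => by rw [coeff_smul, smul_eq_mul]; ring
  have hH : ∀ y ∈ S, ∀ j : Fin m,
      L (cx y) 0 * L (cx y) j.succ = L (cx y) ⟨1, by omega⟩ * L (cx y) j.castSucc := by
    intro y hy j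
    obtain ⟨c, l₀, l₁, h⟩ := hpure y hy
    obtain ⟨r, hr⟩ : ∃ r, m = j + 1 + r := ⟨m - (j + 1), by have := j.2; omega⟩
    have e1 : m - (j + 1) = r := by omega
    have e2 : m - 1 = j + r := by omega
    have e3 : m - j = r + 1 := by omega
    simp only [coord_pure hL h, Fin.val_succ, Fin.val_castSucc, Fin.val_zero, e1, e2, e3,
      Nat.sub_zero]
    rw [show l₀ ^ m = l₀ ^ (j + 1 + r) by rw [← hr]]
    ring
  let e : ℂ → Fin (m + 1) → ℂ := fun U l => (E l).eval U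
  have he : ∀ U j, L (e U) j = (∑ l, a j l • E l).eval U := fun U j => by
    rw [← ha, eval_finsetSum]
    exact Finset.sum_congr rfl fun l _ => by rw [eval_smul, smul_eq_mul]
  have hHe : ∀ U, ∀ j : Fin m,
      L (e U) 0 * L (e U) j.succ = L (e U) ⟨1, by omega⟩ * L (e U) j.castSucc := fun U j => by
    simp only [he, ← eval_mul]
    rw [hQ (a 0) (a j.succ) (a ⟨1, by omega⟩) (a j.castSucc) fun y hy => by
      simpa only [ha] using hH y (hS hy) j]
  let A : Matrix (Fin (m + 1)) (Fin (m + 1)) ℂ := Matrix.of fun l j => (E l).coeff j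
  have hA : IsUnit A := Matrix.vecMul_injective_iff_isUnit.1 fun v v' h => L.injective (by
    ext j
    have h1 := congrFun h j
    simp only [Matrix.vecMul, dotProduct, A, Matrix.of_apply] at h1
    simp only [hL, finsetSum_coeff, coeff_smul, smul_eq_mul, h1])
  let N := LinearEquiv.ofInjectiveEndo A.mulVecLin (Matrix.mulVec_injective_iff_isUnit.2 hA)
  have hN : ∀ U, N (pw m U) = e U := fun U => by
    ext l
    change ∑ j : Fin (m + 1), (E l).coeff j * U ^ (j : ℕ) = (E l).eval U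
    rw [eval_eq_sum_range' (Nat.lt_succ_of_le (hE l)), Finset.sum_range]
  choose π _ hπ using fun j : Fin (m + 1) =>
    exists_poly_of_dual (LinearMap.proj j ∘ₗ N.symm.toLinearMap ∘ₗ L.symm.toLinearMap)
  have hπ' : ∀ v, L v 0 ≠ 0 →
      (∀ j : Fin m, L v 0 * L v j.succ = L v ⟨1, by omega⟩ * L v j.castSucc) →
      ∀ j, N.symm v j = L v 0 * (π j).eval (L v ⟨1, by omega⟩ / L v 0) := fun v h0 h j => by
    have h1 := congrArg (fun z => N.symm (L.symm z) j) (hankel hm0 h0 h)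
    simp only [L.symm_apply_apply, map_smul, Pi.smul_apply, smul_eq_mul] at h1
    rw [h1, ← hπ]
    rfl
  have hM : ∑ l, a 0 l • E l ≠ 0 := fun h => by
    have h1 : N (pw m 0) = 0 := by
      rw [hN]
      ext l
      have h2 := Fintype.linearIndependent_iff.1 hli _ h l
      simpa [a, e, ← coeff_zero_eq_eval_zero] using h2
    simpa [pw] using congrFun (N.map_eq_zero_iff.1 h1) 0
  have hU : {U | L (e U) 0 ≠ 0}.Infinite := by
    refine ((∑ l, a 0 l • E l).roots.toFinset.finite_toSet.infinite_compl).mono ?_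
    intro U hU h
    refine hU ?_
    rw [he] at h
    rwa [Finset.mem_coe, Multiset.mem_toFinset, mem_roots hM]
  have hU1 : ∀ U, L (e U) 0 ≠ 0 → ∀ j : Fin (m + 1),
      U ^ (j : ℕ) = L (e U) 0 * (π j).eval (L (e U) ⟨1, by omega⟩ / L (e U) 0) := fun U h j => by
    rw [← hπ' _ h (hHe U), ← hN, N.symm_apply_apply, pw]
  have hU2 : Set.InjOn (fun U => L (e U) ⟨1, by omega⟩ / L (e U) 0) {U | L (e U) 0 ≠ 0} := by
    intro U h U' h' hh
    have h1 := hU1 U h 0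
    have h2 := hU1 U h ⟨1, by omega⟩
    have h3 := hU1 U' h' 0
    have h4 := hU1 U' h' ⟨1, by omega⟩
    simp only at hh
    rw [hh] at h1 h2
    simp only [Fin.val_zero, pow_zero, pow_one] at h1 h2 h3 h4
    have h5 : L (e U) 0 = L (e U') 0 := mul_right_cancel₀
      (right_ne_zero_of_mul_eq_one h1.symm) (h1.symm.trans h3)
    rw [h5] at h2
    exact h2.trans h4.symm
  have hπH : ∀ j : Fin m, π 0 * π j.succ = π ⟨1, by omega⟩ * π j.castSucc := fun j =>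
    eq_of_infinite_eval_eq _ _ ((hU.image hU2).mono (by
      rintro _ ⟨U, h, rfl⟩
      rw [Set.mem_ofPred_eq, eval_mul, eval_mul]
      refine mul_left_cancel₀ (mul_ne_zero h h) ?_
      rw [mul_mul_mul_comm, ← hU1 U h, ← hU1 U h, mul_mul_mul_comm, ← hU1 U h, ← hU1 U h]
      simp [pow_succ, mul_comm]))
  have hπ0 : π 0 ≠ 0 := fun h => by
    obtain ⟨U, h1⟩ := hU.nonempty
    simpa [h] using hU1 U h1 0
  have hne : ∀ y ∈ S₀, L (cx y) ≠ 0 := fun y hy h => by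
    have h1 : y = 0 := by
      ext l
      simpa [cx] using congrFun (L.map_eq_zero_iff.1 h) l
    exact hpos y hy y hy (by simp [h1])
  have hS₁ : {y | y ∈ S₀ ∧ L (cx y) 0 = 0}.Subsingleton := by
    have h1 : ∀ y ∈ S₀, L (cx y) 0 = 0 → L (cx y) = L (cx y) (Fin.last m) • Pi.single (Fin.last m) 1 := by
      intro y hy h
      obtain ⟨c, l₀, l₁, h2⟩ := hpure y (hS hy)
      ext j
      by_cases hj : j = Fin.last m
      · simp [hj]
      · have h3 : m - j ≠ 0 := by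
          have := Fin.val_lt_last hj
          omega
        rw [coord_pure hL h2] at h ⊢
        have h4 : c = 0 ∨ l₀ = 0 := by simpa [hm0.ne'] using h
        rcases h4 with h4 | h4 <;> simp [h4, hj, h3]
    intro y hy y' hy'
    have h2 : L (cx y') (Fin.last m) ≠ 0 := fun h => hne y' hy'.1 (by
      rw [h1 y' hy'.1 hy'.2, h, zero_smul])
    refine hinj y hy.1 y' hy'.1 (L (cx y) (Fin.last m) / L (cx y') (Fin.last m)) (L.injective ?_)
    rw [map_smul]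
    conv_lhs => rw [h1 y hy.1 hy.2]
    conv_rhs => arg 2; rw [h1 y' hy'.1 hy'.2]
    rw [smul_smul, div_mul_cancel₀ _ h2]
  have hS₂ : Set.InjOn (fun y => L (cx y) ⟨1, by omega⟩ / L (cx y) 0)
      (S₀ \ {y | y ∈ S₀ ∧ L (cx y) 0 = 0}) := by
    intro y hy y' hy' hh
    have h1 : L (cx y) 0 ≠ 0 := fun h => hy.2 ⟨hy.1, h⟩
    have h2 : L (cx y') 0 ≠ 0 := fun h => hy'.2 ⟨hy'.1, h⟩
    refine hinj y hy.1 y' hy'.1 (L (cx y) 0 / L (cx y') 0) (L.injective ?_)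
    rw [map_smul]
    conv_lhs => rw [hankel hm0 h1 (hH y (hS hy.1))]
    conv_rhs => arg 2; rw [hankel hm0 h2 (hH y' (hS hy'.1))]
    simp only at hh
    rw [smul_smul, div_mul_cancel₀ _ h2, hh]
  obtain ⟨_, ⟨x, hx, rfl⟩, hx'⟩ := ((hinf.sdiff hS₁.finite).image hS₂).exists_notMem_finset
    (π 0).roots.toFinset
  have hx0 : L (cx x) 0 ≠ 0 := fun h => hx.2 ⟨hx.1, h⟩
  have hη := hπ' _ hx0 (hH x (hS hx.1))
  have hη0 : N.symm (cx x) 0 ≠ 0 := by
    rw [hη]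
    exact mul_ne_zero hx0 fun h => hx' (by simpa [hπ0] using h)
  have hη1 := hankel hm0 hη0 fun j => by
    simp only [hη]
    rw [mul_mul_mul_comm, ← eval_mul, hπH, eval_mul, mul_mul_mul_comm]
  generalize N.symm (cx x) ⟨1, by omega⟩ / N.symm (cx x) 0 = u at hη1
  generalize N.symm (cx x) 0 = η at hη0 hη1
  have hxe : cx x = η • e u := by rw [← hN, ← map_smul, ← hη1, N.apply_symm_apply]
  have hT : ∀ v : Fin (m + 1) → ℂ, ∑ i, v i • (η • taylor u (E i)) = η • taylor u (∑ i, v i • E i) :=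
    fun v => by simp only [map_sum, map_smul, Finset.smul_sum, smul_comm η]
  obtain ⟨L', hL'⟩ := exists_coord (E := fun i => η • taylor u (E i))
    (fun i => (natDegree_smul_le _ _).trans (by rw [natDegree_taylor]; exact hE i))
    (Fintype.linearIndependent_iff.2 fun v hv => Fintype.linearIndependent_iff.1 hli v (by
      rw [hT, smul_eq_zero_iff_right hη0] at hv
      exact taylor_injective u (by rw [hv, map_zero])))
  refine final_real hm hS hinf hinj hx.1 (hpos x hx.1) (hEL x hx.1) L' fun y hy hy' => ?_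
  obtain ⟨c, l₀, l₁, h⟩ := hpure y hy
  have h1 : ((x ⬝ᵥ y : ℝ) : ℂ) = η * c * (l₀ + l₁ * u) ^ m := by
    have h2 := congrArg (eval u) h
    simp only [eval_finsetSum, eval_smul, eval_mul, eval_C, eval_pow, eval_add, eval_X,
      smul_eq_mul] at h2
    rw [mul_assoc, ← h2, Finset.mul_sum, dotProduct, Complex.ofReal_sum]
    refine Finset.sum_congr rfl fun l _ => ?_
    have h3 : (x l : ℂ) = η * (E l).eval u := congrFun hxe l
    rw [Complex.ofReal_mul, h3, cx]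
    ring
  have h2 : l₀ + l₁ * u ≠ 0 := fun h0 => hy' (by
    rw [h0, zero_pow hm0.ne', mul_zero] at h1
    exact_mod_cast h1)
  have h3 : ∑ i, cx y i • (η • taylor u (E i)) = C (η * c) * (C (l₀ + l₁ * u) + C l₁ * X) ^ m := by
    rw [hT, h, smul_eq_C_mul]
    simp only [taylor_apply, mul_comp, C_comp, pow_comp, add_comp, X_comp, map_mul, map_add]
    ring
  refine ⟨l₁ / (l₀ + l₁ * u), funext fun j => ?_⟩
  obtain ⟨r, hr⟩ : ∃ r, m = j + r := ⟨m - j, by have := j.2; omega⟩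
  rw [coord_pure hL' h3, h1, Pi.smul_apply, pw, smul_eq_mul, div_pow,
    show m - (j : ℕ) = r by omega, show (l₀ + l₁ * u) ^ m = (l₀ + l₁ * u) ^ (j + r) by rw [← hr]]
  field_simp
  ring

end

open MeasureTheory Metric Filter Topology ComplexConjugate

variable {d n m k : ℕ} {p : ℝ}

theorem slice_acc (hI : IdealFin p d) (hP : PtFin p d) (hd : 0 < d) (hk : 0 < k)
    (hmk : ((d + 1 : ℕ) : ℝ) * p = k) (hco : Nat.Coprime (d + 1) k)
    {S : Set (Fin (d + 2) → ℝ)} (hn : ∀ y ∈ S, y ⬝ᵥ y = 1)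
    (hS : ∀ (ι : Type) [Fintype ι] (x : ι → Fin (d + 2) → ℝ) (a : ι → ℝ), (∀ i, x i ∈ S) →
      0 ≤ ∑ i, ∑ j, a i * a j * |x i ⬝ᵥ x j| ^ p)
    {P : Set (Fin (d + 2) → ℝ)} (hSP : S ⊆ P)
    (hsch : ∀ η ∈ P, Psd (fun x y => ((|x ⬝ᵥ y| ^ p : ℝ) : ℂ) -
      ((|x ⬝ᵥ η| ^ p : ℝ) : ℂ) * conj ((|y ⬝ᵥ η| ^ p : ℝ) : ℂ)) S)
    (hEL : ∀ x ∈ S, ∀ w : Fin (d + 2) → ℝ, x ⬝ᵥ w = 0 → (∀ y ∈ P, 0 ≤ (x ⬝ᵥ y) * (y ⬝ᵥ w)) →
      ∀ y ∈ P, (x ⬝ᵥ y) * (y ⬝ᵥ w) = 0) (ha : AccPt (Pi.single 0 1) (𝓟 S)) : False := by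
  have h1 : ∀ᶠ z : (Fin (d + 2) → ℝ) × (Fin (d + 2) → ℝ) in 𝓝 (Pi.single 0 1, Pi.single 0 1),
      0 < z.1 ⬝ᵥ z.2 :=
    (continuous_fst.dotProduct continuous_snd).continuousAt.eventually (lt_mem_nhds (by simp))
  rw [nhds_prod_eq, eventually_prod_self_iff'] at h1
  obtain ⟨V, hV, h1⟩ := h1
  have h2 : ∀ y ∈ V, 0 < y 0 := fun y hy => by simpa using h1 y hy _ (mem_of_mem_nhds hV)
  have hacc := ha.nhds_inter hV
  let Z : (Fin (d + 2) → ℝ) → Fin (d + 1) → ℂ := fun y i => ((y i.succ / y 0 : ℝ) : ℂ)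
  have hZ : ∀ y ∈ V, ∀ a : Fin (d + 2) → ℂ,
      ∑ i, a i * hom (Z y) i = ((y 0)⁻¹ : ℝ) * (a ⬝ᵥ cx y) := fun y hy a => by
    have h3 : (y 0 : ℂ) ≠ 0 := by exact_mod_cast (h2 y hy).ne'
    rw [dotProduct, Finset.mul_sum]
    refine Finset.sum_congr rfl fun i _ => ?_
    refine Fin.cases ?_ (fun i => ?_) i
    · simp only [hom_zero, cx]
      push_cast
      field_simp
    · simp only [hom_succ, Z, cx]
      push_cast
      field_simp
  have hcx : ∀ x y : Fin (d + 2) → ℝ, cx x ⬝ᵥ cx y = ((y ⬝ᵥ x : ℝ) : ℂ) := fun x y => by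
    simp [cx, dotProduct, mul_comm]
  have h3 : ∀ x ∈ V, ∀ y ∈ V, kern p (Z x) (Z y) =
      (((x 0)⁻¹ ^ p * (y 0)⁻¹ ^ p * |x ⬝ᵥ y| ^ p : ℝ) : ℂ) := by
    intro x hx y hy
    have h6 := (inv_pos.2 (h2 x hx)).le
    have h7 := (inv_pos.2 (h2 y hy)).le
    have h4 : 1 + herm (Z x) (Z y) = (((x 0)⁻¹ * (y 0)⁻¹ * |x ⬝ᵥ y| : ℝ) : ℂ) := by
      have h8 : (x 0 : ℂ) ≠ 0 := by exact_mod_cast (h2 x hx).ne'
      have h9 : (y 0 : ℂ) ≠ 0 := by exact_mod_cast (h2 y hy).ne'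
      rw [abs_of_pos (h1 x hx y hy), dotProduct, Fin.sum_univ_succ, mul_add, Finset.mul_sum, herm]
      push_cast
      congr 1
      · field_simp
      · refine Finset.sum_congr rfl fun i _ => ?_
        simp only [Z, Complex.conj_ofReal]
        push_cast
        field_simp
    rw [kern, h4, ← Complex.ofReal_cpow (by positivity), Real.mul_rpow (by positivity) (abs_nonneg _),
      Real.mul_rpow h6 h7]
  have hK := psd_ofReal (K := fun x y => |x ⬝ᵥ y| ^ p) hS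
  have hT : Psd (kern p) (Z '' (V ∩ S)) :=
    (((hK.mul fun y => (((y 0)⁻¹ ^ p : ℝ) : ℂ)).mono Set.inter_subset_right).congr
      fun x hx y hy => by
        rw [h3 x hx.1 y hy.1, Complex.conj_ofReal, Complex.ofReal_mul, Complex.ofReal_mul]).image
  have hinj : ∀ y ∈ V ∩ S, ∀ y' ∈ V ∩ S, ∀ c : ℂ, cx y = c • cx y' → y = y' := by
    intro y hy y' hy' c hc
    have h4 : ((y' ⬝ᵥ y : ℝ) : ℂ) = c := by
      rw [← hcx, hc, smul_dotProduct, hcx, hn y' hy'.2]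
      simp
    have h5 : y = (y' ⬝ᵥ y) • y' := by
      ext l
      have h6 := congrFun hc l
      rw [← h4] at h6
      simp only [cx, Pi.smul_apply, smul_eq_mul] at h6
      exact_mod_cast h6
    have h6 := h1 y' hy'.1 y hy.1
    generalize y' ⬝ᵥ y = r at h5 h6
    have h7 := hn y hy.2
    rw [h5, smul_dotProduct, dotProduct_smul, hn y' hy'.2, smul_eq_mul, smul_eq_mul] at h7
    have h8 : r = 1 := by nlinarith
    rw [h5, h8, one_smul]
  have h0 : AccPt 0 (𝓟 (Z '' (V ∩ S))) := by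
    have h4 : ContinuousAt Z (Pi.single 0 1) := continuousAt_pi.2 fun i =>
      Complex.continuous_ofReal.continuousAt.comp
        ((continuous_apply _).continuousAt.div (continuous_apply _).continuousAt (by simp))
    have h5 : Z (Pi.single 0 1) = 0 := by
      ext i
      simp [Z]
    rw [accPt_iff_frequently] at hacc ⊢
    refine (h5 ▸ h4.tendsto).frequently (hacc.mono fun y hy => ⟨fun h6 => hy.1 ?_, y, hy.2, rfl⟩)
    have h7 := h2 y hy.2.1
    have h8 : ∀ i : Fin (d + 1), y i.succ = 0 := fun i => by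
      simpa [Z, h7.ne'] using congrFun h6 i
    have h9 := hn y hy.2.2
    rw [dotProduct, Fin.sum_univ_succ] at h9
    simp only [h8, mul_zero, Finset.sum_const_zero, add_zero] at h9
    ext i
    refine Fin.cases ?_ (fun i => ?_) i
    · rw [Pi.single_eq_same]
      nlinarith
    · simp [h8]
  obtain ⟨E, hE1, hE2, hE3, hE4⟩ := curve_of_psd hI hP hd hk hmk hco hT h0 fun ρ => by
    obtain ⟨N, b, hb⟩ := finite_rank (X := {y // y ∈ V ∩ S ∧ ‖Z y‖ ≤ ρ})
      (K := fun x y => |x.1 ⬝ᵥ y.1| ^ p) (fun x y => by rw [dotProduct_comm]) Set.univ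
      (fun ι _ x a _ => hS ι (fun i => (x i).1) a fun i => (x i).2.1.2) _ fun b => by
        simpa [PiLp.inner_apply, dotProduct, mul_comm] using
          not_posDef (ι := Fin (d + 2)) (by omega) hmk fun i => WithLp.toLp 2 (b i).1
    refine ⟨N, fun i => Z (b i).1, fun i => ⟨⟨_, (b i).2.1, rfl⟩, (b i).2.2⟩, ?_⟩
    rintro _ ⟨y, hy, rfl⟩ hy'
    obtain ⟨c, hc⟩ := hb ⟨y, hy, hy'⟩ (Set.mem_univ _)
    refine ⟨fun i => ((c i * (y 0)⁻¹ ^ p / ((b i).1 0)⁻¹ ^ p : ℝ) : ℂ), ?_⟩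
    rintro _ ⟨x, hx, rfl⟩ hx'
    have h4 := hc ⟨x, hx, hx'⟩ (Set.mem_univ _)
    simp only [h3 x hx.1 y hy.1, fun i => h3 x hx.1 _ (b i).2.1.1, ← Complex.ofReal_mul,
      ← Complex.ofReal_sum]
    congr 1
    rw [dotProduct_comm, h4, Finset.mul_sum]
    refine Finset.sum_congr rfl fun i _ => ?_
    have h5 := (Real.rpow_pos_of_pos (inv_pos.2 (h2 _ (b i).2.1.1)) p).ne'
    rw [dotProduct_comm x]
    generalize ((b i).1 0)⁻¹ ^ p = u at h5 ⊢
    generalize (x 0)⁻¹ ^ p = v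
    generalize (y 0)⁻¹ ^ p = w
    field_simp
  refine veronese_slice (m := d + 1) (by omega) (Set.inter_subset_right.trans hSP)
    (Set.Infinite.of_accPt hacc) hinj (fun x hx y hy => (h1 x hx.1 y hy.1).ne')
    (fun x hx => hEL x hx.2) hE1 hE2 (fun η hη => ?_)
    fun a b a' b' hq => hE4 a b a' b' ?_
  · have h4 : ∀ y ∈ V, ∑ i, cx η i * hom (Z y) i = (((y 0)⁻¹ * (y ⬝ᵥ η) : ℝ) : ℂ) := fun y hy => by
      rw [hZ y hy, hcx, Complex.ofReal_mul]
    have h5 : ∀ y ∈ V, ‖∑ i, cx η i * hom (Z y) i‖ ^ p = (y 0)⁻¹ ^ p * |y ⬝ᵥ η| ^ p :=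
      fun y hy => by
        have h6 := (inv_pos.2 (h2 y hy)).le
        rw [h4 y hy, Complex.norm_real, Real.norm_eq_abs, abs_mul, abs_of_nonneg h6,
          Real.mul_rpow h6 (abs_nonneg _)]
    refine hE3 (cx η) (fun z => ((‖∑ i, cx η i * hom z i‖ ^ p : ℝ) : ℂ)) (Psd.image ?_) ?_
    · refine (((hsch η hη).mul fun y => (((y 0)⁻¹ ^ p : ℝ) : ℂ)).mono
        Set.inter_subset_right).congr fun x hx y hy => ?_
      rw [h3 x hx.1 y hy.1, h5 x hx.1, h5 y hy.1]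
      simp only [Complex.conj_ofReal, Complex.ofReal_mul, map_mul]
      ring
    · rintro _ ⟨y, hy, rfl⟩
      have e2 : p * ((2 * (d + 1) : ℕ) : ℝ) = ((2 * k : ℕ) : ℝ) := by
        push_cast at hmk ⊢
        linarith
      rw [h4 y hy.1, Complex.norm_real, ← Complex.ofReal_pow, ← Complex.ofReal_pow,
        ← Real.rpow_natCast, ← Real.rpow_mul (norm_nonneg _), e2, Real.rpow_natCast,
        Real.norm_eq_abs, (even_two_mul k).pow_abs]
  · rintro _ ⟨y, hy, rfl⟩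
    simp only [hZ y hy.1]
    rw [mul_mul_mul_comm, hq y hy, mul_mul_mul_comm]

end Pool.Agent.Lib.MP_078bb2_an
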