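import Mathlib
import Pool.Agent.Lib.MP_078bb2_an.Slice0
import Pool.Agent.Lib.MP_078bb2_an.Null
import Pool.Agent.Lib.MP_078bb2_an.Bridge2

set_option autoImplicit false

namespace Pool.Agent.Lib.MP_078bb2_an

open MeasureTheory Metric Filter Topology ComplexConjugate

variable {ι : Type} [Fintype ι] {e m k : ℕ} {p : ℝ}

/-- Coordinates on a subspace, adapted to a unit vector of it. -/
theorem slice_coord {E : Submodule ℝ (EuclideanSpace ℝ ι)} (hE : Module.finrank ℝ E = e + 1)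
    {a : EuclideanSpace ℝ ι} (ha : a ∈ E) (h1 : ‖a‖ = 1) :
    ∃ b : Fin (e + 1) → EuclideanSpace ℝ ι, b 0 = a ∧ Orthonormal ℝ b ∧
      ∀ x ∈ E, x = ∑ i, inner ℝ (b i) x • b i := by
  obtain ⟨b, hb⟩ := Orthonormal.exists_orthonormalBasis_extension_of_card_eq (𝕜 := ℝ) (E := E)
    (ι := Fin (e + 1)) (v := fun _ => ⟨a, ha⟩) (s := {0}) (by simp [hE]) (by
      rw [orthonormal_subsingleton_iff]
      intro i
      simpa using h1)
  refine ⟨fun i => (b i).1, congrArg Subtype.val (hb 0 rfl),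
    b.orthonormal.comp_linearIsometry E.subtypeₗᵢ, fun x hx => ?_⟩
  simpa using congrArg Subtype.val (b.sum_repr' ⟨x, hx⟩).symm

theorem slice_dot {b : Fin (e + 1) → EuclideanSpace ℝ ι} {x : EuclideanSpace ℝ ι}
    (hx : x = ∑ i, inner ℝ (b i) x • b i) (y : EuclideanSpace ℝ ι) :
    (fun i => inner ℝ (b i) x) ⬝ᵥ (fun i => inner ℝ (b i) y) = inner ℝ x y := by
  conv_rhs => rw [hx, sum_inner]
  simp only [real_inner_smul_left, dotProduct]

/-- Slices of the support when no small multiple of the exponent is an integer. -/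
theorem slice_gen (hp0 : 0 < p) (h : ∀ m k : ℕ, 1 ≤ m → m ≤ e → (m : ℝ) * p ≠ k)
    (μ : Measure (sphere (0 : EuclideanSpace ℝ ι) 1)) [IsProbabilityMeasure μ]
    (hmin : IsMinim (fun x y : sphere (0 : EuclideanSpace ℝ ι) 1 => |inner ℝ x.1 y.1| ^ p) μ)
    {E : Submodule ℝ (EuclideanSpace ℝ ι)} (hE : Module.finrank ℝ E = e + 1) :
    {x ∈ μ.support | x.1 ∈ E}.Finite := by
  by_contra hinf
  obtain ⟨a, -, ha⟩ := Set.Infinite.nonempty hinf
  obtain ⟨b, -, -, hb⟩ := slice_coord hE ha (norm_eq_of_mem_sphere a)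
  let φ : sphere (0 : EuclideanSpace ℝ ι) 1 → EuclideanSpace ℝ (Fin (e + 1)) := fun y =>
    WithLp.toLp 2 fun i => inner ℝ (b i) y.1
  have hφ : ∀ x y : sphere (0 : EuclideanSpace ℝ ι) 1, x.1 ∈ E →
      inner ℝ (φ x) (φ y) = inner ℝ x.1 y.1 := fun x y hx => by
    rw [← slice_dot (hb _ hx), dotProduct_comm]
    simp [φ, PiLp.inner_apply, dotProduct]
  have h1 := finite_of_psd' (ptFin_of_forall hp0 h)
    (S := Subtype.val ⁻¹' (φ '' {x ∈ μ.support | x.1 ∈ E})) fun κ _ x c hx => by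
      choose y hy hyx using hx
      simp only [← hyx, fun i j => hφ (y i) (y j) (hy i).2]
      exact psd_support (μ := μ) (Continuous.rpow_const (by fun_prop) fun _ => Or.inr hp0.le)
        (fun x y => by positivity) hmin y c fun i => (hy i).1
  refine hinf (Set.Finite.of_finite_image (f := φ) ((h1.image Subtype.val).subset ?_) ?_)
  · rintro _ ⟨x, hx, rfl⟩
    refine ⟨⟨φ x, ?_⟩, ⟨x, hx, rfl⟩, rfl⟩
    have h2 := hφ x x hx.2
    rw [real_inner_self_eq_norm_sq, real_inner_self_eq_norm_sq, norm_eq_of_mem_sphere] at h2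
    rw [mem_sphere_zero_iff_norm]
    nlinarith [norm_nonneg (φ x)]
  · intro x hx y hy hxy
    refine Subtype.ext ((hb _ hx.2).trans (Eq.trans ?_ (hb _ hy.2).symm))
    exact Finset.sum_congr rfl fun i _ => congrArg (· • b i) (congrArg (· i) hxy)

/-- Slices whose dimension exceeds the denominator of the exponent by one. -/
theorem slice_den (hd : 0 < e) (h2 : 2 ≤ p) (hmk : ((e + 1 : ℕ) : ℝ) * p = k)
    (hco : Nat.Coprime (e + 1) k)
    (μ : Measure (sphere (0 : EuclideanSpace ℝ ι) 1)) [IsProbabilityMeasure μ]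
    (hmin : IsMinim (fun x y : sphere (0 : EuclideanSpace ℝ ι) 1 => |inner ℝ x.1 y.1| ^ p) μ)
    {E : Submodule ℝ (EuclideanSpace ℝ ι)} (hE : Module.finrank ℝ E = e + 1 + 1) :
    {x ∈ μ.support | x.1 ∈ E}.Finite := by
  by_contra hinf
  obtain ⟨a, haE, ha⟩ := Set.Infinite.exists_accPt_of_subset_isCompact hinf
    (K := Subtype.val ⁻¹' (E : Set (EuclideanSpace ℝ ι)))
    (E.closed_of_finiteDimensional.preimage continuous_subtype_val).isCompact fun x hx => hx.2
  obtain ⟨b, hb0, hb, hbE⟩ := slice_coord hE haE (norm_eq_of_mem_sphere a)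
  let φ : EuclideanSpace ℝ ι → Fin (e + 2) → ℝ := fun y i => inner ℝ (b i) y
  have hφ : ∀ x ∈ E, ∀ y, φ x ⬝ᵥ φ y = inner ℝ x y := fun x hx => slice_dot (hbE x hx)
  have hp0 : 0 < p := by linarith
  have hk : 0 < k := by
    have : (0 : ℝ) < k := by rw [← hmk]; positivity
    exact_mod_cast this
  obtain ⟨hI, hP⟩ := fin_rat hp0 hmk hco e (by omega)
  have hS := fun (κ : Type) [Fintype κ] (y : κ → sphere (0 : EuclideanSpace ℝ ι) 1) c hy =>
    psd_support (μ := μ) (Continuous.rpow_const (by fun_prop) fun _ => Or.inr hp0.le)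
      (fun x y => by positivity) hmin y c hy
  refine slice_acc hI hP hd hk hmk hco (S := (fun y => φ y.1) '' {x ∈ μ.support | x.1 ∈ E}) ?_
    (fun κ _ x c hx => ?_) (P := (fun y => φ y.1) '' μ.support)
    (Set.image_mono fun x hx => hx.1) ?_ ?_ ?_
  · rintro _ ⟨y, hy, rfl⟩
    rw [hφ _ hy.2, real_inner_self_eq_norm_sq]
    simp
  · choose y hy hyx using hx
    simp only [← hyx, fun i j => hφ _ (hy i).2 (y j).1]
    exact hS κ y c fun i => (hy i).1
  · rintro _ ⟨y, hy, rfl⟩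
    have hK := psd_ofReal (K := fun x y : sphere (0 : EuclideanSpace ℝ ι) 1 =>
      |inner ℝ x.1 y.1| ^ p) (S := μ.support) hS
    refine Psd.image (((hK.schur hy
      (fun z _ => by rw [Complex.conj_ofReal, real_inner_comm]) one_pos (by simp)).mono
      fun x hx => hx.1).congr fun x hx z hz => ?_)
    simp only [hφ _ hx.2, hφ _ hz.2, Complex.ofReal_one, div_one]
  · rintro _ ⟨x, hx, rfl⟩ w hw h _ ⟨y, hy, rfl⟩
    have h3 : ∀ z, φ z ⬝ᵥ w = inner ℝ z (∑ i, w i • b i) := fun z => by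
      simp only [inner_sum, real_inner_smul_right, dotProduct, φ]
      exact Finset.sum_congr rfl fun i _ => by rw [real_inner_comm, mul_comm]
    simp only [hφ _ hx.2, h3] at hw ⊢
    exact euler_lagrange h2 μ hmin hx.1 hw
      (fun y hy => by simpa only [hφ _ hx.2, h3] using h _ ⟨y, hy, rfl⟩) y hy
  · have h3 : Continuous fun y : sphere (0 : EuclideanSpace ℝ ι) 1 => φ y.1 := by
      fun_prop
    have h4 : φ a.1 = Pi.single 0 1 := by
      ext i
      simp only [φ, ← hb0, orthonormal_iff_ite.1 hb, Pi.single_apply]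
    rw [accPt_iff_frequently] at ha ⊢
    refine (h3.tendsto' a _ h4).frequently (ha.mono fun y hy => ⟨fun h5 => hy.1 ?_, y, hy.2, rfl⟩)
    rw [← h4] at h5
    refine Subtype.ext ((hbE _ hy.2.2).trans (Eq.trans ?_ (hbE _ haE).symm))
    exact Finset.sum_congr rfl fun i _ => congrArg (· • b i) (congrFun h5 i)

/-- Great circles. -/
theorem slice_circle (hp0 : 0 < p) (hp : ∀ k : ℕ, p ≠ 2 * k) (hm : 1 ≤ m) (hmk : (m : ℝ) * p = k)
    (μ : Measure (sphere (0 : EuclideanSpace ℝ ι) 1)) [IsProbabilityMeasure μ]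
    (hmin : IsMinim (fun x y : sphere (0 : EuclideanSpace ℝ ι) 1 => |inner ℝ x.1 y.1| ^ p) μ)
    {E : Submodule ℝ (EuclideanSpace ℝ ι)} (hE : Module.finrank ℝ E = 1 + 1) :
    {x ∈ μ.support | x.1 ∈ E}.Finite := by
  by_contra hinf
  obtain ⟨a, -, ha⟩ := Set.Infinite.nonempty hinf
  obtain ⟨b, -, hb, hbE⟩ := slice_coord hE ha (norm_eq_of_mem_sphere a)
  obtain ⟨Q, h1, h2⟩ := null_rat hp0 hp hm hmk μ hmin
  obtain ⟨s, t, h3, h4⟩ := h2 (b 0) (b 1) (hb.1 0) (hb.1 1) (hb.2 (by simp))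
  have h5 : ∀ s t : ℝ, s ^ 2 + t ^ 2 = 1 → ∃ θ ∈ Set.Icc (-Real.pi) Real.pi,
      Real.cos θ = s ∧ Real.sin θ = t := fun s t h => by
    have e1 : ‖(⟨s, t⟩ : ℂ)‖ = 1 := by
      rw [Complex.norm_eq_sqrt_sq_add_sq, h, Real.sqrt_one]
    refine ⟨Complex.arg ⟨s, t⟩, Set.Ioc_subset_Icc_self (Complex.arg_mem_Ioc _), ?_, ?_⟩
    · rw [Complex.cos_arg (norm_ne_zero_iff.1 (by simp [e1])), e1, div_one]
    · rw [Complex.sin_arg, e1, div_one]
  let γ : ℝ → EuclideanSpace ℝ ι := fun θ => Real.cos θ • b 0 + Real.sin θ • b 1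
  have h6 : AnalyticOnNhd ℝ (fun θ => MvPolynomial.aeval (fun i => γ θ i) Q) Set.univ :=
    .aeval_mvPolynomial (fun i θ _ => by
      simp only [γ, PiLp.add_apply, PiLp.smul_apply, smul_eq_mul]
      fun_prop) Q
  have h7 : {θ ∈ Set.Icc (-Real.pi) Real.pi | MvPolynomial.aeval (fun i => γ θ i) Q = 0}.Infinite := by
    refine Set.Infinite.of_image γ ((Set.Infinite.image Subtype.val_injective.injOn hinf).mono ?_)
    rintro _ ⟨x, hx, rfl⟩
    have e1 := slice_dot (hbE _ hx.2) x.1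
    rw [real_inner_self_eq_norm_sq, norm_eq_of_mem_sphere, dotProduct, Fin.sum_univ_two, ← sq, ← sq,
      one_pow] at e1
    obtain ⟨θ, e2, e3, e4⟩ := h5 _ _ e1
    have e5 : γ θ = x.1 := by
      rw [hbE _ hx.2, Fin.sum_univ_two, ← e3, ← e4]
    exact ⟨θ, ⟨e2, by rw [e5]; exact h1 x hx.1⟩, e5⟩
  obtain ⟨θ₀, -, h8⟩ := h7.exists_accPt_of_subset_isCompact isCompact_Icc fun θ h => h.1
  have h9 := h6.eqOn_zero_of_preconnected_of_frequently_eq_zero isPreconnected_univ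
    (Set.mem_univ θ₀) ((accPt_iff_frequently_nhdsNE.1 h8).mono fun θ h => h.2)
  obtain ⟨θ, -, rfl, rfl⟩ := h5 s t h3
  exact h4 (h9 (Set.mem_univ θ))

end Pool.Agent.Lib.MP_078bb2_an
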