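import Pool.Agent.Lib.MP_078bb2_an.Richter

set_option autoImplicit false

namespace Pool.Agent.Lib.MP_078bb2_an

open MeasureTheory Metric Filter Topology

theorem frame_ge {n : ℕ} (μ : Measure (sphere (0 : EuclideanSpace ℝ (Fin (n + 1))) 1))
    [IsProbabilityMeasure μ] :
    1 / (n + 1 : ℝ) ≤ ∫ x, ∫ y, inner ℝ x.1 y.1 ^ 2 ∂μ ∂μ := by
  let M : Fin (n + 1) → Fin (n + 1) → ℝ := fun i j => ∫ y, y.1 i * y.1 j ∂μ
  have hl : ∀ c : Fin (n + 1) → Fin (n + 1) → ℝ,
      ∫ y, ∑ i, ∑ j, c i j * (y.1 i * y.1 j) ∂μ = ∑ i, ∑ j, c i j * M i j := by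
    intro c
    rw [integral_finsetSum _ fun i _ => integrable_cont (by fun_prop)]
    refine Finset.sum_congr rfl fun i _ => ?_
    rw [integral_finsetSum _ fun j _ => integrable_cont (by fun_prop)]
    exact Finset.sum_congr rfl fun j _ => integral_const_mul _ _
  have h1 : ∀ x : sphere (0 : EuclideanSpace ℝ (Fin (n + 1))) 1,
      ∫ y, inner ℝ x.1 y.1 ^ 2 ∂μ = ∑ i, ∑ j, M i j * (x.1 i * x.1 j) := by
    intro x
    have e : ∀ y : sphere (0 : EuclideanSpace ℝ (Fin (n + 1))) 1,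
        inner ℝ x.1 y.1 ^ 2 = ∑ i, ∑ j, (x.1 i * x.1 j) * (y.1 i * y.1 j) := fun y => by
      simp only [PiLp.inner_apply, RCLike.inner_apply, conj_trivial, sq, Finset.sum_mul_sum]
      exact Finset.sum_congr rfl fun i _ => Finset.sum_congr rfl fun j _ => by ring
    simp only [e, hl]
    exact Finset.sum_congr rfl fun i _ => Finset.sum_congr rfl fun j _ => mul_comm _ _
  simp only [h1, hl]
  have h2 : ∑ i, M i i = 1 := by
    rw [← integral_finsetSum _ fun i _ => integrable_cont (by fun_prop)]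
    have e : ∀ y : sphere (0 : EuclideanSpace ℝ (Fin (n + 1))) 1, ∑ i, y.1 i * y.1 i = 1 := by
      intro y
      have := EuclideanSpace.real_norm_sq_eq y.1
      simp only [norm_eq_of_mem_sphere, sq] at this
      linarith
    simp [e]
  have h3 := sq_sum_le_card_mul_sum_sq (s := Finset.univ) (f := fun i => M i i)
  rw [h2, Finset.card_univ, Fintype.card_fin] at h3
  have h4 : ∑ i, M i i ^ 2 ≤ ∑ i, ∑ j, M i j * M i j := Finset.sum_le_sum fun i _ => by
    rw [sq]
    exact Finset.single_le_sum (f := fun j => M i j * M i j) (fun j _ => mul_self_nonneg _)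
      (Finset.mem_univ i)
  rw [div_le_iff₀ (by positivity)]
  push_cast at h3
  nlinarith [Nat.cast_nonneg (α := ℝ) n]

/-- Finite support for exponents below two. -/
theorem finite_small {n : ℕ} {p : ℝ} (h0 : 0 < p) (h2 : p < 2)
    (μ : Measure (sphere (0 : EuclideanSpace ℝ (Fin (n + 1))) 1)) [IsProbabilityMeasure μ]
    (hmin : IsMinim (fun x y : sphere (0 : EuclideanSpace ℝ (Fin (n + 1))) 1 =>
      |inner ℝ x.1 y.1| ^ p) μ) : μ.support.Finite := by
  by_contra hinf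
  have hK : Continuous fun z : sphere (0 : EuclideanSpace ℝ (Fin (n + 1))) 1 ×
      sphere (0 : EuclideanSpace ℝ (Fin (n + 1))) 1 => |inner ℝ z.1.1 z.2.1| ^ p :=
    Continuous.rpow_const (by fun_prop) fun _ => Or.inr h0.le
  have hK2 : Continuous fun z : sphere (0 : EuclideanSpace ℝ (Fin (n + 1))) 1 ×
      sphere (0 : EuclideanSpace ℝ (Fin (n + 1))) 1 => inner ℝ z.1.1 z.2.1 ^ 2 := by fun_prop
  have hn : ∀ x : sphere (0 : EuclideanSpace ℝ (Fin (n + 1))) 1, ‖x.1‖ = 1 := fun x => by simp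
  let e : Fin (n + 1) → sphere (0 : EuclideanSpace ℝ (Fin (n + 1))) 1 :=
    fun i => ⟨EuclideanSpace.single i 1, by simp⟩
  let w : Fin (n + 1) → ℝ := fun _ => 1 / (n + 1 : ℝ)
  have hw : ∀ j, 0 ≤ w j := fun j => by positivity
  have hw1 : ∑ j, w j = 1 := by
    simp only [w, Finset.sum_const, Finset.card_univ, Fintype.card_fin, nsmul_eq_mul]
    push_cast
    field_simp
  have hν := atoms_prob e hw hw1
  have hE := hmin _ hν
  rw [integral_atoms e hw (pot_cont hK)] at hE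
  have e1 : ∀ i, ∫ y, |inner ℝ (e i).1 y.1| ^ p ∂atoms w e = 1 / (n + 1 : ℝ) := by
    intro i
    rw [integral_atoms e hw (g := fun y => |inner ℝ (e i).1 y.1| ^ p)
      (hK.comp (Continuous.prodMk_right (e i))),
      Finset.sum_eq_single i (fun j _ hj => by
        simp [e, EuclideanSpace.inner_single_left, hj.symm, Real.zero_rpow h0.ne'])
        (by simp)]
    simp [e, w]
  simp only [e1, ← Finset.sum_mul, hw1, one_mul] at hE
  have hle : ∀ x y : sphere (0 : EuclideanSpace ℝ (Fin (n + 1))) 1, |inner ℝ x.1 y.1| ≤ 1 :=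
    fun x y => (abs_real_inner_le_norm _ _).trans (by rw [hn, hn, mul_one])
  have hge : ∀ x y : sphere (0 : EuclideanSpace ℝ (Fin (n + 1))) 1,
      0 ≤ |inner ℝ x.1 y.1| ^ p - inner ℝ x.1 y.1 ^ 2 := fun x y => by
    rw [sub_nonneg, ← sq_abs, ← Real.rpow_natCast]
    exact Real.rpow_le_rpow_of_exponent_ge' (abs_nonneg _) (hle x y) h0.le (by simpa using h2.le)
  obtain ⟨c, hc⟩ : ∃ c, (μ.support ∩ ball c (1 / 2)).Infinite := by
    by_contra h
    push Not at h
    obtain ⟨t, -, ht, hcov⟩ := finite_cover_balls_of_compact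
      (isCompact_univ (X := sphere (0 : EuclideanSpace ℝ (Fin (n + 1))) 1)) (e := 1 / 2)
      (by norm_num)
    refine hinf ((ht.biUnion fun c _ => h c).subset fun x hx => ?_)
    obtain ⟨c, hc, h1⟩ := Set.mem_iUnion₂.1 (hcov (Set.mem_univ x))
    exact Set.mem_iUnion₂.2 ⟨c, hc, hx, h1⟩
  obtain ⟨x, hx, y, hy, hxy⟩ := hc.nontrivial
  have a1 : ‖x.1 - y.1‖ < 1 := by
    have := dist_triangle_right x y c
    have a2 : dist x c < 1 / 2 := hx.2
    have a3 : dist y c < 1 / 2 := hy.2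
    rw [← dist_eq_norm, ← Subtype.dist_eq]
    linarith
  have a2 := norm_sub_sq_real x.1 y.1
  rw [hn, hn] at a2
  have a3 : 0 < inner ℝ x.1 y.1 := by nlinarith [norm_nonneg (x.1 - y.1)]
  have a4 : inner ℝ x.1 y.1 < 1 := by
    have : 0 < ‖x.1 - y.1‖ := norm_pos_iff.2 (sub_ne_zero.2 fun h => hxy (Subtype.ext h))
    nlinarith
  have a5 : |inner ℝ x.1 y.1| ^ p - inner ℝ x.1 y.1 ^ 2 ≠ 0 := by
    rw [abs_of_pos a3, ← Real.rpow_natCast]
    exact (sub_pos.2 (Real.rpow_lt_rpow_of_exponent_gt a3 a4 (by simpa using h2))).ne'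
  have hK3 := hK.sub hK2
  have a6 := pos_of_mem_support (μ := μ) (hK3.comp (Continuous.prodMk_right x)) (hge x) hy.1 a5
  have a7 := pos_of_mem_support (μ := μ) (pot_cont (μ := μ)
    (K := fun x y => |inner ℝ x.1 y.1| ^ p - inner ℝ x.1 y.1 ^ 2) hK3)
    (fun x => integral_nonneg (hge x)) hx.1 a6.ne'
  have a8 : ∀ x : sphere (0 : EuclideanSpace ℝ (Fin (n + 1))) 1,
      ∫ y, (|inner ℝ x.1 y.1| ^ p - inner ℝ x.1 y.1 ^ 2) ∂μ =
      ∫ y, |inner ℝ x.1 y.1| ^ p ∂μ - ∫ y, inner ℝ x.1 y.1 ^ 2 ∂μ := fun x =>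
    integral_sub (integrable_cont (hK.comp (Continuous.prodMk_right x)))
      (integrable_cont (hK2.comp (Continuous.prodMk_right x)))
  simp only [a8] at a7
  rw [integral_sub (integrable_cont (pot_cont hK)) (integrable_cont (pot_cont hK2))] at a7
  linarith [frame_ge μ]

end Pool.Agent.Lib.MP_078bb2_an
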