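import Mathlib
import Pool.Agent.Lib.MP_078bb2_an.Defs
import Pool.Agent.Lib.MP_078bb2_an.Small
import Pool.Agent.Lib.MP_078bb2_an.Slice

set_option autoImplicit false

namespace Pool.Agent.Lib.MP_078bb2_an.SlicesAll

open MeasureTheory Pool.Agent.Lib.MP_078bb2_an

/-- If `p` is not an even integer and no multiple `m * p` with `1 ≤ m < e` is an integer, the
support of each minimiser of the `p`-frame energy on `S^d` meets each linear subspace of dimension
at most `e + 1` in a finite set. -/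
theorem result (d e : ℕ) (p : ℝ) (hp0 : 0 < p) (hp2 : ∀ k : ℕ, p ≠ 2 * k)
    (hp : ∀ m k : ℕ, 1 ≤ m → m < e → (m : ℝ) * p ≠ k)
    (μ : Measure (Metric.sphere (0 : EuclideanSpace ℝ (Fin (d + 1))) 1))
    (hmin : IsMinimizer p μ) (E : Submodule ℝ (EuclideanSpace ℝ (Fin (d + 1))))
    (hE : Module.finrank ℝ E ≤ e + 1) : {x ∈ μ.support | x.1 ∈ E}.Finite := by
  have := hmin.1
  rcases lt_or_ge p 2 with h2 | h2
  · exact (finite_small hp0 h2 μ hmin.2).subset fun x hx => hx.1
  rcases h0 : Module.finrank ℝ E with _ | r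
  · rw [Submodule.finrank_eq_zero.1 h0]
    refine Set.finite_empty.subset fun x hx => ?_
    have h1 := norm_eq_of_mem_sphere x
    rw [(Submodule.mem_bot ℝ).1 hx.2] at h1
    simp at h1
  by_cases h : ∀ m k : ℕ, 1 ≤ m → m ≤ r → (m : ℝ) * p ≠ k
  · exact slice_gen hp0 h μ hmin.2 h0
  push Not at h
  obtain ⟨m, k, hm, hmr, hmk⟩ := h
  have key : ∀ m k : ℕ, 1 ≤ m → m ≤ r → (m : ℝ) * p = k → m = r := fun m k h1 h3 h4 => by
    have h6 : ¬ m < e := fun h => hp m k h1 h h4
    omega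
  obtain rfl := key m k hm hmr hmk
  rcases hm.eq_or_lt with rfl | hd
  · exact slice_circle hp0 hp2 hm hmk μ hmin.2 h0
  have hco : Nat.Coprime m k := by
    obtain ⟨g, m', k', hg, hco, h1, h3⟩ := Nat.exists_coprime' (Nat.gcd_pos_of_pos_left k hm)
    have h4 : (m' : ℝ) * p = k' := by
      have h5 : (g : ℝ) ≠ 0 := by exact_mod_cast hg.ne'
      rw [h1, h3] at hmk
      push_cast at hmk
      exact mul_right_cancel₀ h5 (by linarith)
    have h5 : 1 ≤ m' := Nat.pos_of_ne_zero fun h => by simp [h] at h1; omega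
    have h6 := key m' k' h5 (h1 ▸ Nat.le_mul_of_pos_right _ hg) h4
    have h7 : g = 1 := by
      rw [h6] at h1
      exact ((Nat.mul_eq_left (by omega)).1 h1.symm)
    rw [h7, mul_one] at h1 h3
    rwa [h1, h3]
  obtain ⟨m, rfl⟩ : ∃ d, m = d + 1 := ⟨m - 1, by omega⟩
  exact slice_den (by omega) h2 hmk hco μ hmin.2 h0

end Pool.Agent.Lib.MP_078bb2_an.SlicesAll
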